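import Pool.Agent.Y964.LW.C1

/-! Relative frequencies along sparse multiplicative weights: rules. -/

set_option autoImplicit false

namespace Pool.Agent.Y964.LW

open Finset Filter Topology Pool.Agent.H320R2.PD Pool.Agent.H499R2.ND Pool.Agent.H499R2.CO
  Pool.Agent.W41.FU Pool.Agent.W41 Pool.Agent.Y964.SE
open scoped Classical

/-- relative law: all bounded multiplicative functions over all multiplicative majorants with many
primes see the property `P` with frequency `l` -/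
def RL (P : ℕ → Prop) (l : ℝ) : Prop := ∀ c : ℝ, 0 < c → ∀ (x0 : ℕ) (ε : ℝ), 0 < ε → ∃ N0 : ℕ, ∀ N : ℕ, N0 ≤ N →
    ∀ h : ℕ → ℝ, (∀ n, 0 ≤ h n) → (∀ n, h n ≤ 1) → h 1 = 1 →
    (∀ m n : ℕ, Nat.Coprime m n → h (m * n) = h m * h n) → HypD c x0 h →
    ∀ g : ℕ → ℂ, (∀ n, ‖g n‖ ≤ h n) → (∀ m n : ℕ, Nat.Coprime m n → g (m * n) = g m * g n) →
    ‖∑ n ∈ Icc 1 N, (if P n then g n else 0) - l * ∑ n ∈ Icc 1 N, g n‖ ≤ ε * ∑ n ∈ Icc 1 N, h n

theorem Fam.RL {s : ℤ} (hs : s = 1 ∨ s = -1) {R : ℕ} {ι : Type} (A : Fam s R ι) (i : ι) (x : ℝ) :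
    RL (fun n => A.E i (thr A.α A.σ x (Real.log n)) n) (A.F i x) := fun _ hc x0 _ hε => A.rel hs hc x0 i x hε

/-- the real case -/
theorem re_norm (P : ℕ → Prop) (a : ℝ) (h : ℕ → ℝ) (N : ℕ) :
    ‖∑ n ∈ Icc 1 N, (if P n then (h n : ℂ) else 0) - a * ∑ n ∈ Icc 1 N, (h n : ℂ)‖ =
      |∑ n ∈ Icc 1 N, (if P n then h n else 0) - a * ∑ n ∈ Icc 1 N, h n| := by
  rw [← Real.norm_eq_abs, ← Complex.norm_real]
  congr 1
  push_cast
  congr 1
  apply sum_congr rfl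
  intro n _
  split_ifs <;> simp

theorem re_h {h : ℕ → ℝ} (hh0 : ∀ n, 0 ≤ h n) : ∀ n, ‖((h n : ℝ) : ℂ)‖ ≤ h n := fun n => by
  rw [Complex.norm_real, Real.norm_eq_abs, abs_of_nonneg (hh0 n)]

theorem re_m {h : ℕ → ℝ} (hm : ∀ m n : ℕ, Nat.Coprime m n → h (m * n) = h m * h n) :
    ∀ m n : ℕ, Nat.Coprime m n → ((h (m * n) : ℝ) : ℂ) = (h m : ℂ) * (h n : ℂ) := fun m n hmn => by
  rw [hm m n hmn]; push_cast; rfl

/-- the sum of the weights is large -/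
theorem sum_large {c : ℝ} (hc : 0 < c) (x0 : ℕ) (C : ℝ) : ∃ N0 : ℕ, ∀ N : ℕ, N0 ≤ N →
    ∀ h : ℕ → ℝ, (∀ n, 0 ≤ h n) → HypD c x0 h → C ≤ ∑ n ∈ Icc 1 N, h n := by
  have t2 : Tendsto (fun N : ℕ => (N : ℝ) / Real.log N) atTop atTop := by
    have t3 : Tendsto (fun x : ℝ => x / Real.log x) atTop atTop := by
      have h1 := Real.isLittleO_log_id_atTop.tendsto_div_nhds_zero
      have h2 : Tendsto (fun x : ℝ => (Real.log x / x)⁻¹) atTop atTop := by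
        apply Tendsto.inv_tendsto_nhdsGT_zero
        rw [tendsto_nhdsWithin_iff]
        refine ⟨h1, ?_⟩
        filter_upwards [eventually_gt_atTop 1] with x hx
        exact div_pos (Real.log_pos hx) (by linarith)
      refine h2.congr fun x => ?_
      rw [inv_div]
    exact t3.comp tendsto_natCast_atTop_atTop
  obtain ⟨N1, hN1⟩ := eventually_atTop.1 (t2.eventually_ge_atTop (C / c))
  refine ⟨max N1 x0, fun N hN h h0 hyp => ?_⟩
  have h1 := hN1 N ((le_max_left _ _).trans hN)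
  rw [div_le_iff₀ hc] at h1
  have h2 := hyp N ((le_max_right _ _).trans hN)
  have h3 : ∑ p ∈ PN N, h p ≤ ∑ n ∈ Icc 1 N, h n := by
    apply sum_le_sum_of_subset_of_nonneg
    · intro p hp
      rw [mem_PN] at hp
      rw [mem_Icc]
      exact ⟨hp.2.one_lt.le, hp.1⟩
    · intro n _ _; exact h0 n
  linarith

/-- change of the property: squeeze by approximations which hold for all large `n` -/
theorem RL_squeeze {Q : ℕ → Prop} {l : ℝ} (H : ∀ η : ℝ, 0 < η → ∃ (P R : ℕ → Prop) (l1 l2 : ℝ) (n0 : ℕ),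
    (∀ n, n0 ≤ n → P n → Q n) ∧ (∀ n, n0 ≤ n → Q n → R n) ∧ RL P l1 ∧ RL R l2 ∧ l1 ≤ l ∧ l ≤ l2 ∧ l2 - l1 ≤ η) :
    RL Q l := by
  intro c hc x0 ε hε
  obtain ⟨P, R, l1, l2, n0, h1, h2, h3, h4, h5, h6, h7⟩ := H (ε / 8) (by positivity)
  obtain ⟨N1, k1⟩ := h3 c hc x0 (ε / 8) (by positivity)
  obtain ⟨N2, k2⟩ := h4 c hc x0 (ε / 8) (by positivity)
  obtain ⟨N3, k3⟩ := sum_large hc x0 (4 * (n0 + 1) * (1 / (ε / 8)))
  refine ⟨max N1 (max N2 N3), fun N hN h hh0 hh1 hh hm hyp g hg hgm => ?_⟩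
  have hN1 : N1 ≤ N := (le_max_left _ _).trans hN
  have hN2 : N2 ≤ N := ((le_max_left _ _).trans (le_max_right _ _)).trans hN
  have hN3 : N3 ≤ N := ((le_max_right _ _).trans (le_max_right _ _)).trans hN
  have f1 := k1 N hN1 h hh0 hh1 hh hm hyp g hg hgm
  have f2 := k1 N hN1 h hh0 hh1 hh hm hyp (fun n => (h n : ℂ)) (re_h hh0) (re_m hm)
  have f3 := k2 N hN2 h hh0 hh1 hh hm hyp (fun n => (h n : ℂ)) (re_h hh0) (re_m hm)
  rw [re_norm] at f2 f3
  have f4 := k3 N hN3 h hh0 hyp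
  set H := ∑ n ∈ Icc 1 N, h n with hH
  have hH0 : 0 ≤ H := sum_nonneg fun n _ => hh0 n
  have hsmall : (4 : ℝ) * (n0 + 1) ≤ ε / 8 * H := by
    have : 4 * ((n0 : ℝ) + 1) * (1 / (ε / 8)) * (ε / 8) ≤ H * (ε / 8) := mul_le_mul_of_nonneg_right f4 (by positivity)
    have e : 4 * ((n0 : ℝ) + 1) * (1 / (ε / 8)) * (ε / 8) = 4 * (n0 + 1) := by field_simp
    linarith
  -- the pointwise bound
  have key : ‖∑ n ∈ Icc 1 N, (if Q n then g n else 0) - ∑ n ∈ Icc 1 N, (if P n then g n else 0)‖ ≤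
      (∑ n ∈ Icc 1 N, (if R n then h n else 0) - ∑ n ∈ Icc 1 N, (if P n then h n else 0)) +
      ∑ n ∈ Icc 1 N, (if n < n0 then (4 : ℝ) else 0) := by
    rw [← sum_sub_distrib, ← sum_sub_distrib, ← sum_add_distrib]
    refine (norm_sum_le _ _).trans (sum_le_sum fun n hn => ?_)
    have hgn := hg n
    have a0 := hh0 n
    have a1 := hh1 n
    by_cases hs : n < n0
    · rw [if_pos hs]
      have b1 : ‖(if Q n then g n else 0) - (if P n then g n else 0)‖ ≤ 2 := by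
        refine (norm_sub_le _ _).trans ?_
        have : ‖(if Q n then g n else 0)‖ ≤ 1 := by
          split_ifs
          · linarith
          · simp
        have : ‖(if P n then g n else 0)‖ ≤ 1 := by
          split_ifs
          · linarith
          · simp
        linarith
      have b2 : -1 ≤ (if R n then h n else 0) - (if P n then h n else 0) := by
        split_ifs <;> linarith
      linarith
    · rw [if_neg hs, add_zero]
      push Not at hs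
      have c1 := h1 n hs
      have c2 := h2 n hs
      by_cases hP : P n
      · rw [if_pos hP, if_pos hP, if_pos (c1 hP), if_pos (c2 (c1 hP)), sub_self, norm_zero, sub_self]
      · rw [if_neg hP, if_neg hP, sub_zero, sub_zero]
        by_cases hQ : Q n
        · rw [if_pos hQ, if_pos (c2 hQ)]; exact hgn
        · rw [if_neg hQ, norm_zero]
          split_ifs
          · exact a0
          · exact le_rfl
  have hlow : ∑ n ∈ Icc 1 N, (if n < n0 then (4 : ℝ) else 0) ≤ 4 * (n0 + 1) := by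
    rw [← sum_filter, sum_const, nsmul_eq_mul, mul_comm]
    have hc : (((Icc 1 N).filter (fun n => n < n0)).card : ℝ) ≤ n0 := by
      have : ((Icc 1 N).filter (fun n => n < n0)).card ≤ (range n0).card := by
        apply card_le_card
        intro n hn
        rw [mem_filter] at hn
        exact mem_range.2 hn.2
      rw [card_range] at this
      exact_mod_cast this
    linarith
  obtain ⟨u1, u2⟩ := abs_le.1 f2
  obtain ⟨u3, u4⟩ := abs_le.1 f3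
  have g1 : ‖((l1 - l : ℝ) : ℂ) * ∑ n ∈ Icc 1 N, g n‖ ≤ ε / 8 * H := by
    rw [norm_mul, Complex.norm_real, Real.norm_eq_abs]
    have g2 : ‖∑ n ∈ Icc 1 N, g n‖ ≤ H := (norm_sum_le _ _).trans (sum_le_sum fun n _ => hg n)
    have g3 : |l1 - l| ≤ ε / 8 := by rw [abs_le]; constructor <;> linarith
    exact mul_le_mul g3 g2 (norm_nonneg _) (by positivity)
  have e : ∑ n ∈ Icc 1 N, (if Q n then g n else 0) - l * ∑ n ∈ Icc 1 N, g n =
      (∑ n ∈ Icc 1 N, (if Q n then g n else 0) - ∑ n ∈ Icc 1 N, (if P n then g n else 0)) +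
      (∑ n ∈ Icc 1 N, (if P n then g n else 0) - l1 * ∑ n ∈ Icc 1 N, g n) +
      ((l1 - l : ℝ) : ℂ) * ∑ n ∈ Icc 1 N, g n := by push_cast; ring
  rw [e]
  refine (norm_add₃_le).trans ?_
  have h9 : (l2 - l1) * H ≤ ε / 8 * H := mul_le_mul_of_nonneg_right h7 hH0
  have h10 : 0 ≤ ε / 8 * H := by positivity
  linarith

theorem RL_congr {P Q : ℕ → Prop} {l : ℝ} (n0 : ℕ) (h : ∀ n, n0 ≤ n → (P n ↔ Q n)) (H : RL P l) : RL Q l :=
  RL_squeeze fun η hη => ⟨P, P, l, l, n0, fun n hn => (h n hn).1, fun n hn => (h n hn).2, H, H, le_rfl, le_rfl, by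
    linarith⟩

theorem RL_or {P Q R : ℕ → Prop} {l l' : ℝ} (hP : RL P l) (hQ : RL Q l') (hd : ∀ n, P n → ¬ Q n)
    (hR : ∀ n, R n ↔ P n ∨ Q n) : RL R (l + l') := by
  intro c hc x0 ε hε
  obtain ⟨N1, k1⟩ := hP c hc x0 (ε / 2) (by positivity)
  obtain ⟨N2, k2⟩ := hQ c hc x0 (ε / 2) (by positivity)
  refine ⟨max N1 N2, fun N hN h hh0 hh1 hh hm hyp g hg hgm => ?_⟩
  have f1 := k1 N ((le_max_left _ _).trans hN) h hh0 hh1 hh hm hyp g hg hgm
  have f2 := k2 N ((le_max_right _ _).trans hN) h hh0 hh1 hh hm hyp g hg hgm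
  have e : ∑ n ∈ Icc 1 N, (if R n then g n else 0) =
      ∑ n ∈ Icc 1 N, (if P n then g n else 0) + ∑ n ∈ Icc 1 N, (if Q n then g n else 0) := by
    rw [← sum_add_distrib]
    apply sum_congr rfl
    intro n _
    by_cases h1 : P n
    · rw [if_pos ((hR n).2 (Or.inl h1)), if_pos h1, if_neg (hd n h1), add_zero]
    · by_cases h2 : Q n
      · rw [if_pos ((hR n).2 (Or.inr h2)), if_neg h1, if_pos h2, zero_add]
      · rw [if_neg (fun h3 => by have := (hR n).1 h3; tauto), if_neg h1, if_neg h2, add_zero]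
  rw [e]
  have e2 : ∑ n ∈ Icc 1 N, (if P n then g n else 0) + ∑ n ∈ Icc 1 N, (if Q n then g n else 0) -
      ((l + l' : ℝ) : ℂ) * ∑ n ∈ Icc 1 N, g n =
      (∑ n ∈ Icc 1 N, (if P n then g n else 0) - l * ∑ n ∈ Icc 1 N, g n) +
      (∑ n ∈ Icc 1 N, (if Q n then g n else 0) - l' * ∑ n ∈ Icc 1 N, g n) := by push_cast; ring
  rw [e2]
  refine (norm_add_le _ _).trans ?_
  have : ε * ∑ n ∈ Icc 1 N, h n = ε / 2 * ∑ n ∈ Icc 1 N, h n + ε / 2 * ∑ n ∈ Icc 1 N, h n := by ring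
  linarith

theorem RL_diff {P Q R : ℕ → Prop} {l l' : ℝ} (hP : RL P l) (hQ : RL Q l') (hd : ∀ n, P n → Q n)
    (hR : ∀ n, R n ↔ Q n ∧ ¬ P n) : RL R (l' - l) := by
  intro c hc x0 ε hε
  obtain ⟨N1, k1⟩ := hP c hc x0 (ε / 2) (by positivity)
  obtain ⟨N2, k2⟩ := hQ c hc x0 (ε / 2) (by positivity)
  refine ⟨max N1 N2, fun N hN h hh0 hh1 hh hm hyp g hg hgm => ?_⟩
  have f1 := k1 N ((le_max_left _ _).trans hN) h hh0 hh1 hh hm hyp g hg hgm
  have f2 := k2 N ((le_max_right _ _).trans hN) h hh0 hh1 hh hm hyp g hg hgm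
  have e : ∑ n ∈ Icc 1 N, (if R n then g n else 0) =
      ∑ n ∈ Icc 1 N, (if Q n then g n else 0) - ∑ n ∈ Icc 1 N, (if P n then g n else 0) := by
    rw [← sum_sub_distrib]
    apply sum_congr rfl
    intro n _
    by_cases h1 : P n
    · rw [if_neg (fun h3 => ((hR n).1 h3).2 h1), if_pos (hd n h1), if_pos h1, sub_self]
    · by_cases h2 : Q n
      · rw [if_pos ((hR n).2 ⟨h2, h1⟩), if_pos h2, if_neg h1, sub_zero]
      · rw [if_neg (fun h3 => h2 ((hR n).1 h3).1), if_neg h2, if_neg h1, sub_zero]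
  rw [e]
  have e2 : ∑ n ∈ Icc 1 N, (if Q n then g n else 0) - ∑ n ∈ Icc 1 N, (if P n then g n else 0) -
      ((l' - l : ℝ) : ℂ) * ∑ n ∈ Icc 1 N, g n =
      (∑ n ∈ Icc 1 N, (if Q n then g n else 0) - l' * ∑ n ∈ Icc 1 N, g n) -
      (∑ n ∈ Icc 1 N, (if P n then g n else 0) - l * ∑ n ∈ Icc 1 N, g n) := by push_cast; ring
  rw [e2]
  refine (norm_sub_le _ _).trans ?_
  have : ε * ∑ n ∈ Icc 1 N, h n = ε / 2 * ∑ n ∈ Icc 1 N, h n + ε / 2 * ∑ n ∈ Icc 1 N, h n := by ring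
  linarith

theorem RL_true {R : ℕ → Prop} (hR : ∀ n, R n) : RL R 1 := by
  intro c hc x0 ε hε
  refine ⟨0, fun N hN h hh0 hh1 hh hm hyp g hg hgm => ?_⟩
  simp only [hR, if_true]
  rw [Complex.ofReal_one, one_mul, sub_self, norm_zero]
  exact mul_nonneg hε.le (sum_nonneg fun n _ => hh0 n)

theorem RL_not {P R : ℕ → Prop} {l : ℝ} (hP : RL P l) (hR : ∀ n, R n ↔ ¬ P n) : RL R (1 - l) :=
  RL_diff hP (RL_true (R := fun _ => True) (fun _ => trivial)) (fun _ _ => trivial) (fun n => by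
    rw [hR n, true_and])

/-- the form for multiplicative sets -/
theorem RL_set {P : ℕ → Prop} {l : ℝ} (hP : RL P l) {c : ℝ} (hc : 0 < c) (x0 : ℕ) {ε : ℝ} (hε : 0 < ε) :
    ∃ N0 : ℕ, ∀ N : ℕ, N0 ≤ N → ∀ E : Set ℕ, 0 ∉ E → 1 ∈ E →
      (∀ m n : ℕ, Nat.Coprime m n → (m * n ∈ E ↔ m ∈ E ∧ n ∈ E)) →
      (∀ x : ℕ, x0 ≤ x → c * (x / Real.log x) ≤ ({p : ℕ | p.Prime ∧ p ≤ x ∧ p ∈ E}.ncard : ℝ)) →
      |({n : ℕ | n ≤ N ∧ n ∈ E ∧ P n}.ncard : ℝ) - l * {n : ℕ | n ≤ N ∧ n ∈ E}.ncard| ≤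
        ε * {n : ℕ | n ≤ N ∧ n ∈ E}.ncard := by
  obtain ⟨N0, h0⟩ := hP c hc x0 ε hε
  refine ⟨N0, fun N hN E hE0 hE1 hE hp => ?_⟩
  set h : ℕ → ℝ := fun n => if n ∈ E then 1 else 0 with hh
  have h00 : ∀ n, 0 ≤ h n := fun n => by simp only [hh]; split_ifs <;> norm_num
  have h11 : ∀ n, h n ≤ 1 := fun n => by simp only [hh]; split_ifs <;> norm_num
  have hmul : ∀ m n : ℕ, Nat.Coprime m n → h (m * n) = h m * h n := by
    intro m n hmn
    simp only [hh]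
    have h1 := hE m n hmn
    by_cases hm : m ∈ E
    · by_cases hn : n ∈ E
      · rw [if_pos (h1.2 ⟨hm, hn⟩), if_pos hm, if_pos hn, mul_one]
      · rw [if_neg (fun h2 => hn (h1.1 h2).2), if_neg hn, mul_zero]
    · rw [if_neg (fun h2 => hm (h1.1 h2).1), if_neg hm, zero_mul]
  have hyp : HypD c x0 h := by
    intro x hx
    refine (hp x hx).trans (le_of_eq ?_)
    have e : {p : ℕ | p.Prime ∧ p ≤ x ∧ p ∈ E} = ((PN x).filter (fun p => p ∈ E) : Finset ℕ) := by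
      ext p
      rw [mem_coe, mem_filter, mem_PN]
      simp only [Set.mem_ofPred_eq]
      tauto
    rw [e, Set.ncard_coe_finset, card_filter]
    push_cast
    rfl
  have h1 := h0 N hN h h00 h11 (by simp only [hh]; rw [if_pos hE1]) hmul hyp
    (fun n => (h n : ℂ)) (re_h h00) (re_m hmul)
  rw [re_norm] at h1
  have e1 : ∀ Q : ℕ → Prop, ({n : ℕ | n ≤ N ∧ n ∈ E ∧ Q n}.ncard : ℝ) = ∑ n ∈ Icc 1 N, (if Q n then h n else 0) := by
    intro Q
    have e : {n : ℕ | n ≤ N ∧ n ∈ E ∧ Q n} =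
        (((Icc 1 N).filter Q).filter (fun n => n ∈ E) : Finset ℕ) := by
      ext n
      rw [mem_coe, mem_filter, mem_filter, mem_Icc]
      simp only [Set.mem_ofPred_eq]
      constructor
      · rintro ⟨h1, h2, h3⟩
        refine ⟨⟨⟨?_, h1⟩, h3⟩, h2⟩
        rcases Nat.eq_zero_or_pos n with h | h
        · rw [h] at h2; exact absurd h2 hE0
        · exact h
      · rintro ⟨⟨⟨_, h1⟩, h3⟩, h2⟩; exact ⟨h1, h2, h3⟩
    rw [e, Set.ncard_coe_finset, card_filter]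
    push_cast
    rw [sum_filter]
  have e2 : ({n : ℕ | n ≤ N ∧ n ∈ E}.ncard : ℝ) = ∑ n ∈ Icc 1 N, h n := by
    have := e1 (fun _ => True)
    simpa using this
  rw [e1, e2]
  exact h1

/-- the relative density in one set -/
theorem RL_lim {P : ℕ → Prop} {l : ℝ} (hP : RL P l) {c : ℝ} (hc : 0 < c) (x0 : ℕ) {E : Set ℕ} (hE0 : 0 ∉ E)
    (hE1 : 1 ∈ E) (hE : ∀ m n : ℕ, Nat.Coprime m n → (m * n ∈ E ↔ m ∈ E ∧ n ∈ E))
    (hp : ∀ x : ℕ, x0 ≤ x → c * (x / Real.log x) ≤ ({p : ℕ | p.Prime ∧ p ≤ x ∧ p ∈ E}.ncard : ℝ)) :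
    Tendsto (fun N : ℕ => ({n : ℕ | n ≤ N ∧ n ∈ E ∧ P n}.ncard : ℝ) / {n : ℕ | n ≤ N ∧ n ∈ E}.ncard)
      atTop (𝓝 l) := by
  rw [Metric.tendsto_atTop]
  intro ε hε
  obtain ⟨N0, h0⟩ := RL_set hP hc x0 (show 0 < ε / 2 by positivity)
  refine ⟨N0 + 1, fun N hN => ?_⟩
  have h1 := h0 N (by omega) E hE0 hE1 hE hp
  have hpos : (0 : ℝ) < {n : ℕ | n ≤ N ∧ n ∈ E}.ncard := by
    have : 0 < {n : ℕ | n ≤ N ∧ n ∈ E}.ncard := by
      rw [Set.ncard_pos ((Set.finite_le_nat N).subset fun p hp => hp.1)]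
      exact ⟨1, by omega, hE1⟩
    exact_mod_cast this
  rw [Real.dist_eq]
  have e : ({n : ℕ | n ≤ N ∧ n ∈ E ∧ P n}.ncard : ℝ) / {n : ℕ | n ≤ N ∧ n ∈ E}.ncard - l =
      (({n : ℕ | n ≤ N ∧ n ∈ E ∧ P n}.ncard : ℝ) - l * {n : ℕ | n ≤ N ∧ n ∈ E}.ncard) /
        {n : ℕ | n ≤ N ∧ n ∈ E}.ncard := by
    field_simp
  rw [e, abs_div, abs_of_pos hpos, div_lt_iff₀ hpos]
  refine lt_of_le_of_lt h1 ?_
  exact mul_lt_mul_of_pos_right (by linarith) hpos

end Pool.Agent.Y964.LW
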