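import Mathlib
import Pool.Agent.Y964.LW.C2
import Pool.Agent.Y964.SE.Ex

/-! Relative laws in residue classes; multiplicative sets. -/

set_option autoImplicit false

namespace Pool.Agent.Y964.LW

open Finset Filter Topology Pool.Agent.W41.FU Pool.Agent.W41 Pool.Agent.Y964.SE
open scoped Classical

/-- the relative law, in residue classes -/
def Rel (P : ℕ → Prop) (l : ℝ) : Prop := ∀ (c : ℝ) (x₀ : ℕ) (ε : ℝ) (Q r : ℕ), 0 < c → 0 < ε →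
    1 ≤ Q → r.Coprime Q → ∃ N₀ : ℕ, ∀ N : ℕ, N₀ ≤ N → ∀ h : ArithmeticFunction ℝ, h.IsMultiplicative →
      (∀ n, 0 ≤ h n ∧ h n ≤ 1) →
      (∀ x : ℕ, x₀ ≤ x → c * (x / Real.log x) ≤ ∑ p ∈ (Icc 1 x).filter Nat.Prime, h p) →
      ∀ g : ArithmeticFunction ℂ, g.IsMultiplicative → (∀ n, ‖g n‖ ≤ h n) →
      ‖∑ n ∈ (Icc 1 N).filter (fun n => n % Q = r % Q ∧ P n), g n -
        l * ∑ n ∈ (Icc 1 N).filter (fun n => n % Q = r % Q), g n‖ ≤ ε * ∑ n ∈ Icc 1 N, h n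

theorem RL_full {P : ℕ → Prop} {l : ℝ} (hP : RL P l) : Rel P l := by
  intro c x₀ ε Q r hc hε hQ hr
  have : NeZero Q := ⟨by omega⟩
  set K : ℝ := (Fintype.card (DirichletCharacter ℂ Q) : ℝ) with hK
  have hK0 : 0 < K := by
    rw [hK]
    exact_mod_cast Fintype.card_pos
  obtain ⟨N0, h0⟩ := hP c hc x₀ (ε / K) (by positivity)
  refine ⟨N0, fun N hN h hm h01 hp g hgm hg => ?_⟩
  have hyp : HypD c x₀ h := by
    intro x hx
    refine (hp x hx).trans (le_of_eq ?_)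
    apply sum_congr _ (fun _ _ => rfl)
    ext p
    rw [mem_filter, mem_Icc, mem_PN]
    constructor
    · rintro ⟨h1, h2⟩; exact ⟨h1.2, h2⟩
    · rintro ⟨h1, h2⟩; exact ⟨⟨h2.one_lt.le, h1⟩, h2⟩
  have hu : IsUnit ((r : ℕ) : ZMod Q) := (ZMod.isUnit_iff_coprime r Q).2 hr
  have horth : ∀ n : ℕ, ∑ χ : DirichletCharacter ℂ Q, χ ((r : ZMod Q))⁻¹ * χ (n : ZMod Q) =
      if n % Q = r % Q then (Q.totient : ℂ) else 0 := by
    intro n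
    rw [DirichletCharacter.sum_char_inv_mul_char_eq ℂ hu]
    by_cases hn : n % Q = r % Q
    · rw [if_pos hn, if_pos ((ZMod.natCast_eq_natCast_iff' r n Q).2 hn.symm)]
    · rw [if_neg hn, if_neg (fun h => hn ((ZMod.natCast_eq_natCast_iff' r n Q).1 h).symm)]
  have hχ : ∀ χ : DirichletCharacter ℂ Q, ‖∑ n ∈ Icc 1 N, (if P n then χ (n : ZMod Q) * g n else 0) -
      l * ∑ n ∈ Icc 1 N, χ (n : ZMod Q) * g n‖ ≤ ε / K * ∑ n ∈ Icc 1 N, h n := by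
    intro χ
    refine h0 N hN h (fun n => (h01 n).1) (fun n => (h01 n).2) hm.1 (fun m n hmn => hm.2 hmn) hyp
      (fun n => χ (n : ZMod Q) * g n) (fun n => ?_) (fun m n hmn => ?_)
    · rw [norm_mul]
      calc ‖χ (n : ZMod Q)‖ * ‖g n‖ ≤ 1 * ‖g n‖ :=
            mul_le_mul_of_nonneg_right (DirichletCharacter.norm_le_one χ _) (norm_nonneg _)
        _ ≤ h n := by rw [one_mul]; exact hg n
    · rw [hgm.2 hmn, Nat.cast_mul, map_mul]; ring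
  set A : ℂ := ∑ n ∈ (Icc 1 N).filter (fun n => n % Q = r % Q ∧ P n), g n -
        l * ∑ n ∈ (Icc 1 N).filter (fun n => n % Q = r % Q), g n with hA
  have hφ : (1 : ℝ) ≤ Q.totient := by exact_mod_cast Nat.totient_pos.2 (by omega)
  have key : (Q.totient : ℂ) * A = ∑ χ : DirichletCharacter ℂ Q, χ ((r : ZMod Q))⁻¹ *
      (∑ n ∈ Icc 1 N, (if P n then χ (n : ZMod Q) * g n else 0) - l * ∑ n ∈ Icc 1 N, χ (n : ZMod Q) * g n) := by
    have e1 : ∑ χ : DirichletCharacter ℂ Q, χ ((r : ZMod Q))⁻¹ *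
        (∑ n ∈ Icc 1 N, (if P n then χ (n : ZMod Q) * g n else 0)) =
        (Q.totient : ℂ) * ∑ n ∈ (Icc 1 N).filter (fun n => n % Q = r % Q ∧ P n), g n := by
      simp_rw [mul_sum]
      rw [sum_comm, sum_filter]
      apply sum_congr rfl
      intro n _
      by_cases hPn : P n
      · simp only [hPn, if_true, and_true]
        have : ∀ χ : DirichletCharacter ℂ Q, χ ((r : ZMod Q))⁻¹ * (χ (n : ZMod Q) * g n) =
            (χ ((r : ZMod Q))⁻¹ * χ (n : ZMod Q)) * g n := fun χ => by ring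
        rw [sum_congr rfl (fun χ _ => this χ), ← sum_mul, horth]
        split_ifs <;> simp
      · simp only [hPn, if_false, and_false, mul_zero, sum_const_zero]
    have e2 : ∑ χ : DirichletCharacter ℂ Q, χ ((r : ZMod Q))⁻¹ *
        (l * ∑ n ∈ Icc 1 N, χ (n : ZMod Q) * g n) =
        (Q.totient : ℂ) * (l * ∑ n ∈ (Icc 1 N).filter (fun n => n % Q = r % Q), g n) := by
      simp_rw [mul_sum]
      rw [sum_comm, sum_filter]
      apply sum_congr rfl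
      intro n _
      have : ∀ χ : DirichletCharacter ℂ Q, χ ((r : ZMod Q))⁻¹ * (l * (χ (n : ZMod Q) * g n)) =
          (χ ((r : ZMod Q))⁻¹ * χ (n : ZMod Q)) * (l * g n) := fun χ => by ring
      rw [sum_congr rfl (fun χ _ => this χ), ← sum_mul, horth]
      split_ifs <;> simp
    simp_rw [mul_sub]
    rw [sum_sub_distrib, e1, e2, hA]
    ring
  have hH0 : 0 ≤ ∑ n ∈ Icc 1 N, h n := sum_nonneg fun n _ => (h01 n).1
  have h1 : ‖(Q.totient : ℂ) * A‖ ≤ K * (ε / K * ∑ n ∈ Icc 1 N, h n) := by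
    rw [key]
    refine (norm_sum_le _ _).trans ?_
    calc ∑ χ : DirichletCharacter ℂ Q, ‖χ ((r : ZMod Q))⁻¹ * (∑ n ∈ Icc 1 N, (if P n then χ (n : ZMod Q) * g n else 0) -
          l * ∑ n ∈ Icc 1 N, χ (n : ZMod Q) * g n)‖
        ≤ ∑ χ : DirichletCharacter ℂ Q, ε / K * ∑ n ∈ Icc 1 N, h n := by
          apply sum_le_sum
          intro χ _
          rw [norm_mul]
          calc _ ≤ 1 * ‖(∑ n ∈ Icc 1 N, (if P n then χ (n : ZMod Q) * g n else 0) -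
                l * ∑ n ∈ Icc 1 N, χ (n : ZMod Q) * g n)‖ :=
                mul_le_mul_of_nonneg_right (DirichletCharacter.norm_le_one χ _) (norm_nonneg _)
            _ ≤ _ := by rw [one_mul]; exact hχ χ
      _ = K * (ε / K * ∑ n ∈ Icc 1 N, h n) := by
          rw [sum_const, card_univ, nsmul_eq_mul]
  have e3 : K * (ε / K * ∑ n ∈ Icc 1 N, h n) = ε * ∑ n ∈ Icc 1 N, h n := by field_simp
  rw [e3, norm_mul, Complex.norm_natCast] at h1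
  have h2 := norm_nonneg A
  nlinarith

theorem Rel.sets {P : ℕ → Prop} {l : ℝ} (hP : Rel P l) (c : ℝ) (x₀ : ℕ) (ε : ℝ) (Q r : ℕ) (hc : 0 < c) (hε : 0 < ε)
    (hQ : 1 ≤ Q) (hr : r.Coprime Q) : ∃ N₀ : ℕ, ∀ N : ℕ, N₀ ≤ N → ∀ E : Set ℕ,
      (0 ∉ E ∧ 1 ∈ E ∧ ∀ m n : ℕ, m.Coprime n → (m * n ∈ E ↔ m ∈ E ∧ n ∈ E)) →
      (∀ x : ℕ, x₀ ≤ x → c * (x / Real.log x) ≤ {p : ℕ | p.Prime ∧ p ≤ x ∧ p ∈ E}.ncard) →
      |({n : ℕ | n ≤ N ∧ n ∈ E ∧ n % Q = r % Q ∧ P n}.ncard : ℝ) -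
        l * {n : ℕ | n ≤ N ∧ n ∈ E ∧ n % Q = r % Q}.ncard| ≤ ε * {n : ℕ | n ≤ N ∧ n ∈ E}.ncard := by
  obtain ⟨N0, h0⟩ := hP c x₀ ε Q r hc hε hQ hr
  refine ⟨N0, fun N hN E hE hp => ?_⟩
  obtain ⟨hE0, hE1, hE⟩ := hE
  set h : ArithmeticFunction ℝ := ⟨fun n => if n ∈ E then 1 else 0, if_neg hE0⟩ with hh
  have hv : ∀ n, h n = if n ∈ E then 1 else 0 := fun n => rfl
  have h01 : ∀ n, 0 ≤ h n ∧ h n ≤ 1 := fun n => by rw [hv]; split_ifs <;> norm_num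
  have hmul : ∀ m n : ℕ, Nat.Coprime m n → h (m * n) = h m * h n := by
    intro m n hmn
    rw [hv, hv, hv]
    have h1 := hE m n hmn
    by_cases hm : m ∈ E
    · by_cases hn : n ∈ E
      · rw [if_pos (h1.2 ⟨hm, hn⟩), if_pos hm, if_pos hn, mul_one]
      · rw [if_neg (fun h2 => hn (h1.1 h2).2), if_neg hn, mul_zero]
    · rw [if_neg (fun h2 => hm (h1.1 h2).1), if_neg hm, zero_mul]
  have hM : h.IsMultiplicative := ⟨by rw [hv, if_pos hE1], fun {m n} hmn => hmul m n hmn⟩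
  set g : ArithmeticFunction ℂ := ⟨fun n => (h n : ℂ), by rw [hv, if_neg hE0]; simp⟩ with hg
  have gv : ∀ n, g n = (h n : ℂ) := fun n => rfl
  have gM : g.IsMultiplicative := ⟨by rw [gv, hv, if_pos hE1]; simp, fun {m n} hmn => by
    rw [gv, gv, gv, hmul m n hmn]; push_cast; rfl⟩
  have hyp : ∀ x : ℕ, x₀ ≤ x → c * (x / Real.log x) ≤ ∑ p ∈ (Icc 1 x).filter Nat.Prime, h p := by
    intro x hx
    refine (hp x hx).trans (le_of_eq ?_)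
    have e : {p : ℕ | p.Prime ∧ p ≤ x ∧ p ∈ E} = (((Icc 1 x).filter Nat.Prime).filter (fun p => p ∈ E) : Finset ℕ) := by
      ext p
      rw [mem_coe, mem_filter, mem_filter, mem_Icc]
      simp only [Set.mem_ofPred_eq]
      constructor
      · rintro ⟨h1, h2, h3⟩; exact ⟨⟨⟨h1.one_lt.le, h2⟩, h1⟩, h3⟩
      · rintro ⟨⟨⟨_, h1⟩, h2⟩, h3⟩; exact ⟨h2, h1, h3⟩
    rw [e, Set.ncard_coe_finset, card_filter]
    push_cast
    rfl
  have h1 := h0 N hN h hM h01 hyp g gM (fun n => by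
    rw [gv, Complex.norm_real, Real.norm_eq_abs, abs_of_nonneg (h01 n).1])
  have cntE : ∀ S : ℕ → Prop, (({n : ℕ | n ≤ N ∧ n ∈ E ∧ S n}.ncard : ℕ) : ℝ) = ∑ n ∈ (Icc 1 N).filter S, h n := by
    intro S
    have e : {n : ℕ | n ≤ N ∧ n ∈ E ∧ S n} = (((Icc 1 N).filter S).filter (fun n => n ∈ E) : Finset ℕ) := by
      ext n
      rw [mem_coe, mem_filter, mem_filter, mem_Icc]
      simp only [Set.mem_ofPred_eq]
      constructor
      · rintro ⟨h1, h2, h3⟩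
        refine ⟨⟨⟨?_, h1⟩, h3⟩, h2⟩
        rcases Nat.eq_zero_or_pos n with h | h
        · rw [h] at h2; exact absurd h2 hE0
        · exact h
      · rintro ⟨⟨⟨_, h1⟩, h3⟩, h2⟩; exact ⟨h1, h2, h3⟩
    rw [e, Set.ncard_coe_finset, card_filter]
    push_cast
    rfl
  have e0 : (({n : ℕ | n ≤ N ∧ n ∈ E}.ncard : ℕ) : ℝ) = ∑ n ∈ Icc 1 N, h n := by
    have h2 := cntE (fun _ => True)
    simpa using h2
  rw [cntE (fun n => n % Q = r % Q ∧ P n), cntE (fun n => n % Q = r % Q), e0]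
  have e4 : ∑ n ∈ (Icc 1 N).filter (fun n => n % Q = r % Q ∧ P n), g n -
        l * ∑ n ∈ (Icc 1 N).filter (fun n => n % Q = r % Q), g n =
      ((∑ n ∈ (Icc 1 N).filter (fun n => n % Q = r % Q ∧ P n), h n -
        l * ∑ n ∈ (Icc 1 N).filter (fun n => n % Q = r % Q), h n : ℝ) : ℂ) := by
    simp only [gv]
    push_cast
    rfl
  rw [e4, Complex.norm_real, Real.norm_eq_abs] at h1
  convert h1

/-- the relative density in one set -/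
theorem Rel.lim {P : ℕ → Prop} {l : ℝ} (hP : Rel P l) (c : ℝ) (x₀ : ℕ) (E : Set ℕ) (hc : 0 < c)
    (hE : 0 ∉ E ∧ 1 ∈ E ∧ ∀ m n : ℕ, m.Coprime n → (m * n ∈ E ↔ m ∈ E ∧ n ∈ E))
    (hp : ∀ x : ℕ, x₀ ≤ x → c * (x / Real.log x) ≤ {p : ℕ | p.Prime ∧ p ≤ x ∧ p ∈ E}.ncard) :
    Tendsto (fun N : ℕ => ({n : ℕ | n ≤ N ∧ n ∈ E ∧ P n}.ncard : ℝ) / {n : ℕ | n ≤ N ∧ n ∈ E}.ncard)
      atTop (𝓝 l) := by
  rw [Metric.tendsto_atTop]
  intro ε hε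
  obtain ⟨N0, h0⟩ := hP.sets c x₀ (ε / 2) 1 0 hc (by positivity) le_rfl (by norm_num)
  refine ⟨N0 + 1, fun N hN => ?_⟩
  have h1 := h0 N (by omega) E hE hp
  simp only [Nat.mod_one, true_and, and_true] at h1
  have hpos : (0 : ℝ) < {n : ℕ | n ≤ N ∧ n ∈ E}.ncard := by
    have : 0 < {n : ℕ | n ≤ N ∧ n ∈ E}.ncard := by
      rw [Set.ncard_pos ((Set.finite_le_nat N).subset fun p hp => hp.1)]
      exact ⟨1, by omega, hE.2.1⟩
    exact_mod_cast this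
  rw [Real.dist_eq]
  have e : ({n : ℕ | n ≤ N ∧ n ∈ E ∧ P n}.ncard : ℝ) / {n : ℕ | n ≤ N ∧ n ∈ E}.ncard - l =
      (({n : ℕ | n ≤ N ∧ n ∈ E ∧ P n}.ncard : ℝ) - l * {n : ℕ | n ≤ N ∧ n ∈ E}.ncard) /
        {n : ℕ | n ≤ N ∧ n ∈ E}.ncard := by
    field_simp
  rw [e, abs_div, abs_of_pos hpos, div_lt_iff₀ hpos]
  refine lt_of_le_of_lt h1 ?_
  exact mul_lt_mul_of_pos_right (by linarith) hpos

theorem many_of {E : Set ℕ} {q a : ℕ} (hq : 1 ≤ q) (ha : a.Coprime q)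
    (h : ∀ p : ℕ, p.Prime → p % q = a % q → p ∈ E) : ∃ c : ℝ, 0 < c ∧ ∃ x₀ : ℕ,
      ∀ x : ℕ, x₀ ≤ x → c * (x / Real.log x) ≤ {p : ℕ | p.Prime ∧ p ≤ x ∧ p ∈ E}.ncard := by
  obtain ⟨c, hc, x0, h1⟩ := thick_ap hq ha
  refine ⟨c, hc, x0, fun x hx => (h1 x hx).trans ?_⟩
  have hfin : {p : ℕ | p.Prime ∧ p ≤ x ∧ p ∈ E}.Finite :=
    (Set.finite_le_nat x).subset fun p hp => hp.2.1
  rw [← Set.ncard_coe_finset]
  apply Nat.cast_le.2
  apply Set.ncard_le_ncard _ hfin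
  intro p hp
  rw [mem_coe, mem_filter, mem_Icc] at hp
  exact ⟨hp.2.1, hp.1.2, h p hp.2.1 hp.2.2⟩

theorem two_sq {E : Set ℕ} (hEd : ∀ n, n ∈ E ↔ 1 ≤ n ∧ ∃ x y : ℕ, n = x ^ 2 + y ^ 2) :
    (0 ∉ E ∧ 1 ∈ E ∧ ∀ m n : ℕ, m.Coprime n → (m * n ∈ E ↔ m ∈ E ∧ n ∈ E)) ∧ ∃ c : ℝ, 0 < c ∧ ∃ x₀ : ℕ,
      ∀ x : ℕ, x₀ ≤ x → c * (x / Real.log x) ≤ {p : ℕ | p.Prime ∧ p ≤ x ∧ p ∈ E}.ncard := by
  refine ⟨⟨fun h => by have := ((hEd 0).1 h).1; omega, (hEd 1).2 ⟨le_rfl, 1, 0, by norm_num⟩, fun m n hmn => ?_⟩, ?_⟩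
  · rw [hEd, hEd, hEd]
    by_cases h0 : m * n = 0
    · constructor
      · intro h
        have := h.1
        omega
      · rintro ⟨h1, h2⟩
        have := Nat.mul_pos h1.1 h2.1
        omega
    · have hm0 : m ≠ 0 := left_ne_zero_of_mul h0
      have hn0 : n ≠ 0 := right_ne_zero_of_mul h0
      have h1 := two_sq_mul hmn h0
      constructor
      · rintro ⟨_, h2⟩
        exact ⟨⟨by omega, (h1.1 h2).1⟩, by omega, (h1.1 h2).2⟩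
      · rintro ⟨⟨_, h2⟩, _, h3⟩
        exact ⟨by omega, h1.2 ⟨h2, h3⟩⟩
  · apply many_of (q := 4) (a := 1) (by norm_num) (by norm_num)
    intro p hp h1
    have : Fact p.Prime := ⟨hp⟩
    obtain ⟨a, b, hab⟩ := Nat.Prime.sq_add_sq (p := p) (by omega)
    exact (hEd p).2 ⟨hp.one_lt.le, a, b, hab.symm⟩

theorem primes_in {E : Set ℕ} {q : ℕ} (hq : 1 ≤ q) {A : Set ℕ}
    (hEd : ∀ n, n ∈ E ↔ 1 ≤ n ∧ ∀ p : ℕ, p.Prime → p ∣ n → ∃ a ∈ A, p % q = a % q)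
    {a : ℕ} (haA : a ∈ A) (ha : a.Coprime q) :
    (0 ∉ E ∧ 1 ∈ E ∧ ∀ m n : ℕ, m.Coprime n → (m * n ∈ E ↔ m ∈ E ∧ n ∈ E)) ∧ ∃ c : ℝ, 0 < c ∧ ∃ x₀ : ℕ,
      ∀ x : ℕ, x₀ ≤ x → c * (x / Real.log x) ≤ {p : ℕ | p.Prime ∧ p ≤ x ∧ p ∈ E}.ncard := by
  refine ⟨⟨fun h => by have := ((hEd 0).1 h).1; omega,
    (hEd 1).2 ⟨le_rfl, fun p hp h => absurd (Nat.dvd_one.1 h) hp.ne_one⟩, fun m n _ => ?_⟩, ?_⟩
  · rw [hEd, hEd, hEd]
    constructor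
    · rintro ⟨h1, h2⟩
      have hm : 1 ≤ m := Nat.pos_of_mul_pos_right h1
      have hn : 1 ≤ n := Nat.pos_of_mul_pos_left h1
      exact ⟨⟨hm, fun p hp h => h2 p hp (dvd_mul_of_dvd_left h _)⟩,
        hn, fun p hp h => h2 p hp (dvd_mul_of_dvd_right h _)⟩
    · rintro ⟨⟨h1, h2⟩, h3, h4⟩
      refine ⟨Nat.mul_pos h1 h3, fun p hp h => ?_⟩
      rcases hp.dvd_or_dvd h with h5 | h5
      · exact h2 p hp h5
      · exact h4 p hp h5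
  · apply many_of hq ha
    intro p hp h1
    refine (hEd p).2 ⟨hp.one_lt.le, fun p' hp' h2 => ⟨a, haA, ?_⟩⟩
    rw [(Nat.prime_dvd_prime_iff_eq hp' hp).1 h2]
    exact h1

end Pool.Agent.Y964.LW
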