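import Mathlib
import Pool.Agent.Y964.LW.C5

/-! Relative laws for majorants supported on the odd integers; averages. -/

set_option autoImplicit false

namespace Pool.Agent.Y964.LW

open Finset Filter Topology Pool.Agent.W41.FU Pool.Agent.W41 Pool.Agent.Y964.SE
open scoped Classical

/-- the relative law for odd integers, in residue classes -/
def RelO (P : ℕ → Prop) (l : ℝ) : Prop := ∀ (c : ℝ) (x₀ : ℕ) (ε : ℝ) (Q r : ℕ), 0 < c → 0 < ε →
    1 ≤ Q → r.Coprime Q → ∃ N₀ : ℕ, ∀ N : ℕ, N₀ ≤ N → ∀ h : ArithmeticFunction ℝ, h.IsMultiplicative →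
      (∀ n, 0 ≤ h n ∧ h n ≤ 1) → (∀ n, Even n → h n = 0) →
      (∀ x : ℕ, x₀ ≤ x → c * (x / Real.log x) ≤ ∑ p ∈ (Icc 1 x).filter Nat.Prime, h p) →
      ∀ g : ArithmeticFunction ℂ, g.IsMultiplicative → (∀ n, ‖g n‖ ≤ h n) →
      ‖∑ n ∈ (Icc 1 N).filter (fun n => n % Q = r % Q ∧ P n), g n -
        l * ∑ n ∈ (Icc 1 N).filter (fun n => n % Q = r % Q), g n‖ ≤ ε * ∑ n ∈ Icc 1 N, h n

theorem RelO_of {P P' : ℕ → Prop} {l : ℝ} (h : RL P' l) (n0 : ℕ) (hiff : ∀ n, n0 ≤ n → Odd n → (P' n ↔ P n)) :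
    RelO P l := by
  have h2 : RL (fun n => (Odd n ∧ P n) ∨ (¬ Odd n ∧ P' n)) l := by
    refine RL_congr n0 (fun n hn => ?_) h
    by_cases ho : Odd n
    · have := hiff n hn ho
      tauto
    · tauto
  intro c x₀ ε Q r hc hε hQ hr
  obtain ⟨N0, h0⟩ := RL_full h2 c x₀ ε Q r hc hε hQ hr
  refine ⟨N0, fun N hN f hfm hf01 hfe hfp g hgm hg => ?_⟩
  have h1 := h0 N hN f hfm hf01 hfp g hgm hg
  have e : ∑ n ∈ (Icc 1 N).filter (fun n => n % Q = r % Q ∧ P n), g n =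
      ∑ n ∈ (Icc 1 N).filter (fun n => n % Q = r % Q ∧ ((Odd n ∧ P n) ∨ (¬ Odd n ∧ P' n))), g n := by
    rw [sum_filter, sum_filter]
    apply sum_congr rfl
    intro n _
    by_cases ho : Odd n
    · have : (n % Q = r % Q ∧ P n) ↔ (n % Q = r % Q ∧ ((Odd n ∧ P n) ∨ (¬ Odd n ∧ P' n))) := by tauto
      simp only [this]
    · have hg0 : g n = 0 := by
        have h3 := hg n
        rw [hfe n (Nat.not_odd_iff_even.1 ho)] at h3
        exact norm_eq_zero.1 (le_antisymm h3 (norm_nonneg _))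
      rw [hg0]; simp
  rw [e]
  convert h1

/-- weights of sets -/
theorem set_weight {E : Set ℕ} (hE : 0 ∉ E ∧ 1 ∈ E ∧ ∀ m n : ℕ, m.Coprime n → (m * n ∈ E ↔ m ∈ E ∧ n ∈ E))
    {c : ℝ} {x₀ : ℕ} (hp : ∀ x : ℕ, x₀ ≤ x → c * (x / Real.log x) ≤ {p : ℕ | p.Prime ∧ p ≤ x ∧ p ∈ E}.ncard) :
    ∃ (h : ArithmeticFunction ℝ) (g : ArithmeticFunction ℂ), (∀ n, h n = if n ∈ E then 1 else 0) ∧
      (∀ n, g n = (h n : ℂ)) ∧ h.IsMultiplicative ∧ g.IsMultiplicative ∧ (∀ n, 0 ≤ h n ∧ h n ≤ 1) ∧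
      (∀ n, ‖g n‖ ≤ h n) ∧
      (∀ x : ℕ, x₀ ≤ x → c * (x / Real.log x) ≤ ∑ p ∈ (Icc 1 x).filter Nat.Prime, h p) ∧
      (∀ (N : ℕ) (S : ℕ → Prop), (({n : ℕ | n ≤ N ∧ n ∈ E ∧ S n}.ncard : ℕ) : ℝ) = ∑ n ∈ (Icc 1 N).filter S, h n) ∧
      (∀ N : ℕ, (({n : ℕ | n ≤ N ∧ n ∈ E}.ncard : ℕ) : ℝ) = ∑ n ∈ Icc 1 N, h n) := by
  obtain ⟨hE0, hE1, hE⟩ := hE
  set h : ArithmeticFunction ℝ := ⟨fun n => if n ∈ E then 1 else 0, if_neg hE0⟩ with hh
  have hv : ∀ n, h n = if n ∈ E then 1 else 0 := fun n => rfl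
  have h01 : ∀ n, 0 ≤ h n ∧ h n ≤ 1 := fun n => by rw [hv]; split_ifs <;> norm_num
  have hmul : ∀ m n : ℕ, Nat.Coprime m n → h (m * n) = h m * h n := by
    intro m n hmn
    rw [hv, hv, hv]
    have h1 := hE m n hmn
    by_cases hm : m ∈ E
    · by_cases hn : n ∈ E
      · rw [if_pos (h1.2 ⟨hm, hn⟩), if_pos hm, if_pos hn, mul_one]
      · rw [if_neg (fun h2 => hn (h1.1 h2).2), if_neg hn, mul_zero]
    · rw [if_neg (fun h2 => hm (h1.1 h2).1), if_neg hm, zero_mul]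
  have hM : h.IsMultiplicative := ⟨by rw [hv, if_pos hE1], fun {m n} hmn => hmul m n hmn⟩
  set g : ArithmeticFunction ℂ := ⟨fun n => (h n : ℂ), by rw [hv, if_neg hE0]; simp⟩ with hg
  have gv : ∀ n, g n = (h n : ℂ) := fun n => rfl
  have gM : g.IsMultiplicative := ⟨by rw [gv, hv, if_pos hE1]; simp, fun {m n} hmn => by
    rw [gv, gv, gv, hmul m n hmn]; push_cast; rfl⟩
  have hyp : ∀ x : ℕ, x₀ ≤ x → c * (x / Real.log x) ≤ ∑ p ∈ (Icc 1 x).filter Nat.Prime, h p := by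
    intro x hx
    refine (hp x hx).trans (le_of_eq ?_)
    have e : {p : ℕ | p.Prime ∧ p ≤ x ∧ p ∈ E} = (((Icc 1 x).filter Nat.Prime).filter (fun p => p ∈ E) : Finset ℕ) := by
      ext p
      rw [mem_coe, mem_filter, mem_filter, mem_Icc]
      simp only [Set.mem_ofPred_eq]
      constructor
      · rintro ⟨h1, h2, h3⟩; exact ⟨⟨⟨h1.one_lt.le, h2⟩, h1⟩, h3⟩
      · rintro ⟨⟨⟨_, h1⟩, h2⟩, h3⟩; exact ⟨h2, h1, h3⟩
    rw [e, Set.ncard_coe_finset, card_filter]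
    push_cast
    rfl
  have cntE : ∀ (N : ℕ) (S : ℕ → Prop), (({n : ℕ | n ≤ N ∧ n ∈ E ∧ S n}.ncard : ℕ) : ℝ) =
      ∑ n ∈ (Icc 1 N).filter S, h n := by
    intro N S
    have e : {n : ℕ | n ≤ N ∧ n ∈ E ∧ S n} = (((Icc 1 N).filter S).filter (fun n => n ∈ E) : Finset ℕ) := by
      ext n
      rw [mem_coe, mem_filter, mem_filter, mem_Icc]
      simp only [Set.mem_ofPred_eq]
      constructor
      · rintro ⟨h1, h2, h3⟩
        refine ⟨⟨⟨?_, h1⟩, h3⟩, h2⟩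
        rcases Nat.eq_zero_or_pos n with h | h
        · rw [h] at h2; exact absurd h2 hE0
        · exact h
      · rintro ⟨⟨⟨_, h1⟩, h3⟩, h2⟩; exact ⟨h1, h2, h3⟩
    rw [e, Set.ncard_coe_finset, card_filter]
    push_cast
    rfl
  refine ⟨h, g, hv, gv, hM, gM, h01, fun n => ?_, hyp, cntE, fun N => ?_⟩
  · rw [gv, Complex.norm_real, Real.norm_eq_abs, abs_of_nonneg (h01 n).1]
  · have h2 := cntE N (fun _ => True)
    simpa using h2

theorem RelO.sets {P : ℕ → Prop} {l : ℝ} (hP : RelO P l) (c : ℝ) (x₀ : ℕ) (ε : ℝ) (Q r : ℕ) (hc : 0 < c)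
    (hε : 0 < ε) (hQ : 1 ≤ Q) (hr : r.Coprime Q) : ∃ N₀ : ℕ, ∀ N : ℕ, N₀ ≤ N → ∀ E : Set ℕ,
      (0 ∉ E ∧ 1 ∈ E ∧ ∀ m n : ℕ, m.Coprime n → (m * n ∈ E ↔ m ∈ E ∧ n ∈ E)) → (∀ n ∈ E, Odd n) →
      (∀ x : ℕ, x₀ ≤ x → c * (x / Real.log x) ≤ {p : ℕ | p.Prime ∧ p ≤ x ∧ p ∈ E}.ncard) →
      |({n : ℕ | n ≤ N ∧ n ∈ E ∧ n % Q = r % Q ∧ P n}.ncard : ℝ) -
        l * {n : ℕ | n ≤ N ∧ n ∈ E ∧ n % Q = r % Q}.ncard| ≤ ε * {n : ℕ | n ≤ N ∧ n ∈ E}.ncard := by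
  obtain ⟨N0, h0⟩ := hP c x₀ ε Q r hc hε hQ hr
  refine ⟨N0, fun N hN E hE ho hp => ?_⟩
  obtain ⟨h, g, hv, gv, hM, gM, h01, hg, hyp, cntE, cnt0⟩ := set_weight hE hp
  have h1 := h0 N hN h hM h01 (fun n hn => by
    rw [hv, if_neg]
    intro h3
    exact (Nat.not_odd_iff_even.2 hn) (ho n h3)) hyp g gM hg
  rw [cntE N (fun n => n % Q = r % Q ∧ P n), cntE N (fun n => n % Q = r % Q), cnt0]
  have e4 : ∑ n ∈ (Icc 1 N).filter (fun n => n % Q = r % Q ∧ P n), g n -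
        l * ∑ n ∈ (Icc 1 N).filter (fun n => n % Q = r % Q), g n =
      ((∑ n ∈ (Icc 1 N).filter (fun n => n % Q = r % Q ∧ P n), h n -
        l * ∑ n ∈ (Icc 1 N).filter (fun n => n % Q = r % Q), h n : ℝ) : ℂ) := by
    simp only [gv]
    push_cast
    rfl
  rw [e4, Complex.norm_real, Real.norm_eq_abs] at h1
  convert h1

theorem pos_ncard {E : Set ℕ} (hE : 1 ∈ E) {N : ℕ} (hN : 1 ≤ N) : (0 : ℝ) < {n : ℕ | n ≤ N ∧ n ∈ E}.ncard := by
  have : 0 < {n : ℕ | n ≤ N ∧ n ∈ E}.ncard := by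
    rw [Set.ncard_pos ((Set.finite_le_nat N).subset fun p hp => hp.1)]
    exact ⟨1, hN, hE⟩
  exact_mod_cast this

theorem RelO.lim {P : ℕ → Prop} {l : ℝ} (hP : RelO P l) (c : ℝ) (x₀ : ℕ) (E : Set ℕ) (hc : 0 < c)
    (hE : 0 ∉ E ∧ 1 ∈ E ∧ ∀ m n : ℕ, m.Coprime n → (m * n ∈ E ↔ m ∈ E ∧ n ∈ E)) (ho : ∀ n ∈ E, Odd n)
    (hp : ∀ x : ℕ, x₀ ≤ x → c * (x / Real.log x) ≤ {p : ℕ | p.Prime ∧ p ≤ x ∧ p ∈ E}.ncard) :
    Tendsto (fun N : ℕ => ({n : ℕ | n ≤ N ∧ n ∈ E ∧ P n}.ncard : ℝ) / {n : ℕ | n ≤ N ∧ n ∈ E}.ncard)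
      atTop (𝓝 l) := by
  rw [Metric.tendsto_atTop]
  intro ε hε
  obtain ⟨N0, h0⟩ := hP.sets c x₀ (ε / 2) 1 0 hc (by positivity) le_rfl (by norm_num)
  refine ⟨N0 + 1, fun N hN => ?_⟩
  have h1 := h0 N (by omega) E hE ho hp
  simp only [Nat.mod_one, true_and, and_true] at h1
  have hpos := pos_ncard hE.2.1 (show 1 ≤ N by omega)
  rw [Real.dist_eq]
  have e : ({n : ℕ | n ≤ N ∧ n ∈ E ∧ P n}.ncard : ℝ) / {n : ℕ | n ≤ N ∧ n ∈ E}.ncard - l =
      (({n : ℕ | n ≤ N ∧ n ∈ E ∧ P n}.ncard : ℝ) - l * {n : ℕ | n ≤ N ∧ n ∈ E}.ncard) /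
        {n : ℕ | n ≤ N ∧ n ∈ E}.ncard := by
    field_simp
  rw [e, abs_div, abs_of_pos hpos, div_lt_iff₀ hpos]
  refine lt_of_le_of_lt h1 ?_
  exact mul_lt_mul_of_pos_right (by linarith) hpos

/-- relative averages over the odd integers -/
def AvO (F : ℕ → ℕ → ℝ) (V : ℝ) : Prop := ∀ (c : ℝ) (x₀ : ℕ) (ε : ℝ) (Q r : ℕ), 0 < c → 0 < ε →
    1 ≤ Q → r.Coprime Q → ∃ N₀ : ℕ, ∀ N : ℕ, N₀ ≤ N → ∀ h : ArithmeticFunction ℝ, h.IsMultiplicative →
      (∀ n, 0 ≤ h n ∧ h n ≤ 1) → (∀ n, Even n → h n = 0) →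
      (∀ x : ℕ, x₀ ≤ x → c * (x / Real.log x) ≤ ∑ p ∈ (Icc 1 x).filter Nat.Prime, h p) →
      ∀ g : ArithmeticFunction ℂ, g.IsMultiplicative → (∀ n, ‖g n‖ ≤ h n) →
      ‖∑ n ∈ (Icc 1 N).filter (fun n => n % Q = r % Q), F N n * g n -
        V * ∑ n ∈ (Icc 1 N).filter (fun n => n % Q = r % Q), g n‖ ≤ ε * ∑ n ∈ Icc 1 N, h n

theorem avg_of {F : ℕ → ℕ → ℝ} {B v1 v2 V : ℝ} (hB : 0 < B) (hF : ∀ N n, |F N n| ≤ B) (hv1 : |v1| ≤ B)
    (hv2 : |v2| ≤ B) (H : ∀ η : ℝ, 0 < η → ∃ (P1 P2 : ℕ → Prop) (l1 l2 : ℝ) (n0 : ℕ), RelO P1 l1 ∧ RelO P2 l2 ∧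
      l1 + l2 = 1 ∧ l1 * v1 + l2 * v2 = V ∧ (∀ n, P1 n → ¬ P2 n) ∧
      ∀ N : ℕ, n0 ≤ N → ∀ n : ℕ, (N : ℝ) / Real.log N ^ 2 < n → n ≤ N → Odd n → (P1 n → |F N n - v1| ≤ η) ∧
        (P2 n → |F N n - v2| ≤ η)) : AvO F V := by
  intro c x₀ ε Q r hc hε hQ hr
  set η : ℝ := ε / (16 * (B + 1)) with hη
  have hη0 : 0 < η := by positivity
  have hηB : (B + 1) * η = ε / 16 := by rw [hη]; field_simp
  obtain ⟨P1, P2, l1, l2, n0, r1, r2, hl, hV, hd, hn0⟩ := H η hη0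
  obtain ⟨N1, k1⟩ := r1 c x₀ η Q r hc hη0 hQ hr
  obtain ⟨N2, k2⟩ := r2 c x₀ η Q r hc hη0 hQ hr
  obtain ⟨N3, k3⟩ := r1 c x₀ η 1 0 hc hη0 le_rfl (by norm_num)
  obtain ⟨N4, k4⟩ := r2 c x₀ η 1 0 hc hη0 le_rfl (by norm_num)
  obtain ⟨N5, k5⟩ := small_n hc x₀ hη0
  refine ⟨max (max (max N1 N2) (max N3 N4)) (max N5 n0), fun N hN h hM h01 hev hyp g gM hg => ?_⟩
  simp only [max_le_iff] at hN
  obtain ⟨⟨⟨hN1, hN2⟩, hN3, hN4⟩, hN5, hNn⟩ := hN
  have f1 := k1 N hN1 h hM h01 hev hyp g gM hg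
  have f2 := k2 N hN2 h hM h01 hev hyp g gM hg
  have h00 : h 0 = 0 := h.map_zero
  set gh : ArithmeticFunction ℂ := ⟨fun n => (h n : ℂ), by rw [h00]; simp⟩ with hgh
  have gv : ∀ n, gh n = (h n : ℂ) := fun n => rfl
  have ghM : gh.IsMultiplicative := ⟨by rw [gv, hM.1]; simp, fun {m n} hmn => by
    rw [gv, gv, gv, hM.2 hmn]; push_cast; rfl⟩
  have ghn : ∀ n, ‖gh n‖ ≤ h n := fun n => by
    rw [gv, Complex.norm_real, Real.norm_eq_abs, abs_of_nonneg (h01 n).1]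
  have f3 := k3 N hN3 h hM h01 hev hyp gh ghM ghn
  have f4 := k4 N hN4 h hM h01 hev hyp gh ghM ghn
  have hypD : HypD c x₀ h := by
    intro x hx
    refine (hyp x hx).trans (le_of_eq ?_)
    apply sum_congr _ (fun _ _ => rfl)
    ext p
    rw [mem_filter, mem_Icc, mem_PN]
    constructor
    · rintro ⟨h1, h2⟩; exact ⟨h1.2, h2⟩
    · rintro ⟨h1, h2⟩; exact ⟨⟨h2.one_lt.le, h1⟩, h2⟩
  have f5 := k5 N hN5 h (fun n => (h01 n).1) (fun n => (h01 n).2) hypD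
  have real1 : ∀ (P : ℕ → Prop) (l : ℝ), ∑ n ∈ (Icc 1 N).filter (fun n => n % 1 = 0 % 1 ∧ P n), gh n -
      l * ∑ n ∈ (Icc 1 N).filter (fun n => n % 1 = 0 % 1), gh n =
      ((∑ n ∈ (Icc 1 N).filter P, h n - l * ∑ n ∈ Icc 1 N, h n : ℝ) : ℂ) := by
    intro P l
    have e1 : (Icc 1 N).filter (fun n => n % 1 = 0 % 1 ∧ P n) = (Icc 1 N).filter P := by
      apply filter_congr
      intro n _
      simp [Nat.mod_one]
    have e2 : (Icc 1 N).filter (fun n => n % 1 = 0 % 1) = Icc 1 N := by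
      apply filter_true_of_mem
      intro n _
      simp [Nat.mod_one]
    rw [e1, e2]
    simp only [gv]
    push_cast
    rfl
  rw [real1, Complex.norm_real, Real.norm_eq_abs] at f3 f4
  set Hs := ∑ n ∈ Icc 1 N, h n with hHs
  have hHs0 : 0 ≤ Hs := sum_nonneg fun n _ => (h01 n).1
  -- the complement
  have hcomp : ∑ n ∈ (Icc 1 N).filter (fun n => ¬ P1 n ∧ ¬ P2 n), h n ≤ 2 * (η * Hs) := by
    have e : Hs = ∑ n ∈ (Icc 1 N).filter P1, h n + ∑ n ∈ (Icc 1 N).filter P2, h n +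
        ∑ n ∈ (Icc 1 N).filter (fun n => ¬ P1 n ∧ ¬ P2 n), h n := by
      rw [sum_filter, sum_filter, sum_filter, ← sum_add_distrib, ← sum_add_distrib]
      apply sum_congr rfl
      intro n _
      by_cases h1 : P1 n
      · have h2 := hd n h1
        simp [h1, h2]
      · by_cases h2 : P2 n
        · simp [h1, h2]
        · simp [h1, h2]
    obtain ⟨u1, u2⟩ := abs_le.1 f3
    obtain ⟨u3, u4⟩ := abs_le.1 f4
    have e2 : l1 * Hs + l2 * Hs = Hs := by rw [← add_mul, hl, one_mul]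
    linarith
  -- the main estimate
  have hpt : ‖∑ n ∈ (Icc 1 N).filter (fun n => n % Q = r % Q), F N n * g n -
      (v1 * ∑ n ∈ (Icc 1 N).filter (fun n => n % Q = r % Q ∧ P1 n), g n +
       v2 * ∑ n ∈ (Icc 1 N).filter (fun n => n % Q = r % Q ∧ P2 n), g n)‖ ≤
      3 * B * ∑ n ∈ (Icc 1 N).filter (fun n : ℕ => (n : ℝ) ≤ N / Real.log N ^ 2), h n + η * Hs +
      B * ∑ n ∈ (Icc 1 N).filter (fun n => ¬ P1 n ∧ ¬ P2 n), h n := by
    rw [sum_filter, sum_filter, sum_filter, sum_filter, sum_filter, hHs, mul_sum, mul_sum, mul_sum, mul_sum, mul_sum,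
      ← sum_add_distrib, ← sum_sub_distrib, ← sum_add_distrib, ← sum_add_distrib]
    refine (norm_sum_le _ _).trans (sum_le_sum fun n hn => ?_)
    rw [mem_Icc] at hn
    have a0 := (h01 n).1
    have hgn := hg n
    have hc0 : 0 ≤ (if (n : ℝ) ≤ N / Real.log N ^ 2 then h n else 0) := by split_ifs <;> linarith
    have hc1 : 0 ≤ (if ¬ P1 n ∧ ¬ P2 n then h n else 0) := by split_ifs <;> linarith
    have hc2 : 0 ≤ 3 * B * (if (n : ℝ) ≤ N / Real.log N ^ 2 then h n else 0) := by positivity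
    have hc3 : 0 ≤ B * (if ¬ P1 n ∧ ¬ P2 n then h n else 0) := by positivity
    have hc4 : 0 ≤ η * h n := by positivity
    by_cases hcl : n % Q = r % Q
    · -- the coefficient
      set w : ℝ := (if P1 n then v1 else 0) + (if P2 n then v2 else 0) with hw
      have e : (if n % Q = r % Q then (F N n : ℂ) * g n else 0) -
          ((v1 : ℂ) * (if n % Q = r % Q ∧ P1 n then g n else 0) + v2 * (if n % Q = r % Q ∧ P2 n then g n else 0)) =
          ((F N n - w : ℝ) : ℂ) * g n := by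
        rw [hw]
        simp only [hcl, if_true, true_and]
        split_ifs <;> push_cast <;> ring
      rw [e, norm_mul, Complex.norm_real, Real.norm_eq_abs]
      have hFn := hF N n
      have hwB : |w| ≤ 2 * B := by
        rw [hw]
        refine (abs_add_le _ _).trans ?_
        have : |if P1 n then v1 else 0| ≤ B := by
          split_ifs
          · exact hv1
          · rw [abs_zero]; exact hB.le
        have : |if P2 n then v2 else 0| ≤ B := by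
          split_ifs
          · exact hv2
          · rw [abs_zero]; exact hB.le
        linarith
      have hmulle : |F N n - w| * ‖g n‖ ≤ |F N n - w| * h n := mul_le_mul_of_nonneg_left hgn (abs_nonneg _)
      refine hmulle.trans ?_
      by_cases hsn : (n : ℝ) ≤ N / Real.log N ^ 2
      · rw [if_pos hsn]
        have : |F N n - w| ≤ 3 * B := (abs_sub _ _).trans (by linarith)
        have := mul_le_mul_of_nonneg_right this a0
        linarith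
      · by_cases hodd : Odd n
        · push Not at hsn
          obtain ⟨m1, m2⟩ := hn0 N hNn n hsn hn.2 hodd
          by_cases h1 : P1 n
          · have h2 := hd n h1
            have : |F N n - w| ≤ η := by
              rw [hw, if_pos h1, if_neg h2, add_zero]; exact m1 h1
            have := mul_le_mul_of_nonneg_right this a0
            linarith
          · by_cases h2 : P2 n
            · have : |F N n - w| ≤ η := by
                rw [hw, if_neg h1, if_pos h2, zero_add]; exact m2 h2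
              have := mul_le_mul_of_nonneg_right this a0
              linarith
            · have : |F N n - w| ≤ B := by
                rw [hw, if_neg h1, if_neg h2, add_zero, sub_zero]; exact hFn
              have := mul_le_mul_of_nonneg_right this a0
              rw [if_pos (⟨h1, h2⟩ : ¬ P1 n ∧ ¬ P2 n)]
              linarith
        · rw [hev n (Nat.not_odd_iff_even.1 hodd)]
          simp
    · have e : (if n % Q = r % Q then (F N n : ℂ) * g n else 0) -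
          ((v1 : ℂ) * (if n % Q = r % Q ∧ P1 n then g n else 0) + v2 * (if n % Q = r % Q ∧ P2 n then g n else 0)) =
          0 := by
        simp only [hcl, if_false, false_and]
        ring
      rw [e, norm_zero]
      linarith
  set A1 := ∑ n ∈ (Icc 1 N).filter (fun n => n % Q = r % Q ∧ P1 n), g n
  set A2 := ∑ n ∈ (Icc 1 N).filter (fun n => n % Q = r % Q ∧ P2 n), g n
  set A0 := ∑ n ∈ (Icc 1 N).filter (fun n => n % Q = r % Q), g n
  set AF := ∑ n ∈ (Icc 1 N).filter (fun n => n % Q = r % Q), (F N n : ℂ) * g n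
  have e : AF - V * A0 = (AF - (v1 * A1 + v2 * A2)) + (v1 * (A1 - l1 * A0) + v2 * (A2 - l2 * A0)) := by
    rw [← hV]; push_cast; ring
  rw [e]
  refine (norm_add_le _ _).trans ?_
  have b1 : ‖(v1 : ℂ) * (A1 - l1 * A0) + v2 * (A2 - l2 * A0)‖ ≤ B * (η * Hs) + B * (η * Hs) := by
    refine (norm_add_le _ _).trans (add_le_add ?_ ?_)
    · rw [norm_mul, Complex.norm_real, Real.norm_eq_abs]
      exact mul_le_mul hv1 f1 (norm_nonneg _) hB.le
    · rw [norm_mul, Complex.norm_real, Real.norm_eq_abs]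
      exact mul_le_mul hv2 f2 (norm_nonneg _) hB.le
  have b2 : 3 * B * ∑ n ∈ (Icc 1 N).filter (fun n : ℕ => (n : ℝ) ≤ N / Real.log N ^ 2), h n ≤ 3 * B * (η * Hs) :=
    mul_le_mul_of_nonneg_left f5 (by positivity)
  have b3 : B * ∑ n ∈ (Icc 1 N).filter (fun n => ¬ P1 n ∧ ¬ P2 n), h n ≤ B * (2 * (η * Hs)) :=
    mul_le_mul_of_nonneg_left hcomp hB.le
  have b4 : (B + 1) * η * Hs = ε / 16 * Hs := by rw [hηB]
  have b5 : 0 ≤ η * Hs := by positivity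
  have b6 : 0 ≤ ε * Hs := by positivity
  have b7 : B * (η * Hs) ≤ ε / 16 * Hs := by rw [← b4]; nlinarith
  have b8 : η * Hs ≤ ε / 16 * Hs := by rw [← b4]; nlinarith
  nlinarith

theorem AvO.lim {F : ℕ → ℕ → ℝ} {V : ℝ} (hF : AvO F V) (c : ℝ) (x₀ : ℕ) (E : Set ℕ) (hc : 0 < c)
    (hE : 0 ∉ E ∧ 1 ∈ E ∧ ∀ m n : ℕ, m.Coprime n → (m * n ∈ E ↔ m ∈ E ∧ n ∈ E)) (ho : ∀ n ∈ E, Odd n)
    (hp : ∀ x : ℕ, x₀ ≤ x → c * (x / Real.log x) ≤ {p : ℕ | p.Prime ∧ p ≤ x ∧ p ∈ E}.ncard) :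
    Tendsto (fun N : ℕ => (∑ n ∈ (Icc 1 N).filter (fun n => n ∈ E), F N n) / {n : ℕ | n ≤ N ∧ n ∈ E}.ncard)
      atTop (𝓝 V) := by
  rw [Metric.tendsto_atTop]
  intro ε hε
  obtain ⟨N0, h0⟩ := hF c x₀ (ε / 2) 1 0 hc (by positivity) le_rfl (by norm_num)
  refine ⟨N0 + 1, fun N hN => ?_⟩
  obtain ⟨h, g, hv, gv, hM, gM, h01, hg, hyp, cntE, cnt0⟩ := set_weight hE hp
  have h1 := h0 N (by omega) h hM h01 (fun n hn => by
    rw [hv, if_neg]
    intro h3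
    exact (Nat.not_odd_iff_even.2 hn) (ho n h3)) hyp g gM hg
  have hpos := pos_ncard hE.2.1 (show 1 ≤ N by omega)
  have e2 : (Icc 1 N).filter (fun n => n % 1 = 0 % 1) = Icc 1 N := by
    apply filter_true_of_mem
    intro n _
    simp [Nat.mod_one]
  have e3 : ∑ n ∈ (Icc 1 N).filter (fun n => n % 1 = 0 % 1), (F N n : ℂ) * g n -
        V * ∑ n ∈ (Icc 1 N).filter (fun n => n % 1 = 0 % 1), g n =
      ((∑ n ∈ (Icc 1 N).filter (fun n => n ∈ E), F N n - V * {n : ℕ | n ≤ N ∧ n ∈ E}.ncard : ℝ) : ℂ) := by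
    rw [e2, cnt0, sum_filter]
    simp only [gv]
    push_cast
    congr 1
    apply sum_congr rfl
    intro n _
    rw [hv]
    split_ifs <;> simp
  rw [e3, Complex.norm_real, Real.norm_eq_abs, ← cnt0] at h1
  rw [Real.dist_eq]
  have e : (∑ n ∈ (Icc 1 N).filter (fun n => n ∈ E), F N n) / {n : ℕ | n ≤ N ∧ n ∈ E}.ncard - V =
      (∑ n ∈ (Icc 1 N).filter (fun n => n ∈ E), F N n - V * {n : ℕ | n ≤ N ∧ n ∈ E}.ncard) /
        {n : ℕ | n ≤ N ∧ n ∈ E}.ncard := by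
    field_simp
  rw [e, abs_div, abs_of_pos hpos, div_lt_iff₀ hpos]
  refine lt_of_le_of_lt h1 ?_
  exact mul_lt_mul_of_pos_right (by linarith) hpos

end Pool.Agent.Y964.LW
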