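import Mathlib
import Pool.Agent.Y964.LW.C5

/-! Multiplicative sets of odd integers. -/

set_option autoImplicit false

namespace Pool.Agent.Y964.LW

open Finset Filter Topology Pool.Agent.Y964.SE
open scoped Classical

theorem odd_two_sq {E : Set ℕ} (hEd : ∀ n, n ∈ E ↔ Odd n ∧ ∃ x y : ℕ, n = x ^ 2 + y ^ 2) :
    ((∀ n ∈ E, Odd n) ∧ 1 ∈ E ∧ ∀ m n : ℕ, m.Coprime n → (m * n ∈ E ↔ m ∈ E ∧ n ∈ E)) ∧ ∃ c : ℝ, 0 < c ∧ ∃ x₀ : ℕ,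
      ∀ x : ℕ, x₀ ≤ x → c * (x / Real.log x) ≤ {p : ℕ | p.Prime ∧ p ≤ x ∧ p ∈ E}.ncard := by
  refine ⟨⟨fun n h => ((hEd n).1 h).1, (hEd 1).2 ⟨odd_one, 1, 0, by norm_num⟩, fun m n hmn => ?_⟩, ?_⟩
  · obtain ⟨⟨_, _, h1⟩, _⟩ := two_sq (E := {n | 1 ≤ n ∧ ∃ x y : ℕ, n = x ^ 2 + y ^ 2}) (fun n => Iff.rfl)
    have h2 := h1 m n hmn
    simp only [Set.mem_ofPred_eq] at h2
    rw [hEd, hEd, hEd, Nat.odd_mul]
    constructor
    · rintro ⟨⟨h3, h4⟩, h5⟩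
      obtain ⟨h6, h7⟩ := h2.1 ⟨Nat.mul_pos h3.pos h4.pos, h5⟩
      exact ⟨⟨h3, h6.2⟩, h4, h7.2⟩
    · rintro ⟨⟨h3, h5⟩, h4, h6⟩
      exact ⟨⟨h3, h4⟩, (h2.2 ⟨⟨h3.pos, h5⟩, h4.pos, h6⟩).2⟩
  · apply many_of (q := 4) (a := 1) (by norm_num) (by norm_num)
    intro p hp h1
    have : Fact p.Prime := ⟨hp⟩
    obtain ⟨a, b, hab⟩ := Nat.Prime.sq_add_sq (p := p) (by omega)
    exact (hEd p).2 ⟨Nat.odd_iff.2 (by omega), a, b, hab.symm⟩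

theorem odd_primes_in {E : Set ℕ} {q : ℕ} (hq : 1 ≤ q) {A : Set ℕ}
    (hEd : ∀ n, n ∈ E ↔ Odd n ∧ ∀ p : ℕ, p.Prime → p ∣ n → ∃ a ∈ A, p % q = a % q)
    {a : ℕ} (haA : a ∈ A) (ha : a.Coprime q) :
    ((∀ n ∈ E, Odd n) ∧ 1 ∈ E ∧ ∀ m n : ℕ, m.Coprime n → (m * n ∈ E ↔ m ∈ E ∧ n ∈ E)) ∧ ∃ c : ℝ, 0 < c ∧ ∃ x₀ : ℕ,
      ∀ x : ℕ, x₀ ≤ x → c * (x / Real.log x) ≤ {p : ℕ | p.Prime ∧ p ≤ x ∧ p ∈ E}.ncard := by
  refine ⟨⟨fun n h => ((hEd n).1 h).1,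
    (hEd 1).2 ⟨odd_one, fun p hp h => absurd (Nat.dvd_one.1 h) hp.ne_one⟩, fun m n _ => ?_⟩, ?_⟩
  · rw [hEd, hEd, hEd, Nat.odd_mul]
    constructor
    · rintro ⟨⟨h1, h3⟩, h2⟩
      exact ⟨⟨h1, fun p hp h => h2 p hp (dvd_mul_of_dvd_left h _)⟩,
        h3, fun p hp h => h2 p hp (dvd_mul_of_dvd_right h _)⟩
    · rintro ⟨⟨h1, h2⟩, h3, h4⟩
      refine ⟨⟨h1, h3⟩, fun p hp h => ?_⟩
      rcases hp.dvd_or_dvd h with h5 | h5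
      · exact h2 p hp h5
      · exact h4 p hp h5
  · obtain ⟨a', ha', ho', hm'⟩ : ∃ a' : ℕ, a'.Coprime (2 * q) ∧ Odd a' ∧ a' % q = a % q := by
      by_cases h1 : Odd a
      · exact ⟨a, Nat.Coprime.mul_right (Nat.coprime_two_right.2 h1) ha, h1, rfl⟩
      · have h2 : Even a := Nat.not_odd_iff_even.1 h1
        have h3 : Odd q := by
          by_contra hcon
          have h4 : Even q := Nat.not_odd_iff_even.1 hcon
          have h5 : 2 ∣ Nat.gcd a q := Nat.dvd_gcd h2.two_dvd h4.two_dvd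
          rw [Nat.Coprime] at ha
          rw [ha] at h5
          omega
        have h6 : Odd (a + q) := h2.add_odd h3
        refine ⟨a + q, Nat.Coprime.mul_right (Nat.coprime_two_right.2 h6) ?_, h6, by simp⟩
        simpa using ha
    apply many_of (q := 2 * q) (a := a') (by omega) ha'
    intro p hp h1
    have h2 : p % 2 = 1 := by
      have h3 : p % (2 * q) % 2 = a' % (2 * q) % 2 := by rw [h1]
      rw [Nat.mod_mul_right_mod, Nat.mod_mul_right_mod] at h3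
      rw [h3]; exact Nat.odd_iff.1 ho'
    have h4 : p % q = a % q := by
      have h3 : p % (2 * q) % q = a' % (2 * q) % q := by rw [h1]
      rw [Nat.mod_mul_left_mod, Nat.mod_mul_left_mod] at h3
      rw [h3]; exact hm'
    refine (hEd p).2 ⟨Nat.odd_iff.2 h2, fun p' hp' h3 => ⟨a, haA, ?_⟩⟩
    rw [(Nat.prime_dvd_prime_iff_eq hp' hp).1 h3]
    exact h4

end Pool.Agent.Y964.LW
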