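import Pool.Agent.Y964.LW.C8
import Pool.Agent.Y964.LW.C5

/-! Relative laws of the entrance times (all steps) into finite sets of odd integers with bounded
trajectories, both signs; relative frequencies of invariant sets from their natural densities. -/

set_option autoImplicit false

namespace Pool.Agent.Y964.LW

open Finset Filter Topology
open Pool.Agent.H499R2.CO (Tz)
open Pool.Agent.H499R2.ND (Dn Td Phi Phi_continuous phi_cdf Inv HD)
open Pool.Agent.H499R2.LT (od od_add Dn_iff)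
open Pool.Agent.H499R2.HL (bk bo nu rr nu_pos rr_pos sqrt_rr)
open Pool.Agent.W26.HN (E E_unique exists_E E_two E_of_two od_two side_two)
open scoped Classical

theorem mod_one (a b : ℤ) : a ≡ b [ZMOD (1 : ℕ)] := by
  simp [Int.modEq_one]

/-- joint law of the entrance time and of the number of odd terms -/
theorem rel_entr_k {s : ℤ} (hs : s = 1 ∨ s = -1) {F : Finset ℤ} (hF : ∀ y ∈ F, y % 2 = 1) {B : ℕ} (hB : Bd F B)
    {δ : ℝ} (hE : Dn (fun n : ℕ => ∃ k : ℕ, E F k (s * n)) δ) :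
    0 ≤ δ ∧ δ ≤ 1 ∧ RL (fun n : ℕ => ∃ k : ℕ, E F k (s * n)) δ ∧
    ∀ (m : ℕ) (a b : ℤ), 1 ≤ m →
      RL (fun n : ℕ => ∃ k : ℕ, E F k (s * n) ∧ ((k : ℤ) ≡ a [ZMOD m] ∧ od 1 k (s * n) ≡ b [ZMOD m]))
        (δ / m ^ 2) ∧
      RL (fun n : ℕ => ∃ k : ℕ, E F k (s * n) ∧ (k : ℤ) ≡ a [ZMOD m]) (δ / m) ∧
      ∀ x : ℝ, RL (fun n : ℕ => ∃ k : ℕ, E F k (s * n) ∧ ((k : ℝ) ≤ bk x (Real.log n) ∧ (k : ℤ) ≡ a [ZMOD m] ∧
          od 1 k (s * n) ≡ b [ZMOD m])) (δ / m ^ 2 * Phi x) ∧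
        RL (fun n : ℕ => ∃ k : ℕ, E F k (s * n) ∧ ((k : ℝ) ≤ bk x (Real.log n) ∧ (k : ℤ) ≡ a [ZMOD m]))
          (δ / m * Phi x) := by
  obtain ⟨δ', h0', _, h2', h3⟩ := Pool.Agent.H499R2.LT.joint_side (d := 1) odd_one (by omega) hs F
  have hE' : Dn (fun n : ℕ => ∃ k : ℕ, (Td 1)^[k] (s * n) ∈ F) δ := by
    refine Dn_iff (fun n _ => ?_) hE
    constructor
    · rintro ⟨k, hk⟩; exact ⟨k, hk.1⟩
    · rintro ⟨k, hk⟩
      obtain ⟨j, _, hj⟩ := exists_E hk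
      exact ⟨j, hj⟩
  have e : δ' = δ := tendsto_nhds_unique h2' hE'
  rw [e] at h0' h3
  have h4 := fun m a b hm => Pool.Agent.H499R2.LT.equi_side (d := 1) odd_one (by omega) hs F hE' m a b hm
  have hδ1 : δ ≤ 1 := by
    refine le_of_tendsto' hE fun N => ?_
    rcases Nat.eq_zero_or_pos N with h | h
    · subst h; simp
    · rw [div_le_one (by exact_mod_cast h)]
      exact Pool.Agent.H499R2.ND.cnt_le _ N
  have hdiv : ∀ m : ℕ, 1 ≤ m → 0 ≤ δ / (m : ℝ) ∧ δ / (m : ℝ) ≤ 1 := by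
    intro m hm
    have hm1 : (1 : ℝ) ≤ m := by exact_mod_cast hm
    refine ⟨by positivity, ?_⟩
    rw [div_le_one (by positivity)]
    linarith
  have hdiv2 : ∀ m : ℕ, 1 ≤ m → 0 ≤ δ / (m : ℝ) ^ 2 ∧ δ / (m : ℝ) ^ 2 ≤ 1 := by
    intro m hm
    have hm1 : (1 : ℝ) ≤ m := by exact_mod_cast hm
    have hm2 : (1 : ℝ) ≤ (m : ℝ) ^ 2 := one_le_pow₀ hm1
    refine ⟨by positivity, ?_⟩
    rw [div_le_one (by positivity)]
    linarith
  have hrr := rr_pos
  have hl3 : 0 < Real.log 3 := Real.log_pos (by norm_num)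
  have hbk : ∀ (x : ℝ) (n : ℕ), 1 ≤ n → Real.log n / Pool.Agent.H319R2.Lln.mu
      + x * Pool.Agent.H499R2.ND.sg * Real.sqrt (Real.log n) = bk x (Real.log n) := by
    intro x n hn
    rw [Pool.Agent.H499R2.LT.tb2 x n hn]
    rfl
  -- the joint law
  have hjoint : ∀ (m : ℕ) (a b : ℤ), 1 ≤ m → ∀ x : ℝ,
      RL (fun n : ℕ => ∃ k : ℕ, E F k (s * n) ∧ ((k : ℝ) ≤ bk x (Real.log n) ∧ (k : ℤ) ≡ a [ZMOD m] ∧
          od 1 k (s * n) ≡ b [ZMOD m])) (δ / m ^ 2 * Phi x) := by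
    intro m a b hm x
    have h5 := (mkFamE hs hF hB (ι := ℤ × ℤ) (fun i τ k o => (k : ℝ) ≤ τ ∧ (k : ℤ) ≡ i.1 [ZMOD m] ∧
        o ≡ i.2 [ZMOD m])
      (fun i => (i.1 - 1, i.2)) 1 (2 / Real.log (4 / 3)) (Real.log 3 * rr) (fun _ x => δ / (m : ℝ) ^ 2 * Phi x)
      zero_le_one (by positivity)
      (fun _ _ _ _ _ h1 h => ⟨h.1.trans h1, h.2⟩) (fun i τ k o => by
        rw [mod_succ, le_sub_iff_add_le]; push_cast; rfl) (fun _ _ => rfl)
      (fun _ x => mul01 (hdiv2 m hm) (phi01 x))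
      (fun _ => Phi_continuous.const_mul _)
      (fun i x => by
        refine Dn_iff (fun n hn => exists_congr fun k => ?_) (h3 x m i.1 i.2 hm)
        rw [hbk x n hn, ← bk_thr]
        unfold E
        tauto)).RL hs (a, b) x
    refine RL_congr 0 (fun n _ => ?_) h5
    rw [bk_thr]
    exact Iff.rfl
  have hequi : ∀ (m : ℕ) (a b : ℤ), 1 ≤ m →
      RL (fun n : ℕ => ∃ k : ℕ, E F k (s * n) ∧ ((k : ℤ) ≡ a [ZMOD m] ∧ od 1 k (s * n) ≡ b [ZMOD m]))
        (δ / m ^ 2) := by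
    intro m a b hm
    have h5 := (mkFamE hs hF hB (ι := ℤ × ℤ) (fun i _ k o => (k : ℤ) ≡ i.1 [ZMOD m] ∧ o ≡ i.2 [ZMOD m])
      (fun i => (i.1 - 1, i.2)) 0 1 1 (fun _ _ => δ / (m : ℝ) ^ 2) le_rfl one_pos
      (fun _ _ _ _ _ _ h => h) (fun i _ k o => by rw [mod_succ]) (fun _ _ => rfl) (fun _ _ => hdiv2 m hm)
      (fun _ => continuous_const)
      (fun i _ => by
        refine Dn_iff (fun n _ => exists_congr fun k => ?_) (h4 m i.1 i.2 hm)
        unfold E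
        tauto)).RL hs (a, b) 0
    exact h5
  -- the law of the time alone, from finite sums
  have hsum : ∀ (m : ℕ) (a : ℤ), 1 ≤ m → ∀ (R : ℕ → ℕ → Prop) (l : ℝ),
      (∀ b : ℤ, RL (fun n : ℕ => ∃ k : ℕ, E F k (s * n) ∧ (R k n ∧ (k : ℤ) ≡ a [ZMOD m] ∧
        od 1 k (s * n) ≡ b [ZMOD m])) (l / m ^ 2)) →
      RL (fun n : ℕ => ∃ k : ℕ, E F k (s * n) ∧ (R k n ∧ (k : ℤ) ≡ a [ZMOD m])) (l / m) := by
    intro m a hm R l h
    have h6 : ∀ M : ℕ, M ≤ m → RL (fun n : ℕ => ∃ k : ℕ, E F k (s * n) ∧ (R k n ∧ (k : ℤ) ≡ a [ZMOD m] ∧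
        ∃ b : ℕ, b < M ∧ od 1 k (s * n) ≡ (b : ℤ) [ZMOD m])) (M * (l / m ^ 2)) := by
      intro M
      induction M with
      | zero =>
        intro _
        have h7 := RL_diff (h 0) (h 0) (fun n hn => hn) (fun n => Iff.rfl)
        rw [sub_self] at h7
        rw [Nat.cast_zero, zero_mul]
        refine RL_congr 0 (fun n _ => ?_) h7
        constructor
        · rintro ⟨h8, h9⟩; exact absurd h8 h9
        · rintro ⟨k, _, _, _, b, hb, _⟩; omega
      | succ M ih =>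
        intro hM
        have h7 := RL_or (ih (by omega)) (h M) (fun n => ?_) (R := fun n : ℕ => ∃ k : ℕ, E F k (s * n) ∧
          (R k n ∧ (k : ℤ) ≡ a [ZMOD m] ∧ ∃ b : ℕ, b < M + 1 ∧ od 1 k (s * n) ≡ (b : ℤ) [ZMOD m]))
          (fun n => ?_)
        · have e : ((M + 1 : ℕ) : ℝ) * (l / m ^ 2) = M * (l / m ^ 2) + l / m ^ 2 := by push_cast; ring
          rw [e]
          exact h7
        · rintro ⟨k, hk, _, _, b, hb, hb'⟩ ⟨k', hk', _, _, hb''⟩
          obtain rfl := E_unique hk hk'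
          have h8 : (b : ℤ) ≡ (M : ℤ) [ZMOD m] := hb'.symm.trans hb''
          have h9 : b ≡ M [MOD m] := (Int.natCast_modEq_iff).1 h8
          have := Nat.ModEq.eq_of_lt_of_lt h9 (by omega) (by omega)
          omega
        · constructor
          · rintro ⟨k, hk, h8, h9, b, hb, hb'⟩
            rcases Nat.lt_succ_iff_lt_or_eq.1 hb with hb1 | rfl
            · exact Or.inl ⟨k, hk, h8, h9, b, hb1, hb'⟩
            · exact Or.inr ⟨k, hk, h8, h9, hb'⟩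
          · rintro (⟨k, hk, h8, h9, b, hb, hb'⟩ | ⟨k, hk, h8, h9, hb'⟩)
            · exact ⟨k, hk, h8, h9, b, by omega, hb'⟩
            · exact ⟨k, hk, h8, h9, M, by omega, hb'⟩
    have h7 := h6 m le_rfl
    have hm0 : (m : ℝ) ≠ 0 := by exact_mod_cast (by omega : m ≠ 0)
    have e : (m : ℝ) * (l / (m : ℝ) ^ 2) = l / m := by field_simp
    rw [e] at h7
    refine RL_congr 0 (fun n _ => exists_congr fun k => and_congr_right fun _ => and_congr_right fun _ =>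
      ⟨fun h => h.1, fun h => ⟨h, ?_⟩⟩) h7
    refine ⟨((od 1 k (s * n)) % (m : ℤ)).toNat, ?_, ?_⟩
    · have h8 := Int.emod_nonneg (od 1 k (s * n)) (show (m : ℤ) ≠ 0 by omega)
      have h9 := Int.emod_lt_of_pos (od 1 k (s * n)) (show (0 : ℤ) < m by omega)
      omega
    · have h8 := Int.emod_nonneg (od 1 k (s * n)) (show (m : ℤ) ≠ 0 by omega)
      rw [Int.toNat_of_nonneg h8]
      exact (Int.mod_modEq _ _).symm
  refine ⟨h0', hδ1, ?_, fun m a b hm => ⟨hequi m a b hm, ?_, fun x => ⟨hjoint m a b hm x, ?_⟩⟩⟩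
  · have h5 := hequi 1 0 0 le_rfl
    have e : δ / ((1 : ℕ) : ℝ) ^ 2 = δ := by simp
    rw [e] at h5
    refine RL_congr 0 (fun n _ => exists_congr fun k => ⟨fun h => h.1, fun h => ⟨h, mod_one _ _, mod_one _ _⟩⟩) h5
  · have h5 := hsum m a hm (fun _ _ => True) δ (fun b => by
      refine RL_congr 0 (fun n _ => exists_congr fun k => ?_) (hequi m a b hm)
      tauto)
    refine RL_congr 0 (fun n _ => exists_congr fun k => ?_) h5
    tauto
  · have h5 := hsum m a hm (fun k n => (k : ℝ) ≤ bk x (Real.log n)) (δ * Phi x) (fun b => by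
      have e : δ * Phi x / (m : ℝ) ^ 2 = δ / m ^ 2 * Phi x := by ring
      rw [e]
      exact hjoint m a b hm x)
    have e : δ * Phi x / (m : ℝ) = δ / m * Phi x := by ring
    rw [e] at h5
    exact h5

/-- the counting form of the density among the integers of sign `s` -/
def HasD (s : ℤ) (S : Set ℤ) (d : ℝ) : Prop :=
  Tendsto (fun N : ℕ => ({n : ℤ | 0 < s * n ∧ s * n ≤ N ∧ n ∈ S}.ncard : ℝ) / N) atTop (𝓝 d)

/-- relative frequencies of invariant sets from the natural densities -/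
theorem RL_inv' {s : ℤ} (hs : s = 1 ∨ s = -1) {S : Set ℤ} (hS : Inv 1 S) {δ : ℝ}
    (h : HasD s S δ) : RL (fun n : ℕ => s * (n : ℤ) ∈ S) δ := by
  obtain ⟨l, _, _, hl⟩ := Pool.Agent.H499R2.ND.dens_side (d := 1) odd_one
    (Int.isCoprime_iff_gcd_eq_one.2 (by norm_num)) hs hS
  have h1 := RL_inv hs hS hl
  have h2 : HasD s S l := Pool.Agent.H499R2.ND.HD_ncard hs hl
  rw [tendsto_nhds_unique h h2]
  exact h1

theorem dn_side {s : ℤ} (hs : s = 1 ∨ s = -1) {S : Set ℤ} {δ : ℝ} (h : HasD s S δ) :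
    Dn (fun n : ℕ => s * (n : ℤ) ∈ S) δ := by
  have hss : s * s = 1 := by rcases hs with rfl | rfl <;> rfl
  refine h.congr fun N => ?_
  unfold Pool.Agent.H499R2.ND.cnt
  congr 2
  have : {n : ℤ | 0 < s * n ∧ s * n ≤ N ∧ n ∈ S}
      = (fun n : ℕ => s * (n : ℤ)) '' {n : ℕ | 1 ≤ n ∧ n ≤ N ∧ s * (n : ℤ) ∈ S} := by
    ext x
    rw [Set.mem_image]
    constructor
    · rintro ⟨h1, h2, h3⟩
      have e : s * (((s * x).toNat : ℕ) : ℤ) = x := by
        rw [Int.toNat_of_nonneg h1.le, ← mul_assoc, hss, one_mul]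
      refine ⟨(s * x).toNat, ⟨by omega, by omega, ?_⟩, e⟩
      rw [e]; exact h3
    · rintro ⟨n, ⟨h1, h2, h3⟩, rfl⟩
      refine ⟨?_, ?_, h3⟩
      · rw [← mul_assoc, hss]; omega
      · rw [← mul_assoc, hss]; omega
  rw [this, Set.ncard_image_of_injective _ (fun a b hab => by
    have h5 : s * (s * (a : ℤ)) = s * (s * (b : ℤ)) := by rw [show s * (a : ℤ) = s * b from hab]
    rw [← mul_assoc, ← mul_assoc, hss, one_mul, one_mul] at h5
    exact_mod_cast h5)]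

end Pool.Agent.Y964.LW
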