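import Pool.Agent.Y964.LW.D2

/-! Affine images `2 ^ e 3 ^ i n + B`: merging of the trajectories, first visits. -/

set_option autoImplicit false

namespace Pool.Agent.Y964.LW

open Finset Filter Topology
open Pool.Agent.H499R2.CO (Tz)
open Pool.Agent.H499R2.ND (Td)
open Pool.Agent.H499R2.LT (od)
open Pool.Agent.Y964.SE
open scoped Classical

/-- the affine images after `e` steps -/
theorem Td_aff (e : ℕ) : ∀ m B : ℤ, (Td 1)^[e] (2 ^ e * m + B) = 3 ^ (oc 1 e B) * m + (Td 1)^[e] B := by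
  induction e with
  | zero => intro m B; simp [oc_zero]
  | succ e ih =>
    intro m B
    rw [Function.iterate_succ_apply, Function.iterate_succ_apply, oc_succ]
    have hT : ∀ x : ℤ, Td 1 x = if x % 2 = 0 then x / 2 else (3 * x + 1) / 2 := fun x => rfl
    have hTz : ∀ x : ℤ, Tz 1 x = Td 1 x := fun x => rfl
    have e1 : (2 : ℤ) ^ (e + 1) * m = 2 * (2 ^ e * m) := by rw [pow_succ]; ring
    rcases Int.emod_two_eq_zero_or_one B with hB | hB
    · have e2 : Td 1 (2 ^ (e + 1) * m + B) = 2 ^ e * m + Td 1 B := by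
        rw [hT, hT, if_pos hB, if_pos (by omega), e1]
        omega
      rw [e2, ih, if_neg (by omega), Nat.zero_add, hTz]
    · have e2 : Td 1 (2 ^ (e + 1) * m + B) = 2 ^ e * (3 * m) + Td 1 B := by
        have e3 : (2 : ℤ) ^ e * (3 * m) = 3 * (2 ^ e * m) := by ring
        rw [hT, hT, if_neg (by omega), if_neg (by omega), e1, e3]
        omega
      rw [e2, ih, if_pos hB, hTz, pow_add, pow_one]
      ring

/-- merging with the affine images, for relatively almost all integers -/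
theorem aff_merge {s : ℤ} (hs : s = 1 ∨ s = -1) (e i : ℕ) (B : ℤ) :
    Negl (fun n => ¬ ∃ t : ℕ, 4 ^ t ≤ n ∧ (Td 1)^[t + e] (2 ^ e * 3 ^ i * (s * n) + B) = (Td 1)^[t] (s * n)) := by
  refine Negl.or (coal_fix hs (oc 1 e B + i) ((Td 1)^[e] B)) (coal_fix hs (oc 1 e B + i) ((Td 1)^[e] B))
    (fun n hn => Or.inl fun hC => hn ?_)
  obtain ⟨t, h1, h2, _⟩ := hC
  refine ⟨t, h1, ?_⟩
  rw [Function.iterate_add_apply, mul_assoc, Td_aff, ← mul_assoc, ← pow_add, h2]

/-- the trajectories are large before they merge -/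
theorem large_before {s : ℤ} (hs : s = 1 ∨ s = -1) (e i : ℕ) (B : ℤ) (R : ℕ) : ∃ n0 : ℕ, ∀ n : ℕ, n0 ≤ n →
    ∀ t : ℕ, 4 ^ t ≤ n → (∀ j ≤ t, (R : ℤ) < |(Td 1)^[j] (s * n)|) ∧
      ∀ j ≤ t + e, (R : ℤ) < |(Td 1)^[j] (2 ^ e * 3 ^ i * (s * n) + B)| := by
  have hss : s * s = 1 := by rcases hs with rfl | rfl <;> rfl
  have habs : |s| = 1 := by rcases hs with rfl | rfl <;> rfl
  set D : ℕ := 2 ^ (e + 1) * R with hD
  have key : ∀ (n t j : ℕ) (x : ℤ), D ^ 2 < n → 4 ^ t ≤ n → 0 < x → (n : ℤ) ≤ 2 * x → j ≤ t + e →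
      (R : ℤ) < |(Td 1)^[j] (s * x)| := by
    intro n t j x hn ht hx hnx hj
    obtain ⟨h1, h2⟩ := Tz_iter_half hss j hx
    rw [side_iter hs, abs_mul, habs, one_mul, abs_of_pos h2]
    by_contra hcon
    push Not at hcon
    have h3 : (2 : ℤ) ^ j ≤ 2 ^ (t + e) := pow_le_pow_right₀ (by norm_num) hj
    have h4 : x ≤ 2 ^ (t + e) * R :=
      h1.trans (mul_le_mul h3 hcon h2.le (by positivity))
    have h5 : (n : ℤ) ≤ 2 ^ t * D := by
      have e1 : (2 : ℤ) ^ t * ((2 ^ (e + 1) * R : ℕ) : ℤ) = 2 * (2 ^ (t + e) * R) := by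
        push_cast; rw [pow_add, pow_add]; ring
      rw [hD, e1]
      linarith
    have h6 : n ≤ 2 ^ t * D := by exact_mod_cast h5
    have h7 : 2 ^ t * 2 ^ t ≤ n := by
      have : 2 ^ t * 2 ^ t = 4 ^ t := by rw [← mul_pow]; norm_num
      rw [this]; exact ht
    have h8 : 2 ^ t ≤ D := Nat.le_of_mul_le_mul_left (h7.trans h6) (by positivity)
    have h9 : n ≤ D * D := h6.trans (Nat.mul_le_mul_right _ h8)
    rw [sq] at hn
    omega
  refine ⟨D ^ 2 + 1 + 2 * B.natAbs + 1, fun n hn t ht => ⟨fun j hj => ?_, fun j hj => ?_⟩⟩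
  · exact key n t j n (by omega) ht (by omega) (by omega) (by omega)
  · have e1 : (2 : ℤ) ^ e * 3 ^ i * (s * n) + B = s * (2 ^ e * 3 ^ i * n + s * B) := by
      have : s * (2 ^ e * 3 ^ i * (n : ℤ) + s * B) = 2 ^ e * 3 ^ i * (s * n) + (s * s) * B := by ring
      rw [this, hss, one_mul]
    rw [e1]
    have h1 : (n : ℤ) ≤ 2 ^ e * 3 ^ i * n := by
      have h2 : (1 : ℤ) ≤ 2 ^ e * 3 ^ i := one_le_mul_of_one_le_of_one_le
        (one_le_pow₀ (by norm_num)) (one_le_pow₀ (by norm_num))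
      have h3 : (0 : ℤ) ≤ n := Int.natCast_nonneg n
      nlinarith
    have h2 : -(B.natAbs : ℤ) ≤ s * B := by rcases hs with rfl | rfl <;> omega
    exact key n t j _ (by omega) ht (by omega) (by omega) hj

/-- first visits of `a` -/
def FV (a : ℤ) (k : ℕ) (x : ℤ) : Prop := (Td 1)^[k] x = a ∧ ∀ j < k, (Td 1)^[j] x ≠ a

theorem FV_shift {a x y : ℤ} {t e : ℕ} (h : (Td 1)^[t + e] y = (Td 1)^[t] x)
    (hx : ∀ j ≤ t, (Td 1)^[j] x ≠ a) (hy : ∀ j ≤ t + e, (Td 1)^[j] y ≠ a) (k : ℕ) :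
    FV a k x ↔ FV a (k + e) y := by
  have hl : ∀ l : ℕ, (Td 1)^[t + l + e] y = (Td 1)^[t + l] x := by
    intro l
    rw [show t + l + e = l + (t + e) by ring, Function.iterate_add_apply, h, ← Function.iterate_add_apply,
      Nat.add_comm l t]
  constructor
  · rintro ⟨h1, h2⟩
    have hk : t < k := by
      by_contra hcon
      exact hx k (by omega) h1
    obtain ⟨l, rfl⟩ := Nat.exists_eq_add_of_lt hk
    refine ⟨?_, fun j hj => ?_⟩
    · have := hl (l + 1)
      rw [← Nat.add_assoc] at this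
      rw [this]; exact h1
    · by_cases hj' : j ≤ t + e
      · exact hy j hj'
      · obtain ⟨m, rfl⟩ := Nat.exists_eq_add_of_le (show t + e ≤ j by omega)
        rw [show t + e + m = t + m + e by ring, hl m]
        exact h2 _ (by omega)
  · rintro ⟨h1, h2⟩
    have hk : t < k := by
      by_contra hcon
      exact hy (k + e) (by omega) h1
    obtain ⟨l, rfl⟩ := Nat.exists_eq_add_of_lt hk
    refine ⟨?_, fun j hj => ?_⟩
    · have := hl (l + 1)
      rw [← Nat.add_assoc] at this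
      rw [← this]; exact h1
    · by_cases hj' : j ≤ t
      · exact hx j hj'
      · obtain ⟨m, rfl⟩ := Nat.exists_eq_add_of_le (show t ≤ j by omega)
        rw [← hl m]
        exact h2 _ (by omega)

theorem Negl_not_iff {P Q : ℕ → Prop} (h : Negl P) (hPQ : ∀ n, Q n → P n) : Negl Q :=
  Negl.or h h fun n hn => Or.inl (hPQ n hn)

/-- merging before any visit of `a`, for relatively almost all integers -/
theorem aff_visit {s : ℤ} (hs : s = 1 ∨ s = -1) (e i : ℕ) (B a : ℤ) :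
    Negl (fun n => ¬ ((∃ t : ℕ, 4 ^ t ≤ n ∧ (Td 1)^[t + e] (2 ^ e * 3 ^ i * (s * n) + B) = (Td 1)^[t] (s * n)) ∧
      ∀ k : ℕ, FV a k (s * n) ↔ FV a (k + e) (2 ^ e * 3 ^ i * (s * n) + B))) := by
  obtain ⟨n0, hn0⟩ := large_before hs e i B a.natAbs
  refine Negl.or (aff_merge hs e i B) (Negl_lt n0) fun n hn => ?_
  by_contra hcon
  rw [not_or, not_not, not_lt] at hcon
  obtain ⟨⟨t, h1, h2⟩, h3⟩ := hcon
  apply hn
  refine ⟨⟨t, h1, h2⟩, ?_⟩
  obtain ⟨h4, h5⟩ := hn0 n h3 t h1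
  have hne : ∀ z : ℤ, ((a.natAbs : ℕ) : ℤ) < |z| → z ≠ a := by
    intro z hz hza
    rw [hza, Int.abs_eq_natAbs] at hz
    exact lt_irrefl _ hz
  exact FV_shift h2 (fun j hj => hne _ (h4 j hj)) (fun j hj => hne _ (h5 j hj))

end Pool.Agent.Y964.LW
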