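import Pool.Agent.Y964.LW.E4

/-! The law of the maximum excursion in multiplicative sets of odd integers. -/

set_option autoImplicit false

namespace Pool.Agent.Y964.LW

open Finset Filter Topology
open Pool.Agent.H499R2.ND (Bdd Bdd_inv Bdd_density Dn Tn Tn_eq AK AK_of_bound)
open Pool.Agent.H828R3.Exc (Pr PP ge_iff)
open Pool.Agent.W36.SL (Exc b b_pos b_lt_one s q s_sub_q q_le_s s_tendsto PP_mod)
open Pool.Agent.TH926.PX (log_ge pow_small card_odd_PP)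
open scoped Classical

/-- THE TAIL, for high levels -/
theorem exc_coarse {θ : ℝ} (hθ : 0 < θ) : ∃ v : ℝ, 0 < v ∧ ∀ c : ℝ, 0 < c → ∀ x0 : ℕ, ∃ (C : ℝ) (N0 : ℕ), 0 < C ∧
    ∀ N : ℕ, N0 ≤ N → ∀ y : ℝ, (N : ℝ) ^ θ ≤ y → ∀ lam : ℝ, 1 ≤ lam → lam ≤ (N : ℝ) ^ v →
    ∀ h : ℕ → ℝ, Wt c x0 h → SS h N (Exc lam y) ≤ C / lam * TT h N := by
  obtain ⟨c1, C0, hc1, _, hlaw⟩ := Pool.Agent.H828R3.Exc.law (ε := 1 / 20) (by norm_num)
  set t : ℝ := min (θ * c1) (1 / 16) with ht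
  have ht0 : 0 < t := lt_min (by positivity) (by norm_num)
  have ht1 : t ≤ 1 / 16 := min_le_right _ _
  refine ⟨t / 2, by positivity, fun c hc x0 => ?_⟩
  obtain ⟨N1, h1⟩ := pow_small 5 (show 0 < t / 2 by positivity) (2 * |C0| / c) (show (0 : ℝ) < 1 by norm_num)
  obtain ⟨N2, h2⟩ := pow_small 2 hθ 1 (show (0 : ℝ) < 1 by norm_num)
  obtain ⟨N3, h3⟩ := log_ge 1
  obtain ⟨C, N4, hC, h4⟩ := exc_up hc x0
  refine ⟨3 * C + 1, max (max N1 N2) (max (max N3 N4) (max x0 2)), by linarith, fun N hN y hy lam hl1 hl2 h w => ?_⟩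
  have g1 := h1 N (by omega)
  have g2 := h2 N (by omega)
  have g3 := h3 N (by omega)
  have hN2 : (2 : ℝ) ≤ N := by exact_mod_cast (by omega : 2 ≤ N)
  have hN0 : (0 : ℝ) < N := by linarith
  set L := Real.log N with hL
  have hL0 : 0 < L := by linarith
  have hy2 : L ^ 2 ≤ y := by
    refine le_trans ?_ hy
    rw [one_mul, Real.rpow_neg hN0.le, ← div_eq_mul_inv, div_le_one (by positivity)] at g2
    exact g2
  have hy1 : 1 ≤ y := le_trans (one_le_pow₀ g3) hy2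
  have g5 := (h4 N (by omega) y hy2 h w lam hl1).1
  have hT := TT_nonneg w.nn N
  have hTl := TT_low w (show x0 ≤ N by omega)
  have hlam0 : 0 < lam := by linarith
  have hli : (N : ℝ) ^ (-(t / 2)) ≤ 1 / lam := by
    rw [Real.rpow_neg hN0.le, ← one_div]
    exact one_div_le_one_div_of_le hlam0 hl2
  have h32 : (N : ℝ) ^ (-(1 / 32) : ℝ) ≤ 1 / lam := by
    refine le_trans ?_ hli
    apply Real.rpow_le_rpow_of_exponent_le (by linarith)
    linarith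
  -- the nonregular ones
  have g6 := hlaw N y ((N : ℝ) ^ 2) hN2 hy1 (by nlinarith)
  have e : (N : ℝ) ^ 2 / (N : ℝ) ^ 2 = 1 := div_self (by positivity)
  rw [e] at g6
  have e2 : {n : ℕ | 1 ≤ n ∧ (n : ℝ) ≤ N ∧ ¬ Pr (1 / 20) y ((N : ℝ) ^ 2) n} =
      (((Icc 1 N).filter (fun n => ¬ Pr (1 / 20) y ((N : ℝ) ^ 2) n) : Finset ℕ) : Set ℕ) := by
    ext n
    rw [coe_filter]
    simp only [Set.mem_ofPred_eq, mem_Icc, Nat.cast_le]
    tauto
  rw [e2, Set.ncard_coe_finset] at g6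
  have g7 : SS h N (fun n => ¬ Pr (1 / 20) y ((N : ℝ) ^ 2) n) ≤ 1 / lam * TT h N := by
    refine (SS_card w.le1 N _).trans (le_trans (le_of_eq ?_) (g6.trans ?_))
    · congr!
    · have h7 : (N : ℝ) / y ^ c1 ≤ (N : ℝ) ^ (1 - t) := by
        have h8 : (N : ℝ) ^ t ≤ y ^ c1 := by
          calc (N : ℝ) ^ t ≤ (N : ℝ) ^ (θ * c1) :=
                Real.rpow_le_rpow_of_exponent_le (by linarith) (min_le_left _ _)
            _ = ((N : ℝ) ^ θ) ^ c1 := by rw [Real.rpow_mul hN0.le]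
            _ ≤ y ^ c1 := Real.rpow_le_rpow (by positivity) hy hc1.le
        rw [Real.rpow_sub hN0, Real.rpow_one]
        exact div_le_div_of_nonneg_left hN0.le (by positivity) h8
      have h9 : (1 : ℝ) ≤ (N : ℝ) ^ (1 - t) := by
        apply Real.one_le_rpow (by linarith)
        linarith
      have h11 : C0 * L ^ 4 * (N / y ^ c1 + 1) ≤ |C0| * L ^ 4 * (2 * (N : ℝ) ^ (1 - t)) := by
        apply mul_le_mul _ (by linarith) (by positivity) (by positivity)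
        exact mul_le_mul_of_nonneg_right (le_abs_self C0) (by positivity)
      refine h11.trans ?_
      have e1 : (N : ℝ) ^ (1 - t) = N * (N : ℝ) ^ (-(t / 2)) * (N : ℝ) ^ (-(t / 2)) := by
        rw [mul_assoc, ← Real.rpow_add hN0]
        nth_rewrite 2 [← Real.rpow_one (N : ℝ)]
        rw [← Real.rpow_add hN0]
        congr 1; ring
      have h12 : |C0| * L ^ 4 * (2 * (N * (N : ℝ) ^ (-(t / 2)) * (N : ℝ) ^ (-(t / 2)))) =
          (2 * |C0| / c * (L ^ 5 * (N : ℝ) ^ (-(t / 2)))) * ((N : ℝ) ^ (-(t / 2)) * (c * (N / L))) := by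
        field_simp
      rw [e1, h12]
      have h13 : 0 ≤ (N : ℝ) ^ (-(t / 2)) * (c * (N / L)) := by positivity
      refine (mul_le_mul_of_nonneg_right g1 h13).trans ?_
      rw [one_mul]
      exact mul_le_mul hli hTl (by positivity) (by positivity)
  refine g5.trans ?_
  have h6 : C * (2 / lam + (N : ℝ) ^ (-(1 / 32) : ℝ)) * TT h N ≤ C * (2 / lam + 1 / lam) * TT h N := by
    apply mul_le_mul_of_nonneg_right _ hT
    apply mul_le_mul_of_nonneg_left _ (by linarith)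
    linarith
  have h7 : (3 * C + 1) / lam * TT h N = 1 / lam * TT h N + C * (2 / lam + 1 / lam) * TT h N := by ring
  linarith

/-- excursions above `f n * n` are negligible -/
theorem late_f {β : ℝ} (hβ : Dn Bdd β) {c : ℝ} (hc : 0 < c) (x0 : ℕ) {f : ℕ → ℝ} (hf : Tendsto f atTop atTop)
    {ε : ℝ} (hε : 0 < ε) : ∃ N0 : ℕ, ∀ N : ℕ, N0 ≤ N → ∀ h : ℕ → ℝ, Wt c x0 h →
    SS h N (fun n => Bdd n ∧ ∃ k, f n * n < ((Tn^[k] n : ℕ) : ℝ)) ≤ ε * TT h N := by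
  obtain ⟨C, hC, h1⟩ := late_tail hβ hc x0
  set lam : ℝ := max 1 (2 * C / ε) with hlam
  have hl1 : 1 ≤ lam := le_max_left _ _
  have hl2 : 2 * C / ε ≤ lam := le_max_right _ _
  obtain ⟨N1, h2⟩ := h1 lam hl1
  obtain ⟨n0, hn0⟩ := eventually_atTop.1 (hf.eventually_ge_atTop lam)
  obtain ⟨N2, h3⟩ := sum_large hc x0 (2 * n0 / ε)
  refine ⟨max N1 N2, fun N hN h w => ?_⟩
  have g1 := h2 N (by omega) h w
  have g2 := h3 N (by omega) h w.nn w.hyp
  have hT := TT_nonneg w.nn N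
  have g3 : SS h N (fun n => Bdd n ∧ ∃ k, f n * n < ((Tn^[k] n : ℕ) : ℝ)) ≤
      SS h N (fun n => Bdd n ∧ ∃ k, lam * n < ((Tn^[k] n : ℕ) : ℝ)) + SS h N (fun n => n < n0) := by
    apply SS_or w.nn
    rintro n hn _ ⟨hb, k, hk⟩
    rcases Nat.lt_or_ge n n0 with h4 | h4
    · exact Or.inr h4
    · left
      refine ⟨hb, k, lt_of_le_of_lt ?_ hk⟩
      exact mul_le_mul_of_nonneg_right (hn0 n h4) (Nat.cast_nonneg _)
  have g4 : SS h N (fun n => n < n0) ≤ n0 := by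
    refine (SS_card w.le1 N _).trans ?_
    have e2 : (Icc 1 N).filter (fun n : ℕ => n < n0) ⊆ range n0 := by
      intro n hn
      rw [mem_filter] at hn
      exact mem_range.2 hn.2
    have e3 := card_le_card e2
    rw [card_range] at e3
    have e4 : (((Icc 1 N).filter (fun n : ℕ => n < n0)).card : ℝ) ≤ n0 := by exact_mod_cast e3
    refine le_trans (le_of_eq ?_) e4
    congr!
  have g5 : (n0 : ℝ) ≤ ε / 2 * TT h N := by
    rw [div_le_iff₀ hε] at g2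
    unfold TT
    linarith
  have g6 : C / lam ≤ ε / 2 := by
    rw [div_le_iff₀ (by linarith)]
    rw [div_le_iff₀ hε] at hl2
    linarith
  have g7 : C / lam * TT h N ≤ ε / 2 * TT h N := mul_le_mul_of_nonneg_right g6 hT
  linarith

/-- the number of the odd safe classes -/
theorem card_safe (J : ℕ) {lam : ℝ} (h : 1 < lam) :
    (((range (2 ^ (J + 1))).filter fun n => n % 2 = 1 ∧ ¬ PP lam (J + 1) n).card : ℝ) =
      2 ^ J * s J (2 * lam / 3) := by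
  have h1 := card_odd_PP J h
  have h2 : (((range (2 ^ (J + 1))).filter fun n => n % 2 = 1).card : ℝ) = 2 ^ J := by
    have e : (range (2 ^ (J + 1))).filter (fun n => n % 2 = 1) = (range (2 ^ J)).image (fun m => 2 * m + 1) := by
      ext n
      rw [mem_filter, mem_range, mem_image]
      constructor
      · rintro ⟨h3, h4⟩
        rw [pow_succ] at h3
        exact ⟨n / 2, mem_range.2 (by omega), by omega⟩
      · rintro ⟨m, hm, rfl⟩
        rw [mem_range] at hm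
        rw [pow_succ]
        omega
    rw [e, card_image_of_injective _ (fun a b hab => by
      have : 2 * a + 1 = 2 * b + 1 := hab
      omega), card_range]
    push_cast; rfl
  have h3 := Finset.card_filter_add_card_filter_not
    (s := (range (2 ^ (J + 1))).filter fun n => n % 2 = 1) (fun n => PP lam (J + 1) n)
  rw [filter_filter, filter_filter] at h3
  have h4 : (((range (2 ^ (J + 1))).filter fun n => n % 2 = 1 ∧ PP lam (J + 1) n).card : ℝ) +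
      (((range (2 ^ (J + 1))).filter fun n => n % 2 = 1 ∧ ¬ PP lam (J + 1) n).card : ℝ) = 2 ^ J := by
    rw [← h2]; exact_mod_cast h3
  have h5 : (((range (2 ^ (J + 1))).filter fun n => n % 2 = 1 ∧ PP lam (J + 1) n).card : ℝ) =
      2 ^ J * (1 - s J (2 * lam / 3)) := by
    rw [← h1]
  linarith

/-- the law in sets -/
theorem law_set {β : ℝ} (hβ : Dn Bdd β) {c : ℝ} (hc : 0 < c) (x0 : ℕ) : ∃ C : ℝ, 0 < C ∧
    ∀ lam : ℝ, 1 < lam → ∀ (K : ℕ) (ε : ℝ), 1 ≤ K → 0 < ε → ∃ N0 : ℕ, ∀ N : ℕ, N0 ≤ N → ∀ E : Set ℕ,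
      (0 ∉ E ∧ 1 ∈ E ∧ ∀ m n : ℕ, m.Coprime n → (m * n ∈ E ↔ m ∈ E ∧ n ∈ E)) → (∀ n ∈ E, Odd n) →
      (∀ x : ℕ, x0 ≤ x → c * (x / Real.log x) ≤ {p : ℕ | p.Prime ∧ p ≤ x ∧ p ∈ E}.ncard) →
      |({n : ℕ | n ≤ N ∧ n ∈ E ∧ ∀ k, ((Tn^[k] n : ℕ) : ℝ) ≤ lam * n}.ncard : ℝ) -
        β * {n : ℕ | n ≤ N ∧ n ∈ E ∧ ¬ PP lam K n}.ncard| ≤ (C * b ^ K + ε) * {n : ℕ | n ≤ N ∧ n ∈ E}.ncard := by
  obtain ⟨C, hC, h1⟩ := law_fn hβ hc x0
  refine ⟨C, hC, fun lam hlam K ε hK hε => ?_⟩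
  obtain ⟨N0, h0⟩ := h1 lam hlam K ε hK hε
  refine ⟨N0, fun N hN E hE ho hp => ?_⟩
  obtain ⟨h, g, hv, gv, hM, gM, h01, hg, hyp, cntE, cnt0⟩ := set_weight hE hp
  have h1 := h0 N hN h hM h01 (fun n hn => by
    rw [hv, if_neg]
    intro h3
    exact (Nat.not_odd_iff_even.2 hn) (ho n h3)) hyp g gM hg
  rw [cntE N (fun n => ∀ k, ((Tn^[k] n : ℕ) : ℝ) ≤ lam * n), cntE N (fun n => ¬ PP lam K n), cnt0]
  have e4 : ∑ n ∈ (Icc 1 N).filter (fun n => ∀ k, ((Tn^[k] n : ℕ) : ℝ) ≤ lam * n), g n -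
        β * ∑ n ∈ (Icc 1 N).filter (fun n => ¬ PP lam K n), g n =
      ((∑ n ∈ (Icc 1 N).filter (fun n => ∀ k, ((Tn^[k] n : ℕ) : ℝ) ≤ lam * n), h n -
        β * ∑ n ∈ (Icc 1 N).filter (fun n => ¬ PP lam K n), h n : ℝ) : ℂ) := by
    simp only [gv]
    push_cast
    rfl
  rw [e4, Complex.norm_real, Real.norm_eq_abs] at h1
  convert h1

/-- sets equidistributed in the odd classes modulo powers of two -/
theorem law_equi {β : ℝ} (hβ : Dn Bdd β) (hβ0 : 0 ≤ β) (hβ1 : β ≤ 1) {c : ℝ} (hc : 0 < c) (x0 : ℕ) {E : Set ℕ}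
    (hE : 0 ∉ E ∧ 1 ∈ E ∧ ∀ m n : ℕ, m.Coprime n → (m * n ∈ E ↔ m ∈ E ∧ n ∈ E)) (ho : ∀ n ∈ E, Odd n)
    (hp : ∀ x : ℕ, x0 ≤ x → c * (x / Real.log x) ≤ {p : ℕ | p.Prime ∧ p ≤ x ∧ p ∈ E}.ncard)
    (heq : ∀ K a : ℕ, 1 ≤ K → Odd a → Tendsto (fun N : ℕ => ({n : ℕ | n ≤ N ∧ n ∈ E ∧ n % 2 ^ K = a % 2 ^ K}.ncard : ℝ) /
      {n : ℕ | n ≤ N ∧ n ∈ E}.ncard) atTop (𝓝 (2 / 2 ^ K))) {lam : ℝ} (hlam : 1 < lam) :
    Tendsto (fun N : ℕ => ({n : ℕ | n ≤ N ∧ n ∈ E ∧ ∀ k, ((Tn^[k] n : ℕ) : ℝ) ≤ lam * n}.ncard : ℝ) /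
      {n : ℕ | n ≤ N ∧ n ∈ E}.ncard) atTop (𝓝 (β * q (2 * lam / 3))) := by
  obtain ⟨C, hC, h1⟩ := law_set hβ hc x0
  -- the safe classes
  have hsafe : ∀ J : ℕ, Tendsto (fun N : ℕ => ({n : ℕ | n ≤ N ∧ n ∈ E ∧ ¬ PP lam (J + 1) n}.ncard : ℝ) /
      {n : ℕ | n ≤ N ∧ n ∈ E}.ncard) atTop (𝓝 (s J (2 * lam / 3))) := by
    intro J
    set R := (range (2 ^ (J + 1))).filter fun n => n % 2 = 1 ∧ ¬ PP lam (J + 1) n with hR
    have e1 : ∀ N : ℕ, ({n : ℕ | n ≤ N ∧ n ∈ E ∧ ¬ PP lam (J + 1) n}.ncard : ℝ) =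
        ∑ a ∈ R, ({n : ℕ | n ≤ N ∧ n ∈ E ∧ n % 2 ^ (J + 1) = a % 2 ^ (J + 1)}.ncard : ℝ) := by
      intro N
      obtain ⟨h, g, hv, gv, hM, gM, h01, hg, hyp, cntE, cnt0⟩ := set_weight hE hp
      rw [cntE N (fun n => ¬ PP lam (J + 1) n)]
      have e2 : ∀ a ∈ R, ({n : ℕ | n ≤ N ∧ n ∈ E ∧ n % 2 ^ (J + 1) = a % 2 ^ (J + 1)}.ncard : ℝ) =
          ∑ n ∈ ((Icc 1 N).filter (fun n => n % 2 = 1 ∧ ¬ PP lam (J + 1) n)).filter (fun n => n % 2 ^ (J + 1) = a), h n := by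
        intro a ha
        rw [hR, mem_filter, mem_range] at ha
        rw [cntE N (fun n => n % 2 ^ (J + 1) = a % 2 ^ (J + 1)), Nat.mod_eq_of_lt ha.1, filter_filter]
        rw [sum_filter, sum_filter]
        apply sum_congr rfl
        intro n _
        by_cases h5 : n % 2 ^ (J + 1) = a
        · have h6 : n % 2 = 1 := by
            rw [← Nat.mod_mod_of_dvd n (dvd_pow_self 2 (show J + 1 ≠ 0 by omega)), h5]; exact ha.2.1
          have h7 : ¬ PP lam (J + 1) n := by rw [← PP_mod, h5]; exact ha.2.2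
          rw [if_pos h5, if_pos ⟨⟨h6, h7⟩, h5⟩]
        · rw [if_neg h5, if_neg (fun h6 => h5 h6.2)]
      rw [sum_congr rfl e2, sum_fiberwise_of_maps_to (fun n hn => by
        rw [mem_filter] at hn
        rw [hR, mem_filter, mem_range]
        refine ⟨Nat.mod_lt _ (by positivity), ?_, ?_⟩
        · rw [Nat.mod_mod_of_dvd _ (dvd_pow_self 2 (show J + 1 ≠ 0 by omega))]; exact hn.2.1
        · rw [PP_mod]; exact hn.2.2)]
      rw [sum_filter, sum_filter]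
      apply sum_congr rfl
      intro n _
      by_cases h5 : ¬ PP lam (J + 1) n
      · by_cases h6 : n % 2 = 1
        · rw [if_pos h5, if_pos ⟨h6, h5⟩]
        · rw [if_pos h5, if_neg (fun h7 => h6 h7.1), hv, if_neg]
          intro h7
          exact h6 (Nat.odd_iff.1 (ho n h7))
      · rw [if_neg h5, if_neg (fun h7 => h5 h7.2)]
    have e3 : ∀ N : ℕ, ({n : ℕ | n ≤ N ∧ n ∈ E ∧ ¬ PP lam (J + 1) n}.ncard : ℝ) / {n : ℕ | n ≤ N ∧ n ∈ E}.ncard =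
        ∑ a ∈ R, ({n : ℕ | n ≤ N ∧ n ∈ E ∧ n % 2 ^ (J + 1) = a % 2 ^ (J + 1)}.ncard : ℝ) /
          {n : ℕ | n ≤ N ∧ n ∈ E}.ncard := by
      intro N
      rw [e1, sum_div]
    have e4 : s J (2 * lam / 3) = ∑ _a ∈ R, (2 / 2 ^ (J + 1) : ℝ) := by
      rw [sum_const, nsmul_eq_mul, hR, card_safe J hlam]
      rw [pow_succ]
      field_simp
    rw [e4]
    refine (tendsto_finsetSum R fun a ha => ?_).congr fun N => (e3 N).symm
    rw [hR, mem_filter] at ha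
    exact heq (J + 1) a (by omega) (Nat.odd_iff.2 ha.2.1)
  rw [Metric.tendsto_atTop]
  intro ε hε
  have t1 : Tendsto (fun J : ℕ => C * b ^ (J + 1)) atTop (𝓝 0) := by
    have := ((tendsto_pow_atTop_nhds_zero_of_lt_one b_pos.le b_lt_one).comp (tendsto_add_atTop_nat 1)).const_mul C
    simpa using this
  have t2 : Tendsto (fun J : ℕ => |s J (2 * lam / 3) - q (2 * lam / 3)|) atTop (𝓝 0) := by
    have := ((s_tendsto (2 * lam / 3)).sub_const (q (2 * lam / 3))).abs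
    simpa using this
  obtain ⟨J, hJ1, hJ2⟩ := ((t1.eventually (gt_mem_nhds (show (0 : ℝ) < ε / 8 by positivity))).and
    (t2.eventually (gt_mem_nhds (show (0 : ℝ) < ε / 8 by positivity)))).exists
  obtain ⟨N1, g1⟩ := h1 lam hlam (J + 1) (ε / 8) (by omega) (by positivity)
  obtain ⟨N2, g2⟩ := Metric.tendsto_atTop.1 (hsafe J) (ε / 8) (by positivity)
  refine ⟨max N1 N2 + 1, fun N hN => ?_⟩
  have f1 := g1 N (by omega) E hE ho hp
  have f2 := g2 N (by omega)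
  rw [Real.dist_eq] at f2 ⊢
  have hpos := pos_ncard hE.2.1 (show 1 ≤ N by omega)
  set X : ℝ := ({n : ℕ | n ≤ N ∧ n ∈ E ∧ ∀ k, ((Tn^[k] n : ℕ) : ℝ) ≤ lam * n}.ncard : ℝ)
  set Y : ℝ := ({n : ℕ | n ≤ N ∧ n ∈ E ∧ ¬ PP lam (J + 1) n}.ncard : ℝ)
  set Z : ℝ := ({n : ℕ | n ≤ N ∧ n ∈ E}.ncard : ℝ)
  have f3 : |X / Z - β * (Y / Z)| ≤ ε / 8 + ε / 8 := by
    have e : X / Z - β * (Y / Z) = (X - β * Y) / Z := by field_simp
    rw [e, abs_div, abs_of_pos hpos, div_le_iff₀ hpos]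
    refine f1.trans ?_
    apply mul_le_mul_of_nonneg_right _ hpos.le
    linarith
  have f4 : |β * (Y / Z) - β * q (2 * lam / 3)| ≤ ε / 8 + ε / 8 := by
    rw [← mul_sub, abs_mul, abs_of_nonneg hβ0]
    have f5 : |Y / Z - q (2 * lam / 3)| ≤ ε / 8 + ε / 8 := by
      calc |Y / Z - q (2 * lam / 3)| = |(Y / Z - s J (2 * lam / 3)) + (s J (2 * lam / 3) - q (2 * lam / 3))| := by
            congr 1; ring
        _ ≤ _ := (abs_add_le _ _).trans (add_le_add f2.le hJ2.le)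
    calc β * |Y / Z - q (2 * lam / 3)| ≤ 1 * (ε / 8 + ε / 8) := mul_le_mul hβ1 f5 (abs_nonneg _) zero_le_one
      _ = _ := one_mul _
  calc |X / Z - β * q (2 * lam / 3)| = |(X / Z - β * (Y / Z)) + (β * (Y / Z) - β * q (2 * lam / 3))| := by
        congr 1; ring
    _ ≤ (ε / 8 + ε / 8) + (ε / 8 + ε / 8) := (abs_add_le _ _).trans (add_le_add f3 f4)
    _ < ε := by linarith

end Pool.Agent.Y964.LW
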