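import Pool.Agent.Y964.LW.C3
import Pool.Agent.H499R2.NDCol

/-! Relative laws, sign `+`. -/

set_option autoImplicit false

namespace Pool.Agent.Y964.LW

open Finset Filter Topology
open Pool.Agent.H499R2.CO (Tz)
open Pool.Agent.H499R2.ND (Dn Tn Td Phi Phi_continuous phi_cdf Bas CC BasC CN_run)
open Pool.Agent.H499R2.LT (odn od od_nat Td_nat law_one law_oneC ocn oC_nat Dn_sum Dn_iff)
open Pool.Agent.H499R2.HL (H H_two H_of_two H_unique odn_two bk bo nu rr nu_pos rr_pos sqrt_rr law_k law_o oc_odn)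
open scoped Classical

theorem CC_CN : CC = Pool.Agent.H363R2.CN := rfl

theorem Tn_TN : Tn = Pool.Agent.H363R2.TN := Pool.Agent.H499R2.ND.TN_eq_Tn.symm

theorem hitC_of {n k : ℕ} (hn : 1 ≤ n) (h : H k n) : CC^[k + odn k n] n = 1 ∧ ∀ i < k + odn k n, CC^[i] n ≠ 1 := by
  have h1 := CN_run k n hn (by rw [← Tn_TN]; exact h.1) (by rw [← Tn_TN]; exact h.2)
  rw [oc_odn] at h1
  exact h1

theorem hitC {n l : ℕ} (hn : 1 ≤ n) : (CC^[l] n = 1 ∧ ∀ i < l, CC^[i] n ≠ 1) ↔ ∃ k, H k n ∧ l = k + odn k n := by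
  constructor
  · rintro ⟨h1, h2⟩
    obtain ⟨k, hk⟩ := (hit_iff n).1 ((BasC n).2 ⟨l, h1⟩)
    obtain ⟨h3, h4⟩ := hitC_of hn hk
    refine ⟨k, hk, ?_⟩
    rcases lt_trichotomy l (k + odn k n) with h5 | h5 | h5
    · exact absurd h1 (h4 l h5)
    · exact h5
    · exact absurd h3 (h2 _ h5)
  · rintro ⟨k, hk, rfl⟩
    exact hitC_of hn hk

theorem ocn_run (k : ℕ) : ∀ n : ℕ, ocn (k + odn k n) n = odn k n := by
  induction k with
  | zero => intro n; rfl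
  | succ k ih =>
    intro n
    rw [odn_succ]
    by_cases h : n % 2 = 0
    · rw [if_pos h, show k + 1 + (0 + odn k (Tn n)) = (k + odn k (Tn n)) + 1 by ring, ocn_succ, if_pos h]
      have e : CC n = Tn n := by unfold CC; simp only [Tn]; rw [if_pos h, if_pos h]
      rw [e, ih]
    · rw [if_neg h, show k + 1 + (1 + odn k (Tn n)) = ((k + odn k (Tn n)) + 1) + 1 by ring, ocn_succ, if_neg h,
        ocn_succ]
      have e : CC n = 3 * n + 1 := by unfold CC; rw [if_neg h]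
      have e2 : CC (3 * n + 1) = Tn n := by
        unfold CC; simp only [Tn]; rw [if_neg h, if_pos (by omega)]
      rw [e, if_pos (by omega), e2, ih, zero_add]

theorem rel_laws : ∃ δ : ℝ, 0 < δ ∧ δ ≤ 1 ∧ (δ = 1 ↔ ∀ n : ℕ, 1 ≤ n → ∃ k : ℕ, Tn^[k] n = 1) ∧
    Dn (fun n => ∃ k : ℕ, Tn^[k] n = 1) δ ∧ RL (fun n => ∃ k, H k n) δ ∧
    ∀ (m : ℕ) (a b : ℤ), 1 ≤ m →
      RL (fun n => ∃ k, H k n ∧ ((k : ℤ) ≡ a [ZMOD m] ∧ (odn k n : ℤ) ≡ b [ZMOD m])) (δ / m ^ 2) ∧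
      RL (fun n => ∃ k, H k n ∧ (odn k n : ℤ) ≡ b [ZMOD m]) (δ / m) ∧
      ∀ x : ℝ,
        RL (fun n => ∃ k, H k n ∧ ((k : ℝ) ≤ bk x (Real.log n) ∧ (k : ℤ) ≡ a [ZMOD m] ∧
          (odn k n : ℤ) ≡ b [ZMOD m])) (δ / m ^ 2 * Phi x) ∧
        RL (fun n => ∃ k, H k n ∧ (((k + odn k n : ℕ) : ℝ) ≤ bc x (Real.log n) ∧
          ((k + odn k n : ℕ) : ℤ) ≡ a [ZMOD m] ∧ (odn k n : ℤ) ≡ b [ZMOD m])) (δ / m ^ 2 * Phi x) ∧
        RL (fun n => ∃ k, H k n ∧ ((odn k n : ℝ) ≤ bo x (Real.log n) ∧ (odn k n : ℤ) ≡ b [ZMOD m]))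
          (δ / m * Phi x) := by
  obtain ⟨δ, h0, h1, h2, h3, h4⟩ := law_one
  obtain ⟨δ1, _, _, _, h31, h41⟩ := law_k
  obtain ⟨δ2, _, _, _, h32, h42⟩ := law_oneC
  have e1 : δ1 = δ := tendsto_nhds_unique h31 h3
  have e2 : δ2 = δ := by
    refine tendsto_nhds_unique (Dn_iff (fun n _ => ?_) h32) h3
    exact (BasC n).symm
  rw [e1] at h41
  rw [e2] at h42
  have hnu := nu_pos
  have hrr := rr_pos
  have hl2 : 0 < Real.log 2 := Real.log_pos (by norm_num)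
  have hl3 : 0 < Real.log 3 := Real.log_pos (by norm_num)
  have hl6 : 0 < Real.log 6 := Real.log_pos (by norm_num)
  have s1 : (1 : ℤ) = 1 ∨ (1 : ℤ) = -1 := Or.inl rfl
  have hB : Dn (fun n => ∃ k, H k n) δ := Dn_iff (fun n _ => hit_iff n) h3
  have c0 : Continuous (fun _ : ℝ => δ) := continuous_const
  refine ⟨δ, h0, h1, h2, h3, ?_, fun m a b hm => ⟨?_, ?_, fun x => ⟨?_, ?_, ?_⟩⟩⟩
  · have A := mkFam (ι := Unit) (fun _ _ _ _ => True) id 0 1 1 (fun _ _ => δ) le_rfl one_pos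
      (fun _ _ _ _ _ _ h => h) (fun _ _ _ _ => Iff.rfl) (fun _ _ => rfl) (fun _ _ => ⟨h0.le, h1⟩) (fun _ => c0)
      (fun _ _ => by simpa using hB)
    have h5 := (mkFam (ι := Unit) (fun _ _ _ _ => True) id 0 1 1 (fun _ _ => δ) le_rfl one_pos
      (fun _ _ _ _ _ _ h => h) (fun _ _ _ _ => Iff.rfl) (fun _ _ => rfl) (fun _ _ => ⟨h0.le, h1⟩) (fun _ => c0)
      (fun _ _ => by simpa using hB)).RL s1 () 0
    refine RL_congr 0 (fun n _ => ?_) h5
    show (∃ k, H k n ∧ True) ↔ _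
    simp
  · have h5 := (mkFam (ι := ℤ × ℤ) (fun i _ k o => (k : ℤ) ≡ i.1 [ZMOD m] ∧ (o : ℤ) ≡ i.2 [ZMOD m])
      (fun i => (i.1 - 1, i.2)) 0 1 1 (fun _ _ => δ / (m : ℝ) ^ 2) le_rfl one_pos
      (fun _ _ _ _ _ _ h => h) (fun i _ k o => by rw [mod_succ]) (fun _ _ => rfl) (fun _ _ => div_sq_le h0 h1 hm)
      (fun _ => continuous_const)
      (fun i _ => (h4 m i.1 i.2 hm).1)).RL s1 (a, b) 0
    exact h5
  · have h5 := (mkFam (ι := ℤ) (fun i _ _ o => (o : ℤ) ≡ i [ZMOD m])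
      id 0 1 1 (fun _ _ => δ / (m : ℝ)) le_rfl one_pos
      (fun _ _ _ _ _ _ h => h) (fun i _ k o => Iff.rfl) (fun _ _ => rfl) (fun _ _ => div_le' h0 h1 hm)
      (fun _ => continuous_const)
      (fun i _ => (h41 m i hm).1)).RL s1 b 0
    exact h5
  · have h5 := (mkFam (ι := ℤ × ℤ) (fun i τ k o => (k : ℝ) ≤ τ ∧ (k : ℤ) ≡ i.1 [ZMOD m] ∧ (o : ℤ) ≡ i.2 [ZMOD m])
      (fun i => (i.1 - 1, i.2)) 1 (2 / Real.log (4 / 3)) (Real.log 3 * rr) (fun _ x => δ / (m : ℝ) ^ 2 * Phi x)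
      zero_le_one (by positivity)
      (fun _ _ _ _ _ h1 h => ⟨h.1.trans h1, h.2⟩) (fun i τ k o => by
        rw [mod_succ, le_sub_iff_add_le]; push_cast; rfl) (fun _ _ => rfl)
      (fun _ x => mul01 (div_sq_le h0 h1 hm) (phi01 x))
      (fun _ => Phi_continuous.const_mul _)
      (fun i x => by
        have h6 := (h4 m i.1 i.2 hm).2 x
        have e : δ * ProbabilityTheory.cdf (ProbabilityTheory.gaussianReal 0 1) x / (m : ℝ) ^ 2
            = δ / m ^ 2 * Phi x := by rw [phi_cdf]; ring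
        rw [e] at h6
        refine Dn_iff (fun n _ => exists_congr fun k => ?_) h6
        rw [← bk_thr]
        unfold bk H
        tauto)).RL s1 (a, b) x
    refine RL_congr 0 (fun n _ => ?_) h5
    rw [bk_thr]
    exact Iff.rfl
  · have h5 := (mkFam (ι := ℤ × ℤ) (fun i τ k o => ((k + o : ℕ) : ℝ) ≤ τ ∧ ((k + o : ℕ) : ℤ) ≡ i.1 [ZMOD m] ∧
        (o : ℤ) ≡ i.2 [ZMOD m])
      (fun i => (i.1 - 1, i.2)) 1 (3 / Real.log (4 / 3)) (Real.log 6 * rr) (fun _ x => δ / (m : ℝ) ^ 2 * Phi x)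
      zero_le_one (by positivity)
      (fun _ _ _ _ _ h1 h => ⟨h.1.trans h1, h.2⟩) (fun i τ k o => by
        rw [show k + 1 + o = (k + o) + 1 by ring, mod_succ, le_sub_iff_add_le]; push_cast; rfl) (fun _ _ => rfl)
      (fun _ x => mul01 (div_sq_le h0 h1 hm) (phi01 x))
      (fun _ => Phi_continuous.const_mul _)
      (fun i x => by
        have h6 := h42 m i.1 i.2 hm x
        have e : δ * ProbabilityTheory.cdf (ProbabilityTheory.gaussianReal 0 1) x / (m : ℝ) ^ 2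
            = δ / m ^ 2 * Phi x := by rw [phi_cdf]; ring
        rw [e] at h6
        refine Dn_iff (fun n hn => ?_) h6
        rw [← bc_thr]
        constructor
        · rintro ⟨l, g1, g2, g3, g4⟩
          obtain ⟨k, hk, rfl⟩ := (hitC hn).1 g2
          rw [ocn_run] at g4
          exact ⟨k, hk, g1, g3, g4⟩
        · rintro ⟨k, hk, g1, g3, g4⟩
          exact ⟨k + odn k n, g1, (hitC hn).2 ⟨k, hk, rfl⟩, g3, by rw [ocn_run]; exact g4⟩)).RL s1 (a, b) x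
    refine RL_congr 0 (fun n _ => ?_) h5
    rw [bc_thr]
    exact Iff.rfl
  · have h5 := (mkFam (ι := ℤ) (fun i τ _ o => (o : ℝ) ≤ τ ∧ (o : ℤ) ≡ i [ZMOD m])
      id 0 (1 / Real.log (4 / 3)) (Real.log 2 * rr) (fun _ x => δ / (m : ℝ) * Phi x)
      le_rfl (by positivity)
      (fun _ _ _ _ _ h1 h => ⟨h.1.trans h1, h.2⟩) (fun i τ k o => by
        rw [sub_zero]; rfl) (fun _ _ => rfl)
      (fun _ x => mul01 (div_le' h0 h1 hm) (phi01 x))
      (fun _ => Phi_continuous.const_mul _)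
      (fun i x => by
        refine Dn_iff (fun n _ => exists_congr fun k => ?_) (law_o (h41 m i hm).2 x)
        rw [← bo_thr]
        tauto)).RL s1 b x
    refine RL_congr 0 (fun n _ => ?_) h5
    rw [bo_thr]
    exact Iff.rfl

/-- THE LAW OF LARGE NUMBERS -/
theorem lln {f : ℕ → ℕ → ℝ} {α σ δ η : ℝ} (hσ : 0 < σ) (hδ0 : 0 ≤ δ) (hδ1 : δ ≤ 1) (hη : 0 < η)
    (h1 : ∀ x, RL (fun n => ∃ k, H k n ∧ f k n ≤ thr α σ x (Real.log n)) (δ * Phi x))
    (h2 : RL (fun n => ∃ k, H k n) δ) :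
    RL (fun n => ∃ k, H k n ∧ |f k n - α * Real.log n| ≤ η * Real.log n) δ := by
  have t1 : Tendsto Phi atTop (𝓝 1) := by
    have := ProbabilityTheory.tendsto_cdf_atTop (ProbabilityTheory.gaussianReal 0 1)
    refine this.congr fun x => ?_
    rw [phi_cdf]
  have t2 : Tendsto Phi atBot (𝓝 0) := by
    have := ProbabilityTheory.tendsto_cdf_atBot (ProbabilityTheory.gaussianReal 0 1)
    refine this.congr fun x => ?_
    rw [phi_cdf]
  refine RL_squeeze fun ζ hζ => ?_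
  obtain ⟨x1, hx1⟩ := eventually_atTop.1 (t1.eventually_const_lt (show 1 - ζ / 2 < 1 by linarith))
  obtain ⟨x2, hx2⟩ := eventually_atBot.1 (t2.eventually_lt_const (show (0 : ℝ) < ζ / 2 by linarith))
  set X : ℝ := max (max x1 (-x2)) 1 with hX
  have hX0 : 0 < X := lt_of_lt_of_le one_pos (le_max_right _ _)
  have a1 := hx1 X ((le_max_left _ _).trans (le_max_left _ _))
  have a2 := hx2 (-X) (by
    have : -x2 ≤ X := (le_max_right _ _).trans (le_max_left _ _)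
    linarith)
  have hmono : ∀ n : ℕ, (∃ k, H k n ∧ f k n ≤ thr α σ (-X) (Real.log n)) →
      (∃ k, H k n ∧ f k n ≤ thr α σ X (Real.log n)) := by
    rintro n ⟨k, hk, h3⟩
    refine ⟨k, hk, h3.trans ?_⟩
    unfold thr
    have : 0 ≤ σ * Real.sqrt (Real.log n) := by positivity
    nlinarith
  have hd := RL_diff (h1 (-X)) (h1 X) hmono (R := fun n => (∃ k, H k n ∧ f k n ≤ thr α σ X (Real.log n)) ∧
    ¬ (∃ k, H k n ∧ f k n ≤ thr α σ (-X) (Real.log n))) (fun _ => Iff.rfl)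
  have tl : Tendsto (fun n : ℕ => Real.sqrt (Real.log n)) atTop atTop :=
    Real.tendsto_sqrt_atTop.comp (Real.tendsto_log_atTop.comp tendsto_natCast_atTop_atTop)
  obtain ⟨n0, hn0⟩ := eventually_atTop.1 (tl.eventually_ge_atTop (X * σ / η))
  refine ⟨_, _, _, δ, n0, fun n hn h => ?_, fun n _ h => ?_, hd, h2, ?_, le_rfl, ?_⟩
  · obtain ⟨⟨k, hk, h3⟩, h4⟩ := h
    refine ⟨k, hk, ?_⟩
    have h5 : ¬ f k n ≤ thr α σ (-X) (Real.log n) := fun h6 => h4 ⟨k, hk, h6⟩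
    push Not at h5
    have h6 := hn0 n hn
    rw [div_le_iff₀ hη] at h6
    have h7 : 0 ≤ Real.log n := Real.log_natCast_nonneg n
    have h8 := Real.sq_sqrt h7
    have h9 := Real.sqrt_nonneg (Real.log n)
    have h10 : X * (σ * Real.sqrt (Real.log n)) ≤ η * Real.log n := by
      have h11 := mul_le_mul_of_nonneg_right h6 h9
      nlinarith
    unfold thr at h3 h5
    rw [abs_le]
    constructor <;> linarith
  · obtain ⟨k, hk, _⟩ := h
    exact ⟨k, hk⟩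
  · have b1 := (phi01 X).2
    have b2 := (phi01 (-X)).1
    nlinarith
  · have b1 := (phi01 X).2
    have b2 := (phi01 (-X)).1
    nlinarith

end Pool.Agent.Y964.LW
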