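import Pool.Agent.Y964.LW.C5
import Pool.Agent.Y964.LW.C3
import Pool.Agent.Y856.PD.D

/-! Relative frequencies of sets of positive integers which are invariant under the `3x+1` map at all
integers whose trajectories exceed a fixed height; predecessor sets. -/

set_option autoImplicit false

namespace Pool.Agent.Y964.LW

open Finset Filter Topology
open Pool.Agent.H499R2.CO (Tz)
open Pool.Agent.H499R2.ND (Dn Tn Td cnt)
open Pool.Agent.Y856.PD (Ev Pr dens dens_spec dens_lower dens_three cnt_ncard)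
open scoped Classical

/-- invariant at all integers whose trajectories exceed `R` -/
def AbR (R : ℕ) (P : ℕ → Prop) : Prop := ∀ n : ℕ, 1 ≤ n → (∃ i, R < Tn^[i] n) → (P n ↔ P (Tn n))

theorem Tn_pos' {n : ℕ} (hn : 1 ≤ n) : 1 ≤ Tn n := by
  simp only [Tn]
  split_ifs <;> omega

theorem AbR.iter {R : ℕ} {P : ℕ → Prop} (h : AbR R P) (j : ℕ) : ∀ n : ℕ, 1 ≤ n → R < Tn^[j] n →
    (P n ↔ P (Tn^[j] n)) := by
  induction j with
  | zero => intro n _ _; rfl
  | succ j ih =>
    intro n hn hR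
    rw [h n hn ⟨j + 1, hR⟩, Function.iterate_succ_apply]
    rw [Function.iterate_succ_apply] at hR
    exact ih (Tn n) (Tn_pos' hn) hR

theorem Tn_pow (i n : ℕ) : Tn^[i] (2 ^ i * n) = n := by
  induction i with
  | zero => simp
  | succ i ih =>
    rw [Function.iterate_succ_apply]
    have : Tn (2 ^ (i + 1) * n) = 2 ^ i * n := by
      have e : 2 ^ (i + 1) * n = 2 * (2 ^ i * n) := by rw [pow_succ]; ring
      rw [e]
      exact Pool.Agent.Y856.PD.Tn_two _
    rw [this, ih]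

theorem AbR.pow {R : ℕ} {P : ℕ → Prop} (h : AbR R P) (i j n : ℕ) (hn : 1 ≤ n) (hR : R < Tn^[j] n) :
    (P (2 ^ i * n) ↔ P (Tn^[j] n)) := by
  have e : Tn^[j + i] (2 ^ i * n) = Tn^[j] n := by
    rw [Function.iterate_add_apply, Tn_pow]
  have h1 := h.iter (j + i) (2 ^ i * n) (Nat.mul_pos (by positivity) hn) (by rw [e]; exact hR)
  rwa [e] at h1

/-- finitely many integers do not matter -/
theorem Dn_fin {P Q : ℕ → Prop} {R : ℕ} (h : ∀ n, R < n → (P n ↔ Q n)) {d : ℝ} (hP : Dn P d) : Dn Q d := by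
  have key : ∀ {P Q : ℕ → Prop}, (∀ n, R < n → (P n ↔ Q n)) → ∀ N, cnt P N ≤ cnt Q N + (R + 1) := by
    intro P Q h N
    rw [cnt_ncard, cnt_ncard]
    have hsub : {n : ℕ | 1 ≤ n ∧ n ≤ N ∧ P n} ⊆ {n : ℕ | 1 ≤ n ∧ n ≤ N ∧ Q n} ∪ Set.Iic R := by
      rintro n ⟨h1, h2, h3⟩
      rcases Nat.lt_or_ge R n with h4 | h4
      · exact Or.inl ⟨h1, h2, (h n h4).1 h3⟩
      · exact Or.inr h4
    have h1 := (Set.ncard_le_ncard hsub (((Set.finite_Iic N).subset fun n hn => hn.2.1).union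
      (Set.finite_Iic R))).trans (Set.ncard_union_le _ _)
    have h2 : (Set.Iic R : Set ℕ).ncard = R + 1 := by
      rw [← Finset.coe_Iic, Set.ncard_coe_finset, Nat.card_Iic]
    rw [h2] at h1
    exact_mod_cast h1
  have t0 : Tendsto (fun N : ℕ => ((R : ℝ) + 1) / N) atTop (𝓝 0) :=
    tendsto_const_div_atTop_nhds_zero_nat _
  have t1 : Tendsto (fun N : ℕ => cnt Q N / N - cnt P N / N) atTop (𝓝 0) := by
    refine squeeze_zero_norm (fun N => ?_) t0
    have h1 := key h N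
    have h2 := key (fun n hn => (h n hn).symm) N
    rw [← sub_div, Real.norm_eq_abs, abs_div, Nat.abs_cast]
    apply div_le_div_of_nonneg_right _ (Nat.cast_nonneg N)
    rw [abs_le]
    constructor <;> linarith
  have t2 := t1.add hP
  rw [zero_add] at t2
  refine t2.congr fun N => ?_
  ring

theorem AbR.ev {R : ℕ} {P : ℕ → Prop} (h : AbR R P) : Ev R P := fun n hn => h n (by omega) ⟨0, hn⟩

theorem Dn_01 {P : ℕ → Prop} {d : ℝ} (h : Dn P d) : 0 ≤ d ∧ d ≤ 1 := by
  constructor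
  · exact ge_of_tendsto' h fun N => div_nonneg (by rw [cnt_ncard]; exact Nat.cast_nonneg _) (Nat.cast_nonneg _)
  · refine le_of_tendsto' h fun N => ?_
    apply div_le_one_of_le₀ _ (Nat.cast_nonneg _)
    rw [cnt_ncard]
    have hsub : {n : ℕ | 1 ≤ n ∧ n ≤ N ∧ P n} ⊆ ((Icc 1 N : Finset ℕ) : Set ℕ) := by
      rintro n ⟨h1, h2, h3⟩
      rw [Finset.coe_Icc]
      exact ⟨h1, h2⟩
    have h1 := Set.ncard_le_ncard hsub (Finset.finite_toSet _)
    rw [Set.ncard_coe_finset, Nat.card_Icc, Nat.add_sub_cancel] at h1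
    exact_mod_cast h1

/-- the family -/
noncomputable def AbR.fam {R : ℕ} {P : ℕ → Prop} (h : AbR R P) {d : ℝ} (hd : Dn P d) : Fam 1 R ℕ where
  E := fun i _ n => P (2 ^ i * n)
  sh := fun i => i + 1
  w := 0
  α := 0
  σ := 1
  F := fun _ _ => d
  hw := le_rfl
  hσ := one_pos
  mono := fun _ _ _ _ _ hn => hn
  same := by
    intro i τ j x y hx hy h1 _ h3 hP
    rw [Tz_nat, Tz_nat] at h1
    rw [Tz_nat] at h3
    have h1' : Tn^[j] x = Tn^[j] y := by exact_mod_cast h1
    have h3' : R < Tn^[j] x := by exact_mod_cast h3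
    rw [h.pow i j y hy (by rw [← h1']; exact h3'), ← h1', ← h.pow i j x hx h3']
    exact hP
  two := by
    intro i τ n _
    have e : 2 ^ i * (2 * n) = 2 ^ (i + 1) * n := by rw [pow_succ]; ring
    rw [e]
  Fsh := fun _ _ => rfl
  F01 := fun _ _ => Dn_01 hd
  cont := fun _ => continuous_const
  law := by
    intro i x
    refine Dn_fin (R := R) (fun n hn => ?_) hd
    exact (h.pow i 0 n (by omega) hn).symm

/-- relative frequencies -/
theorem AbR.RL {R : ℕ} {P : ℕ → Prop} (h : AbR R P) {d : ℝ} (hd : Dn P d) : RL P d := by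
  have h1 := (h.fam hd).RL (Or.inl rfl) 0 0
  refine RL_congr 0 (fun n _ => ?_) h1
  show P (2 ^ 0 * n) ↔ P n
  rw [pow_zero, one_mul]

theorem AbR.exists {R : ℕ} {P : ℕ → Prop} (h : AbR R P) : ∃ d : ℝ, Dn P d := h.ev.density

/-- predecessor sets of integers with bounded trajectories -/
theorem pr_abr {a R : ℕ} (hR : ∀ k, Tn^[k] a ≤ R) : AbR R (Pr a) := by
  intro n _ hex
  constructor
  · rintro ⟨k, hk⟩
    rcases k with _ | k
    · have hna : n = a := hk
      obtain ⟨i, hi⟩ := hex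
      rw [hna] at hi
      exact absurd (hR i) (not_le.2 hi)
    · exact ⟨k, by rwa [Function.iterate_succ_apply] at hk⟩
  · rintro ⟨k, hk⟩
    exact ⟨k + 1, by rwa [Function.iterate_succ_apply]⟩

/-- integers whose trajectories merge with the one of `a` -/
def Mg (a n : ℕ) : Prop := ∃ i j : ℕ, Tn^[i] n = Tn^[j] a

theorem mg_abr (a : ℕ) : AbR 0 (Mg a) := by
  intro n _ _
  constructor
  · rintro ⟨i, j, h⟩
    exact ⟨i, j + 1, by rw [← Function.iterate_succ_apply, Function.iterate_succ_apply', h,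
      Function.iterate_succ_apply']⟩
  · rintro ⟨i, j, h⟩
    exact ⟨i + 1, j, by rwa [Function.iterate_succ_apply]⟩

theorem Dn_le {P Q : ℕ → Prop} {d e : ℝ} (hP : Dn P d) (hQ : Dn Q e) (h : ∀ n, P n → Q n) : d ≤ e := by
  refine le_of_tendsto_of_tendsto' hP hQ fun N => ?_
  apply div_le_div_of_nonneg_right _ (Nat.cast_nonneg _)
  exact Pool.Agent.H499R2.ND.cnt_mono N fun n _ _ => h n

/-- the density of the merging set -/
noncomputable def mdens (a : ℕ) : ℝ := Classical.choose (mg_abr a).exists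

theorem mdens_spec (a : ℕ) : Dn (Mg a) (mdens a) := Classical.choose_spec (mg_abr a).exists

theorem dens_le_mdens (a : ℕ) : dens a ≤ mdens a :=
  Dn_le (dens_spec a) (mdens_spec a) fun _ ⟨k, hk⟩ => ⟨k, 0, hk⟩

theorem pr_RL {a R : ℕ} (hR : ∀ k, Tn^[k] a ≤ R) : RL (Pr a) (dens a) := (pr_abr hR).RL (dens_spec a)

theorem mg_RL (a : ℕ) : RL (Mg a) (mdens a) := (mg_abr a).RL (mdens_spec a)

end Pool.Agent.Y964.LW
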