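import Pool.Agent.Y964.LW.F1
import Pool.Agent.H499R2.CO.R3

/-! The forms used in the result on Gao's question. -/

set_option autoImplicit false

namespace Pool.Agent.Y964.LW

open Finset Filter Topology
open Pool.Agent.H499R2.CO (surv step q q_lim q_quant q_rate rho rho_sq rho_pos rho_nonneg rho_le rho_log log_pos' clog_bound
  L_bound count_surv surv_periodic Cz coalC iter_persist)
open Pool.Agent.Y964.SE
open scoped Classical

/-- merging at a time between `1` and `K` -/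
def TogC (K : ℝ) (S : Finset ℤ) (n : ℕ) : Prop :=
  ∃ k : ℕ, 1 ≤ k ∧ (k : ℝ) ≤ K ∧ ∀ b ∈ S, Cz^[k] ((n : ℤ) + b) = Cz^[k] (n : ℤ)

theorem TogC_of {k : ℕ} {K : ℝ} {S : Finset ℤ} {n : ℕ} (hk : 1 ≤ k) (hK : (2 * k : ℝ) ≤ K) (h : AllC (2 * k) S n) :
    TogC K S n := ⟨2 * k, by omega, by push_cast; exact hK, h⟩

theorem TogC_mono {K K' : ℝ} (h : K ≤ K') {S : Finset ℤ} {n : ℕ} (hT : TogC K S n) : TogC K' S n := by
  obtain ⟨k, h1, h2, h3⟩ := hT
  exact ⟨k, h1, h2.trans h, h3⟩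

/-- sums over smaller sets -/
theorem sum_sub {P Q : ℕ → Prop} {h : ℕ → ℝ} (hh0 : ∀ n, 0 ≤ h n) (hPQ : ∀ n, P n → Q n) (N : ℕ) :
    ∑ n ∈ Icc 1 N, (if P n then h n else 0) ≤ ∑ n ∈ Icc 1 N, (if Q n then h n else 0) := by
  apply sum_le_sum
  intro n _
  have h0 := hh0 n
  by_cases hP : P n
  · rw [if_pos hP, if_pos (hPQ n hP)]
  · rw [if_neg hP]; split_ifs <;> linarith

theorem bdd_tog {c : ℝ} (hc : 0 < c) (x0 : ℕ) {ε : ℝ} (hε : 0 < ε) (S : Finset ℤ) :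
    ∃ (K N0 : ℕ), 1 ≤ K ∧ ∀ N : ℕ, N0 ≤ N →
    ∀ h : ℕ → ℝ, (∀ n, 0 ≤ h n) → (∀ n, h n ≤ 1) → h 1 = 1 →
    (∀ m n : ℕ, Nat.Coprime m n → h (m * n) = h m * h n) → HypD c x0 h →
    ∑ n ∈ Icc 1 N, (if ¬ TogC K S n then h n else 0) ≤ ε * ∑ n ∈ Icc 1 N, h n := by
  obtain ⟨k, N0, hk, h1⟩ := set_bdd hc x0 hε S
  refine ⟨2 * k, N0, by omega, fun N hN h hh0 hh1 hh hm hyp => ?_⟩
  refine le_trans (sum_le_sum fun n _ => ?_) (h1 N hN h hh0 hh1 hh hm hyp)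
  have h0 := hh0 n
  by_cases hA : AllC (2 * k) S n
  · rw [if_neg (not_not.2 (TogC_of hk (by push_cast; exact le_rfl) hA)), if_neg (not_not.2 hA)]
  · rw [if_pos hA]; split_ifs <;> linarith

/-- arbitrarily slowly growing times -/
theorem slow_tog (S : Finset ℤ) {g : ℕ → ℝ} (hg : Tendsto g atTop atTop) : Negl (fun n => ¬ TogC (g n) S n) := by
  intro c hc x0 ε hε
  obtain ⟨K, N1, hK, h1⟩ := bdd_tog hc x0 (half_pos hε) S
  obtain ⟨n0, hn0⟩ := eventually_atTop.1 (hg.eventually_ge_atTop (K : ℝ))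
  obtain ⟨N2, h2⟩ := Negl_lt n0 c hc x0 (ε / 2) (half_pos hε)
  refine ⟨max N1 N2, fun N hN h hh0 hh1 hh hm hyp => ?_⟩
  have f1 := h1 N ((le_max_left _ _).trans hN) h hh0 hh1 hh hm hyp
  have f2' := h2 N ((le_max_right _ _).trans hN) h hh0 hh1 hh hm hyp
  have f2 : ∑ n ∈ Icc 1 N, (if n < n0 then h n else 0) ≤ ε / 2 * ∑ n ∈ Icc 1 N, h n := by convert f2'
  have f3 : ∑ n ∈ Icc 1 N, (if ¬ TogC (g n) S n then h n else 0) ≤
      ∑ n ∈ Icc 1 N, ((if ¬ TogC K S n then h n else 0) + (if n < n0 then h n else 0)) := by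
    apply sum_le_sum
    intro n _
    have h0 := hh0 n
    by_cases hn : n < n0
    · rw [if_pos hn]; split_ifs <;> linarith
    · rw [if_neg hn, add_zero]
      by_cases hT : TogC K S n
      · rw [if_neg (not_not.2 (TogC_mono (hn0 n (not_lt.1 hn)) hT)), if_neg (not_not.2 hT)]
      · rw [if_pos hT]; split_ifs <;> linarith
  rw [sum_add_distrib] at f3
  have : ε * ∑ n ∈ Icc 1 N, h n = ε / 2 * ∑ n ∈ Icc 1 N, h n + ε / 2 * ∑ n ∈ Icc 1 N, h n := by ring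
  have f4 : ∑ n ∈ Icc 1 N, (if ¬ TogC (g n) S n then h n else 0) ≤ ε * ∑ n ∈ Icc 1 N, h n := by linarith
  convert f4

/-- the integers below `√N` -/
theorem small_w {c : ℝ} (hc : 0 < c) (x0 : ℕ) : ∃ N0 : ℕ, 2 ≤ N0 ∧ ∀ N : ℕ, N0 ≤ N → ∀ M : ℕ, M ^ 2 ≤ N →
    ∀ h : ℕ → ℝ, (∀ n, 0 ≤ h n) → (∀ n, h n ≤ 1) → HypD c x0 h →
    ∑ n ∈ Icc 1 N, (if n < M then h n else 0) ≤ (N : ℝ) ^ (-(1 / 4) : ℝ) * ∑ n ∈ Icc 1 N, h n := by
  have t1 : Tendsto (fun N : ℕ => Real.log N / (N : ℝ) ^ ((1 : ℝ) / 4)) atTop (𝓝 0) := by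
    have h2 : Tendsto (fun x : ℝ => Real.log x / x ^ ((1 : ℝ) / 4)) atTop (𝓝 0) :=
      (isLittleO_log_rpow_atTop (by norm_num)).tendsto_div_nhds_zero
    exact h2.comp tendsto_natCast_atTop_atTop
  obtain ⟨N2, hN2⟩ := eventually_atTop.1 (t1.eventually_lt_const hc)
  refine ⟨max (max N2 x0) 2, le_max_right _ _, fun N hN M hM h hh0 hh1 hyp => ?_⟩
  have hNN2 : N2 ≤ N := ((le_max_left _ _).trans (le_max_left _ _)).trans hN
  have hNx : x0 ≤ N := ((le_max_right _ _).trans (le_max_left _ _)).trans hN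
  have hN2' : 2 ≤ N := (le_max_right _ _).trans hN
  have hNp : (0 : ℝ) < N := by exact_mod_cast (by omega : 0 < N)
  have hlog : 0 < Real.log N := Real.log_pos (by exact_mod_cast (by omega : 1 < N))
  have f1 : ∑ n ∈ Icc 1 N, (if n < M then h n else 0) ≤ M := by
    have e : ∑ n ∈ Icc 1 N, (if n < M then h n else 0) ≤ ∑ n ∈ range M, (1 : ℝ) := by
      rw [← sum_filter]
      refine (sum_le_sum fun n _ => hh1 n).trans ?_
      apply sum_le_sum_of_subset_of_nonneg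
      · intro n hn
        rw [mem_filter] at hn
        exact mem_range.2 hn.2
      · intro _ _ _; exact zero_le_one
    rwa [sum_const, card_range, nsmul_eq_mul, mul_one] at e
  have f2 : (M : ℝ) ≤ (N : ℝ) ^ ((1 : ℝ) / 2) := by
    rw [← Real.sqrt_eq_rpow]
    apply Real.le_sqrt_of_sq_le
    exact_mod_cast hM
  have f3 : c * (N / Real.log N) ≤ ∑ n ∈ Icc 1 N, h n := by
    refine (hyp N hNx).trans ?_
    apply sum_le_sum_of_subset_of_nonneg
    · intro p hp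
      rw [mem_PN] at hp
      rw [mem_Icc]
      exact ⟨hp.2.one_lt.le, hp.1⟩
    · intro n _ _; exact hh0 n
  have f4 : (N : ℝ) ^ ((1 : ℝ) / 2) ≤ (N : ℝ) ^ (-(1 / 4) : ℝ) * (c * (N / Real.log N)) := by
    have h6 := hN2 N hNN2
    have hr0 : (0 : ℝ) < (N : ℝ) ^ ((1 : ℝ) / 4) := by positivity
    rw [div_lt_iff₀ hr0] at h6
    have e1 : (N : ℝ) ^ (-(1 / 4) : ℝ) * (c * (N / Real.log N)) =
        c * ((N : ℝ) ^ (-(1 / 4) : ℝ) * N) / Real.log N := by ring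
    have e2 : (N : ℝ) ^ (-(1 / 4) : ℝ) * N = (N : ℝ) ^ ((1 : ℝ) / 2) * (N : ℝ) ^ ((1 : ℝ) / 4) := by
      rw [← Real.rpow_add hNp]
      nth_rewrite 2 [← Real.rpow_one (N : ℝ)]
      rw [← Real.rpow_add hNp]; norm_num
    rw [e1, e2, le_div_iff₀ hlog]
    have h7 : (0 : ℝ) < (N : ℝ) ^ ((1 : ℝ) / 2) := by positivity
    nlinarith
  calc ∑ n ∈ Icc 1 N, (if n < M then h n else 0) ≤ (N : ℝ) ^ ((1 : ℝ) / 2) := f1.trans f2
    _ ≤ (N : ℝ) ^ (-(1 / 4) : ℝ) * (c * (N / Real.log N)) := f4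
    _ ≤ _ := mul_le_mul_of_nonneg_left f3 (by positivity)

theorem log_time {N n : ℕ} (hn : 4 ^ (Nat.log 2 N / 4) ≤ n) :
    (2 * ((Nat.log 2 N / 4 : ℕ) : ℝ)) ≤ Real.logb 2 n := by
  have hn0 : (0 : ℝ) < n := by
    have : 0 < 4 ^ (Nat.log 2 N / 4) := by positivity
    exact_mod_cast (by omega : 0 < n)
  rw [Real.le_logb_iff_rpow_le (by norm_num) hn0]
  have h1 : ((4 ^ (Nat.log 2 N / 4) : ℕ) : ℝ) ≤ n := by exact_mod_cast hn
  refine le_trans (le_of_eq ?_) h1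
  rw [Real.rpow_mul (by norm_num), Real.rpow_natCast]
  push_cast
  norm_num

theorem sq_log {N : ℕ} (hN : 2 ≤ N) : (4 ^ (Nat.log 2 N / 4)) ^ 2 ≤ N := by
  have : (4 ^ (Nat.log 2 N / 4)) ^ 2 = 2 ^ (4 * (Nat.log 2 N / 4)) := by
    rw [← pow_mul, show (4 : ℕ) = 2 ^ 2 by norm_num, ← pow_mul]
    congr 1; ring
  rw [this]
  refine le_trans (Nat.pow_le_pow_right (by norm_num) ?_) (Nat.pow_log_le_self 2 (by omega : N ≠ 0))
  omega

/-- shifts of size `N ^ θ`, time `log₂ n` -/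
theorem shift_tog {c : ℝ} (hc : 0 < c) (x0 : ℕ) {ε : ℝ} (hε : 0 < ε) :
    ∃ (θ : ℝ) (N0 : ℕ), 0 < θ ∧ ∀ N : ℕ, N0 ≤ N → ∀ B : ℤ, |(B : ℝ)| ≤ (N : ℝ) ^ θ →
    ∀ h : ℕ → ℝ, (∀ n, 0 ≤ h n) → (∀ n, h n ≤ 1) → h 1 = 1 →
    (∀ m n : ℕ, Nat.Coprime m n → h (m * n) = h m * h n) → HypD c x0 h →
    ∑ n ∈ Icc 1 N, (if ¬ TogC (Real.logb 2 n) {B} n then h n else 0) ≤ ε * ∑ n ∈ Icc 1 N, h n := by
  obtain ⟨θ, N1, hθ, h1⟩ := shift_unif hc x0 (half_pos hε)
  obtain ⟨N2, hN2, h2⟩ := small_w hc x0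
  have t1 : Tendsto (fun N : ℕ => (N : ℝ) ^ (-(1 / 4) : ℝ)) atTop (𝓝 0) :=
    (tendsto_rpow_neg_atTop (show (0 : ℝ) < 1 / 4 by norm_num)).comp tendsto_natCast_atTop_atTop
  obtain ⟨N3, hN3⟩ := eventually_atTop.1 (t1.eventually_lt_const (half_pos hε))
  refine ⟨θ, max (max N1 N2) (max N3 16), hθ, fun N hN B hB h hh0 hh1 hh hm hyp => ?_⟩
  have hNN1 : N1 ≤ N := ((le_max_left _ _).trans (le_max_left _ _)).trans hN
  have hNN2 : N2 ≤ N := ((le_max_right _ _).trans (le_max_left _ _)).trans hN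
  have hNN3 : N3 ≤ N := ((le_max_left _ _).trans (le_max_right _ _)).trans hN
  have hN16 : 16 ≤ N := ((le_max_right _ _).trans (le_max_right _ _)).trans hN
  have hk1 : 1 ≤ Nat.log 2 N / 4 := by
    have : 4 ≤ Nat.log 2 N := (Nat.le_log_iff_pow_le (by norm_num) (by omega)).2 (by norm_num; exact hN16)
    omega
  have f1 := h1 N hNN1 B hB h hh0 hh1 hh hm hyp
  have f2 := h2 N hNN2 _ (sq_log (by omega)) h hh0 hh1 hyp
  have hsum0 : 0 ≤ ∑ n ∈ Icc 1 N, h n := sum_nonneg fun n _ => hh0 n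
  have f3 : ∑ n ∈ Icc 1 N, (if ¬ TogC (Real.logb 2 n) {B} n then h n else 0) ≤
      ∑ n ∈ Icc 1 N, ((if ¬ AllC (2 * (Nat.log 2 N / 4)) {B} n then h n else 0) +
        (if n < 4 ^ (Nat.log 2 N / 4) then h n else 0)) := by
    apply sum_le_sum
    intro n _
    have h0 := hh0 n
    by_cases hn : n < 4 ^ (Nat.log 2 N / 4)
    · rw [if_pos hn]; split_ifs <;> linarith
    · rw [if_neg hn, add_zero]
      by_cases hT : AllC (2 * (Nat.log 2 N / 4)) {B} n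
      · rw [if_neg (not_not.2 (TogC_of hk1 (log_time (not_lt.1 hn)) hT)), if_neg (not_not.2 hT)]
      · rw [if_pos hT]; split_ifs <;> linarith
  rw [sum_add_distrib] at f3
  have f4 := mul_le_mul_of_nonneg_right (hN3 N hNN3).le hsum0
  have : ε * ∑ n ∈ Icc 1 N, h n = ε / 2 * ∑ n ∈ Icc 1 N, h n + ε / 2 * ∑ n ∈ Icc 1 N, h n := by ring
  linarith

/-- the rate, time `log₂ n`, odd weights -/
theorem rate_tog {c : ℝ} (hc : 0 < c) (x0 : ℕ) : ∃ (C : ℝ) (N0 : ℕ), 0 < C ∧ ∀ N : ℕ, N0 ≤ N → ∀ (G : ℕ)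
    (S : Finset ℤ), S.Nonempty → (∀ b ∈ S, |b| ≤ (G : ℤ)) →
    ∀ h : ℕ → ℝ, (∀ n, 0 ≤ h n) → (∀ n, h n ≤ 1) → h 1 = 1 →
    (∀ m n : ℕ, Nat.Coprime m n → h (m * n) = h m * h n) → (∀ n, n % 2 = 0 → h n = 0) → HypD c x0 h →
    ∑ n ∈ Icc 1 N, (if ¬ TogC (Real.logb 2 n) S n then h n else 0) ≤
      C * #S * √ ((1 + Real.log (1 + G)) * (Real.log (Real.log N) / Real.log N)) * ∑ n ∈ Icc 1 N, h n := by
  obtain ⟨C1, N1, hC1, h1⟩ := set_lin hc x0
  obtain ⟨N2, hN2, h2⟩ := small_w hc x0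
  have t1 : Tendsto (fun N : ℕ => Real.log N / (N : ℝ) ^ ((1 : ℝ) / 2)) atTop (𝓝 0) := by
    have h2 : Tendsto (fun x : ℝ => Real.log x / x ^ ((1 : ℝ) / 2)) atTop (𝓝 0) :=
      (isLittleO_log_rpow_atTop (by norm_num)).tendsto_div_nhds_zero
    exact h2.comp tendsto_natCast_atTop_atTop
  obtain ⟨N3, hN3⟩ := eventually_atTop.1 (t1.eventually_lt_const (show (0 : ℝ) < 1 by norm_num))
  refine ⟨C1 * 6 + 2, max (max N1 N2) (max N3 16), by positivity, fun N hN G S hS hG h hh0 hh1 hh hm hodd hyp => ?_⟩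
  have hNN1 : N1 ≤ N := ((le_max_left _ _).trans (le_max_left _ _)).trans hN
  have hNN2 : N2 ≤ N := ((le_max_right _ _).trans (le_max_left _ _)).trans hN
  have hNN3 : N3 ≤ N := ((le_max_left _ _).trans (le_max_right _ _)).trans hN
  have hN16 : 16 ≤ N := ((le_max_right _ _).trans (le_max_right _ _)).trans hN
  have hNp : (0 : ℝ) < N := by exact_mod_cast (by omega : 0 < N)
  have hlog : 0 < Real.log N := Real.log_pos (by exact_mod_cast (by omega : 1 < N))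
  set k := Nat.log 2 N / 4 with hk
  have hk1 : 1 ≤ k := by
    have : 4 ≤ Nat.log 2 N := (Nat.le_log_iff_pow_le (by norm_num) (by omega)).2 (by norm_num; exact hN16)
    omega
  have h4k : 2 ^ (4 * k) ≤ N := by
    refine le_trans (Nat.pow_le_pow_right (by norm_num) ?_) (Nat.pow_log_le_self 2 (by omega : N ≠ 0))
    omega
  have h2k : (2 : ℝ) ^ k ≤ (N : ℝ) ^ ((1 : ℝ) / 4) := by
    have h5 : (2 : ℝ) ^ (4 * k) ≤ N := by exact_mod_cast h4k
    have h6 : ((2 : ℝ) ^ (4 * k)) ^ ((1 : ℝ) / 4) = 2 ^ k := by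
      rw [← Real.rpow_natCast, ← Real.rpow_mul (by norm_num), ← Real.rpow_natCast]
      congr 1; push_cast; ring
    rw [← h6]
    exact Real.rpow_le_rpow (by positivity) h5 (by norm_num)
  have f1 := h1 N hNN1 k G S hk1 h2k hS hG h hh0 hh1 hh hm hodd hyp
  have f2 := h2 N hNN2 _ (sq_log (by omega)) h hh0 hh1 hyp
  rw [← hk] at f2
  have hsum0 : 0 ≤ ∑ n ∈ Icc 1 N, h n := sum_nonneg fun n _ => hh0 n
  have f3 : ∑ n ∈ Icc 1 N, (if ¬ TogC (Real.logb 2 n) S n then h n else 0) ≤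
      ∑ n ∈ Icc 1 N, ((if ¬ AllC (2 * k) S n then h n else 0) + (if n < 4 ^ k then h n else 0)) := by
    apply sum_le_sum
    intro n _
    have h0 := hh0 n
    by_cases hn : n < 4 ^ k
    · rw [if_pos hn]; split_ifs <;> linarith
    · rw [if_neg hn, add_zero]
      by_cases hT : AllC (2 * k) S n
      · rw [if_neg (not_not.2 (TogC_of hk1 (log_time (not_lt.1 hn)) hT)), if_neg (not_not.2 hT)]
      · rw [if_pos hT]; split_ifs <;> linarith
  rw [sum_add_distrib] at f3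
  -- the rates
  obtain ⟨hk4, hρ⟩ := rho_log hN16
  have hρ' : rho k ≤ 3 * rho (Nat.log 2 N) := by
    apply rho_le hk1 (by omega) (by norm_num)
    have : Nat.log 2 N ≤ 9 * k := by omega
    have : (Nat.log 2 N : ℝ) ≤ 9 * k := by exact_mod_cast this
    linarith
  set X : ℝ := 1 + Real.log (1 + G) with hX
  have hlG : 0 ≤ Real.log (1 + (G : ℝ)) := Real.log_nonneg (by
    have : (0 : ℝ) ≤ G := by positivity
    linarith)
  have hX1 : 1 ≤ X := by linarith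
  set R : ℝ := √ (X * (Real.log (Real.log N) / Real.log N)) with hR
  have hR0 : 0 ≤ R := Real.sqrt_nonneg _
  have g1 : √ (X * (Real.log (k + 1) / k)) ≤ 6 * R := by
    have e1 : √ (X * (Real.log (k + 1) / k)) = √ X * rho k := by
      rw [Real.sqrt_mul (by linarith)]; rfl
    have e2 : √ X * √ (2 * Real.log (Real.log N) / Real.log N) ≤ 2 * R := by
      rw [← Real.sqrt_mul (by linarith)]
      have e : X * (2 * Real.log (Real.log N) / Real.log N) = 2 * (X * (Real.log (Real.log N) / Real.log N)) := by ring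
      rw [e, Real.sqrt_mul (by norm_num)]
      apply mul_le_mul_of_nonneg_right _ hR0
      rw [Real.sqrt_le_left (by norm_num)]
      norm_num
    rw [e1]
    have h5 : 0 ≤ √ X := Real.sqrt_nonneg _
    calc √ X * rho k ≤ √ X * (3 * √ (2 * Real.log (Real.log N) / Real.log N)) :=
          mul_le_mul_of_nonneg_left (hρ'.trans (by linarith)) h5
      _ = 3 * (√ X * √ (2 * Real.log (Real.log N) / Real.log N)) := by ring
      _ ≤ 6 * R := by linarith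
  have hll : 1 / 2 ≤ Real.log (Real.log N) := by
    have h5 : (2 : ℝ) ≤ Real.log N := by
      have h6 : Real.log 16 ≤ Real.log N := Real.log_le_log (by norm_num) (by exact_mod_cast hN16)
      have h7 : Real.log 16 = 4 * Real.log 2 := by
        rw [show (16 : ℝ) = 2 ^ 4 by norm_num, Real.log_pow]; norm_num
      have h8 := Real.log_two_gt_d9
      linarith
    have h6 := Real.log_le_log (by norm_num) h5
    have h8 := Real.log_two_gt_d9
    linarith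
  have g2 : (N : ℝ) ^ (-(1 / 4) : ℝ) ≤ 2 * R := by
    have e1 : ((N : ℝ) ^ (-(1 / 4) : ℝ)) ^ 2 = (N : ℝ) ^ (-(1 / 2) : ℝ) := by
      rw [← Real.rpow_natCast, ← Real.rpow_mul hNp.le]; norm_num
    have h5 : (N : ℝ) ^ (-(1 / 2) : ℝ) ≤ 1 / Real.log N := by
      have h6 := hN3 N hNN3
      have hr0 : (0 : ℝ) < (N : ℝ) ^ ((1 : ℝ) / 2) := by positivity
      rw [div_lt_iff₀ hr0, one_mul] at h6
      rw [Real.rpow_neg hNp.le, ← one_div]
      exact one_div_le_one_div_of_le hlog h6.le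
    have h6 : (N : ℝ) ^ (-(1 / 4) : ℝ) / 2 ≤ R := by
      rw [hR]
      apply Real.le_sqrt_of_sq_le
      rw [div_pow, e1]
      have h7 : 1 / Real.log N ≤ 2 * (Real.log (Real.log N) / Real.log N) := by
        rw [← mul_div_assoc]
        exact div_le_div_of_nonneg_right (by linarith) hlog.le
      have h8 : 0 ≤ Real.log (Real.log N) / Real.log N := div_nonneg (by linarith) hlog.le
      nlinarith
    linarith
  have hS1 : (1 : ℝ) ≤ #S := by exact_mod_cast card_pos.2 hS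
  have g3 : C1 * #S * √ (X * (Real.log (k + 1) / k)) * ∑ n ∈ Icc 1 N, h n ≤
      C1 * #S * (6 * R) * ∑ n ∈ Icc 1 N, h n :=
    mul_le_mul_of_nonneg_right (mul_le_mul_of_nonneg_left g1 (by positivity)) hsum0
  have g4 : (N : ℝ) ^ (-(1 / 4) : ℝ) * ∑ n ∈ Icc 1 N, h n ≤ (2 * #S * R) * ∑ n ∈ Icc 1 N, h n := by
    apply mul_le_mul_of_nonneg_right _ hsum0
    nlinarith
  have : (C1 * 6 + 2) * #S * R * ∑ n ∈ Icc 1 N, h n =
      C1 * #S * (6 * R) * ∑ n ∈ Icc 1 N, h n + (2 * #S * R) * ∑ n ∈ Icc 1 N, h n := by ring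
  linarith

end Pool.Agent.Y964.LW
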