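import Pool.Agent.W41.FU8

/-! Functions constant on the trajectories that coalesce, at the same time and after the same number
of odd terms, at a point above a fixed height. -/

set_option autoImplicit false

namespace Pool.Agent.Y964.LW

open Pool.Agent.H320R2.PD Pool.Agent.H499R2.ND Finset Pool.Agent.H499R2.CO Pool.Agent.W41.FU

/-- the number of odd terms among the first `j` terms of the trajectory of `x` -/
def oc (d : ℤ) : ℕ → ℤ → ℕ
  | 0, _ => 0
  | j + 1, x => (if x % 2 = 1 then 1 else 0) + oc d j (Tz d x)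

theorem oc_zero (d x : ℤ) : oc d 0 x = 0 := rfl

theorem oc_succ (d : ℤ) (j : ℕ) (x : ℤ) : oc d (j + 1) x = (if x % 2 = 1 then 1 else 0) + oc d j (Tz d x) := rfl

theorem oc_add (d : ℤ) (i j : ℕ) : ∀ x : ℤ, oc d (i + j) x = oc d i x + oc d j ((Tz d)^[i] x) := by
  induction i with
  | zero => intro x; rw [Nat.zero_add, oc_zero, Nat.zero_add]; rfl
  | succ i ih =>
    intro x
    rw [show i + 1 + j = (i + j) + 1 by ring, oc_succ, oc_succ, ih, Function.iterate_succ_apply]
    ring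

theorem Tz_two (d x : ℤ) : Tz d (2 * x) = x := by
  unfold Tz
  rw [if_pos (by omega)]
  omega

theorem Tz_two_pow (d : ℤ) (e : ℕ) (x : ℤ) : (Tz d)^[e] (2 ^ e * x) = x := by
  induction e with
  | zero => simp
  | succ e ih =>
    rw [Function.iterate_succ_apply, show (2 : ℤ) ^ (e + 1) * x = 2 * (2 ^ e * x) by rw [pow_succ]; ring,
      Tz_two, ih]

theorem oc_two_pow (d : ℤ) (e : ℕ) (x : ℤ) : oc d e (2 ^ e * x) = 0 := by
  induction e with
  | zero => rfl
  | succ e ih =>
    rw [oc_succ, show (2 : ℤ) ^ (e + 1) * x = 2 * (2 ^ e * x) by rw [pow_succ]; ring, Tz_two, ih,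
      if_neg (by omega)]

/-- If the pair does not survive, the trajectories coalesce, with the expected numbers of odd terms. -/
theorem coal2 {d : ℤ} (hd : d % 2 = 1) : ∀ (k i : ℕ) (r x : ℤ), ¬ surv d k (i, r) x →
    ∃ t ≤ k, (Tz d)^[t] x = (Tz d)^[t] (3 ^ i * x + d * r) ∧
      (oc d t x : ℤ) = oc d t (3 ^ i * x + d * r) + i := by
  have hb : ∀ x : ℤ, (((if x % 2 = 1 then 1 else 0 : ℕ)) : ℤ) = x % 2 := by
    intro x
    split_ifs with h
    · rw [h]; rfl
    · have : x % 2 = 0 := by omega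
      rw [this]; rfl
  intro k
  induction k with
  | zero =>
    intro i r x h
    simp only [surv, ne_eq, not_not, Prod.mk.injEq] at h
    obtain ⟨rfl, rfl⟩ := h
    exact ⟨0, le_rfl, by simp, by simp [oc_zero]⟩
  | succ k ih =>
    intro i r x h
    by_cases h0 : (i, r) = ((0 : ℕ), (0 : ℤ))
    · rw [Prod.mk.injEq] at h0
      obtain ⟨rfl, rfl⟩ := h0
      exact ⟨0, by omega, by simp, by simp [oc_zero]⟩
    · have h' : ¬ surv d k (step (i, r) (decide (x % 2 = 1))) (nx d (i, r) x) := by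
        intro h2; exact h ⟨h0, h2⟩
      rcases pair_step hd i r x with ⟨e1, e2, e3⟩ | ⟨e1, e2, e3, e4, e5, e6⟩
      · rw [e1] at h'
        obtain ⟨t, ht, hh, ho⟩ := ih (step (i, r) (decide (x % 2 = 1))).1 (step (i, r) (decide (x % 2 = 1))).2 _ h'
        rw [e2] at hh ho
        refine ⟨t + 1, by omega, hh, ?_⟩
        rw [oc_succ, oc_succ]
        push_cast
        have a1 := hb x
        have a2 := hb (3 ^ i * x + d * r)
        push_cast at a1 a2
        rw [a1, a2, ho, e3]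
        ring
      · rw [e1] at h'
        obtain ⟨t, ht, hh, ho⟩ := ih (step (i, r) (decide (x % 2 = 1))).1 (step (i, r) (decide (x % 2 = 1))).2 _ h'
        rw [e2] at hh ho
        refine ⟨t + 1, by omega, hh.symm, ?_⟩
        rw [oc_succ, oc_succ]
        push_cast
        have a1 := hb x
        have a2 := hb (3 ^ i * x + d * r)
        push_cast at a1 a2
        rw [a1, a2, ho, e4, e5, e6, e3]
        push_cast
        ring

/-- the number of odd terms along a word -/
theorem oc_word {d : ℤ} (hd : Odd d) (w : List ℕ) : (∀ a ∈ w, 1 ≤ a) → ∀ M x : ℤ, Odd M → Odd x →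
    Vw d w M x → (Tz d)^[w.sum] M = x ∧ oc d w.sum M = w.length := by
  induction w using List.reverseRecOn with
  | nil =>
    intro _ M x _ _ h
    unfold Vw at h; simp [Wo] at h
    exact ⟨by simpa using h, by simp [oc_zero]⟩
  | append_singleton u e ih =>
    intro hw M x hM hx h
    have hu : ∀ a ∈ u, 1 ≤ a := fun a ha => hw a (by simp [ha])
    obtain ⟨M₁, hM₁, h1, h2⟩ := Vw_snoc hd hu hx h
    obtain ⟨h3, h3'⟩ := ih hu M₁ x hM₁ hx h2
    have he : 1 ≤ e := hw e (by simp)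
    obtain ⟨e', rfl⟩ : ∃ e', e = e' + 1 := ⟨e - 1, by omega⟩
    have h4 : Tz d M = 2 ^ e' * M₁ := by
      have h9 : Td d M = 2 ^ e' * M₁ := Td_odd hM (by rw [h1, pow_succ]; ring)
      exact h9
    have h5 : (Tz d)^[e' + 1] M = M₁ := by rw [Function.iterate_succ_apply, h4, Tz_two_pow]
    have h6 : oc d (e' + 1) M = 1 := by
      rw [oc_succ, h4, oc_two_pow, if_pos (Int.odd_iff.1 hM)]
    constructor
    · rw [List.sum_append, List.sum_singleton, Function.iterate_add_apply, h5, h3]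
    · rw [List.sum_append, List.sum_singleton, List.length_append, List.length_singleton, Nat.add_comm u.sum,
        oc_add, h5, h6, h3', Nat.add_comm]

/-- bounded functions that take the same value at `x` and `y` whenever the trajectories are at the
same point above `R` at the same time, after the same number of odd terms -/
def SameR (R : ℕ) (d : ℤ) : Set (ℤ → ℝ) :=
  {f | (∀ x, |f x| ≤ 1) ∧ ∀ (j : ℕ) (x y : ℤ), (Tz d)^[j] x = (Tz d)^[j] y → oc d j x = oc d j y →
    (R : ℤ) < (Tz d)^[j] x → f x = f y}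

/-- `M` arrives at the trajectory of `x`, `T` steps and `k` odd terms earlier -/
def Rl (R : ℕ) (d : ℤ) (k T : ℕ) (M x : ℤ) : Prop :=
  ∃ j : ℕ, (Tz d)^[T + j] M = (Tz d)^[j] x ∧ oc d (T + j) M = k + oc d j x ∧ (R : ℤ) < (Tz d)^[j] x

theorem it_add (d : ℤ) (i j : ℕ) (x : ℤ) : (Tz d)^[i + j] x = (Tz d)^[j] ((Tz d)^[i] x) := by
  rw [Nat.add_comm, Function.iterate_add_apply]

theorem rl_later {d : ℤ} {k T j : ℕ} {M x : ℤ} (h1 : (Tz d)^[T + j] M = (Tz d)^[j] x)
    (h2 : oc d (T + j) M = k + oc d j x) (i : ℕ) :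
    (Tz d)^[T + (j + i)] M = (Tz d)^[j + i] x ∧ oc d (T + (j + i)) M = k + oc d (j + i) x := by
  constructor
  · rw [← Nat.add_assoc, it_add, it_add d j i x, h1]
  · rw [← Nat.add_assoc, oc_add, oc_add d j i x, h1, h2]; ring

theorem rl_wd {R : ℕ} {d : ℤ} {k T : ℕ} {f : ℤ → ℝ} (hf : f ∈ SameR R d) {M M' x : ℤ}
    (h : Rl R d k T M x) (h' : Rl R d k T M' x) : f M = f M' := by
  obtain ⟨j, a1, a2, a3⟩ := h
  obtain ⟨j', b1, b2, b3⟩ := h'
  rcases le_total j j' with hj | hj
  · obtain ⟨i, rfl⟩ := Nat.exists_eq_add_of_le hj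
    obtain ⟨c1, c2⟩ := rl_later a1 a2 i
    apply hf.2 (T + (j + i))
    · rw [c1, b1]
    · rw [c2, b2]
    · rw [c1]; exact b3
  · obtain ⟨i, rfl⟩ := Nat.exists_eq_add_of_le hj
    obtain ⟨c1, c2⟩ := rl_later b1 b2 i
    apply hf.2 (T + (j' + i))
    · rw [c1, a1]
    · rw [c2, a2]
    · rw [a1]; exact a3

theorem rl_tr {R : ℕ} {d : ℤ} {k T i : ℕ} {M x y : ℤ} (h1 : (Tz d)^[i] x = (Tz d)^[i] y)
    (h2 : oc d i x = oc d i y) (h3 : (R : ℤ) < (Tz d)^[i] x) (h : Rl R d k T M x) : Rl R d k T M y := by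
  obtain ⟨j, a1, a2, a3⟩ := h
  rcases le_total i j with hj | hj
  · obtain ⟨l, rfl⟩ := Nat.exists_eq_add_of_le hj
    have e1 : (Tz d)^[i + l] y = (Tz d)^[i + l] x := by rw [it_add, it_add, h1]
    have e2 : oc d (i + l) y = oc d (i + l) x := by rw [oc_add, oc_add, h1, h2]
    exact ⟨i + l, by rw [a1, e1], by rw [a2, e2], by rw [e1]; exact a3⟩
  · obtain ⟨l, rfl⟩ := Nat.exists_eq_add_of_le hj
    obtain ⟨c1, c2⟩ := rl_later a1 a2 l
    exact ⟨j + l, by rw [c1, h1], by rw [c2, h2], by rw [← h1]; exact h3⟩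

/-- classes of functions that can be transported along the words of the map `x ↦ (3x+d)/2^e` with end
point above `R` -/
def ClosedR (R : ℕ) (d : ℤ) (CC : Set (ℤ → ℝ)) : Prop :=
  ∀ f ∈ CC, (∀ x, |f x| ≤ 1) ∧ ∀ k T : ℕ, ∃ f' ∈ CC, ∀ w : List ℕ, (∀ e ∈ w, 1 ≤ e) → w.length = k →
    w.sum = T → ∀ M x : ℤ, Odd x → (R : ℤ) < x → Vw d w M x → f M = f' x

open scoped Classical in
theorem sameR_closed (R : ℕ) {d : ℤ} (hd : Odd d) : ClosedR R d (SameR R d) := by
  intro f hf
  refine ⟨hf.1, fun k T => ?_⟩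
  let f' : ℤ → ℝ := fun x => if h : ∃ M, Rl R d k T M x then f h.choose else 0
  have hval : ∀ M x, Rl R d k T M x → f M = f' x := by
    intro M x h
    have hex : ∃ M, Rl R d k T M x := ⟨M, h⟩
    simp only [f']
    rw [dif_pos hex]
    exact rl_wd hf h hex.choose_spec
  refine ⟨f', ⟨fun x => ?_, ?_⟩, ?_⟩
  · by_cases hex : ∃ M, Rl R d k T M x
    · obtain ⟨M, hM⟩ := hex
      rw [← hval M x hM]; exact hf.1 M
    · simp only [f']
      rw [dif_neg hex, abs_zero]; exact zero_le_one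
  · intro i x y h1 h2 h3
    by_cases hex : ∃ M, Rl R d k T M x
    · obtain ⟨M, hM⟩ := hex
      rw [← hval M x hM, ← hval M y (rl_tr h1 h2 h3 hM)]
    · have hey : ¬ ∃ M, Rl R d k T M y := by
        rintro ⟨M, hM⟩
        exact hex ⟨M, rl_tr h1.symm h2.symm (by rw [← h1]; exact h3) hM⟩
      simp only [f']
      rw [dif_neg hex, dif_neg hey]
  · intro w hw hlen hsum M x hx hR hV
    apply hval
    have key : (Tz d)^[T] M = x ∧ oc d T M = k := by
      rcases eq_or_ne w [] with rfl | hne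
      · unfold Vw at hV
        simp [Wo] at hV hsum hlen
        subst hsum
        subst hlen
        exact ⟨by simpa using hV, by simp [oc_zero]⟩
      · have hM : Odd M := Vw_odd_left hd hw hne hV
        have := oc_word hd w hw M x hM hx hV
        rw [hsum, hlen] at this
        exact this
    exact ⟨0, by simpa using key.1, by simpa [oc_zero] using key.2, by simpa using hR⟩

theorem sameR_two {R : ℕ} {d : ℤ} {f : ℤ → ℝ} (hf : f ∈ SameR R d) (e : ℕ) : (fun x => f (2 ^ e * x)) ∈ SameR R d := by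
  refine ⟨fun x => hf.1 _, ?_⟩
  intro j x y hxy hoc hR
  have e1 : ∀ z : ℤ, (Tz d)^[e + j] (2 ^ e * z) = (Tz d)^[j] z := by
    intro z
    rw [it_add, Tz_two_pow]
  have e2 : ∀ z : ℤ, oc d (e + j) (2 ^ e * z) = oc d j z := by
    intro z
    rw [oc_add, oc_two_pow, Tz_two_pow, Nat.zero_add]
  apply hf.2 (e + j)
  · rw [e1, e1, hxy]
  · rw [e2, e2, hoc]
  · rw [e1]; exact hR

/-- the map at least halves positive integers -/
theorem Tz_half {d : ℤ} (hdd : d * d = 1) {x : ℤ} (hx : 0 < x) : x ≤ 2 * Tz d x ∧ 0 < Tz d x := by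
  have hd : d = 1 ∨ d = -1 := by
    have h1 : (d - 1) * (d + 1) = 0 := by linarith
    rcases mul_eq_zero.1 h1 with h | h
    · left; linarith
    · right; linarith
  unfold Tz
  rcases hd with rfl | rfl
  · split_ifs <;> omega
  · split_ifs <;> omega

theorem Tz_iter_half {d : ℤ} (hdd : d * d = 1) (j : ℕ) : ∀ {x : ℤ}, 0 < x →
    x ≤ 2 ^ j * (Tz d)^[j] x ∧ 0 < (Tz d)^[j] x := by
  induction j with
  | zero => intro x hx; simpa using hx
  | succ j ih =>
    intro x hx
    obtain ⟨h1, h2⟩ := Tz_half hdd hx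
    obtain ⟨h3, h4⟩ := ih h2
    rw [Function.iterate_succ_apply]
    refine ⟨?_, h4⟩
    calc x ≤ 2 * Tz d x := h1
      _ ≤ 2 * (2 ^ j * (Tz d)^[j] (Tz d x)) := by linarith
      _ = _ := by rw [pow_succ]; ring

/-- large starting points stay large for some time -/
theorem Tz_iter_large {d : ℤ} (hdd : d * d = 1) {R k j : ℕ} (hj : j ≤ k) {x : ℤ}
    (hx : (2 : ℤ) ^ k * R < x) : (R : ℤ) < (Tz d)^[j] x := by
  have hx0 : 0 < x := lt_of_le_of_lt (by positivity) hx
  obtain ⟨h1, h2⟩ := Tz_iter_half hdd j hx0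
  by_contra hcon
  push Not at hcon
  have h3 : (2 : ℤ) ^ j ≤ 2 ^ k := pow_le_pow_right₀ (by norm_num) hj
  have h4 : (2 : ℤ) ^ j * (Tz d)^[j] x ≤ 2 ^ k * R := mul_le_mul h3 hcon h2.le (by positivity)
  linarith

/-- the values at two points whose pair does not survive -/
theorem same_of_coal {R : ℕ} {d : ℤ} (hd : d % 2 = 1) (hdd : d * d = 1) {f : ℤ → ℝ} (hf : f ∈ SameR R d)
    {k : ℕ} {h x : ℤ} (hs : ¬ surv d k (0, d * h) x) (hx : (2 : ℤ) ^ k * R < x) : f x = f (x + h) := by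
  obtain ⟨j, hjk, hj, ho⟩ := coal2 hd k 0 (d * h) _ hs
  have e : (3 : ℤ) ^ 0 * x + d * (d * h) = x + h := by
    have : d * (d * h) = (d * d) * h := by ring
    rw [this, hdd]; ring
  rw [e] at hj ho
  exact hf.2 j x (x + h) hj (by exact_mod_cast (by simpa using ho)) (Tz_iter_large hdd hjk hx)

end Pool.Agent.Y964.LW
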