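import Pool.Agent.W41.FU8

/-! One-stage estimate for functions on the odd integers; the transport along words is only needed
above the window. -/

set_option autoImplicit false

namespace Pool.Agent.Y964.LW

open Pool.Agent.H320R2.PD Pool.Agent.H499R2.ND Finset Pool.Agent.W41.FU

/-- the points with the word `w` and their endpoints -/
theorem word_bij {d : ℤ} {A : ℝ} (k m : ℕ) (c : ℤ) {w : List ℕ}
    (hlen : w.length = k) (f f' : ℤ → ℝ) (G : ℝ → ℝ)
    (hpath : ∀ M x : ℤ, A ≤ (M : ℝ) → Odd x → Vw d w M x → f M = f' x) :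
    ∑ M ∈ XX d A k m c w, f M * G (M / A)
      = WS (fun x => f' x * G ((x - d * Wo w / 2 ^ w.sum) / (A * 3 ^ k / 2 ^ w.sum)))
        (A * 3 ^ k / 2 ^ w.sum + d * Wo w / 2 ^ w.sum) (2 * (A * 3 ^ k / 2 ^ w.sum) + d * Wo w / 2 ^ w.sum)
        (k + m) (2 ^ w.sum) (d * Wo w + 3 ^ k * c) := by
  set T := w.sum with hT
  set L := A * 3 ^ k / 2 ^ T with hL
  have h2T : (0 : ℝ) < 2 ^ T := by positivity
  have h3k : (0 : ℝ) < 3 ^ k := by positivity
  set s : ℝ := d * Wo w / 2 ^ T with hs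
  unfold WS
  -- forward map
  have hfw : ∀ M ∈ XX d A k m c w, ∃ x : ℤ, Odd x ∧ 3 ^ k * M + d * (Wo w : ℤ) = 2 ^ T * x := by
    intro M hM
    obtain ⟨x, hx, hV⟩ := XX_word hlen hM
    unfold Vw at hV
    rw [hlen] at hV
    exact ⟨x, hx, hV⟩
  apply sum_bij' (fun M _ => (3 ^ k * M + d * (Wo w : ℤ)) / 2 ^ T) (fun x _ => (2 ^ T * x - d * (Wo w : ℤ)) / 3 ^ k)
  · -- maps to
    intro M hM
    obtain ⟨x, hx, hV⟩ := hfw M hM
    rw [mem_XX] at hM
    have hx2 : (3 ^ k * M + d * Wo w) / 2 ^ T = x := by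
      rw [hV, Int.mul_ediv_cancel_left _ (by positivity)]
    rw [hx2, mem_cls]
    have hVR : (3 : ℝ) ^ k * M + d * Wo w = 2 ^ T * x := by exact_mod_cast hV
    have hxR : (x : ℝ) = (3 ^ k * M + d * Wo w) / 2 ^ T := by
      rw [eq_div_iff h2T.ne']; linarith
    refine ⟨⟨?_, ?_⟩, hx, Set.mem_univ _, ?_⟩
    · rw [hxR, hL, hs, ← add_div]
      apply div_le_div_of_nonneg_right _ h2T.le
      have := mul_le_mul_of_nonneg_right hM.1.1 h3k.le
      linarith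
    · rw [hxR, hL, hs, ← mul_div_assoc, ← add_div]
      apply div_lt_div_of_pos_right _ h2T
      have := mul_lt_mul_of_pos_right hM.1.2 h3k
      linarith
    · rw [← hV, pow_add, show 3 ^ k * M + d * (Wo w : ℤ) - (d * Wo w + 3 ^ k * c)
        = 3 ^ k * (1 * M - c) by ring]
      exact mul_dvd_mul_left _ hM.2.2
  · -- back
    intro x hx
    rw [mem_cls] at hx
    obtain ⟨⟨hx1, hx2⟩, hxo, -, hxd⟩ := hx
    obtain ⟨q, hq⟩ := hxd
    have e1 : 2 ^ T * x - d * (Wo w : ℤ) = 3 ^ k * (c + 3 ^ m * q) := by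
      rw [pow_add] at hq
      linear_combination hq
    have e2 : (2 ^ T * x - d * (Wo w : ℤ)) / 3 ^ k = c + 3 ^ m * q := by
      rw [e1, Int.mul_ediv_cancel_left _ (by positivity)]
    rw [e2, mem_XX]
    have e1R : (2 : ℝ) ^ T * x - d * (Wo w : ℝ) = 3 ^ k * (c + 3 ^ m * q) := by exact_mod_cast e1
    refine ⟨⟨?_, ?_⟩, ?_, ?_⟩
    · push_cast
      rw [hL, hs, ← add_div, div_le_iff₀ h2T] at hx1
      have h1 : 3 ^ k * A ≤ 3 ^ k * ((c : ℝ) + 3 ^ m * q) := by rw [← e1R]; linarith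
      exact le_of_mul_le_mul_left h1 h3k
    · push_cast
      rw [hL, hs, ← mul_div_assoc, ← add_div, lt_div_iff₀ h2T] at hx2
      have h1 : 3 ^ k * ((c : ℝ) + 3 ^ m * q) < 3 ^ k * (2 * A) := by rw [← e1R]; linarith
      exact lt_of_mul_lt_mul_left h1 h3k.le
    · obtain ⟨t, ht⟩ := hxo
      refine ⟨t, ?_⟩
      rw [← e1, ht, pow_succ]; ring
    · exact ⟨q, by ring⟩
  · -- left inverse
    intro M hM
    obtain ⟨x, hx, hV⟩ := hfw M hM
    have hx2 : (3 ^ k * M + d * Wo w) / 2 ^ T = x := by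
      rw [hV, Int.mul_ediv_cancel_left _ (by positivity)]
    rw [hx2]
    have : 2 ^ T * x - d * (Wo w : ℤ) = 3 ^ k * M := by linarith
    rw [this, Int.mul_ediv_cancel_left _ (by positivity)]
  · -- right inverse
    intro x hx
    rw [mem_cls] at hx
    obtain ⟨⟨hx1, hx2⟩, hxo, -, hxd⟩ := hx
    obtain ⟨q, hq⟩ := hxd
    have e1 : 2 ^ T * x - d * (Wo w : ℤ) = 3 ^ k * (c + 3 ^ m * q) := by
      rw [pow_add] at hq
      linear_combination hq
    have e2 : (2 ^ T * x - d * (Wo w : ℤ)) / 3 ^ k = c + 3 ^ m * q := by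
      rw [e1, Int.mul_ediv_cancel_left _ (by positivity)]
    rw [e2]
    have : 3 ^ k * (c + 3 ^ m * q) + d * (Wo w : ℤ) = 2 ^ T * x := by linarith
    rw [this, Int.mul_ediv_cancel_left _ (by positivity)]
  · -- values
    intro M hM
    obtain ⟨x, hx, hV⟩ := hfw M hM
    have hx2 : (3 ^ k * M + d * Wo w) / 2 ^ T = x := by
      rw [hV, Int.mul_ediv_cancel_left _ (by positivity)]
    rw [hx2]
    have hVw : Vw d w M x := by unfold Vw; rw [hlen]; exact hV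
    have hMA : A ≤ (M : ℝ) := by
      have h9 := hM
      rw [mem_XX] at h9
      exact h9.1.1
    rw [hpath M x hMA hx hVw]
    congr 2
    have hVR : (3 : ℝ) ^ k * M + d * Wo w = 2 ^ T * x := by exact_mod_cast hV
    have hxR : (x : ℝ) = (3 ^ k * M + d * Wo w) / 2 ^ T := by
      rw [eq_div_iff h2T.ne']; linarith
    rw [hL, hs, hxR]
    rcases eq_or_ne A 0 with hA0 | hA0
    · rw [hA0]; simp
    · field_simp
      ring

/-- one word: comparison with the unshifted window -/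
theorem word_cmp {d : ℤ} {A : ℝ} (hA : 0 < A) (k m : ℕ) (c : ℤ) {w : List ℕ}
    (hlen : w.length = k) (hlet : ∀ e ∈ w, 1 ≤ e) {f f' : ℤ → ℝ} (hf' : ∀ x, |f' x| ≤ 1) {G : ℝ → ℝ}
    (hG : ∀ u, |G u| ≤ 1) {β : ℝ} (hβ : 0 ≤ β) (hLip : ∀ u v, |G u - G v| ≤ β * |u - v|)
    (hpath : ∀ M x : ℤ, A ≤ (M : ℝ) → Odd x → Vw d w M x → f M = f' x) :
    |∑ M ∈ XX d A k m c w, f M * G (M / A)
      - WS (fun x => f' x * G (x / (A * 3 ^ k / 2 ^ w.sum))) (A * 3 ^ k / 2 ^ w.sum)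
        (2 * (A * 3 ^ k / 2 ^ w.sum)) (k + m) (2 ^ w.sum) (d * Wo w + 3 ^ k * c)|
      ≤ (|(d : ℝ)| + 2) + (A / (2 * 3 ^ m) * (1 / 2) ^ w.sum + 1) * (β * |(d : ℝ)| * 2 ^ w.sum / (2 ^ k * A)) := by
  rw [word_bij k m c hlen f f' G hpath]
  set T := w.sum with hT
  set L := A * 3 ^ k / 2 ^ T with hL
  have h2T : (0 : ℝ) < 2 ^ T := by positivity
  have h3k : (0 : ℝ) < 3 ^ k := by positivity
  have hL0 : 0 < L := by positivity
  set s : ℝ := d * Wo w / 2 ^ T with hs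
  have hsabs : |s| ≤ |(d : ℝ)| * (3 / 2) ^ k := by
    rw [hs, abs_div, abs_mul, abs_of_pos h2T, div_le_iff₀ h2T, mul_assoc]
    apply mul_le_mul_of_nonneg_left _ (abs_nonneg _)
    rw [abs_of_nonneg (by positivity)]
    have := Wo_le hlet
    rw [hlen] at this
    have h3 : (2 : ℝ) ^ T * ((3 / 2 : ℝ) ^ k - 1) ≤ (3 / 2) ^ k * 2 ^ T := by
      have : (0 : ℝ) < 2 ^ T := h2T
      nlinarith
    exact this.trans h3
  have h5 : |(d : ℝ)| * (3 / 2) ^ k / (2 * 3 ^ (k + m)) ≤ |(d : ℝ)| / 2 := by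
    rw [div_le_iff₀ (by positivity)]
    have e : |(d : ℝ)| / 2 * (2 * 3 ^ (k + m)) = |(d : ℝ)| * 3 ^ (k + m) := by ring
    rw [e]
    apply mul_le_mul_of_nonneg_left _ (abs_nonneg _)
    calc (3 / 2 : ℝ) ^ k ≤ 3 ^ k := pow_le_pow_left₀ (by norm_num) (by norm_num) k
      _ ≤ 3 ^ (k + m) := pow_le_pow_right₀ (by norm_num) (by omega)
  -- first the change of the window
  have h1 := shiftF (g := fun x => f' x * G ((x - s) / L)) (fun x => by
    rw [abs_mul]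
    have a1 := hf' x
    have a2 := hG ((x - s) / L)
    have a3 := abs_nonneg (f' x)
    have a4 := abs_nonneg (G ((x - s) / L))
    nlinarith) (L := L) hsabs (k + m) (cop_two_pow T) (d * Wo w + 3 ^ k * c)
  -- then the change of the function
  have h2 : |WS (fun x => f' x * G ((x - s) / L)) L (2 * L) (k + m) (2 ^ T) (d * Wo w + 3 ^ k * c)
      - WS (fun x => f' x * G (x / L)) L (2 * L) (k + m) (2 ^ T) (d * Wo w + 3 ^ k * c)|
      ≤ (A / (2 * 3 ^ m) * (1 / 2) ^ T + 1) * (β * |(d : ℝ)| * 2 ^ T / (2 ^ k * A)) := by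
    unfold WS
    rw [← sum_sub_distrib]
    refine (abs_sum_le_sum_abs _ _).trans ?_
    have hb : ∀ x : ℤ, |f' x * G ((x - s) / L) - f' x * G (x / L)| ≤ β * |(d : ℝ)| * 2 ^ T / (2 ^ k * A) := by
      intro x
      rw [← mul_sub, abs_mul]
      have a1 := hf' x
      have a2 := hLip ((x - s) / L) (x / L)
      have a3 : |((x : ℝ) - s) / L - x / L| ≤ |(d : ℝ)| * 2 ^ T / (2 ^ k * A) := by
        have e : ((x : ℝ) - s) / L - x / L = -(s / L) := by ring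
        rw [e, abs_neg, abs_div, abs_of_pos hL0, div_le_div_iff₀ hL0 (by positivity)]
        calc |s| * (2 ^ k * A) ≤ (|(d : ℝ)| * (3 / 2) ^ k) * (2 ^ k * A) :=
              mul_le_mul_of_nonneg_right hsabs (by positivity)
          _ = |(d : ℝ)| * 2 ^ T * L := by
              rw [hL, div_pow]
              field_simp
      have a4 : β * |((x : ℝ) - s) / L - x / L| ≤ β * (|(d : ℝ)| * 2 ^ T / (2 ^ k * A)) :=
        mul_le_mul_of_nonneg_left a3 hβ
      have a5 : β * (|(d : ℝ)| * 2 ^ T / (2 ^ k * A)) = β * |(d : ℝ)| * 2 ^ T / (2 ^ k * A) := by ring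
      have a6 := abs_nonneg (G ((x - s) / L) - G (x / L))
      nlinarith [abs_nonneg (f' x)]
    calc ∑ x ∈ cls Set.univ L (2 * L) (k + m) (2 ^ T) (d * Wo w + 3 ^ k * c),
          |f' x * G ((x - s) / L) - f' x * G (x / L)|
        ≤ ∑ x ∈ cls Set.univ L (2 * L) (k + m) (2 ^ T) (d * Wo w + 3 ^ k * c),
          β * |(d : ℝ)| * 2 ^ T / (2 ^ k * A) := sum_le_sum fun x _ => hb x
      _ = ((cls Set.univ L (2 * L) (k + m) (2 ^ T) (d * Wo w + 3 ^ k * c)).card : ℝ)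
          * (β * |(d : ℝ)| * 2 ^ T / (2 ^ k * A)) := by rw [sum_const, nsmul_eq_mul]
      _ ≤ _ := by
        apply mul_le_mul_of_nonneg_right _ (by positivity)
        have h3 := cls_card_le Set.univ (by linarith : L ≤ 2 * L) (k + m) (cop_two_pow T) (d * Wo w + 3 ^ k * c)
        refine h3.trans (le_of_eq ?_)
        rw [show 2 * L - L = L by ring, hL, pow_add, one_div, inv_pow]
        field_simp
  have h3 : 2 * (|(d : ℝ)| * (3 / 2) ^ k / (2 * 3 ^ (k + m)) + 1) ≤ |(d : ℝ)| + 2 := by linarith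
  have h4 := abs_sub_le (WS (fun x => f' x * G ((x - s) / L)) (L + s) (2 * L + s) (k + m) (2 ^ T) (d * Wo w + 3 ^ k * c))
    (WS (fun x => f' x * G ((x - s) / L)) L (2 * L) (k + m) (2 ^ T) (d * Wo w + 3 ^ k * c))
    (WS (fun x => f' x * G (x / L)) L (2 * L) (k + m) (2 ^ T) (d * Wo w + 3 ^ k * c))
  linarith

/-- THE ONE-STAGE ESTIMATE for functions -/
theorem starF {d : ℤ} (hd : Odd d) (hd3 : IsCoprime d 3) {f : ℤ → ℝ} {f' : ℕ → ℤ → ℝ}
    (hf : ∀ x, |f x| ≤ 1) (hf' : ∀ T x, |f' T x| ≤ 1) {G : ℝ → ℝ}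
    (hG : ∀ u, |G u| ≤ 1) {β : ℝ} (hβ : 0 ≤ β) (hLip : ∀ u v, |G u - G v| ≤ β * |u - v|) {A : ℝ}
    (hA : 0 < A) (cap k m m' Tl Tm : ℕ)
    (hpath : ∀ w ∈ GW cap k Tl Tm, ∀ M x : ℤ, A ≤ (M : ℝ) → Odd x → Vw d w M x → f M = f' w.sum x)
    (hk : 1 ≤ k) (hm' : m' ≤ k) (hTm : Tm ≤ k * cap) (c : ℤ) :
    |WS (fun M => f M * G (M / A)) A (2 * A) m 1 c
      - (∑ w ∈ GW cap k Tl Tm, WS (fun x => f' w.sum x * G (x / (A * 3 ^ k / 2 ^ w.sum)))
          (A * 3 ^ k / 2 ^ w.sum) (2 * (A * 3 ^ k / 2 ^ w.sum)) m' (2 ^ w.sum) (d * Wo w)) / 3 ^ (k + m - m')|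
      ≤ (A / (2 * 3 ^ m) + 2 ^ Tm)
            * (∑ T ∈ range (k * cap + 1), dev (FWT cap k T) wwt (fun w => (Wo w : ℤ)) (k + m) m'
              + β * |(d : ℝ)| * 2 ^ Tm / (2 ^ k * A))
        + A / (2 * 3 ^ m) * (1 - ∑ w ∈ GW cap k Tl Tm, wwt w)
        + 1 + (|(d : ℝ)| + 3) * 2 ^ Tm := by
  classical
  set GG := GW cap k Tl Tm with hGG
  set All := cls Set.univ A (2 * A) m 1 c with hAll
  set F : ℤ → ℝ := fun M => f M * G (M / A) with hF
  have hF1 : ∀ M, |F M| ≤ 1 := by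
    intro M
    rw [hF]
    simp only
    rw [abs_mul]
    have a1 := hf M
    have a2 := hG (M / A)
    nlinarith [abs_nonneg (f M), abs_nonneg (G (M / A))]
  have hGprop : ∀ w ∈ GG, w.length = k ∧ (∀ e ∈ w, 1 ≤ e) ∧ w.sum ≤ Tm := by
    intro w hw
    rw [hGG] at hw; unfold GW at hw
    rw [mem_filter] at hw
    exact ⟨(FW_props hw.1).1, (FW_props hw.1).2, hw.2.2⟩
  have hne : ∀ w ∈ GG, w ≠ [] := by
    intro w hw h
    have := (hGprop w hw).1
    rw [h] at this; simp at this; omega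
  have hXall : ∀ w ∈ GG, XX d A k m c w ⊆ All := by
    intro w hw M hM
    obtain ⟨x, hx, hV⟩ := XX_word (hGprop w hw).1 hM
    have hMo := Vw_odd_left hd (hGprop w hw).2.1 (hne w hw) hV
    rw [hAll, mem_cls]
    rw [mem_XX] at hM
    exact ⟨hM.1, hMo, Set.mem_univ _, hM.2.2⟩
  have hdisj : (GG : Set (List ℕ)).PairwiseDisjoint (fun w => XX d A k m c w) := by
    intro w hw w' hw' hww
    rw [Function.onFun, Finset.disjoint_left]
    intro M hM hM'
    apply hww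
    have hw1 := hGprop w (mem_coe.1 hw)
    have hw2 := hGprop w' (mem_coe.1 hw')
    obtain ⟨x, hx, hV⟩ := XX_word hw1.1 hM
    obtain ⟨x', hx', hV'⟩ := XX_word hw2.1 hM'
    exact word_unique hd w hw1.2.1 w' hw2.2.1 (hw1.1.trans hw2.1.symm) M x x' hx hx' hV hV'
  have hUsub : (GG.biUnion fun w => XX d A k m c w) ⊆ All := biUnion_subset.2 hXall
  -- step 1
  have hAllcard : (All.card : ℝ) ≤ A / (2 * 3 ^ m) + 1 := by
    have := cls_card_le Set.univ (by linarith : A ≤ 2 * A) m isCoprime_one_left c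
    rw [show 2 * A - A = A by ring] at this
    exact this
  have hXcard : ∑ w ∈ GG, (A / (2 * 3 ^ m) * wwt w - 1) ≤ ∑ w ∈ GG, ((XX d A k m c w).card : ℝ) :=
    sum_le_sum fun w _ => XX_card d k m c w
  rw [sum_sub_distrib, ← mul_sum, sum_const, nsmul_eq_mul, mul_one] at hXcard
  have hstep1 : |WS F A (2 * A) m 1 c - ∑ w ∈ GG, ∑ M ∈ XX d A k m c w, F M|
      ≤ A / (2 * 3 ^ m) * (1 - ∑ w ∈ GG, wwt w) + 1 + GG.card := by
    have h1 : WS F A (2 * A) m 1 c - ∑ w ∈ GG, ∑ M ∈ XX d A k m c w, F M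
        = ∑ M ∈ All \ GG.biUnion (fun w => XX d A k m c w), F M := by
      unfold WS
      rw [← hAll, ← sum_biUnion hdisj, ← sum_sdiff hUsub]
      ring
    rw [h1]
    have h2 : |∑ M ∈ All \ GG.biUnion (fun w => XX d A k m c w), F M|
        ≤ ((All \ GG.biUnion (fun w => XX d A k m c w)).card : ℝ) := by
      refine (abs_sum_le_sum_abs _ _).trans ?_
      calc ∑ x ∈ All \ GG.biUnion (fun w => XX d A k m c w), |F x|
          ≤ ∑ x ∈ All \ GG.biUnion (fun w => XX d A k m c w), (1 : ℝ) := sum_le_sum fun x _ => hF1 x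
        _ = _ := by rw [sum_const, nsmul_eq_mul, mul_one]
    have h3 : (All \ GG.biUnion fun w => XX d A k m c w).card + (GG.biUnion fun w => XX d A k m c w).card
        = All.card := card_sdiff_add_card_eq_card hUsub
    have h4 : (GG.biUnion fun w => XX d A k m c w).card = ∑ w ∈ GG, (XX d A k m c w).card :=
      card_biUnion hdisj
    rw [h4] at h3
    have h3' : ((All \ GG.biUnion fun w => XX d A k m c w).card : ℝ)
        + ∑ w ∈ GG, ((XX d A k m c w).card : ℝ) = All.card := by exact_mod_cast h3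
    have e3 : A / (2 * 3 ^ m) * (1 - ∑ w ∈ GG, wwt w)
        = A / (2 * 3 ^ m) - A / (2 * 3 ^ m) * ∑ w ∈ GG, wwt w := by ring
    rw [e3]
    linarith
  -- step 2
  set lam : ℝ := β * |(d : ℝ)| * 2 ^ Tm / (2 ^ k * A) with hlam
  have hlam0 : 0 ≤ lam := by positivity
  have hGc := GW_card cap k Tl Tm
  rw [← hGG] at hGc
  have hmass1 : ∑ w ∈ GG, wwt w ≤ 1 := by
    refine le_trans ?_ (sum_wwt_le cap k)
    rw [hGG]; unfold GW
    apply sum_le_sum_of_subset_of_nonneg (filter_subset _ _)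
    intro w _ _; unfold wwt; positivity
  have hstep2 : |∑ w ∈ GG, ∑ M ∈ XX d A k m c w, F M
      - ∑ w ∈ GG, WS (fun x => f' w.sum x * G (x / (A * 3 ^ k / 2 ^ w.sum))) (A * 3 ^ k / 2 ^ w.sum)
        (2 * (A * 3 ^ k / 2 ^ w.sum)) (k + m) (2 ^ w.sum) (d * Wo w + 3 ^ k * c)|
      ≤ (|(d : ℝ)| + 2) * 2 ^ Tm + (A / (2 * 3 ^ m) + 2 ^ Tm) * lam := by
    rw [← sum_sub_distrib]
    refine (abs_sum_le_sum_abs _ _).trans ?_
    have hb : ∀ w ∈ GG, |∑ M ∈ XX d A k m c w, F M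
        - WS (fun x => f' w.sum x * G (x / (A * 3 ^ k / 2 ^ w.sum))) (A * 3 ^ k / 2 ^ w.sum)
          (2 * (A * 3 ^ k / 2 ^ w.sum)) (k + m) (2 ^ w.sum) (d * Wo w + 3 ^ k * c)|
        ≤ (|(d : ℝ)| + 2) + (A / (2 * 3 ^ m) * wwt w + 1) * lam := by
      intro w hw
      obtain ⟨hlen, hlet, hwTm⟩ := hGprop w hw
      have h1 := word_cmp hA k m c hlen hlet (hf' w.sum) hG hβ hLip (hpath w hw)
      refine h1.trans ?_
      apply add_le_add_right
      unfold wwt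
      apply mul_le_mul_of_nonneg_left _ (by positivity)
      rw [hlam]
      apply div_le_div_of_nonneg_right _ (by positivity)
      apply mul_le_mul_of_nonneg_left _ (by positivity)
      exact pow_le_pow_right₀ (by norm_num) hwTm
    refine (sum_le_sum hb).trans ?_
    rw [sum_add_distrib, sum_const, nsmul_eq_mul, ← sum_mul, sum_add_distrib, ← mul_sum, sum_const,
      nsmul_eq_mul, mul_one]
    have h2 : (GG.card : ℝ) * (|(d : ℝ)| + 2) ≤ (|(d : ℝ)| + 2) * 2 ^ Tm := by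
      rw [mul_comm]
      exact mul_le_mul_of_nonneg_left hGc (by positivity)
    have h3 : (A / (2 * 3 ^ m) * ∑ w ∈ GG, wwt w + (GG.card : ℝ)) * lam
        ≤ (A / (2 * 3 ^ m) + 2 ^ Tm) * lam := by
      apply mul_le_mul_of_nonneg_right _ hlam0
      have : A / (2 * 3 ^ m) * ∑ w ∈ GG, wwt w ≤ A / (2 * 3 ^ m) * 1 :=
        mul_le_mul_of_nonneg_left hmass1 (by positivity)
      linarith
    linarith
  -- step 3
  have hstep3 : |∑ w ∈ GG, WS (fun x => f' w.sum x * G (x / (A * 3 ^ k / 2 ^ w.sum))) (A * 3 ^ k / 2 ^ w.sum)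
        (2 * (A * 3 ^ k / 2 ^ w.sum)) (k + m) (2 ^ w.sum) (d * Wo w + 3 ^ k * c)
      - (∑ w ∈ GG, WS (fun x => f' w.sum x * G (x / (A * 3 ^ k / 2 ^ w.sum)))
          (A * 3 ^ k / 2 ^ w.sum) (2 * (A * 3 ^ k / 2 ^ w.sum)) m' (2 ^ w.sum) (d * Wo w)) / 3 ^ (k + m - m')|
      ≤ (A / (2 * 3 ^ m) + 2 ^ Tm)
            * ∑ T ∈ range (k * cap + 1), dev (FWT cap k T) wwt (fun w => (Wo w : ℤ)) (k + m) m' := by
    rw [hGG, sum_GW, sum_GW, sum_div, ← sum_sub_distrib]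
    refine (abs_sum_le_sum_abs _ _).trans ?_
    have hT : ∀ T ∈ Icc Tl Tm, |∑ w ∈ FWT cap k T, WS (fun x => f' w.sum x * G (x / (A * 3 ^ k / 2 ^ w.sum)))
          (A * 3 ^ k / 2 ^ w.sum) (2 * (A * 3 ^ k / 2 ^ w.sum)) (k + m) (2 ^ w.sum) (d * Wo w + 3 ^ k * c)
        - (∑ w ∈ FWT cap k T, WS (fun x => f' w.sum x * G (x / (A * 3 ^ k / 2 ^ w.sum)))
          (A * 3 ^ k / 2 ^ w.sum) (2 * (A * 3 ^ k / 2 ^ w.sum)) m' (2 ^ w.sum) (d * Wo w)) / 3 ^ (k + m - m')|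
        ≤ (A / (2 * 3 ^ m) + 2 ^ Tm) * dev (FWT cap k T) wwt (fun w => (Wo w : ℤ)) (k + m) m' := by
      intro T hT
      rw [mem_Icc] at hT
      have hsum : ∀ w ∈ FWT cap k T, w.sum = T := fun w hw => by
        unfold FWT at hw; exact (mem_filter.1 hw).2
      have h1 := mixF hd3 (g := fun x => f' T x * G (x / (A * 3 ^ k / 2 ^ T))) (fun x => by
        rw [abs_mul]
        have a1 := hf' T x
        have a2 := hG (x / (A * 3 ^ k / 2 ^ T))
        nlinarith [abs_nonneg (f' T x), abs_nonneg (G (x / (A * 3 ^ k / 2 ^ T)))])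
        (L := A * 3 ^ k / 2 ^ T) (by positivity) cap k m m' T hm' hk c
      have e1 : ∑ w ∈ FWT cap k T, WS (fun x => f' w.sum x * G (x / (A * 3 ^ k / 2 ^ w.sum)))
          (A * 3 ^ k / 2 ^ w.sum) (2 * (A * 3 ^ k / 2 ^ w.sum)) (k + m) (2 ^ w.sum) (d * Wo w + 3 ^ k * c)
          = ∑ w ∈ FWT cap k T, WS (fun x => f' T x * G (x / (A * 3 ^ k / 2 ^ T)))
          (A * 3 ^ k / 2 ^ T) (2 * (A * 3 ^ k / 2 ^ T)) (k + m) (2 ^ T) (d * Wo w + 3 ^ k * c) :=
        sum_congr rfl fun w hw => by rw [hsum w hw]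
      have e2 : ∑ w ∈ FWT cap k T, WS (fun x => f' w.sum x * G (x / (A * 3 ^ k / 2 ^ w.sum)))
          (A * 3 ^ k / 2 ^ w.sum) (2 * (A * 3 ^ k / 2 ^ w.sum)) m' (2 ^ w.sum) (d * Wo w)
          = ∑ w ∈ FWT cap k T, WS (fun x => f' T x * G (x / (A * 3 ^ k / 2 ^ T)))
          (A * 3 ^ k / 2 ^ T) (2 * (A * 3 ^ k / 2 ^ T)) m' (2 ^ T) (d * Wo w) :=
        sum_congr rfl fun w hw => by rw [hsum w hw]
      rw [e1, e2]
      refine h1.trans ?_
      have hdev : 0 ≤ dev (FWT cap k T) wwt (fun w => (Wo w : ℤ)) (k + m) m' :=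
        sum_nonneg fun _ _ => abs_nonneg _
      have hcoef : 2 ^ T * (A * 3 ^ k / 2 ^ T / (2 * 3 ^ (k + m)) + 1) ≤ A / (2 * 3 ^ m) + 2 ^ Tm := by
        have h2 : (2 : ℝ) ^ T * (A * 3 ^ k / 2 ^ T / (2 * 3 ^ (k + m)) + 1)
            = A / (2 * 3 ^ m) + 2 ^ T := by
          rw [pow_add]
          field_simp
        rw [h2]
        have h3 : (2 : ℝ) ^ T ≤ 2 ^ Tm := pow_le_pow_right₀ (by norm_num) hT.2
        linarith
      exact mul_le_mul_of_nonneg_right hcoef hdev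
    refine (sum_le_sum hT).trans ?_
    rw [← mul_sum]
    apply mul_le_mul_of_nonneg_left _ (by positivity)
    apply sum_le_sum_of_subset_of_nonneg
    · intro T hT
      rw [mem_Icc] at hT
      rw [mem_range]; omega
    · intro T _ _; exact sum_nonneg fun _ _ => abs_nonneg _
  have h1 := abs_sub_le (WS F A (2 * A) m 1 c) (∑ w ∈ GG, ∑ M ∈ XX d A k m c w, F M)
    (∑ w ∈ GG, WS (fun x => f' w.sum x * G (x / (A * 3 ^ k / 2 ^ w.sum))) (A * 3 ^ k / 2 ^ w.sum)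
        (2 * (A * 3 ^ k / 2 ^ w.sum)) (k + m) (2 ^ w.sum) (d * Wo w + 3 ^ k * c))
  have h2 := abs_sub_le (WS F A (2 * A) m 1 c)
    (∑ w ∈ GG, WS (fun x => f' w.sum x * G (x / (A * 3 ^ k / 2 ^ w.sum))) (A * 3 ^ k / 2 ^ w.sum)
        (2 * (A * 3 ^ k / 2 ^ w.sum)) (k + m) (2 ^ w.sum) (d * Wo w + 3 ^ k * c))
    ((∑ w ∈ GG, WS (fun x => f' w.sum x * G (x / (A * 3 ^ k / 2 ^ w.sum)))
          (A * 3 ^ k / 2 ^ w.sum) (2 * (A * 3 ^ k / 2 ^ w.sum)) m' (2 ^ w.sum) (d * Wo w)) / 3 ^ (k + m - m'))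
  rw [mul_add]
  linarith

end Pool.Agent.Y964.LW
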