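import Pool.Agent.Y964.LW.A0
import Pool.Agent.Y964.LW.A1

/-! Iteration over the scales for functions on the odd integers that can be transported along words
whose end points are above a fixed height. -/

set_option autoImplicit false

namespace Pool.Agent.Y964.LW

open Pool.Agent.H320R2.PD Pool.Agent.H499R2.ND Finset Pool.Agent.W41.FU

/-- the end point of a word with a large starting point -/
theorem end_large {d : ℤ} {R k : ℕ} {A : ℝ} {w : List ℕ} (hlen : w.length = k) (hlet : ∀ e ∈ w, 1 ≤ e)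
    (h : (R : ℝ) + |(d : ℝ)| * (3 / 2) ^ k < A * 3 ^ k / 2 ^ w.sum) {M x : ℤ} (hM : A ≤ (M : ℝ))
    (hV : Vw d w M x) : (R : ℤ) < x := by
  have h2T : (0 : ℝ) < 2 ^ w.sum := by positivity
  have h3k : (0 : ℝ) < 3 ^ k := by positivity
  have hV' : 3 ^ k * M + d * (Wo w : ℤ) = 2 ^ w.sum * x := by
    unfold Vw at hV
    rw [hlen] at hV
    exact hV
  have hVR : (3 : ℝ) ^ k * M + d * Wo w = 2 ^ w.sum * x := by exact_mod_cast hV'
  have hxR : (x : ℝ) = (3 ^ k * M) / 2 ^ w.sum + d * Wo w / 2 ^ w.sum := by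
    rw [← add_div, eq_div_iff h2T.ne']; linarith
  have hsabs : |(d : ℝ) * Wo w / 2 ^ w.sum| ≤ |(d : ℝ)| * (3 / 2) ^ k := by
    rw [abs_div, abs_mul, abs_of_pos h2T, div_le_iff₀ h2T, mul_assoc]
    apply mul_le_mul_of_nonneg_left _ (abs_nonneg _)
    rw [abs_of_nonneg (by positivity)]
    have := Wo_le hlet
    rw [hlen] at this
    have h3 : (2 : ℝ) ^ w.sum * ((3 / 2 : ℝ) ^ k - 1) ≤ (3 / 2) ^ k * 2 ^ w.sum := by
      have : (0 : ℝ) < 2 ^ w.sum := h2T
      nlinarith
    exact this.trans h3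
  have h1 : A * 3 ^ k / 2 ^ w.sum ≤ (3 ^ k * M) / 2 ^ w.sum := by
    apply div_le_div_of_nonneg_right _ h2T.le
    rw [mul_comm A]
    exact mul_le_mul_of_nonneg_left hM h3k.le
  have h2 := neg_le_of_abs_le hsabs
  have h3 : (R : ℝ) < x := by rw [hxR]; linarith
  exact_mod_cast h3

/-- one stage -/
theorem stageF {d : ℤ} (hd : Odd d) (hd3 : IsCoprime d 3) {R : ℕ} {CC : Set (ℤ → ℝ)} (hC : ClosedR R d CC) {G : ℝ → ℝ}
    (hG : ∀ u, |G u| ≤ 1) {β : ℝ} (hβ : 0 ≤ β) (hLip : ∀ u v, |G u - G v| ≤ β * |u - v|) {A : ℝ}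
    (hA : 0 < A) {k m m' : ℕ} (hk : 1 ≤ k) (hm' : m' ≤ k) {ρ : ℝ} (hρ : 0 ≤ ρ)
    (hbig : ∀ T : ℕ, 39 * k ≤ 20 * T → 20 * T ≤ 41 * k →
      (R : ℝ) + |(d : ℝ)| * (3 / 2) ^ k < A * 3 ^ k / 2 ^ T)
    (h : ∀ T : ℕ, 39 * k ≤ 20 * T → 20 * T ≤ 41 * k → PF CC G (A * 3 ^ k / 2 ^ T) m' ρ) :
    PF CC G A m (ρ + ErrF β d A k m m') := by
  intro f hf u v hu
  obtain ⟨hf1, hf2⟩ := hC f hf
  choose f' hf'C hf' using hf2 k
  have hf'1 : ∀ T x, |f' T x| ≤ 1 := fun T x => (hC _ (hf'C T)).1 x
  obtain ⟨p, q, hpq⟩ : IsCoprime u ((3 : ℤ) ^ m) := hu.pow_right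
  have hc : cls Set.univ A (2 * A) m u v = cls Set.univ A (2 * A) m 1 (p * v) := by
    ext x
    rw [mem_cls, mem_cls]
    have key : (3 : ℤ) ^ m ∣ u * x - v ↔ (3 : ℤ) ^ m ∣ 1 * x - p * v := by
      have hcop : IsCoprime ((3 : ℤ) ^ m) u := ⟨q, p, by linarith⟩
      constructor
      · intro h
        apply hcop.dvd_of_dvd_mul_left
        have : u * (1 * x - p * v) = (u * x - v) + 3 ^ m * (q * v) := by
          have h1 : u * p = 1 - q * 3 ^ m := by linarith
          calc u * (1 * x - p * v) = u * x - (u * p) * v := by ring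
            _ = _ := by rw [h1]; ring
        rw [this]
        exact dvd_add h (dvd_mul_right _ _)
      · intro h
        have : u * x - v = u * (1 * x - p * v) - 3 ^ m * (q * v) := by
          have h1 : u * p = 1 - q * 3 ^ m := by linarith
          have h2 : u * (1 * x - p * v) = u * x - (u * p) * v := by ring
          rw [h2, h1]; ring
        rw [this]
        exact dvd_sub (h.mul_left u) (dvd_mul_right _ _)
    rw [key]
  have hWS : WS (fun x => f x * G (x / A)) A (2 * A) m u v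
      = WS (fun x => f x * G (x / A)) A (2 * A) m 1 (p * v) := by
    unfold WS; rw [hc]
  rw [hWS]
  have hTm : 41 * k / 20 ≤ k * (3 * k) := by nlinarith [Nat.div_mul_le_self (41 * k) 20]
  have h1 := starF hd hd3 (f := f) (f' := f') hf1 hf'1 hG hβ hLip hA (3 * k) k m m'
    ((39 * k + 19) / 20) (41 * k / 20) (by
      intro w hw M x hMA hx hV
      unfold GW at hw
      rw [mem_filter] at hw
      exact hf' w.sum w (FW_props hw.1).2 (FW_props hw.1).1 rfl M x hx
        (end_large (FW_props hw.1).1 (FW_props hw.1).2 (hbig w.sum (by omega) (by omega)) hMA hV) hV) hk hm' hTm (p * v)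
  set GG := GW (3 * k) k ((39 * k + 19) / 20) (41 * k / 20) with hGG
  have h2 : |∑ w ∈ GG, WS (fun x => f' w.sum x * G (x / (A * 3 ^ k / 2 ^ w.sum)))
          (A * 3 ^ k / 2 ^ w.sum) (2 * (A * 3 ^ k / 2 ^ w.sum)) m' (2 ^ w.sum) (d * Wo w)|
      ≤ ∑ w ∈ GG, ρ * (A * 3 ^ k / (2 * 3 ^ m')) * wwt w := by
    refine (abs_sum_le_sum_abs _ _).trans ?_
    apply sum_le_sum
    intro w hw
    rw [hGG] at hw; unfold GW at hw; rw [mem_filter] at hw
    have h3 := h w.sum (by omega) (by omega) (f' w.sum) (hf'C w.sum) (2 ^ w.sum) (d * Wo w) (cop_two_pow _)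
    refine h3.trans (le_of_eq ?_)
    unfold wwt
    rw [one_div, inv_pow]
    field_simp
  have hmass1 : ∑ w ∈ GG, wwt w ≤ 1 := by
    refine le_trans ?_ (sum_wwt_le (3 * k) k)
    rw [hGG]; unfold GW
    apply sum_le_sum_of_subset_of_nonneg (filter_subset _ _)
    intro w _ _; unfold wwt; positivity
  rw [← mul_sum] at h2
  have h4 : |(∑ w ∈ GG, WS (fun x => f' w.sum x * G (x / (A * 3 ^ k / 2 ^ w.sum)))
          (A * 3 ^ k / 2 ^ w.sum) (2 * (A * 3 ^ k / 2 ^ w.sum)) m' (2 ^ w.sum) (d * Wo w)) / 3 ^ (k + m - m')|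
      ≤ ρ * (A / (2 * 3 ^ m)) := by
    rw [abs_div, abs_of_pos (by positivity : (0 : ℝ) < 3 ^ (k + m - m')), div_le_iff₀ (by positivity)]
    refine h2.trans ?_
    have h5 : ρ * (A * 3 ^ k / (2 * 3 ^ m')) * ∑ w ∈ GG, wwt w ≤ ρ * (A * 3 ^ k / (2 * 3 ^ m')) * 1 :=
      mul_le_mul_of_nonneg_left hmass1 (by positivity)
    refine h5.trans (le_of_eq ?_)
    have h6 : (3 : ℝ) ^ (k + m - m') * 3 ^ m' = 3 ^ k * 3 ^ m := by
      rw [← pow_add, ← pow_add]; congr 1; omega
    have h7 : (3 : ℝ) ^ k = 3 ^ (k + m - m') * 3 ^ m' / 3 ^ m := by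
      rw [h6]; field_simp
    rw [h7]
    field_simp
  have h8 := abs_sub_abs_le_abs_sub (WS (fun x => f x * G (x / A)) A (2 * A) m 1 (p * v))
    ((∑ w ∈ GG, WS (fun x => f' w.sum x * G (x / (A * 3 ^ k / 2 ^ w.sum)))
          (A * 3 ^ k / 2 ^ w.sum) (2 * (A * 3 ^ k / 2 ^ w.sum)) m' (2 ^ w.sum) (d * Wo w)) / 3 ^ (k + m - m'))
  unfold ErrF
  rw [← hGG]
  set X := (2 : ℝ) ^ (41 * k / 20) with hX
  set Y := A / (2 * 3 ^ m) with hY
  have hY0 : 0 < Y := by positivity
  set Z := 2 * 3 ^ m / A with hZ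
  have hfac : Y * Z = 1 := by rw [hY, hZ]; field_simp
  set δ := ∑ T ∈ range (k * (3 * k) + 1), dev (FWT (3 * k) k T) wwt (fun w => (Wo w : ℤ)) (k + m) m'
    + β * |(d : ℝ)| * X / (2 ^ k * A) with hδ
  set μ := ∑ w ∈ GG, wwt w with hμ
  have e1 : (ρ + ((1 + X * Z) * δ + (1 - μ) + (1 + (|(d : ℝ)| + 3) * X) * Z)) * Y
      = ρ * Y + (Y + X * (Y * Z)) * δ + Y * (1 - μ) + (1 + (|(d : ℝ)| + 3) * X) * (Y * Z) := by ring
  rw [e1, hfac]
  linarith

/-- TRANSFER: correlations with a Lipschitz function at all scales are bounded by those at the scales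
slightly above the Lipschitz constant. -/
theorem transfer (R : ℕ) {d : ℤ} (hd : Odd d) (hd3 : IsCoprime d 3) {η : ℝ} (hη : 0 < η) (hη1 : η ≤ 1 / 2) :
    ∃ K L0 : ℝ, 0 < K ∧ 1 ≤ L0 ∧ ∀ β : ℝ, L0 ≤ Real.log β → 1 ≤ β → ∀ CC : Set (ℤ → ℝ), ClosedR R d CC →
      ∀ G : ℝ → ℝ, (∀ u, |G u| ≤ 1) → (∀ u v, |G u - G v| ≤ β * |u - v|) → ∀ ρ : ℝ, 0 ≤ ρ →
      (∀ A : ℝ, 0 < A → (1 - η) * Real.log A ≤ Real.log β → Real.log β ≤ (1 - η / 2) * Real.log A →
        ∀ m : ℕ, (m : ℝ) ^ 2 ≤ Real.log A → PF CC G A m ρ) →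
      ∀ A : ℝ, 0 < A → Real.log β ≤ (1 - η / 2) * Real.log A → ∀ m : ℕ, (m : ℝ) ^ 2 ≤ Real.log A →
        PF CC G A m (ρ + K / Real.log β) := by
  obtain ⟨C, hC, t1, ht1, herr⟩ := errF_bound d hη hη1
  set K : ℝ := 5 * C / η with hK
  have hKpos : 0 < K := by positivity
  have hRd : (0 : ℝ) ≤ (R : ℝ) + |(d : ℝ)| := by positivity
  refine ⟨2 * K, max t1 (max (6 / η) (5 / η)) + 2 * (R + |(d : ℝ)|), by positivity, ?_, ?_⟩
  · have := le_max_left t1 (max (6 / η) (5 / η))
    linarith
  intro β hL0 hβ1 CC hCC G hG hLip ρ hρ hbot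
  set L := Real.log β with hLdef
  have hL : max t1 (max (6 / η) (5 / η)) ≤ L := by linarith
  have hLR : 2 * ((R : ℝ) + |(d : ℝ)|) ≤ L := by
    have := le_max_left t1 (max (6 / η) (5 / η))
    linarith
  have hL1 : t1 ≤ L := (le_max_left _ _).trans hL
  have hL2 : 6 / η ≤ L := (le_max_left _ _).trans ((le_max_right _ _).trans hL)
  have hL3 : 5 / η ≤ L := (le_max_right _ _).trans ((le_max_right _ _).trans hL)
  have hLpos : 0 < L := by linarith
  have main : ∀ n : ℕ, ∀ A : ℝ, 0 < A → L ≤ (1 - η / 2) * Real.log A → Real.log A ≤ L + n →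
      ∀ m : ℕ, (m : ℝ) ^ 2 ≤ Real.log A → PF CC G A m (ρ + K * (2 / L - 1 / Real.log A)) := by
    intro n
    induction n with
    | zero =>
      intro A hA h1 h2 m hm
      exfalso
      push_cast at h2
      have htA : 0 < Real.log A := by
        by_contra hcon
        push Not at hcon
        nlinarith
      nlinarith
    | succ n ih =>
      intro A hA h1 h2 m hm
      set t := Real.log A with htdef
      have htA : 0 < t := by
        by_contra hcon
        push Not at hcon
        nlinarith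
      have hLt : L ≤ t := by nlinarith
      have hgain : 0 ≤ K * (2 / L - 1 / t) := by
        apply mul_nonneg hKpos.le
        have a1 : 1 / t ≤ 1 / L := one_div_le_one_div_of_le hLpos hLt
        have a2 : 2 / L = 2 * (1 / L) := by ring
        have a3 : 0 < 1 / L := by positivity
        rw [a2]; linarith
      rcases le_or_gt ((1 - η) * t) L with hcase | hcase
      · -- bottom
        exact (hbot A hA hcase h1 m hm).mono hA (by linarith)
      · set k := ⌊η * t⌋₊ with hk
        set m' := ⌊Real.sqrt (0.8 * t)⌋₊ with hm'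
        obtain ⟨hk1, hm'k, hE⟩ := herr A hA (hL1.trans hLt) β hβ1 hcase.le k m m' hm hk hm'
        have hm'sq : (m' : ℝ) ^ 2 ≤ 0.8 * t := by
          have h1 : (m' : ℝ) ≤ Real.sqrt (0.8 * t) := by
            rw [hm']; exact Nat.floor_le (Real.sqrt_nonneg _)
          calc (m' : ℝ) ^ 2 ≤ (Real.sqrt (0.8 * t)) ^ 2 :=
                pow_le_pow_left₀ (Nat.cast_nonneg _) h1 2
            _ = 0.8 * t := Real.sq_sqrt (by linarith)
        have hρ' : 0 ≤ ρ + K * (2 / L - 1 / ((1 - 0.2 * η) * t)) := by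
          apply add_nonneg hρ
          apply mul_nonneg hKpos.le
          have a0 : (1 - 0.2 * η) * t ≥ L / 2 := by nlinarith
          have a1 : 1 / ((1 - 0.2 * η) * t) ≤ 1 / (L / 2) := one_div_le_one_div_of_le (by linarith) a0
          have a2 : 1 / (L / 2) = 2 / L := by rw [one_div_div]
          linarith
        have hst := stageF hd hd3 hCC hG (by linarith : (0 : ℝ) ≤ β) hLip hA hk1 hm'k (m := m) hρ' (fun T hT1 hT2 => by
          have hn := (nextF hη hη1 hA (hL2.trans hLt) hk hT1 hT2).1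
          have hA'pos : 0 < A * 3 ^ k / 2 ^ T := by positivity
          rw [← htdef] at hn
          have hkη : (k : ℝ) ≤ η * t := by rw [hk]; exact Nat.floor_le (by positivity)
          have a1 : Real.exp (0.83 * t) ≤ A * 3 ^ k / 2 ^ T := by
            rw [← Real.exp_log hA'pos]
            apply Real.exp_le_exp.2
            nlinarith
          have a2 : (3 / 2 : ℝ) ^ k ≤ Real.exp (0.25 * t) := by
            have e1 : (3 / 2 : ℝ) ≤ Real.exp (1 / 2) := by
              have := Real.add_one_le_exp (1 / 2 : ℝ)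
              linarith
            calc (3 / 2 : ℝ) ^ k ≤ Real.exp (1 / 2) ^ k := pow_le_pow_left₀ (by norm_num) e1 k
              _ = Real.exp (k * (1 / 2)) := by rw [← Real.exp_nat_mul]
              _ ≤ Real.exp (0.25 * t) := by
                apply Real.exp_le_exp.2
                nlinarith
          have a3 : 1 ≤ Real.exp (0.25 * t) := Real.one_le_exp (by positivity)
          have a4 : (R : ℝ) + |(d : ℝ)| < Real.exp (0.58 * t) := by
            have := Real.add_one_le_exp (0.58 * t)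
            linarith
          calc (R : ℝ) + |(d : ℝ)| * (3 / 2) ^ k
              ≤ R * Real.exp (0.25 * t) + |(d : ℝ)| * Real.exp (0.25 * t) := by
                have b1 : (R : ℝ) * 1 ≤ R * Real.exp (0.25 * t) := mul_le_mul_of_nonneg_left a3 (Nat.cast_nonneg R)
                have b2 := mul_le_mul_of_nonneg_left a2 (abs_nonneg (d : ℝ))
                linarith
            _ = ((R : ℝ) + |(d : ℝ)|) * Real.exp (0.25 * t) := by ring
            _ < Real.exp (0.58 * t) * Real.exp (0.25 * t) :=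
                mul_lt_mul_of_pos_right a4 (Real.exp_pos _)
            _ = Real.exp (0.83 * t) := by rw [← Real.exp_add]; congr 1; ring
            _ ≤ _ := a1) (fun T hT1 hT2 => by
          have hn := nextF hη hη1 hA (hL2.trans hLt) hk hT1 hT2
          set A' := A * 3 ^ k / 2 ^ T with hA'
          have hA'pos : 0 < A' := by positivity
          have hn1 : (1 - 0.33 * η) * t ≤ Real.log A' := hn.1
          have hn2 : Real.log A' ≤ (1 - 0.2 * η) * t := hn.2
          have ht'pos : 0 < Real.log A' := by nlinarith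
          have hih := ih A' hA'pos (by nlinarith) (by
              have h9 : t ≤ L + (n + 1 : ℕ) := h2
              push_cast at h9
              have h10 : 5 ≤ η * t := by
                rw [div_le_iff₀ hη] at hL3
                nlinarith
              nlinarith) m' (by nlinarith)
          refine hih.mono hA'pos ?_
          have : 1 / ((1 - 0.2 * η) * t) ≤ 1 / Real.log A' :=
            one_div_le_one_div_of_le ht'pos hn2
          have := mul_le_mul_of_nonneg_left this hKpos.le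
          nlinarith)
        refine hst.mono hA ?_
        have e1 : 1 / ((1 - 0.2 * η) * t) ≥ (1 + 0.2 * η) / t := by
          rw [ge_iff_le, div_le_div_iff₀ htA (by nlinarith)]
          nlinarith [mul_pos hη hη, mul_pos (mul_pos hη hη) htA]
        have e2 : K * (0.2 * η) = C := by rw [hK]; field_simp; ring
        have e3 : K * ((1 + 0.2 * η) / t) = K * (1 / t) + C / t := by
          rw [← e2]; ring
        have e4 := mul_le_mul_of_nonneg_left e1 hKpos.le
        have e5 : K * (2 / L - 1 / ((1 - 0.2 * η) * t)) = K * (2 / L) - K * (1 / ((1 - 0.2 * η) * t)) := by ring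
        have e6 : K * (2 / L - 1 / t) = K * (2 / L) - K * (1 / t) := by ring
        rw [e5, e6]
        linarith
  intro A hA h1 m hm
  obtain ⟨n, hn⟩ := exists_nat_ge (Real.log A - L)
  refine (main n A hA h1 (by linarith) m hm).mono hA ?_
  have htA : 0 < Real.log A := by
    by_contra hcon
    push Not at hcon
    nlinarith
  have : 0 < 1 / Real.log A := by positivity
  have e : 2 * K / L = K * (2 / L) := by ring
  rw [e]
  have := mul_pos hKpos this
  nlinarith

end Pool.Agent.Y964.LW
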