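import Pool.Agent.Y964.LW.A2
import Pool.Agent.W41.MU2

/-! Cancellation against a shift and the scales just above the frequency, for functions constant on
coalescing trajectories above a fixed height. -/

set_option autoImplicit false

namespace Pool.Agent.Y964.LW

open Pool.Agent.H320R2.PD Pool.Agent.H499R2.ND Finset Pool.Agent.H499R2.CO Pool.Agent.W41.FU Pool.Agent.W41
  Pool.Agent.W41.MU

/-- CANCELLATION AGAINST A SHIFT. -/
theorem cancel {R : ℕ} {d : ℤ} (hd : d % 2 = 1) (hdd : d * d = 1) {f : ℤ → ℝ} (hf : f ∈ SameR R d) {g : ℤ → ℝ}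
    (hg : ∀ x, |g x| ≤ 1) {a b : ℝ} (hab : a ≤ b) (m : ℕ) {u : ℤ} (hu : IsCoprime u 3) (v : ℤ) (k h' : ℕ)
    (hRa : (2 : ℝ) ^ k * R < a)
    {ε1 : ℝ} (h0 : ∀ x : ℤ, a ≤ x → (x : ℝ) < b → |g (x + 2 * 3 ^ m * h') + g x| ≤ ε1) (hε1 : 0 ≤ ε1) :
    |WS (fun x => f x * g x) a b m u v| ≤
      q step (0, 0) k (0, -(d * (2 * 3 ^ m * h'))) * ((b - a) / 3 ^ m + 2 ^ k) + h' + 1
        + ε1 * ((b - a) / (2 * 3 ^ m) + 1) := by
  classical
  set h : ℤ := 2 * 3 ^ m * h' with hh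
  set C := cls Set.univ a b m u v with hC
  set C' := cls Set.univ (a + (-(h : ℝ))) (b + (-(h : ℝ))) m u v with hC'
  -- step 1: replace f x by f (x - h)
  have s1 : |∑ x ∈ C, f x * g x - ∑ x ∈ C, f (x - h) * g x|
      ≤ 2 * (q step (0, 0) k (0, -(d * h)) * ((b - a) / 3 ^ m + 2 ^ k)) := by
    rw [← sum_sub_distrib]
    refine (abs_sum_le_sum_abs _ _).trans ?_
    have hb : ∀ x ∈ C, |f x * g x - f (x - h) * g x| ≤ if surv d k (0, -(d * h)) x then 2 else 0 := by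
      intro x hxC
      rw [← sub_mul, abs_mul]
      split_ifs with hs
      · have a1 := hf.1 x
        have a2 := hf.1 (x - h)
        have a3 := abs_sub (f x) (f (x - h))
        have a4 := hg x
        nlinarith [abs_nonneg (g x), abs_nonneg (f x - f (x - h))]
      · have hxl : (2 : ℤ) ^ k * R < x := by
          rw [hC, mem_cls] at hxC
          have h9 : ((2 : ℝ) ^ k * R) < x := lt_of_lt_of_le hRa hxC.1.1
          exact_mod_cast h9
        have h8 : f x = f (x - h) := by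
          have := same_of_coal hd hdd hf (h := -h) (by rw [mul_neg]; exact hs) hxl
          rw [this, sub_eq_add_neg]
        rw [h8, sub_self, abs_zero, zero_mul]
    refine (sum_le_sum hb).trans ?_
    rw [← sum_filter, sum_const, nsmul_eq_mul]
    have := surv_card hd k (0, -(d * h)) hab m hu v
    linarith
  -- step 2: reindex
  have s2 : ∑ x ∈ C, f (x - h) * g x = ∑ y ∈ C', f y * g (y + h) := by
    apply sum_bij' (fun x _ => x - h) (fun y _ => y + h)
    · intro x hx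
      rw [hC, mem_cls] at hx
      rw [hC', mem_cls]
      push_cast
      refine ⟨⟨by linarith [hx.1.1], by linarith [hx.1.2]⟩, ?_, Set.mem_univ _, ?_⟩
      · obtain ⟨t, ht⟩ := hx.2.1
        exact ⟨t - 3 ^ m * h', by rw [ht, hh]; ring⟩
      · have h1 := hx.2.2.2
        have e : u * (x - h) - v = (u * x - v) - 3 ^ m * (u * (2 * h')) := by rw [hh]; ring
        rw [e]
        exact dvd_sub h1 (dvd_mul_right _ _)
    · intro y hy
      rw [hC', mem_cls] at hy
      rw [hC, mem_cls]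
      push_cast
      refine ⟨⟨by linarith [hy.1.1], by linarith [hy.1.2]⟩, ?_, Set.mem_univ _, ?_⟩
      · obtain ⟨t, ht⟩ := hy.2.1
        exact ⟨t + 3 ^ m * h', by rw [ht, hh]; ring⟩
      · have h1 := hy.2.2.2
        have e : u * (y + h) - v = (u * y - v) + 3 ^ m * (u * (2 * h')) := by rw [hh]; ring
        rw [e]
        exact dvd_add h1 (dvd_mul_right _ _)
    · intro x _; ring
    · intro y _; ring
    · intro x _
      rw [sub_add_cancel]
  -- step 3: shift the window back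
  have hg' : ∀ x, |f x * g (x + h)| ≤ 1 := by
    intro x
    rw [abs_mul]
    have a1 := hf.1 x
    have a4 := hg (x + h)
    nlinarith [abs_nonneg (g (x + h)), abs_nonneg (f x)]
  have hh0 : (0 : ℝ) ≤ h := by rw [hh]; push_cast; positivity
  have s3 : |WS (fun x => f x * g (x + h)) (a + (-(h : ℝ))) (b + (-(h : ℝ))) m u v
      - WS (fun x => f x * g (x + h)) a b m u v| ≤ 2 * ((h : ℝ) / (2 * 3 ^ m) + 1) := by
    apply shiftW hg' _ m hu v
    rw [abs_neg, abs_of_nonneg hh0]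
  have e3 : (h : ℝ) / (2 * 3 ^ m) = h' := by
    rw [hh]; push_cast; field_simp
  rw [e3] at s3
  -- step 4: the sign change
  have s4 : |WS (fun x => f x * g (x + h)) a b m u v + WS (fun x => f x * g x) a b m u v|
      ≤ ε1 * ((b - a) / (2 * 3 ^ m) + 1) := by
    unfold WS
    rw [← hC, ← sum_add_distrib]
    refine (abs_sum_le_sum_abs _ _).trans ?_
    have hb : ∀ x ∈ C, |f x * g (x + h) + f x * g x| ≤ ε1 := by
      intro x hx
      rw [hC, mem_cls] at hx
      rw [← mul_add, abs_mul]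
      have a1 := hf.1 x
      have a2 := h0 x hx.1.1 hx.1.2
      have a3 := abs_nonneg (g (x + h) + g x)
      nlinarith [abs_nonneg (f x)]
    refine (sum_le_sum hb).trans ?_
    rw [sum_const, nsmul_eq_mul, mul_comm]
    exact mul_le_mul_of_nonneg_left (cls_card_le Set.univ hab m hu v) hε1
  have e0 : WS (fun x => f x * g x) a b m u v = ∑ x ∈ C, f x * g x := rfl
  have e5 : WS (fun x => f x * g (x + h)) (a + (-(h : ℝ))) (b + (-(h : ℝ))) m u v = ∑ y ∈ C', f y * g (y + h) := rfl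
  rw [e5, ← s2] at s3
  set S0 := WS (fun x => f x * g x) a b m u v with hS0
  rw [← e0] at s1
  set S1 := ∑ x ∈ C, f (x - h) * g x with hS1
  set S3 := WS (fun x => f x * g (x + h)) a b m u v with hS3
  set Q := q step (0, 0) k (0, -(d * h)) * ((b - a) / 3 ^ m + 2 ^ k) with hQ
  have hX : 0 ≤ (b - a) / (2 * 3 ^ m) := div_nonneg (by linarith) (by positivity)
  rw [abs_le] at s1 s3 s4 ⊢
  have h9 : 0 ≤ ε1 * ((b - a) / (2 * 3 ^ m) + 1) := by positivity
  constructor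
  · linarith [s1.1, s1.2, s3.1, s3.2, s4.1, s4.2]
  · linarith [s1.1, s1.2, s3.1, s3.2, s4.1, s4.2]

/-- one block -/
theorem block_bound {R : ℕ} {d : ℤ} (hdm : d % 2 = 1) (hdd : d * d = 1) {f : ℤ → ℝ} (hf : f ∈ SameR R d)
    {b τ φ A κ β ε Y : ℝ} {J m k : ℕ} (hA : 0 < A) (hε : 0 < ε) (hε1 : ε ≤ 1) (hκβ : 0 < κ * β) (hβ0 : 0 < β)
    (hκ : 0 < κ) (hbτ : |b| + |τ| = β) (hY : Y = A / (2 * 3 ^ m)) (hJ0 : (0 : ℝ) < J)
    (hy1 : Real.pi / (κ * β) * J ≤ ε / 16) (hy2 : Real.pi / (κ * β) ≤ 1)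
    (hyβ : Real.pi ^ 2 / (κ ^ 2 * β) ≤ ε / 64) (hyJ : Real.pi / (κ * J) ≤ ε / 64)
    (hphase : 2 * 3 ^ m * β / A ≤ ε / 64) (hJY : (J : ℝ) ≤ ε / 32 * Y) (h2k : (J : ℝ) * 2 ^ k ≤ 2 * Y) (hRA : (2 : ℝ) ^ k * R < A)
    (hq : ∀ h' : ℕ, 2 * 3 ^ m * (h' : ℝ) ≤ Real.pi / κ * (A / β) →
      q step (0, 0) k (0, -(d * (2 * 3 ^ m * h'))) ≤ ε / 64)
    {u : ℤ} (hu : IsCoprime u 3) (v : ℤ) {j : ℕ} (hj : j < J) :
    |WS (fun x => f x * GLo b τ φ ((x : ℝ) / A)) (A * (1 + j / J))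
      (A * (1 + (j + 1) / J)) m u v| ≤ Y / J * (ε / 4)
        + (if |b + τ / (1 + j / J)| < κ * β then 2 * (Y / J) else 0) := by
  have hπ0 := Real.pi_pos
  have hY0 : 0 < Y := by rw [hY]; positivity
  have hG : ∀ x : ℤ, |GLo b τ φ ((x : ℝ) / A)| ≤ 1 := fun x => GLo_abs _ _ _ _
  have hfG : ∀ x : ℤ, |f x * GLo b τ φ ((x : ℝ) / A)| ≤ 1 := by
    intro x
    rw [abs_mul]
    exact mul_le_one₀ (hf.1 x) (abs_nonneg _) (hG x)
  have hj0 : (0 : ℝ) ≤ (j : ℝ) / J := by positivity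
  have hj1 : ((j : ℝ) + 1) / J ≤ 1 := by
    rw [div_le_one hJ0]; exact_mod_cast hj
  set w := (1 + j / J : ℝ) with hw
  have hw1 : 1 ≤ w := by linarith only [hj0, hw]
  have hwJ : w + 1 / J = 1 + ((j : ℝ) + 1) / J := by rw [hw]; ring
  have hlen : A * (1 + ((j : ℝ) + 1) / J) - A * w = A / J := by rw [hw]; ring
  have hAJ : 0 ≤ A / J := by positivity
  have hab : A * w ≤ A * (1 + ((j : ℝ) + 1) / J) := by linarith only [hlen, hAJ]
  have e4 : (A * (1 + ((j : ℝ) + 1) / J) - A * w) / 3 ^ m = 2 * (Y / J) := by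
    rw [hlen, hY]; field_simp
  have e5 : (A * (1 + ((j : ℝ) + 1) / J) - A * w) / (2 * 3 ^ m) = Y / J := by
    rw [hlen, hY]; field_simp
  have hYJ0 : 0 < Y / J := by positivity
  have hYJ1 : 1 ≤ ε / 32 * (Y / J) := by
    have : (J : ℝ) / J ≤ ε / 32 * Y / J := div_le_div_of_nonneg_right hJY hJ0.le
    rw [div_self hJ0.ne'] at this
    calc (1 : ℝ) ≤ ε / 32 * Y / J := this
      _ = _ := by ring
  have hYJ2 : 1 ≤ Y / J := by
    have : ε / 32 * (Y / J) ≤ 1 * (Y / J) :=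
      mul_le_mul_of_nonneg_right (by linarith only [hε1]) hYJ0.le
    linarith only [this, hYJ1]
  split_ifs with hbad
  · refine (WS_abs hfG _ _ _ _ _).trans ?_
    refine (cls_card_le Set.univ hab m hu v).trans ?_
    rw [e5]
    have : 0 ≤ Y / J * (ε / 4) := by positivity
    linarith only [this, hYJ2]
  · push Not at hbad
    rw [add_zero]
    have hω0 : 0 < |b + τ / w| := lt_of_lt_of_le hκβ hbad
    set y0 := Real.pi * A / (2 * 3 ^ m * |b + τ / w|) with hy0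
    have hy00 : 0 < y0 := by positivity
    set h' := ⌊y0⌋₊ with hh'
    have hh1 : (h' : ℝ) ≤ y0 := Nat.floor_le hy00.le
    have hh2 : y0 - 1 ≤ h' := by linarith only [Nat.lt_floor_add_one y0]
    have hinv : Real.pi / |b + τ / w| ≤ Real.pi / (κ * β) := div_le_div_of_nonneg_left hπ0.le hκβ hbad
    have hh3 : (h' : ℝ) ≤ ε / 16 * (Y / J) := by
      refine hh1.trans ?_
      have e : y0 = Real.pi / |b + τ / w| * Y := by rw [hy0, hY]; field_simp
      rw [e]
      have h1 : Real.pi / |b + τ / w| * J ≤ ε / 16 :=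
        (mul_le_mul_of_nonneg_right hinv hJ0.le).trans hy1
      calc Real.pi / |b + τ / w| * Y = (Real.pi / |b + τ / w| * J) * (Y / J) := by field_simp
        _ ≤ _ := mul_le_mul_of_nonneg_right h1 hYJ0.le
    have key := cancel hdm hdd hf (g := fun x => GLo b τ φ ((x : ℝ) / A)) hG hab m hu v k h'
      (lt_of_lt_of_le hRA (le_mul_of_one_le_right hA.le hw1)) (ε1 := 3 * ε / 64) (fun x hx1 hx2 => anti_block hA hκβ hβ0 hκ hbτ hJ0 hw1
        (by rw [hwJ]; linarith only [hj1]) hbad hy2 hyβ hyJ hphase hh1 hh2 hx1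
        (by rw [hwJ]; exact hx2.le)) (by positivity)
    refine key.trans ?_
    have hqq : q step (0, 0) k (0, -(d * (2 * 3 ^ m * h'))) ≤ ε / 64 := by
      apply hq
      calc 2 * 3 ^ m * (h' : ℝ) ≤ 2 * 3 ^ m * y0 := mul_le_mul_of_nonneg_left hh1 (by positivity)
        _ = Real.pi / |b + τ / w| * A := by rw [hy0]; field_simp
        _ ≤ Real.pi / (κ * β) * A := mul_le_mul_of_nonneg_right hinv hA.le
        _ = Real.pi / κ * (A / β) := by field_simp
    rw [e4, e5]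
    have h2k' : (2 : ℝ) ^ k ≤ 2 * (Y / J) := by
      have e : 2 * (Y / J) = 2 * Y / J := by ring
      rw [e, le_div_iff₀ hJ0]; linarith only [h2k]
    have h9 : q step (0, 0) k (0, -(d * (2 * 3 ^ m * h'))) * (2 * (Y / J) + 2 ^ k) ≤ ε / 64 * (4 * (Y / J)) :=
      mul_le_mul hqq (by linarith only [h2k']) (by positivity) (by positivity)
    have h10 : 3 * ε / 64 * (Y / J + 1) ≤ 3 * ε / 64 * (2 * (Y / J)) := by
      apply mul_le_mul_of_nonneg_left _ (by positivity)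
      linarith only [hYJ2]
    linarith only [h9, h10, hh3, hYJ1]

/-- the scales just above the frequency -/
theorem bottom_log (R : ℕ) {d : ℤ} (hd : Odd d) (hdd : d * d = 1) {ε : ℝ} (hε : 0 < ε) (hε1 : ε ≤ 1) :
    ∃ η1 : ℝ, 0 < η1 ∧ η1 ≤ 1 / 2 ∧ ∀ η : ℝ, 0 < η → η ≤ η1 → ∃ T2 : ℝ, 1000 ≤ T2 ∧
      ∀ b τ φ : ℝ, 0 < |b| + |τ| → T2 ≤ Real.log (|b| + |τ|) → ∀ A : ℝ, 0 < A →
      (1 - η) * Real.log A ≤ Real.log (|b| + |τ|) →
      Real.log (|b| + |τ|) ≤ (1 - η / 2) * Real.log A → ∀ m : ℕ, (m : ℝ) ^ 2 ≤ Real.log A →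
      PF (SameR R d) (GLo b τ φ) A m ε := by
  classical
  have hdm : d % 2 = 1 := by obtain ⟨t, ht⟩ := hd; omega
  obtain ⟨θ, hθ, k0, hq⟩ := q_quant (show 0 < ε / 64 by positivity) (by linarith)
  refine ⟨min (1 / 2) (θ / 4), by positivity, min_le_left _ _, ?_⟩
  intro η hη hη1
  have hη2 : η ≤ 1 / 2 := hη1.trans (min_le_left _ _)
  have hηθ : η ≤ θ / 4 := hη1.trans (min_le_right _ _)
  set κ : ℝ := ε / 1024 with hκ
  have hκ0 : 0 < κ := by positivity
  have hκ4 : κ ≤ 1 / 4 := by rw [hκ]; linarith only [hε1]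
  set J : ℕ := ⌈2 ^ 18 / ε ^ 2⌉₊ with hJ
  have hJ1 : 2 ^ 18 / ε ^ 2 ≤ (J : ℝ) := Nat.le_ceil _
  have hε2 : ε ^ 2 ≤ ε := by nlinarith only [hε, hε1]
  have hJ2 : 2 ^ 18 / ε ≤ (J : ℝ) := by
    refine le_trans ?_ hJ1
    exact div_le_div_of_nonneg_left (by norm_num) (by positivity) hε2
  have hJ3 : (1 : ℝ) ≤ J := by
    refine le_trans ?_ hJ2
    rw [le_div_iff₀ hε]; linarith only [hε1]
  have hJN : 1 ≤ J := by exact_mod_cast hJ3
  have hJ0 : (0 : ℝ) < J := by linarith only [hJ3]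
  have p1 : 0 ≤ 2 * ((k0 : ℝ) + 1) := by positivity
  have p2 : 0 ≤ 16 / (κ * θ) + 4 := by positivity
  have p3 : 0 ≤ 64 * J / (κ * ε) := by positivity
  have p4 : 0 ≤ 1024 / (κ ^ 2 * ε) := by positivity
  have p5 : 0 ≤ (5 / η) ^ 2 := by positivity
  have p6 : 0 ≤ 512 / (η * ε) := by positivity
  have p7 : 0 ≤ 64 * J / ε := by positivity
  have p8 : 0 ≤ 2 * (R : ℝ) := by positivity
  refine ⟨1000 + 2 * ((k0 : ℝ) + 1) + (16 / (κ * θ) + 4) + 64 * J / (κ * ε) + 1024 / (κ ^ 2 * ε)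
    + (5 / η) ^ 2 + 512 / (η * ε) + 64 * J / ε + 2 * R, by linarith only [p1, p2, p3, p4, p5, p6, p7, p8], ?_⟩
  intro b τ φ hβ0 hT2 A hA hA1 hA2 m hm f hf u v hu
  obtain ⟨β, hβ⟩ : ∃ β, |b| + |τ| = β := ⟨_, rfl⟩
  rw [hβ] at hβ0 hT2 hA1 hA2
  obtain ⟨t, ht⟩ : ∃ t, Real.log A = t := ⟨_, rfl⟩
  rw [ht] at hA1 hA2 hm
  have hexpA : Real.exp t = A := by rw [← ht]; exact Real.exp_log hA
  have hexpβ : Real.exp (Real.log β) = β := Real.exp_log hβ0
  have hlβ : 0 < Real.log β := by linarith only [hT2, p1, p2, p3, p4, p5, p6, p7, p8]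
  have htβ : Real.log β ≤ t := by
    have : 0 < t := by
      by_contra hcon
      push Not at hcon
      nlinarith only [hcon, hlβ, hA2, hη2]
    nlinarith only [this, hA2, hη]
  have t1 : 1000 ≤ t := by linarith only [htβ, hT2, p1, p2, p3, p4, p5, p6, p7, p8]
  have t2 : 2 * ((k0 : ℝ) + 1) ≤ t := by linarith only [htβ, hT2, p1, p2, p3, p4, p5, p6, p7, p8]
  have t3 : 16 / (κ * θ) + 4 ≤ t := by linarith only [htβ, hT2, p1, p2, p3, p4, p5, p6, p7, p8]
  have t4 : 64 * J / (κ * ε) ≤ Real.log β := by linarith only [htβ, hT2, p1, p2, p3, p4, p5, p6, p7, p8]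
  have t4' : 1024 / (κ ^ 2 * ε) ≤ Real.log β := by linarith only [htβ, hT2, p1, p2, p3, p4, p5, p6, p7, p8]
  have t5 : (5 / η) ^ 2 ≤ t := by linarith only [htβ, hT2, p1, p2, p3, p4, p5, p6, p7, p8]
  have t6 : 512 / (η * ε) ≤ t := by linarith only [htβ, hT2, p1, p2, p3, p4, p5, p6, p7, p8]
  have t7 : 64 * J / ε ≤ t := by linarith only [htβ, hT2, p1, p2, p3, p4, p5, p6, p7, p8]
  have t8 : 2 * (R : ℝ) ≤ t := by linarith only [htβ, hT2, p1, p2, p3, p4, p5, p6, p7, p8]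
  have htpos : 0 < t := by linarith only [t1]
  have hl1 := Real.log_two_lt_d9
  have hl2 := Real.log_two_gt_d9
  have hl0 : 0 < Real.log 2 := by linarith only [hl2]
  have hββ : Real.log β ≤ β := by
    have := Real.add_one_le_exp (Real.log β)
    rw [hexpβ] at this
    linarith only [this]
  -- the number of steps
  obtain ⟨k, hk⟩ : ∃ k, ⌊t / (2 * Real.log 2)⌋₊ = k := ⟨_, rfl⟩
  have hk1' : (k : ℝ) * Real.log 2 ≤ t / 2 := by
    have hk1 : (k : ℝ) ≤ t / (2 * Real.log 2) := by rw [← hk]; exact Nat.floor_le (by positivity)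
    rw [le_div_iff₀ (by positivity)] at hk1; linarith only [hk1]
  have hk2' : t / 2 - Real.log 2 ≤ k * Real.log 2 := by
    have hk2 : t / (2 * Real.log 2) - 1 ≤ k := by
      rw [← hk]; linarith only [Nat.lt_floor_add_one (t / (2 * Real.log 2))]
    have e : t / (2 * Real.log 2) * Real.log 2 = t / 2 := by field_simp
    have := mul_le_mul_of_nonneg_right hk2 hl0.le
    linarith only [this, e]
  have hkk0 : k0 ≤ k := by
    have h1 : (k0 : ℝ) ≤ t / (2 * Real.log 2) := by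
      rw [le_div_iff₀ (by positivity)]
      have h0 := (Nat.cast_nonneg k0 : (0 : ℝ) ≤ k0)
      nlinarith only [h0, t2, hl1]
    rw [← hk]
    exact Nat.le_floor h1
  obtain ⟨h2k, hJY, hphase⟩ := bottom_num (J := J) (m := m) (k := k) ht hA hη hε hε1 t1 t5 t6 t7 hm hβ0 hA2 hk1'
  have hRA : (2 : ℝ) ^ k * R < A := by
    have h2 : (2 : ℝ) ^ k ≤ Real.exp (t / 2) := by
      have h3 : (2 : ℝ) ^ k = Real.exp (k * Real.log 2) := by
        rw [Real.exp_nat_mul, Real.exp_log (by norm_num)]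
      rw [h3]
      exact Real.exp_le_exp.2 hk1'
    have h4 : (R : ℝ) < Real.exp (t / 2) := by
      have := Real.add_one_le_exp (t / 2)
      linarith only [this, t8]
    calc (2 : ℝ) ^ k * R ≤ Real.exp (t / 2) * R := mul_le_mul_of_nonneg_right h2 (Nat.cast_nonneg R)
      _ < Real.exp (t / 2) * Real.exp (t / 2) := mul_lt_mul_of_pos_left h4 (Real.exp_pos _)
      _ = A := by rw [← Real.exp_add, ← hexpA]; congr 1; ring
  obtain ⟨Y, hY⟩ : ∃ Y, Y = A / (2 * 3 ^ m) := ⟨_, rfl⟩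
  rw [← hY] at h2k hJY
  have hY0 : 0 < Y := by rw [hY]; positivity
  have hπ4 := Real.pi_lt_four
  have hπ0 := Real.pi_pos
  have hκβ : 0 < κ * β := by positivity
  have hy1 : Real.pi / (κ * β) * J ≤ ε / 16 := by
    rw [div_mul_eq_mul_div, div_le_iff₀ hκβ]
    have h1 : 64 * J / (κ * ε) ≤ β := t4.trans hββ
    rw [div_le_iff₀ (by positivity)] at h1
    nlinarith only [h1, hπ4, hJ0]
  have hy2 : Real.pi / (κ * β) ≤ 1 := by
    have : Real.pi / (κ * β) * 1 ≤ Real.pi / (κ * β) * J := mul_le_mul_of_nonneg_left hJ3 (by positivity)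
    linarith only [this, hy1, hε1]
  have hyβ : Real.pi ^ 2 / (κ ^ 2 * β) ≤ ε / 64 := by
    rw [div_le_iff₀ (by positivity)]
    have h1 : 1024 / (κ ^ 2 * ε) ≤ β := t4'.trans hββ
    rw [div_le_iff₀ (by positivity)] at h1
    nlinarith only [h1, hπ4, hπ0]
  have hyJ : Real.pi / (κ * J) ≤ ε / 64 := by
    rw [div_le_iff₀ (by positivity)]
    have h3 : κ * (2 ^ 18 / ε ^ 2) ≤ κ * J := mul_le_mul_of_nonneg_left hJ1 hκ0.le
    have h4 : κ * (2 ^ 18 / ε ^ 2) = 256 / ε := by rw [hκ]; field_simp; norm_num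
    rw [h4, div_le_iff₀ hε] at h3
    linarith only [h3, hπ4]
  have hqs : ∀ h' : ℕ, 2 * 3 ^ m * (h' : ℝ) ≤ Real.pi / κ * (A / β) →
      q step (0, 0) k (0, -(d * (2 * 3 ^ m * h'))) ≤ ε / 64 := by
    intro h' hh'
    apply hq k hkk0
    have hd1 : |(d : ℝ)| = 1 := by
      have : (d : ℝ) * d = 1 := by exact_mod_cast hdd
      have h2 : |(d : ℝ)| * |(d : ℝ)| = 1 := by rw [← abs_mul, this, abs_one]
      nlinarith only [h2, abs_nonneg (d : ℝ)]
    push_cast
    rw [abs_neg, abs_mul, hd1, one_mul, abs_of_nonneg (by positivity)]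
    have hAβ : A / β ≤ Real.exp (η * t) := by
      rw [← hexpA, ← hexpβ, ← Real.exp_sub]
      apply Real.exp_le_exp.2
      linarith only [hA1]
    have h1 : 2 * 3 ^ m * (h' : ℝ) ≤ Real.pi / κ * Real.exp (η * t) :=
      hh'.trans (mul_le_mul_of_nonneg_left hAβ (by positivity))
    refine h1.trans ?_
    have h2 : (2 : ℝ) ^ (θ * k) = Real.exp (θ * (k * Real.log 2)) := by
      rw [Real.rpow_def_of_pos (by norm_num)]
      congr 1; ring
    rw [h2]
    have h3 : Real.pi / κ ≤ Real.exp (θ * (t / 4 - 1)) := by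
      have h4 := Real.add_one_le_exp (θ * (t / 4 - 1))
      have h5 : 4 / κ ≤ θ * (t / 4 - 1) := by
        have h6 : 16 / (κ * θ) ≤ t - 4 := by linarith only [t3]
        rw [div_le_iff₀ (by positivity)] at h6
        rw [div_le_iff₀ hκ0]
        linarith only [h6]
      have h7 : Real.pi / κ ≤ 4 / κ := div_le_div_of_nonneg_right hπ4.le hκ0.le
      linarith only [h4, h5, h7]
    calc Real.pi / κ * Real.exp (η * t) ≤ Real.exp (θ * (t / 4 - 1)) * Real.exp (η * t) :=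
          mul_le_mul_of_nonneg_right h3 (Real.exp_pos _).le
      _ = Real.exp (θ * (t / 4 - 1) + η * t) := by rw [← Real.exp_add]
      _ ≤ Real.exp (θ * (k * Real.log 2)) := by
          apply Real.exp_le_exp.2
          have h6 : θ * (t / 2 - Real.log 2) ≤ θ * (k * Real.log 2) := mul_le_mul_of_nonneg_left hk2' hθ.le
          have h8 : η * t ≤ θ / 4 * t := mul_le_mul_of_nonneg_right hηθ htpos.le
          have h9 : θ * Real.log 2 ≤ θ * 1 := mul_le_mul_of_nonneg_left (by linarith only [hl1]) hθ.le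
          linarith only [h6, h8, h9]
  -- one block
  have hblock : ∀ j ∈ range J, |WS (fun x => f x * GLo b τ φ ((x : ℝ) / A)) (A * (1 + j / J))
      (A * (1 + (j + 1) / J)) m u v| ≤ Y / J * (ε / 4)
        + (if |b + τ / (1 + j / J)| < κ * β then 2 * (Y / J) else 0) := fun j hj =>
    block_bound hdm hdd hf hA hε hε1 hκβ hβ0 hκ0 hβ hY hJ0 hy1 hy2 hyβ hyJ hphase hJY h2k hRA hqs hu v
      (mem_range.1 hj)
  -- sum over the blocks
  have hsum : WS (fun x => f x * GLo b τ φ ((x : ℝ) / A)) A (2 * A) m u v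
      = ∑ j ∈ range J, WS (fun x => f x * GLo b τ φ ((x : ℝ) / A)) (A * (1 + j / J))
        (A * (1 + (j + 1) / J)) m u v := by
    rw [← WS_blocks _ hA hJN, div_self hJ0.ne']
    congr 1; ring
  rw [hsum, ← hY]
  refine (abs_sum_le_sum_abs _ _).trans ((sum_le_sum hblock).trans ?_)
  rw [sum_add_distrib, sum_const, card_range, nsmul_eq_mul, ← sum_filter, sum_const, nsmul_eq_mul]
  have hfb := few_bad (S := (range J).filter fun j : ℕ => |b + τ / (1 + (j : ℝ) / J)| < κ * β) hJN hκ0 hκ4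
    (by rw [hβ]; exact hβ0)
    (by
      intro j hj
      rw [mem_filter, mem_range] at hj
      rw [hβ]
      exact hj)
  have h1 : (J : ℝ) * (Y / J * (ε / 4)) = Y * (ε / 4) := by field_simp
  have h2 : (32 * κ * J + 1) * (2 * (Y / J)) = 64 * κ * Y + 2 * Y / J := by field_simp; ring
  have h3 : (((range J).filter fun j : ℕ => |b + τ / (1 + (j : ℝ) / J)| < κ * β).card : ℝ) * (2 * (Y / J))
      ≤ (32 * κ * J + 1) * (2 * (Y / J)) := mul_le_mul_of_nonneg_right hfb (by positivity)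
  have h4 : 64 * κ * Y = ε / 16 * Y := by rw [hκ]; ring
  have h5 : 2 * Y / J ≤ ε / 8 * Y := by
    rw [div_le_iff₀ hJ0]
    have h6 : 2 ≤ ε / 8 * J := by
      rw [div_le_iff₀ hε] at hJ2
      linarith only [hJ2]
    have h7 := mul_le_mul_of_nonneg_left h6 hY0.le
    linarith only [h7]
  rw [h1]
  rw [h2, h4] at h3
  have h8 : 0 < ε * Y := by positivity
  linarith only [h3, h5, h8]

end Pool.Agent.Y964.LW
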