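import Pool.Agent.Y964.LW.A4
import Pool.Agent.W41.MU20

/-! Local constancy along progressions of odd difference, for functions constant on coalescing
trajectories above a fixed height. -/

set_option autoImplicit false

namespace Pool.Agent.Y964.LW

open Pool.Agent.H320R2.PD Pool.Agent.H499R2.ND Pool.Agent.H499R2.CO Finset MeasureTheory
  Pool.Agent.H376R2.MR Pool.Agent.W41.FU Pool.Agent.W41 Pool.Agent.W41.MU

theorem lc (R : ℕ) {d : ℤ} (hd : Odd d) (hdd : d * d = 1) {ε : ℝ} (hε : 0 < ε) (hε1 : ε ≤ 1) :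
    ∃ θ : ℝ, 0 < θ ∧ θ ≤ 1 / 2 ∧ ∃ M0 : ℕ, 1 ≤ M0 ∧ ∀ M : ℕ, M0 ≤ M → ∀ f ∈ SameR R d, ∀ c : ℤ, c % 2 = 1 → 1 ≤ c →
      ∀ x0 : ℤ, 0 ≤ x0 → ∀ h : ℤ, |(h : ℝ)| ≤ (M : ℝ) ^ θ →
      ∑ m ∈ Icc 1 M, |f (x0 + c * (m : ℕ) + h) - f (x0 + c * (m : ℕ))| ≤ ε * M := by
  classical
  have hdm : d % 2 = 1 := by obtain ⟨t, ht⟩ := hd; omega
  obtain ⟨θ, hθ, k0, hq⟩ := q_quant (show 0 < ε / 32 by positivity) (by linarith)
  obtain ⟨K, y0, hK, hy0, hs⟩ := surv_sum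
  have hl1 := Real.log_two_lt_d9
  have hl2 := Real.log_two_gt_d9
  have hl0 : 0 < Real.log 2 := by linarith
  refine ⟨min (1 / 2) (θ / 4), by positivity, min_le_left _ _, ?_⟩
  set η := min (1 / 2) (θ / 4) with hη
  have hη0 : 0 < η := by positivity
  have hηθ : η ≤ θ / 4 := min_le_right _ _
  refine ⟨⌈Real.exp (2 * ((k0 : ℝ) + 1) + 8)⌉₊ + (y0 ^ K) ^ 2 + ⌈(4 * R / ε) ^ 2⌉₊ + 1, by omega, ?_⟩
  intro N hN f hf c hc hc1 x0 hx0 h hh
  have hN1 : 1 ≤ N := by omega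
  have hNR : (1 : ℝ) ≤ N := by exact_mod_cast hN1
  have hN2 : Real.exp (2 * ((k0 : ℝ) + 1) + 8) ≤ N := by
    have h1 : ⌈Real.exp (2 * ((k0 : ℝ) + 1) + 8)⌉₊ ≤ N := by omega
    exact (Nat.le_ceil _).trans (by exact_mod_cast h1)
  have hN3 : (y0 ^ K) ^ 2 ≤ N := by omega
  have hN4 : (4 * (R : ℝ) / ε) ^ 2 ≤ N := by
    have h1 : ⌈(4 * (R : ℝ) / ε) ^ 2⌉₊ ≤ N := by omega
    exact (Nat.le_ceil _).trans (by exact_mod_cast h1)
  set t := Real.log N with ht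
  have hexp : Real.exp t = N := Real.exp_log (by linarith)
  have htk : 2 * ((k0 : ℝ) + 1) + 8 ≤ t := by
    rw [← Real.log_exp (2 * ((k0 : ℝ) + 1) + 8)]
    exact Real.log_le_log (Real.exp_pos _) hN2
  have hk00 : (0 : ℝ) ≤ k0 := Nat.cast_nonneg _
  have htpos : 0 < t := by linarith
  set k := ⌊t / (2 * Real.log 2)⌋₊ with hk
  have hk1 : (k : ℝ) ≤ t / (2 * Real.log 2) := Nat.floor_le (by positivity)
  have hk1' : (k : ℝ) * Real.log 2 ≤ t / 2 := by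
    rw [le_div_iff₀ (by positivity)] at hk1; linarith
  have hk2 : t / (2 * Real.log 2) - 1 ≤ k := by linarith [Nat.lt_floor_add_one (t / (2 * Real.log 2))]
  have hk2' : t / 2 - Real.log 2 ≤ k * Real.log 2 := by
    have e : t / (2 * Real.log 2) * Real.log 2 = t / 2 := by field_simp
    nlinarith
  have hkk0 : k0 ≤ k := by
    have h1 : (k0 : ℝ) ≤ t / (2 * Real.log 2) := by
      rw [le_div_iff₀ (by positivity)]
      nlinarith
    exact Nat.le_floor h1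
  have h2k : ((2 : ℝ) ^ k) ^ 2 ≤ N := by
    have h2 : (2 : ℝ) ^ k = Real.exp (k * Real.log 2) := by
      rw [Real.exp_nat_mul, Real.exp_log (by norm_num)]
    rw [h2, ← Real.exp_nat_mul, ← hexp]
    apply Real.exp_le_exp.2
    push_cast
    linarith
  have hcond : 2 ^ k * y0 ^ K ≤ N := by
    have h1 : (2 ^ k) ^ 2 ≤ N := by exact_mod_cast h2k
    by_contra hcon
    push Not at hcon
    have h3 : N * N < (2 ^ k * y0 ^ K) * (2 ^ k * y0 ^ K) := Nat.mul_lt_mul'' hcon hcon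
    have h4 : (2 ^ k * y0 ^ K) * (2 ^ k * y0 ^ K) = (2 ^ k) ^ 2 * (y0 ^ K) ^ 2 := by ring
    rw [h4] at h3
    have h5 := Nat.mul_le_mul h1 hN3
    omega
  have hqq : q step (0, 0) k (0, d * h) ≤ ε / 32 := by
    apply hq k hkk0
    have hd1 : |(d : ℝ)| = 1 := by
      have : (d : ℝ) * d = 1 := by exact_mod_cast hdd
      have h2 : |(d : ℝ)| * |(d : ℝ)| = 1 := by rw [← abs_mul, this, abs_one]
      nlinarith [abs_nonneg (d : ℝ)]
    push_cast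
    rw [abs_mul, hd1, one_mul]
    refine hh.trans ?_
    have h2 : (2 : ℝ) ^ (θ * k) = Real.exp (θ * (k * Real.log 2)) := by
      rw [Real.rpow_def_of_pos (by norm_num)]
      congr 1; ring
    rw [h2, Real.rpow_def_of_pos (by linarith), ← ht]
    apply Real.exp_le_exp.2
    have h6 : θ * (t / 2 - Real.log 2) ≤ θ * (k * Real.log 2) := mul_le_mul_of_nonneg_left hk2' hθ.le
    have h8 : t * η ≤ t * (θ / 4) := mul_le_mul_of_nonneg_left hηθ htpos.le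
    nlinarith
  have hsurv := hs y0 le_rfl k N hcond ∅ (by simp) 0 1 (by simp) d hdm x0 c hc (0, d * h)
  have hV : Pool.Agent.W41.V ∅ = 1 := by unfold Pool.Agent.W41.V; simp
  have hb : ∀ n ∈ Icc 1 N, |f (x0 + c * (n : ℕ) + h) - f (x0 + c * (n : ℕ))|
      ≤ 2 * (wt ∅ 0 1 (n : ℕ) * (if surv d k (0, d * h) (x0 + c * (n : ℕ)) then 1 else 0))
        + (if n ≤ 2 ^ k * R then 2 else 0) := by
    intro n hn
    have hw : wt ∅ 0 1 (n : ℕ) = 1 := by unfold wt; simp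
    have htr : |f (x0 + c * (n : ℕ) + h) - f (x0 + c * (n : ℕ))| ≤ 2 := by
      have a1 := hf.1 (x0 + c * (n : ℕ) + h)
      have a2 := hf.1 (x0 + c * (n : ℕ))
      have a3 := abs_sub (f (x0 + c * (n : ℕ) + h)) (f (x0 + c * (n : ℕ)))
      linarith
    rw [hw, one_mul]
    by_cases hsv : surv d k (0, d * h) (x0 + c * (n : ℕ))
    · rw [if_pos hsv]
      split_ifs <;> linarith
    · rw [if_neg hsv]
      by_cases hnk : n ≤ 2 ^ k * R
      · rw [if_pos hnk]; linarith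
      · rw [if_neg hnk]
        have hxl : (2 : ℤ) ^ k * R < x0 + c * (n : ℕ) := by
          push Not at hnk
          have h9 : ((2 ^ k * R : ℕ) : ℤ) < (n : ℤ) := by exact_mod_cast hnk
          push_cast at h9
          have h10 : (n : ℤ) ≤ c * (n : ℕ) := le_mul_of_one_le_left (by positivity) hc1
          linarith
        rw [← same_of_coal hdm hdd hf hsv hxl, sub_self, abs_zero]
        norm_num
  refine (sum_le_sum hb).trans ?_
  rw [sum_add_distrib, ← mul_sum, ← sum_filter, sum_const, nsmul_eq_mul]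
  rw [hV] at hsurv
  have h5 : 8 * (N : ℝ) * 1 * q step (0, 0) k (0, d * h) ≤ 8 * N * 1 * (ε / 32) :=
    mul_le_mul_of_nonneg_left hqq (by positivity)
  have h6 : ((filter (fun n => n ≤ 2 ^ k * R) (Icc 1 N)).card : ℝ) ≤ 2 ^ k * R := by
    have : filter (fun n => n ≤ 2 ^ k * R) (Icc 1 N) ⊆ Icc 1 (2 ^ k * R) := by
      intro n hn
      rw [mem_filter, mem_Icc] at hn
      exact mem_Icc.2 ⟨hn.1.1, hn.2⟩
    have h3 := card_le_card this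
    rw [Nat.card_Icc, Nat.add_sub_cancel] at h3
    exact_mod_cast h3
  have h7 : (2 : ℝ) ^ k * R * 2 ≤ ε / 2 * N := by
    have a1 : (2 : ℝ) ^ k * (4 * R / ε) ≤ N := by
      nlinarith [sq_nonneg ((2 : ℝ) ^ k - 4 * R / ε)]
    have a2 : (2 : ℝ) ^ k * R * 2 = ε / 2 * (2 ^ k * (4 * R / ε)) := by field_simp; ring
    rw [a2]
    exact mul_le_mul_of_nonneg_left a1 (by positivity)
  linarith

/-- the oscillation of twisted functions along progressions -/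
theorem lcF (R : ℕ) {d : ℤ} (hd : Odd d) (hdd : d * d = 1) {ε : ℝ} (hε : 0 < ε) (hε1 : ε ≤ 1) :
    ∃ θ : ℝ, 0 < θ ∧ θ ≤ 1 / 2 ∧ ∃ M0 : ℕ, 1 ≤ M0 ∧ ∀ M : ℕ, M0 ≤ M → ∀ f ∈ SameR R d, ∀ c : ℤ, c % 2 = 1 → 1 ≤ c →
      ∀ (h : ℕ) (γ : ℝ), 1 ≤ h → (h : ℝ) ≤ (M : ℝ) ^ θ → |γ| * h ≤ ε →
      ∑ m ∈ Icc 1 M, EF (tw f γ) h (c * (m : ℕ)) ≤ 6 * ε * M := by
  obtain ⟨θ, h1, h2, M0, h3, h4⟩ := lc R hd hdd hε hε1
  refine ⟨θ, h1, h2, M0, h3, fun M hM f hf c hc hc1 h γ hh hhM hγ => ?_⟩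
  have key := EF_sum (F := tw f γ) (h := h) hh (T := Icc 1 M) (y := fun m : ℕ => c * (m : ℕ)) (B := 2 * ε * M)
    (by positivity) (fun j hj => by
      have hj' : |(j : ℝ)| ≤ h := by exact_mod_cast hj
      have a1 := h4 M hM f hf c hc hc1 0 le_rfl j (hj'.trans hhM)
      have a2 : ∀ m ∈ Icc 1 M, ‖tw f γ (c * (m : ℕ) + j) - tw f γ (c * (m : ℕ))‖
          ≤ |f (0 + c * (m : ℕ) + j) - f (0 + c * (m : ℕ))| + ε := by
        intro m _
        refine (tw_diff hf.1 γ _ j).trans ?_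
        rw [zero_add]
        have : |γ| * |(j : ℝ)| ≤ |γ| * h := mul_le_mul_of_nonneg_left hj' (abs_nonneg _)
        linarith
      refine (sum_le_sum a2).trans ?_
      rw [sum_add_distrib, sum_const, Nat.card_Icc, Nat.add_sub_cancel, nsmul_eq_mul]
      linarith)
  refine key.trans (le_of_eq ?_)
  ring

/-- the sums of the oscillation needed for a cell -/
theorem ef_sums {f : ℤ → ℝ} {γ εc θ : ℝ} {M0 h v M H : ℕ} (hεc : 0 ≤ εc)
    (hθ : 0 ≤ θ)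
    (key : ∀ M : ℕ, M0 ≤ M → ∀ c : ℤ, c % 2 = 1 → 1 ≤ c → (h : ℝ) ≤ (M : ℝ) ^ θ →
      ∑ m ∈ Icc 1 M, EF (tw f γ) h (c * (m : ℕ)) ≤ 6 * εc * M)
    (hH : 1 ≤ H) (hv : H ≤ v) (hM : 1 ≤ M) (hMM : M0 ≤ 2 * M) (hhM : (h : ℝ) ≤ ((2 * M : ℕ) : ℝ) ^ θ)
    {Q : ℝ} (hQ : Q = M * Real.exp ((v : ℝ) / H)) (hQ2 : 4 ≤ Q) :
    (∀ p ∈ cell H v, ∑ m ∈ Ico M (2 * M), EF (tw f γ) h (((p * m : ℕ) : ℤ)) ≤ (120 * εc) * M) ∧
    (∀ p ∈ cell H v, ∑ n ∈ Ico (p * M) (p * (2 * M)), EF (tw f γ) h (n : ℤ) ≤ (120 * εc) * (p * M : ℕ)) ∧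
    (∑ n ∈ Ico ⌊Q / 2⌋₊ ⌈4 * Q⌉₊, EF (tw f γ) h (n : ℤ) ≤ (120 * εc) * (⌊Q / 2⌋₊ : ℕ)) := by
  have hH0 : (0 : ℝ) < H := by exact_mod_cast hH
  have hM0 : (0 : ℝ) < M := by exact_mod_cast hM
  have hv1 : (1 : ℝ) ≤ (v : ℝ) / H := by
    rw [le_div_iff₀ hH0, one_mul]; exact_mod_cast hv
  have hodd : ∀ p ∈ cell H v, p % 2 = 1 := by
    intro p hp
    have h1 := cell_lt hp
    rcases h1.1.eq_two_or_odd with h2 | h2
    · exfalso
      have h3 := h1.2.1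
      rw [h2] at h3
      have := Real.log_two_lt_d9
      push_cast at h3
      linarith
    · exact h2
  have hMQ : ((2 * M : ℕ) : ℝ) ≤ 2 * Q := by
    rw [hQ]
    push_cast
    have : (1 : ℝ) ≤ Real.exp ((v : ℝ) / H) := Real.one_le_exp (by positivity)
    nlinarith
  refine ⟨fun p hp => ?_, fun p hp => ?_, ?_⟩
  · have hp1 : ((p : ℤ)) % 2 = 1 := by have := hodd p hp; omega
    have k1 := key (2 * M) hMM (p : ℤ) hp1 (by exact_mod_cast (cell_lt hp).1.one_lt.le) hhM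
    have e : ∑ m ∈ Ico M (2 * M), EF (tw f γ) h (((p * m : ℕ) : ℤ))
        ≤ ∑ m ∈ Icc 1 (2 * M), EF (tw f γ) h ((p : ℤ) * (m : ℕ)) := by
      have e1 : ∑ m ∈ Ico M (2 * M), EF (tw f γ) h (((p * m : ℕ) : ℤ))
          = ∑ m ∈ Ico M (2 * M), EF (tw f γ) h ((p : ℤ) * (m : ℕ)) := by
        apply sum_congr rfl; intro m _; push_cast; rfl
      rw [e1]
      apply sum_le_sum_of_subset_of_nonneg
      · intro m hm
        rw [mem_Ico] at hm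
        rw [mem_Icc]
        omega
      · intro m _ _; exact EF_nonneg _ _ _
    refine e.trans (k1.trans ?_)
    push_cast
    nlinarith [mul_nonneg hεc hM0.le]
  · have hpp := (cell_lt hp).1
    have hp0 : (0 : ℝ) < p := by exact_mod_cast hpp.pos
    have hple : 2 * M ≤ p * (2 * M) := Nat.le_mul_of_pos_left _ hpp.pos
    have k1 := key (p * (2 * M)) (hMM.trans hple) 1 (by norm_num) le_rfl (hhM.trans
      (Real.rpow_le_rpow (by positivity) (by exact_mod_cast hple) hθ))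
    have e : ∑ n ∈ Ico (p * M) (p * (2 * M)), EF (tw f γ) h (n : ℤ)
        ≤ ∑ m ∈ Icc 1 (p * (2 * M)), EF (tw f γ) h (1 * (m : ℕ)) := by
      have e1 : ∑ n ∈ Ico (p * M) (p * (2 * M)), EF (tw f γ) h (n : ℤ)
          = ∑ m ∈ Ico (p * M) (p * (2 * M)), EF (tw f γ) h (1 * (m : ℕ)) := by
        apply sum_congr rfl; intro m _; rw [one_mul]
      rw [e1]
      apply sum_le_sum_of_subset_of_nonneg
      · intro m hm
        rw [mem_Ico] at hm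
        rw [mem_Icc]
        have : 1 ≤ p * M := Nat.mul_pos hpp.pos hM
        omega
      · intro m _ _; exact EF_nonneg _ _ _
    refine e.trans (k1.trans ?_)
    push_cast
    nlinarith [mul_nonneg hεc (mul_pos hp0 hM0).le]
  · have hc1 : 4 * Q ≤ (⌈4 * Q⌉₊ : ℕ) := Nat.le_ceil _
    have hc2 : ((⌈4 * Q⌉₊ : ℕ) : ℝ) < 4 * Q + 1 := Nat.ceil_lt_add_one (by linarith)
    have hf1 : Q / 2 < (⌊Q / 2⌋₊ : ℕ) + 1 := Nat.lt_floor_add_one _
    have h2 : 2 * M ≤ ⌈4 * Q⌉₊ := by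
      have : ((2 * M : ℕ) : ℝ) ≤ (⌈4 * Q⌉₊ : ℕ) := by linarith
      exact_mod_cast this
    have k1 := key ⌈4 * Q⌉₊ (hMM.trans h2) 1 (by norm_num) le_rfl (hhM.trans
      (Real.rpow_le_rpow (by positivity) (by exact_mod_cast h2) hθ))
    have e : ∑ n ∈ Ico ⌊Q / 2⌋₊ ⌈4 * Q⌉₊, EF (tw f γ) h (n : ℤ)
        ≤ ∑ m ∈ Icc 1 ⌈4 * Q⌉₊, EF (tw f γ) h (1 * (m : ℕ)) := by
      have e1 : ∑ n ∈ Ico ⌊Q / 2⌋₊ ⌈4 * Q⌉₊, EF (tw f γ) h (n : ℤ)
          = ∑ m ∈ Ico ⌊Q / 2⌋₊ ⌈4 * Q⌉₊, EF (tw f γ) h (1 * (m : ℕ)) := by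
        apply sum_congr rfl; intro m _; rw [one_mul]
      rw [e1]
      apply sum_le_sum_of_subset_of_nonneg
      · intro m hm
        rw [mem_Ico] at hm
        rw [mem_Icc]
        have : 1 ≤ ⌊Q / 2⌋₊ := Nat.le_floor (by push_cast; linarith)
        omega
      · intro m _ _; exact EF_nonneg _ _ _
    refine e.trans (k1.trans ?_)
    have h3 : 6 * ((⌈4 * Q⌉₊ : ℕ) : ℝ) ≤ 120 * (⌊Q / 2⌋₊ : ℕ) := by linarith
    calc 6 * εc * ((⌈4 * Q⌉₊ : ℕ) : ℝ) = εc * (6 * ((⌈4 * Q⌉₊ : ℕ) : ℝ)) := by ring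
      _ ≤ εc * (120 * (⌊Q / 2⌋₊ : ℕ)) := mul_le_mul_of_nonneg_left h3 hεc
      _ = _ := by ring

end Pool.Agent.Y964.LW
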