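import Pool.Agent.Y964.LW.A5
import Pool.Agent.TH926.BL.Ms

/-! The mean square over a cell, for functions constant on coalescing trajectories above a fixed height. -/

set_option autoImplicit false

namespace Pool.Agent.Y964.LW

open Pool.Agent.H320R2.PD Pool.Agent.H499R2.ND Pool.Agent.H499R2.CO Finset MeasureTheory
  Pool.Agent.H376R2.MR Pool.Agent.W41.FU Pool.Agent.W41 Pool.Agent.W41.MU Pool.Agent.TH926.BL

/-- MAJOR FREQUENCIES. -/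
theorem major (R0 : ℕ) {s : ℤ} (hs : s = 1 ∨ s = -1) {ε : ℝ} (hε : 0 < ε) (hε1 : ε ≤ 1) {H : ℕ} (hH : 10 ≤ H) :
    ∃ ϑ0 : ℝ, 0 < ϑ0 ∧ ϑ0 ≤ 1 / 4 ∧ ∀ ϑ : ℝ, 0 < ϑ → ϑ ≤ ϑ0 → ∀ θ1 : ℝ, 0 < θ1 → ∃ X0 : ℝ, 1 ≤ X0 ∧
    ∃ μ : ℝ, 0 < μ ∧ μ ≤ 1 ∧ ∀ X : ℝ, X0 ≤ X → ∀ f ∈ SameR R0 s,
    (∀ n : ℕ, (n : ℝ) ≤ 16 * X → |∑ m ∈ Icc 1 n, f (m : ℕ)| ≤ μ * X) → ∀ γ : ℝ, |γ| ≤ X ^ (-(ϑ / 2)) →
    ∀ v M : ℕ, θ1 * Real.log X ≤ (v : ℝ) / H → ((v : ℝ) + 1) / H ≤ ϑ / 8 * Real.log X →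
    X ≤ 4 * (M * Real.exp ((v : ℝ) / H)) → M * Real.exp ((v : ℝ) / H) ≤ 4 * X →
    ∀ w : ℕ → ℂ, (∀ p ∈ cell H v, ‖w p‖ ≤ 1 / p) →
    ∑ m ∈ Ico M (2 * M), ‖∑ p ∈ cell H v, w p * tw f γ (((p * m : ℕ) : ℤ))‖ ^ 2
      ≤ ε * (M * mm H v ^ 2) := by
  have hsd : Odd s := by rcases hs with h | h <;> rw [h] <;> decide
  have hss : s * s = 1 := by rcases hs with h | h <;> rw [h] <;> norm_num
  have hεc0 : 0 < ε / 2 ^ 16 := by positivity
  have hεc1 : ε / 2 ^ 16 ≤ 1 := by linarith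
  obtain ⟨θL, hθL0, hθL1, ML, hML1, hLC⟩ := lcF R0 hsd hss hεc0 hεc1
  obtain ⟨R, hR⟩ := lv H (by omega) (ε3 := ε / 8) (by positivity)
  obtain ⟨ε2, hε2⟩ : ∃ ε2 : ℝ, ε2 = ε / (64 * ((R : ℝ) + 1)) := ⟨_, rfl⟩
  have hR0 : (0 : ℝ) ≤ R := Nat.cast_nonneg R
  have hε20 : 0 < ε2 := by rw [hε2]; positivity
  have hε21 : ε2 ≤ ε / 64 := by
    rw [hε2]
    apply div_le_div_of_nonneg_left hε.le (by norm_num)
    linarith
  have hε22 : ε2 ≤ 1 := by linarith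
  obtain ⟨η1, hη10, hη11, hmel⟩ := mellin R0 hs (ε := ε2 / 64) (by positivity) (by linarith)
  refine ⟨min (1 / 4) (min (8 * η1) (2 * θL)), by positivity, min_le_left _ _, fun ϑ hϑ hϑ0 θ1 hθ1 => ?_⟩
  have hϑ1 : ϑ ≤ 1 / 4 := hϑ0.trans (min_le_left _ _)
  have hϑ2 : ϑ ≤ 8 * η1 := hϑ0.trans ((min_le_right _ _).trans (min_le_left _ _))
  have hϑ3 : ϑ ≤ 2 * θL := hϑ0.trans ((min_le_right _ _).trans (min_le_right _ _))
  obtain ⟨NM, hNM1, μ, hμ0, hμ1, hMel⟩ := hmel (ϑ / 8) (by positivity) (by linarith)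
  obtain ⟨Mc, hMc⟩ : ∃ Mc : ℕ, Mc = ⌈1 / θ1⌉₊ := ⟨_, rfl⟩
  obtain ⟨vL, hvL⟩ := hR Mc
  obtain ⟨Yc, hYc⟩ : ∃ Yc : ℝ, Yc = 2 ^ 30 / (ε * ε2) + ML + 4 := ⟨_, rfl⟩
  have hML0 : (0 : ℝ) ≤ ML := Nat.cast_nonneg _
  have hq0 : 0 < 2 ^ 30 / (ε * ε2) := by positivity
  have hYc4 : 4 ≤ Yc := by rw [hYc]; linarith only [hq0, hML0]
  obtain ⟨X1, hX1⟩ := Filter.eventually_atTop.1 ((tendsto_rpow_atTop (by positivity : 0 < ϑ / 8)).eventually_ge_atTop Yc)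
  have hNM0 : (0 : ℝ) ≤ NM := Nat.cast_nonneg _
  refine ⟨max (max X1 (Real.exp (1 / θ1))) (max (Real.exp ((vL : ℝ) / (H * θ1))) (16 * NM + 64)), ?_,
    μ / 16, by positivity, by linarith, ?_⟩
  · refine le_trans ?_ (le_max_right _ _)
    refine le_trans ?_ (le_max_right _ _)
    linarith only [hNM0]
  intro X hX f hf hmean γ hγ v M hv1 hv2 hQ1 hQ2 w hw
  have hXa : X1 ≤ X := ((le_max_left _ _).trans (le_max_left _ _)).trans hX
  have hXb : Real.exp (1 / θ1) ≤ X := ((le_max_right _ _).trans (le_max_left _ _)).trans hX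
  have hXc : Real.exp ((vL : ℝ) / (H * θ1)) ≤ X := ((le_max_left _ _).trans (le_max_right _ _)).trans hX
  have hXd : 16 * NM + 64 ≤ X := ((le_max_right _ _).trans (le_max_right _ _)).trans hX
  clear hX
  have hX64 : 64 ≤ X := by linarith only [hNM0, hXd]
  have hX0 : 0 < X := by linarith only [hX64]
  have hX1' : 1 ≤ X := by linarith only [hX64]
  have hXl0 : 0 < Real.log X := Real.log_pos (by linarith only [hX64])
  obtain ⟨y, hy⟩ : ∃ y : ℝ, y = X ^ (ϑ / 8) := ⟨_, rfl⟩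
  have hyY : Yc ≤ y := by rw [hy]; exact hX1 X hXa
  have hy4 : 4 ≤ y := hYc4.trans hyY
  have hy0 : 0 < y := by linarith only [hy4]
  have hH0 : (0 : ℝ) < H := by exact_mod_cast (by omega : 0 < H)
  have hyM : (ML : ℝ) ≤ y := by rw [hYc] at hyY; linarith only [hyY, hq0]
  have hyε : 2 ^ 30 ≤ y * (ε * ε2) := by
    have h1 : 2 ^ 30 / (ε * ε2) ≤ y := by rw [hYc] at hyY; linarith only [hyY, hML0]
    rwa [div_le_iff₀ (by positivity)] at h1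
  obtain ⟨hyX, hyX8, hXγ, hypow⟩ := num_X hϑ hϑ1 hX64 hy hy4
  have hγy : |γ| * y ^ 4 ≤ 1 := by
    calc |γ| * y ^ 4 ≤ X ^ (-(ϑ / 2)) * y ^ 4 := mul_le_mul_of_nonneg_right hγ (by positivity)
      _ = 1 := hXγ
  have hev : Real.exp (((v : ℝ) + 1) / H) ≤ y := by
    calc Real.exp (((v : ℝ) + 1) / H) ≤ Real.exp (ϑ / 8 * Real.log X) := Real.exp_le_exp.2 hv2
      _ = y := by rw [hy, Real.rpow_def_of_pos hX0]; ring_nf
  have hev' : Real.exp ((v : ℝ) / H) ≤ y := by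
    refine le_trans (Real.exp_le_exp.2 ?_) hev
    apply div_le_div_of_nonneg_right _ hH0.le
    linarith only
  obtain ⟨Q, hQ⟩ : ∃ Q : ℝ, Q = M * Real.exp ((v : ℝ) / H) := ⟨_, rfl⟩
  rw [← hQ] at hQ1 hQ2
  have hXQ : X / 4 ≤ Q := by linarith only [hQ1]
  have hQ16 : 16 ≤ Q := by linarith only [hXQ, hX64]
  have hQ0 : 0 < Q := by linarith only [hQ16]
  have hM1 : 1 ≤ M := by
    rcases Nat.eq_zero_or_pos M with h | h
    · rw [h] at hQ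
      simp only [Nat.cast_zero, zero_mul] at hQ
      linarith only [hQ, hQ0]
    · exact h
  have hM0 : (0 : ℝ) < M := by exact_mod_cast hM1
  -- the length
  obtain ⟨h, hh⟩ : ∃ h : ℕ, h = ⌊y ^ 2⌋₊ := ⟨_, rfl⟩
  obtain ⟨hh1, hh3, hh4, hh5⟩ := num_h hy4
  rw [← hh] at hh1 hh3 hh4 hh5
  have hhn : 1 ≤ h := by exact_mod_cast (by linarith only [hh4] : (1 : ℝ) ≤ h)
  have hh0 : (0 : ℝ) < h := by linarith only [hh4]
  have hph : Real.exp (((v : ℝ) + 1) / H) ≤ h := hev.trans hh5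
  have hMy : X / 4 ≤ M * y := by
    refine hXQ.trans ?_
    rw [hQ]
    exact mul_le_mul_of_nonneg_left hev' hM0.le
  have hMX : X ^ (1 / 2 : ℝ) ≤ ((2 * M : ℕ) : ℝ) := by
    push_cast
    exact num_M hX64 hy4 hyX hMy
  have hhM : (h : ℝ) ≤ ((2 * M : ℕ) : ℝ) ^ θL := by
    calc (h : ℝ) ≤ y ^ 2 := hh1
      _ = X ^ (ϑ / 8 * (2 : ℕ)) := hypow 2
      _ ≤ X ^ (1 / 2 * θL) := by
          apply Real.rpow_le_rpow_of_exponent_le hX1'
          push_cast; linarith only [hϑ3]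
      _ = (X ^ (1 / 2 : ℝ)) ^ θL := Real.rpow_mul hX0.le _ _
      _ ≤ _ := Real.rpow_le_rpow (by positivity) hMX hθL0.le
  have hMM : ML ≤ 2 * M := by
    have h1 : (ML : ℝ) ≤ ((2 * M : ℕ) : ℝ) := by
      refine hyM.trans (le_trans ?_ (hyX.trans hMX))
      nlinarith only [pow_le_pow_left₀ (by norm_num : (0:ℝ) ≤ 4) hy4 3, hy4]
    exact_mod_cast h1
  have hvX : 1 ≤ (v : ℝ) / H := by
    refine le_trans ?_ hv1
    have : 1 / θ1 ≤ Real.log X := by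
      rw [← Real.log_exp (1 / θ1)]
      exact Real.log_le_log (Real.exp_pos _) hXb
    calc (1 : ℝ) = θ1 * (1 / θ1) := by field_simp
      _ ≤ _ := mul_le_mul_of_nonneg_left this hθ1.le
  have hvH : H ≤ v := by
    rw [le_div_iff₀ hH0, one_mul] at hvX
    exact_mod_cast hvX
  obtain ⟨hγh, hγ64⟩ := num_gam hε hε20 hε22 hy4 hyε (abs_nonneg γ) hγy hh1
  obtain ⟨g1, g2, g3⟩ := ef_sums (f := f) (γ := γ) (h := h) (M0 := ML) hεc0.le hθL0.le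
    (fun M hM c hc hc1 hhM => hLC M hM _ hf c hc hc1 h γ hhn hhM hγh) (by omega) hvH hM1 hMM hhM hQ (by linarith only [hQ16])
  -- the parameters `ρ` and `K`
  obtain ⟨ρ, hρ⟩ : ∃ ρ : ℝ, ρ = h / (40 * X) := ⟨_, rfl⟩
  have hρ0 : 0 < ρ := by rw [hρ]; positivity
  have hρy : ρ ≤ 1 / (40 * y ^ 2) := by rw [hρ]; exact num_rho hy4 hX0 hyX8 hh1
  have hρ1 : ρ ≤ 1 / 4 := by
    refine hρy.trans ?_
    apply one_div_le_one_div_of_le (by norm_num)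
    nlinarith only [hy4]
  have hρh : 5 * ρ * Q + 1 ≤ h := by
    have h1 : 5 * ρ * Q ≤ h / 2 := by
      rw [hρ]
      calc 5 * (h / (40 * X)) * Q ≤ 5 * (h / (40 * X)) * (4 * X) := mul_le_mul_of_nonneg_left hQ2 (by positivity)
        _ = h / 2 := by field_simp; norm_num
    linarith only [h1, hh4]
  obtain ⟨K, hK⟩ : ∃ K : ℕ, K = ⌈1024 / (ε * ρ)⌉₊ := ⟨_, rfl⟩
  have hK1 : 1024 / (ε * ρ) ≤ K := by rw [hK]; exact Nat.le_ceil _
  have hK2 : (K : ℝ) < 1024 / (ε * ρ) + 1 := by rw [hK]; exact Nat.ceil_lt_add_one (by positivity)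
  have hKpos : (0 : ℝ) < K := lt_of_lt_of_le (by positivity) hK1
  have hKn : 1 ≤ K := by
    have : 0 < K := by exact_mod_cast hKpos
    omega
  obtain ⟨hKy2, hKX, hKy⟩ := num_K hε hε1 hε20 hε22 hy4 hX0 hyX8 hh0 hh3 hρ hyε hKpos.le hK2
  -- the large values
  have hlv : ∀ U : Finset ℤ, U ⊆ FK K →
      (∀ k ∈ U, ε / 8 * mm H v < ‖∑ p ∈ cell H v, w p * ch k (Real.log p)‖) → U.card ≤ R := by
    intro U hU hUl
    apply hvL v _ w hw U _ hUl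
    · have h1 : (vL : ℝ) / (H * θ1) ≤ Real.log X := by
        rw [← Real.log_exp ((vL : ℝ) / (H * θ1))]
        exact Real.log_le_log (Real.exp_pos _) hXc
      rw [div_le_iff₀ (by positivity)] at h1
      rw [le_div_iff₀ hH0] at hv1
      have : (vL : ℝ) ≤ v := by linarith only [h1, hv1]
      exact_mod_cast this
    · intro k hk
      refine (FK_abs (hU hk)).trans (hKX.trans ?_)
      rw [← Real.exp_log hX0]
      apply Real.exp_le_exp.2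
      have h1 : 1 / θ1 ≤ Mc := by rw [hMc]; exact Nat.le_ceil _
      calc Real.log X = 1 / θ1 * (θ1 * Real.log X) := by field_simp
        _ ≤ Mc * ((v : ℝ) / H) := mul_le_mul h1 hv1 (by positivity) (by positivity)
        _ = _ := by ring
  -- the Fourier coefficients
  have hEL : ∀ N : ℕ, Q / 4 ≤ N → (N : ℝ) ≤ 3 * Q → ∀ k ∈ FK K, ‖EL f N γ k‖ ≤ ε2 / 64 * N := by
    intro N hN1 hN2 k hk
    have hN0 : (0 : ℝ) < N := by linarith only [hN1, hQ0]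
    have hkK : |(k : ℝ)| ≤ K := FK_abs hk
    apply hMel f hf N
    · have : (NM : ℝ) ≤ N := by linarith only [hN1, hXQ, hXd]
      exact_mod_cast this
    · intro n hn
      have hnN : (n : ℝ) ≤ N := by exact_mod_cast hn
      refine (hmean n (by linarith only [hnN, hN2, hQ2, hX0])).trans ?_
      have h9 : X ≤ 16 * N := by linarith only [hN1, hXQ]
      calc μ / 16 * X ≤ μ / 16 * (16 * N) := mul_le_mul_of_nonneg_left h9 (by positivity)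
        _ = μ * N := by ring
    · refine le_trans ?_ (num_N hϑ hϑ1 hX0 hy hN0 (by linarith only [hN2, hQ2]))
      rw [le_div_iff₀ (by positivity)]
      have h3 : |γ| * N * (12 * y) ≤ N / 4 := by
        calc |γ| * N * (12 * y) = 12 * N * (|γ| * y) := by ring
          _ ≤ 12 * N * (1 / 64) := mul_le_mul_of_nonneg_left hγ64 (by positivity)
          _ ≤ N / 4 := by linarith only [hN0]
      have h5 : |(k : ℝ)| * (12 * y) ≤ N / 4 := by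
        calc |(k : ℝ)| * (12 * y) ≤ K * (12 * y) := mul_le_mul_of_nonneg_right hkK (by positivity)
          _ = 12 * (K * y) := by ring
          _ ≤ 12 * (X / 2 ^ 13) := by linarith only [hKy]
          _ ≤ N / 4 := by linarith only [hN1, hXQ, hX0]
      calc (|γ| * N + |(k : ℝ)|) * (12 * y) = |γ| * N * (12 * y) + |(k : ℝ)| * (12 * y) := by ring
        _ ≤ N / 4 + N / 4 := add_le_add h3 h5
        _ ≤ N := by linarith only [hN0]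
  have hhat := hat_small hf.1 hH hM1 hQ hQ16 (by positivity) hEL
  have hhat2 : ∀ k ∈ FK K, ‖hat (ph (tw f γ)) (Real.log M + ((v : ℝ) - 1) / H)
      (Real.log ((2 * M : ℕ) : ℝ) + ((v : ℝ) + 2) / H) k‖ ≤ ε2 := by
    intro k hk
    refine (hhat k hk).trans ?_
    have hKK : (1 : ℝ) ≤ K := by exact_mod_cast hKn
    have h1 : 4 / Q ≤ ε2 / 4 := by
      rw [div_le_iff₀ hQ0]
      have h3 : 4 ≤ (K : ℝ) * y := by nlinarith only [hKK, hy4]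
      have h4 : X * ε2 ≤ 4 * Q * ε2 := by
        apply mul_le_mul_of_nonneg_right _ hε20.le
        linarith only [hXQ]
      linarith only [h3, h4, hKy2]
    have h4 : 10 * (K : ℝ) / Q ≤ ε2 / 4 := by
      rw [div_le_iff₀ hQ0]
      have h3 : (K : ℝ) ≤ K * y := by nlinarith only [hKK, hy4]
      have h4 : X * ε2 ≤ 4 * Q * ε2 := by
        apply mul_le_mul_of_nonneg_right _ hε20.le
        linarith only [hXQ]
      have h5 : 0 < Q * ε2 := by positivity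
      linarith only [h3, h4, hKy2, h5]
    linarith only [h1, h4, hε20]
  have key := major_core (tw_norm hf.1 γ) hH hM1 hhn hKn hph hw hQ (by linarith only [hQ16])
    (by positivity : (0 : ℝ) ≤ 120 * (ε / 2 ^ 16)) hρ0 hρ1 hρh g1 g2 g3 (by positivity : (0 : ℝ) ≤ ε / 8) hlv hhat2
  refine key.trans ?_
  have hmm : 0 ≤ (M : ℝ) * mm H v ^ 2 := by positivity
  have hfin := num_fin hε hε1 hR0 hε2 hε20 hε21 hy4 hyε rfl hρ0 hρy hKpos hK1 Real.pi_le_four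
  calc M * mm H v ^ 2 * (32 * ρ + 48 * (120 * (ε / 2 ^ 16)) + 32 * Real.pi / (K * ρ) + 8 * (ε / 8) ^ 2 + 8 * R * ε2 ^ 2)
      ≤ M * mm H v ^ 2 * ε := mul_le_mul_of_nonneg_left hfin hmm
    _ = _ := by ring

theorem tw_zero' (f : ℤ → ℝ) (n : ℤ) : tw f 0 n = (f n : ℂ) := by
  unfold tw
  simp

theorem cell_real (R : ℕ) {s : ℤ} (hs : s = 1 ∨ s = -1) {ε : ℝ} (hε : 0 < ε) (hε1 : ε ≤ 1) {H : ℕ} (hH : 10 ≤ H) :
    ∃ ϑ : ℝ, 0 < ϑ ∧ ϑ ≤ 1 / 32 ∧ ∀ θ1 : ℝ, 0 < θ1 → ∃ X0 : ℝ, 1 ≤ X0 ∧ ∃ μ : ℝ, 0 < μ ∧ μ ≤ 1 ∧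
    ∀ X : ℝ, X0 ≤ X → ∀ f ∈ SameR R s,
    (∀ n : ℕ, (n : ℝ) ≤ 16 * X → |∑ m ∈ Icc 1 n, f (m : ℕ)| ≤ μ * X) →
    ∀ v M : ℕ, θ1 * Real.log X ≤ (v : ℝ) / H → ((v : ℝ) + 1) / H ≤ ϑ * Real.log X →
    X ≤ 4 * (M * Real.exp ((v : ℝ) / H)) → M * Real.exp ((v : ℝ) / H) ≤ 4 * X →
    ∀ w : ℕ → ℝ, (∀ p ∈ cell H v, |w p| ≤ 1 / p) →
    ∑ m ∈ Ico M (2 * M), GS f w H v m ^ 2 ≤ ε * (M * mm H v ^ 2) := by
  obtain ⟨ϑ0, h0, h1, h⟩ := major R hs hε hε1 hH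
  refine ⟨ϑ0 / 8, by positivity, by linarith, fun θ1 hθ1 => ?_⟩
  obtain ⟨X0, hX0, μ, hμ0, hμ1, h2⟩ := h ϑ0 h0 le_rfl θ1 hθ1
  refine ⟨X0, hX0, μ, hμ0, hμ1, fun X hX f hf hmean v M g1 g2 g3 g4 w hw => ?_⟩
  have h3 := h2 X hX f hf hmean 0 (by rw [abs_zero]; exact Real.rpow_nonneg (by linarith) _) v M g1 g2 g3 g4
    (fun p => (w p : ℂ)) (fun p hp => by
    rw [Complex.norm_real, Real.norm_eq_abs]; exact hw p hp)
  refine le_trans (le_of_eq (sum_congr rfl fun m _ => ?_)) h3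
  have e : ∑ p ∈ cell H v, (w p : ℂ) * tw f 0 (((p * m : ℕ) : ℤ)) = ((GS f w H v m : ℝ) : ℂ) := by
    unfold GS
    rw [Complex.ofReal_sum]
    apply sum_congr rfl
    intro p _
    rw [tw_zero', Complex.ofReal_mul]
  rw [e, Complex.norm_real, Real.norm_eq_abs, sq_abs]

end Pool.Agent.Y964.LW
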