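import Pool.Agent.Y964.LW.A6
import Pool.Agent.TH926.BL.Ms

/-! Mean squares of the sums over a cell along sparse sets, for functions constant on coalescing
trajectories above a fixed height. -/

set_option autoImplicit false

namespace Pool.Agent.Y964.LW

open Finset Pool.Agent.H320R2.PD Pool.Agent.H499R2.ND Pool.Agent.H499R2.CO Pool.Agent.H376R2.MR
  Pool.Agent.W41.FU Pool.Agent.W41 Pool.Agent.W41.MU Pool.Agent.TH926.BL
open scoped Classical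

/-- the change of `GS` under a shift -/
theorem GS_diff {R : ℕ} {s : ℤ} (hs : s = 1 ∨ s = -1) {f : ℤ → ℝ} (hf : f ∈ SameR R s) {w : ℕ → ℝ} {H v : ℕ}
    (hw : ∀ p ∈ cell H v, |w p| ≤ 1 / p) (k m j : ℕ) (hm : 2 ^ k * R < m) :
    (GS f w H v (m + j) - GS f w H v m) ^ 2 ≤ mm H v * ∑ p ∈ cell H v, 1 / (p : ℝ) *
      (4 * if surv s k (0, s * (p * j : ℕ)) ((p : ℤ) * (m : ℤ)) then 1 else 0) := by
  have hsm : s % 2 = 1 := by rcases hs with rfl | rfl <;> norm_num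
  have hss : s * s = 1 := by rcases hs with rfl | rfl <;> norm_num
  set D : ℕ → ℝ := fun p => f ((p * (m + j) : ℕ) : ℤ) - f ((p * m : ℕ) : ℤ) with hD
  have h1 : GS f w H v (m + j) - GS f w H v m = ∑ p ∈ cell H v, w p * D p := by
    unfold GS
    rw [← sum_sub_distrib]
    apply sum_congr rfl
    intro p _
    rw [hD]; ring
  have hDb : ∀ p ∈ cell H v, D p ^ 2 ≤ 4 * if surv s k (0, s * (p * j : ℕ)) ((p : ℤ) * (m : ℤ)) then 1 else 0 := by
    intro p hp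
    split_ifs with h
    · have a1 := abs_le.1 (hf.1 ((p * (m + j) : ℕ) : ℤ))
      have a2 := abs_le.1 (hf.1 ((p * m : ℕ) : ℤ))
      rw [mul_one, show (4 : ℝ) = 2 ^ 2 by norm_num]
      apply sq_le_sq'
      · simp only [hD]; linarith
      · simp only [hD]; linarith
    · have hpm : (2 : ℤ) ^ k * R < (p : ℤ) * (m : ℤ) := by
        have h5 : m ≤ p * m := Nat.le_mul_of_pos_left _ (cell_lt hp).1.pos
        have h6 : 2 ^ k * R < p * m := lt_of_lt_of_le hm h5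
        exact_mod_cast h6
      have h2 := same_of_coal hsm hss hf h hpm
      have h3 : f ((p * (m + j) : ℕ) : ℤ) = f ((p * m : ℕ) : ℤ) := by
        have e1 : ((p * (m + j) : ℕ) : ℤ) = (p : ℤ) * (m : ℤ) + (p * j : ℕ) := by push_cast; ring
        have e2 : ((p * m : ℕ) : ℤ) = (p : ℤ) * (m : ℤ) := by push_cast; ring
        rw [e1, e2, h2]
      simp only [hD]
      rw [h3]; norm_num
  rw [h1]
  have h2 : (∑ p ∈ cell H v, w p * D p) ^ 2 ≤
      (∑ p ∈ cell H v, 1 / (p : ℝ)) * ∑ p ∈ cell H v, 1 / (p : ℝ) * D p ^ 2 := by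
    have h3 : |∑ p ∈ cell H v, w p * D p| ≤ ∑ p ∈ cell H v, 1 / (p : ℝ) * |D p| := by
      refine (abs_sum_le_sum_abs _ _).trans (sum_le_sum fun p hp => ?_)
      rw [abs_mul]
      exact mul_le_mul_of_nonneg_right (hw p hp) (abs_nonneg _)
    have h4 : (∑ p ∈ cell H v, w p * D p) ^ 2 ≤ (∑ p ∈ cell H v, 1 / (p : ℝ) * |D p|) ^ 2 := by
      rw [← sq_abs]
      exact pow_le_pow_left₀ (abs_nonneg _) h3 2
    refine h4.trans ?_
    apply sum_sq_le_sum_mul_sum_of_sq_le_mul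
    · intro p _; positivity
    · intro p _; positivity
    · intro p _
      rw [mul_pow, sq_abs]
      apply le_of_eq; ring
  refine h2.trans ?_
  apply mul_le_mul_of_nonneg_left _ (mm_nonneg H v)
  apply sum_le_sum
  intro p hp
  exact mul_le_mul_of_nonneg_left (hDb p hp) (by positivity)

/-- MEAN SQUARE over a sparse set of moduli. -/
theorem ms_B (R : ℕ) {s : ℤ} (hs : s = 1 ∨ s = -1) {ε : ℝ} (hε : 0 < ε) (hε1 : ε ≤ 1) {H : ℕ} (hH : 10 ≤ H) :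
    ∃ c : ℝ, 0 < c ∧ c ≤ 1 / 32 ∧ ∀ K1 : ℝ, 1 ≤ K1 → ∃ ϑ : ℝ, 0 < ϑ ∧ ϑ ≤ c ∧
    ∀ θ1 : ℝ, 0 < θ1 → ∃ X0 : ℝ, 1 ≤ X0 ∧ ∃ μ : ℝ, 0 < μ ∧ μ ≤ 1 ∧
    ∀ X : ℝ, X0 ≤ X → ∀ f ∈ SameR R s,
    (∀ n : ℕ, (n : ℝ) ≤ 16 * X → |∑ m ∈ Icc 1 n, f (m : ℕ)| ≤ μ * X) →
    ∀ v M : ℕ, θ1 * Real.log X ≤ (v : ℝ) / H → ((v : ℝ) + 1) / H ≤ ϑ * Real.log X →
    X ≤ 4 * (M * Real.exp ((v : ℝ) / H)) → M * Real.exp ((v : ℝ) / H) ≤ 4 * X →
    ∀ w : ℕ → ℝ, (∀ p ∈ cell H v, |w p| ≤ 1 / p) →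
    ∀ (B : Finset ℕ) (κ : ℝ), B ⊆ Ico M (2 * M) → 0 ≤ κ →
    (∀ a L : ℕ, X ^ c ≤ L → (#{m ∈ B | a ≤ m ∧ m < a + L} : ℝ) ≤ K1 * κ * L) →
    (∀ k : ℕ, 1 ≤ k → (2 : ℝ) ^ k ≤ X ^ (1 / 4 : ℝ) → ∀ P : ℤ → Prop,
      (∀ x m : ℤ, P (x + m * 2 ^ k) ↔ P x) →
      (#{m ∈ B | P ((m : ℕ) : ℤ)} : ℝ) ≤ κ * (M / 2 ^ k) * #{a ∈ range (2 ^ k) | P ((a : ℕ) : ℤ)}) →
    ∑ m ∈ B, GS f w H v m ^ 2 ≤ ε * κ * (M * mm H v ^ 2) := by
  have hsm : s % 2 = 1 := by rcases hs with rfl | rfl <;> norm_num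
  obtain ⟨θq, hθq, k0, hq⟩ := q_quant (show 0 < ε / 16 by positivity) (by linarith)
  set c : ℝ := min (1 / 32) (θq / 32) with hc
  have hc0 : 0 < c := by positivity
  have hc1 : c ≤ 1 / 32 := min_le_left _ _
  have hc2 : c ≤ θq / 32 := min_le_right _ _
  refine ⟨c, hc0, hc1, fun K1 hK1 => ?_⟩
  have hK0 : 0 < K1 := by linarith
  set ε1 : ℝ := ε / 16 / K1 with hε1d
  have hε10 : 0 < ε1 := by positivity
  have hε11 : ε1 ≤ 1 := by
    rw [hε1d, div_le_one hK0]; linarith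
  have hε1K : K1 * ε1 = ε / 16 := by rw [hε1d]; field_simp
  obtain ⟨ϑa, ha0, ha1, hA⟩ := cell_real R hs hε10 hε11 hH
  set ϑ : ℝ := min ϑa c with hϑ
  have hϑ0 : 0 < ϑ := lt_min ha0 hc0
  have hϑa : ϑ ≤ ϑa := min_le_left _ _
  have hϑc : ϑ ≤ c := min_le_right _ _
  refine ⟨ϑ, hϑ0, hϑc, fun θ1 hθ1 => ?_⟩
  obtain ⟨Xa, hXa1, μ, hμ0, hμ1, hA2⟩ := hA θ1 hθ1
  -- conditions on the size of `X`
  have ev : ∀ᶠ X : ℝ in Filter.atTop, (16 ≤ X ∧ 1 ≤ θ1 * Real.log X) ∧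
      ((2 : ℝ) ^ (k0 + 2) ≤ X ^ (1 / 4 : ℝ) ∧ (2 : ℝ) ^ (θq + 2) ≤ X ^ (θq / 8)) ∧
      (64 / ε1 ≤ X ^ (1 / 2 : ℝ) ∧ 8 * (R : ℝ) < X ^ (1 / 2 : ℝ)) := by
    refine ((Filter.eventually_ge_atTop 16).and ?_).and (Filter.Eventually.and (Filter.Eventually.and ?_ ?_)
      (Filter.Eventually.and ?_ ?_))
    · exact (Real.tendsto_log_atTop.const_mul_atTop hθ1).eventually_ge_atTop 1
    · exact (tendsto_rpow_atTop (by norm_num)).eventually_ge_atTop _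
    · exact (tendsto_rpow_atTop (by positivity)).eventually_ge_atTop _
    · exact (tendsto_rpow_atTop (by norm_num)).eventually_ge_atTop _
    · exact (tendsto_rpow_atTop (by norm_num)).eventually_gt_atTop _
  obtain ⟨Xb, hXb⟩ := Filter.eventually_atTop.1 ev
  refine ⟨max Xa Xb, le_trans hXa1 (le_max_left _ _), μ, hμ0, hμ1,
    fun X hX f hfS hmean v M g1 g2 g3 g4 w hw B κ hB hκ b1 b2 => ?_⟩
  obtain ⟨⟨x1, x2⟩, ⟨x3, x4⟩, x5, x6⟩ := hXb X (le_trans (le_max_right _ _) hX)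
  have hX0 : 0 < X := by linarith
  have hX1 : 1 ≤ X := by linarith
  have hlogX : 0 < Real.log X := Real.log_pos (by linarith)
  have hH0 : (0 : ℝ) < H := by exact_mod_cast (by omega : 0 < H)
  have hfa := hfS.1
  -- the mean square over all integers
  have hms := hA2 X (le_trans (le_max_left _ _) hX) f hfS hmean v M g1
    (g2.trans (mul_le_mul_of_nonneg_right hϑa hlogX.le)) g3 g4 w hw
  -- the primes of the cell
  have hP : ∀ p ∈ cell H v, (p : ℝ) ≤ X ^ c ∧ p % 2 = 1 ∧ 1 ≤ p := by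
    intro p hp
    have h1 := cell_lt hp
    have hp0 : (0 : ℝ) < p := by exact_mod_cast h1.1.pos
    refine ⟨?_, ?_, h1.1.one_lt.le⟩
    · rw [← Real.exp_log hp0, Real.rpow_def_of_pos hX0]
      apply Real.exp_le_exp.2
      have := mul_le_mul_of_nonneg_right hϑc hlogX.le
      linarith [h1.2.2]
    · apply cell_odd (show 1 ≤ H by omega) _ p hp
      have h2 : (1 : ℝ) ≤ (v : ℝ) / H := x2.trans g1
      rw [le_div_iff₀ hH0, one_mul] at h2
      exact_mod_cast h2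
  have hexpv : Real.exp ((v : ℝ) / H) ≤ X ^ c := by
    rw [Real.rpow_def_of_pos hX0]
    apply Real.exp_le_exp.2
    have h1 := mul_le_mul_of_nonneg_right hϑc hlogX.le
    have h2 : (v : ℝ) / H ≤ ((v : ℝ) + 1) / H := div_le_div_of_nonneg_right (by linarith) hH0.le
    linarith
  -- `M` is large
  have hXc : X ^ c ≤ X ^ (1 / 32 : ℝ) := Real.rpow_le_rpow_of_exponent_le hX1 hc1
  have hMbig : X ^ (31 / 32 : ℝ) ≤ 4 * M := by
    have h1 : X ≤ 4 * M * X ^ (1 / 32 : ℝ) := by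
      calc X ≤ 4 * (M * Real.exp ((v : ℝ) / H)) := g3
        _ ≤ 4 * (M * X ^ (1 / 32 : ℝ)) := by
            apply mul_le_mul_of_nonneg_left _ (by norm_num)
            exact mul_le_mul_of_nonneg_left (hexpv.trans hXc) (Nat.cast_nonneg _)
        _ = _ := by ring
    have h2 : X = X ^ (31 / 32 : ℝ) * X ^ (1 / 32 : ℝ) := by
      rw [← Real.rpow_add hX0]; norm_num
    have h3 : 0 < X ^ (1 / 32 : ℝ) := by positivity
    rw [h2] at h1
    have h4 : X ^ (31 / 32 : ℝ) * X ^ (1 / 32 : ℝ) ≤ 4 * M * X ^ (1 / 32 : ℝ) := by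
      have e : (X ^ (31 / 32 : ℝ) * X ^ (1 / 32 : ℝ)) ^ (1 / 32 : ℝ) = X ^ (1 / 32 : ℝ) := by rw [← h2]
      rw [e] at h1
      exact h1
    exact le_of_mul_le_mul_right h4 h3
  have hM0 : (0 : ℝ) < M := by
    have : 0 < X ^ (31 / 32 : ℝ) := by positivity
    linarith
  -- the length
  set L : ℕ := ⌈X ^ c⌉₊ with hLd
  have hXc1 : 1 ≤ X ^ c := Real.one_le_rpow hX1 hc0.le
  have hL1 : X ^ c ≤ L := Nat.le_ceil _
  have hL2 : (L : ℝ) ≤ 2 * X ^ c := by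
    have := Nat.ceil_lt_add_one (show 0 ≤ X ^ c by positivity)
    linarith
  have hLn : 1 ≤ L := by
    have : (1 : ℝ) ≤ L := hXc1.trans hL1
    exact_mod_cast this
  -- the modulus
  obtain ⟨k, hk1, hk2⟩ : ∃ k : ℕ, (2 : ℝ) ^ k ≤ X ^ (1 / 4 : ℝ) ∧ X ^ (1 / 4 : ℝ) < 2 ^ (k + 1) :=
    exists_nat_pow_near (Real.one_le_rpow hX1 (by norm_num)) (by norm_num)
  have hkk : k0 + 1 ≤ k := by
    have h1 : (2 : ℝ) ^ (k0 + 2) < 2 ^ (k + 1) := lt_of_le_of_lt x3 hk2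
    have h2 := (pow_lt_pow_iff_right₀ (by norm_num : (1 : ℝ) < 2)).1 h1
    omega
  have hk1' : 1 ≤ k := by omega
  have hqb : ∀ p ∈ cell H v, ∀ j ∈ Icc 1 L, q step (0, 0) k (0, s * (p * j : ℕ)) ≤ ε / 16 := by
    intro p hp j hj
    apply hq k (by omega)
    rw [mem_Icc] at hj
    have hjL : (j : ℝ) ≤ L := by exact_mod_cast hj.2
    have h1 : |((s * (p * j : ℕ) : ℤ) : ℝ)| = (p : ℝ) * j := by
      rcases hs with rfl | rfl
      · push_cast; rw [one_mul, abs_of_nonneg (by positivity)]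
      · push_cast; rw [neg_one_mul, abs_neg, abs_of_nonneg (by positivity)]
    rw [h1]
    have h2 : (p : ℝ) * j ≤ X ^ c * (2 * X ^ c) :=
      mul_le_mul (hP p hp).1 (hjL.trans hL2) (Nat.cast_nonneg _) (by positivity)
    have h3 : X ^ c * (2 * X ^ c) ≤ 2 * X ^ (θq / 8) := by
      have : X ^ c * (2 * X ^ c) = 2 * X ^ (c + c) := by rw [Real.rpow_add hX0]; ring
      rw [this]
      apply mul_le_mul_of_nonneg_left _ (by norm_num)
      apply Real.rpow_le_rpow_of_exponent_le hX1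
      linarith
    have h4 : X ^ (θq / 4) ≤ (2 : ℝ) ^ (θq * k) * 2 ^ θq := by
      have h5 : (X ^ (1 / 4 : ℝ)) ^ θq ≤ ((2 : ℝ) ^ (k + 1)) ^ θq :=
        Real.rpow_le_rpow (by positivity) hk2.le hθq.le
      rw [← Real.rpow_mul hX0.le] at h5
      have e1 : (1 / 4 : ℝ) * θq = θq / 4 := by ring
      rw [e1] at h5
      refine h5.trans (le_of_eq ?_)
      rw [← Real.rpow_natCast, ← Real.rpow_mul (by norm_num), ← Real.rpow_add (by norm_num)]
      congr 1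
      push_cast; ring
    have h6 : X ^ (θq / 4) = X ^ (θq / 8) * X ^ (θq / 8) := by
      rw [← Real.rpow_add hX0]; congr 1; ring
    have h7 : (2 : ℝ) ^ (θq + 2) = 4 * 2 ^ θq := by
      rw [Real.rpow_add (by norm_num)]; norm_num; ring
    rw [h7] at x4
    rw [h6] at h4
    have h8 : 0 < (2 : ℝ) ^ θq := by positivity
    have h9 : 0 < X ^ (θq / 8) := by positivity
    have h10 : X ^ (θq / 8) * (4 * 2 ^ θq) ≤ (2 : ℝ) ^ (θq * k) * 2 ^ θq :=
      (mul_le_mul_of_nonneg_left x4 h9.le).trans h4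
    have h11 : 4 * X ^ (θq / 8) * 2 ^ θq ≤ (2 : ℝ) ^ (θq * k) * 2 ^ θq := by linarith
    have h12 := le_of_mul_le_mul_right h11 h8
    linarith
  -- the shifts
  have hdiff : ∀ j ∈ Icc 1 L, ∑ m ∈ B, (GS f w H v (m + j) - GS f w H v m) ^ 2 ≤
      mm H v * (mm H v * (4 * (κ * M * (ε / 16)))) := by
    intro j hj
    have hmR : ∀ m ∈ B, 2 ^ k * R < m := by
      intro m hm
      have h1 : (M : ℝ) ≤ m := by exact_mod_cast (mem_Ico.1 (hB hm)).1
      have h2 : (2 : ℝ) ^ k * R < M := by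
        have h3 : (2 : ℝ) ^ k * (8 * R) ≤ X ^ (1 / 4 : ℝ) * X ^ (1 / 2 : ℝ) :=
          mul_le_mul hk1 x6.le (by positivity) (by positivity)
        have h4 : X ^ (1 / 4 : ℝ) * X ^ (1 / 2 : ℝ) ≤ X ^ (31 / 32 : ℝ) := by
          rw [← Real.rpow_add hX0]
          exact Real.rpow_le_rpow_of_exponent_le hX1 (by norm_num)
        have h5 : 0 < X ^ (31 / 32 : ℝ) := by positivity
        have h6 : (2 : ℝ) ^ k * R = 2 ^ k * (8 * R) / 8 := by ring
        rw [h6]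
        linarith
      have h3 : ((2 ^ k * R : ℕ) : ℝ) < m := by push_cast; linarith
      exact_mod_cast h3
    refine (sum_le_sum fun m hm => GS_diff hs hfS hw k m j (hmR m hm)).trans ?_
    rw [← mul_sum]
    apply mul_le_mul_of_nonneg_left _ (mm_nonneg H v)
    rw [sum_comm]
    have h1 : ∀ p ∈ cell H v, ∑ m ∈ B, 1 / (p : ℝ) *
        (4 * if surv s k (0, s * (p * j : ℕ)) ((p : ℤ) * (m : ℤ)) then 1 else 0) ≤
        1 / (p : ℝ) * (4 * (κ * M * (ε / 16))) := by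
      intro p hp
      rw [← mul_sum, ← mul_sum]
      apply mul_le_mul_of_nonneg_left _ (by positivity)
      apply mul_le_mul_of_nonneg_left _ (by norm_num)
      have h2 := b2 k hk1' hk1 (fun x => surv s k (0, s * (p * j : ℕ)) ((p : ℤ) * x)) (fun x m => by
        have e : (p : ℤ) * (x + m * 2 ^ k) = (p : ℤ) * x + (p * m) * 2 ^ k := by ring
        rw [e]
        exact surv_periodic hsm k _ _ _)
      have h3 : (p : ℤ) % 2 = 1 := by
        have := (hP p hp).2.1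
        omega
      rw [class_surv hsm k _ h3] at h2
      rw [← sum_filter, sum_const, nsmul_eq_mul, mul_one]
      refine h2.trans ?_
      have h2k : (0 : ℝ) < 2 ^ k := by positivity
      have e : κ * (M / 2 ^ k) * (2 ^ k * q step (0, 0) k (0, s * (p * j : ℕ))) =
          κ * M * q step (0, 0) k (0, s * (p * j : ℕ)) := by field_simp
      rw [e]
      exact mul_le_mul_of_nonneg_left (hqb p hp j hj) (by positivity)
    refine (sum_le_sum h1).trans ?_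
    rw [← sum_mul]
    exact le_rfl
  have hmain := avg_bound (G := fun m => GS f w H v m) hLn hB
    (show 0 ≤ K1 * κ by positivity) (fun a => b1 a L hL1) hms
    (E0 := mm H v ^ 2) (fun n => by
      rw [← sq_abs]
      exact pow_le_pow_left₀ (abs_nonneg _) (GS_abs hfa hw n) 2) hdiff
  refine hmain.trans ?_
  -- `L + 1 ≤ ε1 M`
  have hL3 : (L : ℝ) + 1 ≤ ε1 * M := by
    have h1 : (L : ℝ) + 1 ≤ 4 * X ^ (1 / 32 : ℝ) := by linarith
    have h2 : X ^ (31 / 32 : ℝ) = X ^ (15 / 32 : ℝ) * X ^ (1 / 2 : ℝ) := by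
      rw [← Real.rpow_add hX0]; norm_num
    have h3 : X ^ (1 / 32 : ℝ) ≤ X ^ (15 / 32 : ℝ) := Real.rpow_le_rpow_of_exponent_le hX1 (by norm_num)
    rw [div_le_iff₀ hε10] at x5
    have h4 : 64 * X ^ (1 / 32 : ℝ) ≤ X ^ (1 / 2 : ℝ) * ε1 * X ^ (15 / 32 : ℝ) :=
      mul_le_mul x5 h3 (by positivity) (by positivity)
    have h5 : X ^ (1 / 2 : ℝ) * ε1 * X ^ (15 / 32 : ℝ) = ε1 * X ^ (31 / 32 : ℝ) := by
      rw [h2]; ring
    rw [h5] at h4
    have h6 : ε1 * X ^ (31 / 32 : ℝ) ≤ ε1 * (4 * M) := mul_le_mul_of_nonneg_left hMbig hε10.le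
    linarith
  have hmm2 : 0 ≤ mm H v ^ 2 := sq_nonneg _
  have h6 : ((L : ℝ) + 1) * mm H v ^ 2 ≤ ε1 * M * mm H v ^ 2 := mul_le_mul_of_nonneg_right hL3 hmm2
  have h7 : 2 * (K1 * κ) * (ε1 * (M * mm H v ^ 2) + ((L : ℝ) + 1) * mm H v ^ 2) ≤
      2 * (K1 * κ) * (ε1 * (M * mm H v ^ 2) + ε1 * M * mm H v ^ 2) :=
    mul_le_mul_of_nonneg_left (by linarith) (by positivity)
  have h8 : 0 ≤ ε * κ * (M * mm H v ^ 2) := by positivity
  calc _ ≤ 2 * (K1 * κ) * (ε1 * (M * mm H v ^ 2) + ε1 * M * mm H v ^ 2) +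
        2 * (mm H v * (mm H v * (4 * (κ * M * (ε / 16))))) := by linarith
    _ = 4 * (K1 * ε1) * κ * (M * mm H v ^ 2) + 8 * (ε / 16) * κ * (M * mm H v ^ 2) := by ring
    _ = 3 / 4 * (ε * κ * (M * mm H v ^ 2)) := by rw [hε1K]; ring
    _ ≤ _ := by linarith

end Pool.Agent.Y964.LW
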