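import Pool.Agent.Y964.LW.B2
import Pool.Agent.Y964.SE.Cn

/-! The sum over a cell, complex weights (functions constant on coalescing trajectories above a
fixed height). -/

set_option autoImplicit false

namespace Pool.Agent.Y964.LW

open Finset Pool.Agent.H320R2.PD Pool.Agent.H499R2.ND Pool.Agent.H499R2.CO Pool.Agent.H376R2.MR
  Pool.Agent.W41.FU Pool.Agent.W41 Pool.Agent.W41.MU Pool.Agent.TH926.BL Pool.Agent.Y964.SE
open scoped Classical

theorem cell_norm (R R1 : ℕ) {s : ℤ} (hs : s = 1 ∨ s = -1) : ∃ K : ℝ, 1 ≤ K ∧ ∀ ε : ℝ, 0 < ε → ε ≤ 1 → ∀ H : ℕ, 10 ≤ H →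
    ∃ ϑ : ℝ, 0 < ϑ ∧ ϑ ≤ 1 / 64 ∧ ∀ θ1 : ℝ, 0 < θ1 → ∃ N0 : ℕ, 2 ≤ N0 ∧ ∃ μ : ℝ, 0 < μ ∧ μ ≤ 1 ∧
    ∀ N : ℕ, N0 ≤ N → ∀ f ∈ SameR R s, MN f (16 * R1) μ N →
    ∀ v : ℕ, θ1 * Real.log N ≤ (v : ℝ) / H → ((v : ℝ) + 1) / H ≤ ϑ * Real.log N →
    ∀ r : ℕ, r % 2 = 1 → r ≤ R1 → ∀ (A : Set ℕ) (g : ℕ → ℂ), (∀ p, ‖g p‖ ≤ 1) →
    ∑ m ∈ FA A N, ‖∑ p ∈ (cell H v).filter (fun p => p ∈ A ∧ p * m ≤ N),
      g p * (f ((p * (r * m) : ℕ) : ℤ) : ℂ)‖ ≤ (2 * ε + K / H) * (kap A N * (N * mm H v)) := by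
  obtain ⟨K, hK, hedge⟩ := cell_edge
  refine ⟨K, hK, fun ε hε hε1 H hH => ?_⟩
  obtain ⟨N1, hN12, h1⟩ := hedge H hH
  obtain ⟨ϑ, h0, h01, hmain⟩ := cell_main R R1 hs hε hε1 hH
  refine ⟨ϑ, h0, h01, fun θ1 hθ1 => ?_⟩
  obtain ⟨N2, hN22, μ, hμ0, hμ1, h2⟩ := hmain θ1 hθ1
  refine ⟨max N1 N2, hN12.trans (le_max_left _ _), μ, hμ0, hμ1,
    fun N hN f hfS hmean v g1 g2 r hr hrN A g hg => ?_⟩
  have hN1 := (le_max_left _ _).trans hN
  have hN2 := (le_max_right _ _).trans hN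
  have hH0 : (0 : ℝ) < H := by exact_mod_cast (by omega : 0 < H)
  have hNp : (0 : ℝ) < N := by exact_mod_cast (by omega : 0 < N)
  have hlog : 0 < Real.log N := Real.log_pos (by exact_mod_cast (by omega : 1 < N))
  have h1 := h1 N hN1 v (g2.trans (mul_le_mul_of_nonneg_right (by linarith) hlog.le)) A
  have h2 := h2 N hN2 f hfS hmean v g1 g2 r hr hrN A
  have hfa := hfS.1
  set P := Real.exp ((v : ℝ) / H) with hP
  set P' := Real.exp (((v : ℝ) + 1) / H) with hP'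
  have hP0 : 0 < P := Real.exp_pos _
  have hP'0 : 0 < P' := Real.exp_pos _
  have hPP : P ≤ P' := Real.exp_le_exp.2 (div_le_div_of_nonneg_right (by linarith) hH0.le)
  have hP1 : 1 ≤ P := Real.one_le_exp (by positivity)
  have hcellp : ∀ p ∈ cell H v, P ≤ (p : ℝ) ∧ (p : ℝ) < P' := by
    intro p hp
    have h1 := cell_lt hp
    have hp0 : (0 : ℝ) < p := by exact_mod_cast h1.1.pos
    constructor
    · rw [hP, ← Real.exp_log hp0]; exact Real.exp_le_exp.2 h1.2.1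
    · rw [hP', ← Real.exp_log hp0]; exact Real.exp_lt_exp.2 h1.2.2
  set Φ : ℕ → ℝ := fun m => ‖∑ p ∈ (cell H v).filter (fun p => p ∈ A ∧ p * m ≤ N),
      g p * (f ((p * (r * m) : ℕ) : ℤ) : ℂ)‖ with hΦ
  have s1 : FA A (N / P') ⊆ FA A (N / P) := FA_mono A (div_le_div_of_nonneg_left hNp.le hP0 hPP)
  have s2 : FA A (N / P) ⊆ FA A N := FA_mono A (div_le_self hNp.le hP1)
  have e : ∑ m ∈ FA A N, Φ m = ∑ m ∈ FA A N \ FA A (N / P), Φ m + (∑ m ∈ FA A (N / P) \ FA A (N / P'), Φ m +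
      ∑ m ∈ FA A (N / P'), Φ m) := by
    rw [← sum_sdiff s2, ← sum_sdiff s1]
  have hgf : ∀ p m : ℕ, ‖g p * (f ((p * (r * m) : ℕ) : ℤ) : ℂ)‖ ≤ 1 := fun p m => by
    rw [norm_mul, Complex.norm_real, Real.norm_eq_abs]
    exact mul_le_one₀ (hg p) (abs_nonneg _) (hfa _)
  have k1 : ∑ m ∈ FA A N \ FA A (N / P), Φ m = 0 := by
    apply sum_eq_zero
    intro m hm
    rw [mem_sdiff, mem_FA_nat, mem_FA] at hm
    have h3 : N / P < m := by
      by_contra hcon
      push Not at hcon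
      exact hm.2 ⟨Nat.le_floor hcon, hm.1.2⟩
    simp only [hΦ]
    rw [norm_eq_zero]
    apply sum_eq_zero
    intro p hp
    rw [mem_filter] at hp
    exfalso
    have h4 := (hcellp p hp.1).1
    rw [div_lt_iff₀ hP0] at h3
    have h5 : ((p * m : ℕ) : ℝ) ≤ N := by exact_mod_cast hp.2.2
    push_cast at h5
    have h6 : (m : ℝ) * P ≤ m * p := mul_le_mul_of_nonneg_left h4 (Nat.cast_nonneg _)
    linarith
  have k2 : ∑ m ∈ FA A (N / P) \ FA A (N / P'), Φ m ≤ K / H * (kap A N * (N * mm H v)) := by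
    refine le_trans ?_ h1
    have h3 : ∀ m ∈ FA A (N / P) \ FA A (N / P'), Φ m ≤ #(cell H v) := by
      intro m _
      refine (norm_sum_le _ _).trans ((sum_le_sum fun p _ => hgf p m).trans ?_)
      rw [sum_const, nsmul_eq_mul, mul_one]
      exact_mod_cast card_filter_le _ _
    refine (sum_le_sum h3).trans ?_
    rw [sum_const, nsmul_eq_mul]
  have k3 : ∑ m ∈ FA A (N / P'), Φ m ≤ 2 * ε * (kap A N * (N * mm H v)) := by
    have hre := h2 (fun p => if p ∈ A then (g p).re else 0) (fun p _ => by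
      split_ifs
      · exact (Complex.abs_re_le_norm _).trans (hg p)
      · rw [abs_zero]; norm_num)
    have him := h2 (fun p => if p ∈ A then (g p).im else 0) (fun p _ => by
      split_ifs
      · exact (Complex.abs_im_le_norm _).trans (hg p)
      · rw [abs_zero]; norm_num)
    have h3 : ∀ m ∈ FA A (N / P'), Φ m ≤
        |∑ p ∈ cell H v, (if p ∈ A then (g p).re else 0) * f ((p * (r * m) : ℕ) : ℤ)| +
        |∑ p ∈ cell H v, (if p ∈ A then (g p).im else 0) * f ((p * (r * m) : ℕ) : ℤ)| := by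
      intro m hm
      rw [mem_FA] at hm
      have hm' : (m : ℝ) ≤ N / P' := (Nat.le_floor_iff (by positivity)).1 hm.1
      rw [le_div_iff₀ hP'0] at hm'
      have e4 : (cell H v).filter (fun p => p ∈ A ∧ p * m ≤ N) = (cell H v).filter (fun p => p ∈ A) := by
        ext p
        rw [mem_filter, mem_filter]
        constructor
        · rintro ⟨a, b, _⟩; exact ⟨a, b⟩
        · rintro ⟨a, b⟩
          refine ⟨a, b, ?_⟩
          have h5 := (hcellp p a).2
          have h6 : ((p * m : ℕ) : ℝ) ≤ (N : ℕ) := by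
            push_cast
            have := mul_le_mul_of_nonneg_left h5.le (Nat.cast_nonneg (α := ℝ) m)
            linarith
          exact_mod_cast h6
      simp only [hΦ]
      rw [e4]
      refine (Complex.norm_le_abs_re_add_abs_im _).trans (le_of_eq ?_)
      congr 2
      · rw [Complex.re_sum, sum_filter]
        apply sum_congr rfl
        intro p _
        split_ifs
        · rw [Complex.re_mul_ofReal]
        · ring
      · rw [Complex.im_sum, sum_filter]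
        apply sum_congr rfl
        intro p _
        split_ifs
        · rw [Complex.im_mul_ofReal]
        · ring
    refine (sum_le_sum h3).trans ?_
    rw [sum_add_distrib]
    linarith
  rw [e, k1]
  have e5 : (2 * ε + K / H) * (kap A N * (N * mm H v)) = K / H * (kap A N * (N * mm H v)) +
    2 * ε * (kap A N * (N * mm H v)) := by ring
  rw [e5, zero_add]
  exact add_le_add k2 k3

end Pool.Agent.Y964.LW
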