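import Pool.Agent.Y964.LW.B3
import Pool.Agent.Y964.SE.Core

/-! The integers composed of primes of a set (functions constant on coalescing trajectories above
a fixed height). -/

set_option autoImplicit false

namespace Pool.Agent.Y964.LW

open Finset Pool.Agent.H320R2.PD Pool.Agent.H499R2.ND Pool.Agent.H499R2.CO Pool.Agent.H376R2.MR
  Pool.Agent.W41.FU Pool.Agent.W41 Pool.Agent.W41.MU Pool.Agent.TH926.BL Pool.Agent.Y964.SE
open scoped Classical

theorem core (R0 R1 : ℕ) {s : ℤ} (hs : s = 1 ∨ s = -1) : ∃ K : ℝ, 1 ≤ K ∧ ∀ (I : ℕ) (ε : ℝ), 0 < ε →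
    ∃ H : ℕ, 10 ≤ H ∧ ∃ ϑ : ℝ, 0 < ϑ ∧ ϑ ≤ 1 ∧ ∃ v0 : ℕ → ℕ, Filter.Tendsto v0 Filter.atTop Filter.atTop ∧
    ∃ N0 : ℕ, 2 ≤ N0 ∧ (∀ N : ℕ, N0 ≤ N → ((4 ^ I * v0 N : ℕ) : ℝ) / H ≤ Real.log N / 4) ∧
    ∃ μ : ℝ, 0 < μ ∧ μ ≤ 1 ∧ ∀ N : ℕ, N0 ≤ N → ∀ f ∈ SameR R0 s, MN f (16 * R1) μ N →
    ∀ r : ℕ, r % 2 = 1 → r ≤ R1 → ∀ (A : Set ℕ) (g : ℕ → ℂ), (∀ n, ‖g n‖ ≤ 1) →
    (∀ m n : ℕ, Nat.Coprime m n → g (m * n) = g m * g n) →
    ‖∑ n ∈ FA A N, (f ((r * n : ℕ) : ℤ) : ℂ) * g n‖ ≤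
      ε * (kap A N * N) + K * (kap (A \ {p | p ∈ RN H (v0 N) (4 ^ I * v0 N)}) N * N) := by
  obtain ⟨K1, hK1, N1, hN12, hcount⟩ := count_int
  obtain ⟨K2, hK2, hnorm⟩ := cell_norm R0 R1 hs
  refine ⟨K1, hK1, fun I ε hε => ?_⟩
  have hI0 : (0 : ℝ) ≤ I := Nat.cast_nonneg _
  obtain ⟨H', hH'⟩ := exists_nat_ge (24 * K2 * (I + 1) / ε)
  set H : ℕ := max 10 H' with hHd
  have hH : 10 ≤ H := le_max_left _ _
  have hH1 : 1 ≤ H := by omega
  have hHε : 24 * K2 * (I + 1) / ε ≤ H := hH'.trans (by exact_mod_cast le_max_right _ _)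
  have hH0 : (0 : ℝ) < H := by exact_mod_cast (by omega : 0 < H)
  have hHb : K2 / H * (6 * I) ≤ ε / 4 := by
    rw [div_le_iff₀ hε] at hHε
    rw [div_mul_eq_mul_div, div_le_iff₀ hH0]
    nlinarith only [hHε, hK2]
  set ε' : ℝ := min 1 (ε / (48 * (I + 1))) with hε'
  have hε'0 : 0 < ε' := lt_min one_pos (by positivity)
  have hε'1 : ε' ≤ 1 := min_le_left _ _
  have hε'b : 2 * ε' * (6 * I) ≤ ε / 4 := by
    have h1 : ε' ≤ ε / (48 * (I + 1)) := min_le_right _ _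
    rw [le_div_iff₀ (by positivity)] at h1
    nlinarith only [h1, hε'0]
  obtain ⟨ϑ, h0, h01, hmain⟩ := hnorm ε' hε'0 hε'1 H hH
  obtain ⟨w0, hw0, hW⟩ := mmW hH1
  have h4I : (0 : ℝ) < 4 ^ (I + 1) := by positivity
  obtain ⟨N2, hN22, μ, hμ0, hμ1, hN2⟩ := hmain (ϑ / (2 * 4 ^ (I + 1))) (by positivity)
  set v0 : ℕ → ℕ := fun N => ⌊H * ϑ * Real.log N / 4 ^ (I + 1)⌋₊ with hv0
  have tl : Filter.Tendsto (fun N : ℕ => H * ϑ * Real.log N / 4 ^ (I + 1)) Filter.atTop Filter.atTop := by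
    apply Filter.Tendsto.atTop_div_const h4I
    apply Filter.Tendsto.const_mul_atTop (by positivity)
    exact Real.tendsto_log_atTop.comp tendsto_natCast_atTop_atTop
  have tv : Filter.Tendsto v0 Filter.atTop Filter.atTop := tendsto_nat_floor_atTop.comp tl
  refine ⟨H, hH, ϑ, h0, by linarith, v0, tv, ?_⟩
  have te : Filter.Tendsto (fun N : ℕ => Real.exp (-((v0 N : ℝ) / H))) Filter.atTop (nhds 0) := by
    apply Real.tendsto_exp_neg_atTop_nhds_zero.comp
    exact Filter.Tendsto.atTop_div_const hH0 (tendsto_natCast_atTop_atTop.comp tv)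
  have ev : ∀ᶠ N : ℕ in Filter.atTop, (w0 ≤ v0 N ∧ 2 ≤ H * ϑ * Real.log N / 4 ^ (I + 1)) ∧
      Real.exp (-((v0 N : ℝ) / H)) < ε / (8 * K1 * (6 * I + 1)) := by
    refine ((tv.eventually_ge_atTop _).and (tl.eventually_ge_atTop _)).and ?_
    exact te.eventually_lt_const (by positivity)
  obtain ⟨N3, hN3⟩ := Filter.eventually_atTop.1 ev
  have hbd : ∀ N : ℕ, 2 ≤ N → ((4 ^ I * v0 N : ℕ) : ℝ) / H ≤ ϑ * Real.log N / 4 := by
    intro N hN
    have hlog : 0 < Real.log N := Real.log_pos (by exact_mod_cast (by omega : 1 < N))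
    have h1 : (v0 N : ℝ) ≤ H * ϑ * Real.log N / 4 ^ (I + 1) := Nat.floor_le (by positivity)
    rw [div_le_iff₀ hH0]
    push_cast
    have h4 : (0 : ℝ) < 4 ^ I := by positivity
    calc (4 : ℝ) ^ I * v0 N ≤ 4 ^ I * (H * ϑ * Real.log N / 4 ^ (I + 1)) := mul_le_mul_of_nonneg_left h1 h4.le
      _ = _ := by rw [pow_succ]; field_simp
  refine ⟨max 2 (max N1 (max N2 N3)), le_max_left _ _, fun N hN => ?_, μ, hμ0, hμ1,
    fun N hN f hfS hmean r hr hrN A g hg hgm => ?_⟩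
  · have hN2' : 2 ≤ N := (le_max_left _ _).trans hN
    have hlog : 0 < Real.log N := Real.log_pos (by exact_mod_cast (by omega : 1 < N))
    refine (hbd N hN2').trans ?_
    nlinarith only [h01, hlog]
  have hN2' : 2 ≤ N := (le_max_left _ _).trans hN
  have hNN1 : N1 ≤ N := ((le_max_left _ _).trans (le_max_right _ _)).trans hN
  have hNN2 : N2 ≤ N := (((le_max_left _ _).trans (le_max_right _ _)).trans (le_max_right _ _)).trans hN
  have hNN3 : N3 ≤ N := (((le_max_right _ _).trans (le_max_right _ _)).trans (le_max_right _ _)).trans hN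
  clear hN
  obtain ⟨⟨x1, x2⟩, x3⟩ := hN3 N hNN3
  have hNp : (0 : ℝ) < N := by exact_mod_cast (by omega : 0 < N)
  have hlog : 0 < Real.log N := Real.log_pos (by exact_mod_cast (by omega : 1 < N))
  have hfa := hfS.1
  set u := v0 N with hu
  set R := RN H u (4 ^ I * u) with hR
  have hRp : ∀ p ∈ R, p.Prime := fun p hp => ((mem_RN hH1).1 hp).1
  have hcnt := hcount N hNN1
  -- the size of the primes of `R`
  have hRl : ∀ p ∈ R, (u : ℝ) / H ≤ Real.log p ∧ Real.log p ≤ ϑ * Real.log N / 4 := by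
    intro p hp
    obtain ⟨h1, h2, h3⟩ := (mem_RN hH1).1 hp
    have h4 := mem_cell.1 ((mem_cell_ix (v := ix H p) hH1).2 ⟨h1, rfl⟩)
    constructor
    · refine le_trans ?_ h4.2.1
      apply div_le_div_of_nonneg_right _ hH0.le
      exact_mod_cast h2
    · refine h4.2.2.le.trans (le_trans ?_ (hbd N hN2'))
      apply div_le_div_of_nonneg_right _ hH0.le
      have : ix H p + 1 ≤ 4 ^ I * u := h3
      exact_mod_cast this
  have hκ0 := kap_pos A N
  have hram := ramare A N R hRp (fun n => (f ((r * n : ℕ) : ℤ) : ℂ)) g (fun n => by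
    rw [Complex.norm_real, Real.norm_eq_abs]; exact hfa _) hg hgm
  refine hram.trans ?_
  -- first term
  have t1 : (#(FA (A \ {p | p ∈ R}) N) : ℝ) ≤ K1 * (kap (A \ {p | p ∈ R}) N * N) := by
    have h1 := hcnt (A \ {p | p ∈ R}) 1 N (by
      calc (N : ℝ) ^ (1 / 2 : ℝ) ≤ (N : ℝ) ^ (1 : ℝ) :=
            Real.rpow_le_rpow_of_exponent_le (by exact_mod_cast (by omega : 1 ≤ N)) (by norm_num)
        _ = N := Real.rpow_one _) (FA (A \ {p | p ∈ R}) N) (by
        intro m hm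
        rw [mem_FA_nat] at hm
        rw [mem_Ico]
        have := hm.2.1
        omega) (fun m hm => (mem_FA_nat.1 hm).2)
    rw [mul_assoc] at h1
    exact h1
  -- second term
  have hsum1 : ∑ p ∈ R, 1 / (p : ℝ) ≤ 6 * I := by
    rw [hR, sum_RN' hH1]
    exact hW u x1 I
  have t2 : 2 * ∑ p ∈ R.filter (fun p => p ∈ A), (#((FA A N).filter (fun m => p * m ≤ N ∧ p ∣ m)) : ℝ) ≤
      ε / 2 * (kap A N * N) := by
    have h1 : ∑ p ∈ R.filter (fun p => p ∈ A), (#((FA A N).filter (fun m => p * m ≤ N ∧ p ∣ m)) : ℝ) ≤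
        ∑ p ∈ R, 2 * K1 * kap A N * N * (Real.exp (-((u : ℝ) / H)) * (1 / p)) := by
      refine (sum_le_sum_of_subset_of_nonneg (filter_subset _ _) fun _ _ _ => Nat.cast_nonneg _).trans ?_
      apply sum_le_sum
      intro p hp
      have hpp := hRp p hp
      have hp0 : (0 : ℝ) < p := by exact_mod_cast hpp.pos
      obtain ⟨h2, h3⟩ := hRl p hp
      refine (sq_count A (by linarith) hN2' (hcnt A) hpp ?_).trans ?_
      · rw [Real.rpow_def_of_pos hNp, ← Real.log_le_iff_le_exp hp0]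
        refine h3.trans ?_
        nlinarith only [h01, hlog]
      · have h4 : 1 / (p : ℝ) ≤ Real.exp (-((u : ℝ) / H)) := by
          rw [Real.exp_neg, ← one_div]
          apply one_div_le_one_div_of_le (Real.exp_pos _)
          rw [← Real.le_log_iff_exp_le hp0]
          exact h2
        have h5 : 2 * K1 * kap A N * N / (p : ℝ) ^ 2 = 2 * K1 * kap A N * N * (1 / p * (1 / p)) := by
          field_simp
        rw [h5]
        apply mul_le_mul_of_nonneg_left _ (by positivity)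
        exact mul_le_mul_of_nonneg_right h4 (by positivity)
    rw [← mul_sum, ← mul_sum] at h1
    have h6 : Real.exp (-((u : ℝ) / H)) * ∑ p ∈ R, 1 / (p : ℝ) ≤ ε / (8 * K1) := by
      calc Real.exp (-((u : ℝ) / H)) * ∑ p ∈ R, 1 / (p : ℝ) ≤ ε / (8 * K1 * (6 * I + 1)) * (6 * I + 1) := by
            apply mul_le_mul x3.le _ (sum_nonneg fun _ _ => by positivity) (by positivity)
            linarith
        _ = _ := by field_simp
    have h7 : 2 * K1 * kap A N * N * (Real.exp (-((u : ℝ) / H)) * ∑ p ∈ R, 1 / (p : ℝ)) ≤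
        2 * K1 * kap A N * N * (ε / (8 * K1)) := mul_le_mul_of_nonneg_left h6 (by positivity)
    have h8 : 2 * K1 * kap A N * N * (ε / (8 * K1)) = ε / 4 * (kap A N * N) := by
      field_simp; norm_num
    linarith
  -- third term
  have t3 : ∑ m ∈ FA A N, ‖∑ p ∈ R.filter (fun p => p ∈ A ∧ p * m ≤ N), g p * (f ((r * (p * m) : ℕ) : ℤ) : ℂ)‖ ≤
      ε / 2 * (kap A N * N) := by
    have h1 : ∀ m ∈ FA A N, ‖∑ p ∈ R.filter (fun p => p ∈ A ∧ p * m ≤ N), g p * (f ((r * (p * m) : ℕ) : ℤ) : ℂ)‖ ≤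
        ∑ v ∈ Ico u (4 ^ I * u), ‖∑ p ∈ (cell H v).filter (fun p => p ∈ A ∧ p * m ≤ N),
          g p * (f ((p * (r * m) : ℕ) : ℤ) : ℂ)‖ := by
      intro m _
      rw [hR, sum_RN hH1]
      refine (norm_sum_le _ _).trans (le_of_eq ?_)
      apply sum_congr rfl
      intro v _
      congr 1
      apply sum_congr rfl
      intro p _
      rw [Nat.mul_left_comm r p m]
    refine (sum_le_sum h1).trans ?_
    rw [sum_comm]
    have h2 : ∀ v ∈ Ico u (4 ^ I * u), ∑ m ∈ FA A N, ‖∑ p ∈ (cell H v).filter (fun p => p ∈ A ∧ p * m ≤ N),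
          g p * (f ((p * (r * m) : ℕ) : ℤ) : ℂ)‖ ≤ (2 * ε' + K2 / H) * (kap A N * (N * mm H v)) := by
      intro v hv
      rw [mem_Ico] at hv
      apply hN2 N hNN2 f hfS hmean v _ _ r hr hrN A g hg
      · have h3 : H * ϑ * Real.log N / 4 ^ (I + 1) < (u : ℝ) + 1 := Nat.lt_floor_add_one _
        have h5 : (u : ℝ) ≤ v := by exact_mod_cast hv.1
        rw [le_div_iff₀ hH0]
        have e : ϑ / (2 * 4 ^ (I + 1)) * Real.log N * H = (H * ϑ * Real.log N / 4 ^ (I + 1)) / 2 := by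
          field_simp
        rw [e]
        linarith
      · have h3 : ((v : ℝ) + 1) / H ≤ ((4 ^ I * u : ℕ) : ℝ) / H := by
          apply div_le_div_of_nonneg_right _ hH0.le
          exact_mod_cast hv.2
        refine h3.trans ((hbd N hN2').trans ?_)
        nlinarith only [mul_pos h0 hlog]
    refine (sum_le_sum h2).trans ?_
    rw [← mul_sum, ← mul_sum, ← mul_sum]
    have h3 := hW u x1 I
    have h4 : 0 ≤ kap A N * N := by positivity
    calc (2 * ε' + K2 / H) * (kap A N * (N * ∑ v ∈ Ico u (4 ^ I * u), mm H v))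
        = (2 * ε' + K2 / H) * (∑ v ∈ Ico u (4 ^ I * u), mm H v) * (kap A N * N) := by ring
      _ ≤ (2 * ε' + K2 / H) * (6 * I) * (kap A N * N) := by
          apply mul_le_mul_of_nonneg_right _ h4
          exact mul_le_mul_of_nonneg_left h3 (by positivity)
      _ = (2 * ε' * (6 * I) + K2 / H * (6 * I)) * (kap A N * N) := by ring
      _ ≤ ε / 2 * (kap A N * N) := by
          apply mul_le_mul_of_nonneg_right _ h4
          linarith
  have e5 : ε * (kap A N * N) = ε / 2 * (kap A N * N) + ε / 2 * (kap A N * N) := by ring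
  rw [e5]
  linarith

end Pool.Agent.Y964.LW
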