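import Pool.Agent.Y964.LW.B4
import Pool.Agent.Y964.SE.Av

/-! From sets of primes to weights on the primes (functions constant on coalescing trajectories
above a fixed height). -/

set_option autoImplicit false

namespace Pool.Agent.Y964.LW

open Finset Pool.Agent.H320R2.PD Pool.Agent.H499R2.ND Pool.Agent.H499R2.CO Pool.Agent.H376R2.MR
  Pool.Agent.W41.FU Pool.Agent.W41 Pool.Agent.W41.MU Pool.Agent.TH926.BL Pool.Agent.Y964.SE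
open scoped Classical

/-- THEOREM D: multiplicative functions dominated by the product over the prime factors. -/
theorem thmD (R0 R1 : ℕ) {s : ℤ} (hs : s = 1 ∨ s = -1) : ∃ K : ℝ, 1 ≤ K ∧ ∀ (I : ℕ) (ε : ℝ), 0 < ε →
    ∃ H : ℕ, 10 ≤ H ∧ ∃ ϑ : ℝ, 0 < ϑ ∧ ϑ ≤ 1 ∧ ∃ v0 : ℕ → ℕ, Filter.Tendsto v0 Filter.atTop Filter.atTop ∧
    ∃ N0 : ℕ, 2 ≤ N0 ∧ (∀ N : ℕ, N0 ≤ N → ((4 ^ I * v0 N : ℕ) : ℝ) / H ≤ Real.log N / 4) ∧
    ∃ μ : ℝ, 0 < μ ∧ μ ≤ 1 ∧ ∀ N : ℕ, N0 ≤ N → ∀ f ∈ SameR R0 s, MN f (16 * R1) μ N →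
    ∀ r : ℕ, r % 2 = 1 → r ≤ R1 → ∀ h : ℕ → ℝ, (∀ p, 0 ≤ h p) → (∀ p, h p ≤ 1) →
    ∀ g : ℕ → ℂ, (∀ n, ‖g n‖ ≤ hf h n) → (∀ m n : ℕ, Nat.Coprime m n → g (m * n) = g m * g n) →
    ‖∑ n ∈ Icc 1 N, (f ((r * n : ℕ) : ℤ) : ℂ) * g n‖ ≤
      ε * (kh h N * N) + K * (kh (fun p => if p ∈ RN H (v0 N) (4 ^ I * v0 N) then 0 else h p) N * N) := by
  obtain ⟨K, hK, hcore⟩ := core R0 R1 hs
  refine ⟨K, hK, fun I ε hε => ?_⟩
  obtain ⟨H, hH, ϑ, h0, h01, v0, tv, N0, hN02, hN0l, μ, hμ0, hμ1, hN0⟩ := hcore I ε hε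
  refine ⟨H, hH, ϑ, h0, h01, v0, tv, N0, hN02, hN0l, μ, hμ0, hμ1,
    fun N hN f hfS hmean r hr hrN h hh0 hh1 g hg hgm => ?_⟩
  set g1 : ℕ → ℂ := fun n => g n / (hf h n : ℂ) with hg1
  have hg1n : ∀ n, ‖g1 n‖ ≤ 1 := by
    intro n
    simp only [hg1]
    rw [norm_div, Complex.norm_real, Real.norm_eq_abs, abs_of_nonneg (hf_nonneg hh0 n)]
    exact div_le_one_of_le₀ (hg n) (hf_nonneg hh0 n)
  have hg1m : ∀ m n : ℕ, Nat.Coprime m n → g1 (m * n) = g1 m * g1 n := by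
    intro m n hmn
    simp only [hg1]
    rw [hgm m n hmn, hf_mul h hmn]
    push_cast
    rw [mul_div_mul_comm]
  have hgg : ∀ n, g n = (hf h n : ℂ) * g1 n := by
    intro n
    simp only [hg1]
    by_cases hz : hf h n = 0
    · have := hg n
      rw [hz] at this
      have h3 : g n = 0 := norm_le_zero_iff.1 this
      rw [h3]; simp
    · have : (hf h n : ℂ) ≠ 0 := by exact_mod_cast hz
      field_simp
  have e1 : ∑ n ∈ Icc 1 N, (f ((r * n : ℕ) : ℤ) : ℂ) * g n =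
      ∑ A ∈ (PN N).powerset, pw h N A • ∑ m ∈ FA {p | p ∈ A} (N : ℝ), (f ((r * m : ℕ) : ℤ) : ℂ) * g1 m := by
    rw [avg_sum h le_rfl, Nat.floor_natCast]
    apply sum_congr rfl
    intro n _
    rw [hgg n, Complex.real_smul]
    ring
  rw [e1]
  refine (norm_sum_le _ _).trans ?_
  have e2 : ∀ A ∈ (PN N).powerset, ‖pw h N A • ∑ m ∈ FA {p | p ∈ A} (N : ℝ),
      (f ((r * m : ℕ) : ℤ) : ℂ) * g1 m‖ ≤ ε * N * (pw h N A * kap {p | p ∈ A} N) +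
      K * N * (pw h N A * kap ({p | p ∈ A} \ {p | p ∈ RN H (v0 N) (4 ^ I * v0 N)}) N) := by
    intro A _
    have hp := pw_nonneg hh0 hh1 N A
    rw [norm_smul, Real.norm_eq_abs, abs_of_nonneg hp]
    refine (mul_le_mul_of_nonneg_left (hN0 N hN f hfS hmean r hr hrN {p | p ∈ A} g1 hg1n hg1m) hp).trans
      (le_of_eq ?_)
    ring
  refine (sum_le_sum e2).trans (le_of_eq ?_)
  rw [sum_add_distrib, ← mul_sum, ← mul_sum, avg_kap, avg_kap_R]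
  ring

end Pool.Agent.Y964.LW
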