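import Pool.Agent.Y964.LW.B5
import Pool.Agent.Y964.SE.Fi

/-! The relative theorem for functions constant on coalescing trajectories above a fixed height:
one squarefull number. -/

set_option autoImplicit false

namespace Pool.Agent.Y964.LW

open Finset Pool.Agent.H320R2.PD Pool.Agent.H499R2.ND Pool.Agent.H499R2.CO Pool.Agent.H376R2.MR
  Pool.Agent.W41.FU Pool.Agent.W41 Pool.Agent.W41.MU Pool.Agent.TH926.BL Pool.Agent.Y964.SE
open scoped Classical

/-- one squarefull number: the main estimate -/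
theorem one_q (R0 : ℕ) {s : ℤ} (hs : s = 1 ∨ s = -1) {c : ℝ} (hc : 0 < c) (x0 : ℕ) (Q0 : ℕ) (hQ0 : 1 ≤ Q0) {η : ℝ} (hη : 0 < η) :
    ∃ N0 : ℕ, 2 ≤ N0 ∧ ∃ μ : ℝ, 0 < μ ∧ μ ≤ 1 ∧ ∀ N : ℕ, N0 ≤ N → ∀ f ∈ SameR R0 s,
    (∀ e ≤ Q0, MN (fun x => f (2 ^ e * x)) (16 * Q0) μ N) →
    ∀ h : ℕ → ℝ, (∀ n, 0 ≤ h n) → (∀ n, h n ≤ 1) → h 1 = 1 →
    (∀ m n : ℕ, Nat.Coprime m n → h (m * n) = h m * h n) → HypD c x0 h →
    ∀ g : ℕ → ℂ, (∀ n, ‖g n‖ ≤ h n) → (∀ m n : ℕ, Nat.Coprime m n → g (m * n) = g m * g n) →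
    ∀ q : ℕ, 1 ≤ q → q ≤ Q0 →
    ‖∑ m ∈ (Icc 1 (N / q)).filter (fun m => Squarefree m ∧ Nat.Coprime q m),
      (f ((q * m : ℕ) : ℤ) : ℂ) * g (q * m)‖ ≤ η * (kh h N * N) := by
  obtain ⟨Kd, hKd, hD⟩ := thmD R0 Q0 hs
  obtain ⟨Cr, hCr, hratio⟩ := kh_ratio
  obtain ⟨c3, hc3, hrn⟩ := rn_low hc x0
  have te : Filter.Tendsto (fun I : ℕ => Real.exp (-(c3 * I))) Filter.atTop (nhds 0) := by
    apply Real.tendsto_exp_neg_atTop_nhds_zero.comp
    exact tendsto_natCast_atTop_atTop.const_mul_atTop hc3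
  obtain ⟨I, hI⟩ := (te.eventually_lt_const (show 0 < η / (4 * Cr * Kd) by positivity)).exists
  set ε1 : ℝ := η / (4 * Cr) with hε1
  have hε10 : 0 < ε1 := by positivity
  obtain ⟨H, hH, ϑ, h0, h01, v0, tv, N1, hN12, hN1l, μ, hμ0, hμ1, hmain⟩ := hD I ε1 hε10
  have hH1 : 1 ≤ H := by omega
  have hH0 : (0 : ℝ) < H := by exact_mod_cast hH1
  obtain ⟨u0, hu0, hlow⟩ := hrn H hH1
  have tn := tendsto_natCast_atTop_atTop (R := ℝ)
  have ev : ∀ᶠ M : ℕ in Filter.atTop, (u0 ≤ v0 M ∧ ⌈(H : ℝ) * Real.log Q0⌉₊ + 1 ≤ v0 M) ∧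
      ((Q0 : ℝ) ≤ (M : ℝ) ^ ϑ ∧ N1 ≤ M) := by
    refine ((tv.eventually_ge_atTop _).and (tv.eventually_ge_atTop _)).and (Filter.Eventually.and ?_
      (Filter.eventually_ge_atTop _))
    exact ((tendsto_rpow_atTop h0).comp tn).eventually_ge_atTop _
  obtain ⟨M0, hM0⟩ := Filter.eventually_atTop.1 ev
  have hQ0R : (1 : ℝ) ≤ Q0 := by exact_mod_cast hQ0
  refine ⟨Q0 * (M0 + 2) + 4 * Q0 ^ 2 + 2, by omega, μ / (2 * Q0), by positivity,
    (div_le_self hμ0.le (by linarith)).trans hμ1,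
    fun N hN f hfS hmean h hh0 hh1 hone hm hyp g hg hgm q hq hqQ => ?_⟩
  have hNp : (0 : ℝ) < N := by exact_mod_cast (by omega : 0 < N)
  -- the range
  set N' : ℕ := N / q with hN'
  have hN'0 : M0 + 2 ≤ N' := by
    rw [hN', Nat.le_div_iff_mul_le (by omega)]
    have : (M0 + 2) * q ≤ (M0 + 2) * Q0 := Nat.mul_le_mul_left _ hqQ
    nlinarith
  have hN'N : N' ≤ N := Nat.div_le_self _ _
  obtain ⟨⟨y1, y2⟩, y3, y4⟩ := hM0 N' (by omega)
  have hN'2 : 2 ≤ N' := by omega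
  have hN'p : (0 : ℝ) < N' := by exact_mod_cast (by omega : 0 < N')
  have hlogN' : 0 < Real.log N' := Real.log_pos (by exact_mod_cast (by omega : 1 < N'))
  have hsq : N ≤ N' * N' := by
    have h1 : N < (N' + 1) * q := by
      have := Nat.lt_div_mul_add (a := N) (b := q) (by omega)
      rw [← hN'] at this
      rw [Nat.add_mul, one_mul]; omega
    have h2 : N < (N' + 1) * Q0 := h1.trans_le (Nat.mul_le_mul_left _ hqQ)
    have h3 : 2 * Q0 ≤ N' := by
      rw [hN', Nat.le_div_iff_mul_le (by omega)]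
      have : 2 * Q0 * q ≤ 2 * Q0 * Q0 := Nat.mul_le_mul_left _ hqQ
      nlinarith
    nlinarith
  have hlogr : Real.log N / Real.log N' ≤ 2 := by
    rw [div_le_iff₀ hlogN']
    have h1 : (N : ℝ) ≤ (N' : ℝ) ^ 2 := by
      rw [sq]; exact_mod_cast hsq
    have h2 := Real.log_le_log hNp h1
    rw [Real.log_pow] at h2
    exact_mod_cast h2
  -- the odd part
  obtain ⟨e, r, hr, hqr⟩ := Nat.exists_eq_two_pow_mul_odd (n := q) (by omega)
  have hrq : r ≤ q := by
    rw [hqr]; exact Nat.le_mul_of_pos_left _ (by positivity)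
  have hr' : r % 2 = 1 := Nat.odd_iff.1 hr
  have hrN : r ≤ Q0 := hrq.trans hqQ
  have heQ : e ≤ Q0 := by
    have h1 : e < 2 ^ e := Nat.lt_two_pow_self
    have h2 : 2 ^ e ≤ q := by
      rw [hqr]; exact Nat.le_mul_of_pos_right _ (by omega)
    omega
  have hmean' : MN (fun x => f (2 ^ e * x)) (16 * Q0) μ N' := by
    intro n hn
    refine (hmean e heQ n (hn.trans (Nat.mul_le_mul_left _ hN'N))).trans ?_
    have h1 : N ≤ 2 * Q0 * N' := by
      have h2 : N < (N' + 1) * q := by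
        have := Nat.lt_div_mul_add (a := N) (b := q) (by omega)
        rw [← hN'] at this
        rw [Nat.add_mul, one_mul]; omega
      have h3 : (N' + 1) * q ≤ (2 * N') * Q0 := Nat.mul_le_mul (by omega) hqQ
      have h4 : 2 * N' * Q0 = 2 * Q0 * N' := by ring
      omega
    have h1R : (N : ℝ) ≤ 2 * Q0 * N' := by exact_mod_cast h1
    rw [div_mul_eq_mul_div, div_le_iff₀ (by positivity)]
    calc μ * N ≤ μ * (2 * Q0 * N') := mul_le_mul_of_nonneg_left h1R hμ0.le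
      _ = _ := by ring
  -- the functions
  set hq' : ℕ → ℝ := fun p => if p ∣ q then 0 else h p with hhq
  have hq0 : ∀ p, 0 ≤ hq' p := fun p => by simp only [hhq]; split_ifs; exacts [le_rfl, hh0 p]
  have hq1 : ∀ p, hq' p ≤ 1 := fun p => by simp only [hhq]; split_ifs; exacts [zero_le_one, hh1 p]
  have hqh : ∀ p, hq' p ≤ h p := fun p => by simp only [hhq]; split_ifs; exacts [hh0 p, le_rfl]
  set gq : ℕ → ℂ := fun m => if Squarefree m ∧ Nat.Coprime q m then g m else 0 with hgq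
  have hgqn : ∀ n, ‖gq n‖ ≤ hf hq' n := by
    intro n
    simp only [hgq]
    split_ifs with h1
    · refine (hg n).trans (le_of_eq ?_)
      rw [mul_sqf hone hm h1.1]
      unfold hf
      apply prod_congr rfl
      intro p hp
      have hpp := Nat.prime_of_mem_primeFactors hp
      simp only [hhq]
      rw [if_neg]
      intro h2
      have h3 := Nat.dvd_gcd h2 (Nat.dvd_of_mem_primeFactors hp)
      rw [h1.2] at h3
      exact hpp.ne_one (Nat.dvd_one.1 h3)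
    · rw [norm_zero]; exact hf_nonneg hq0 n
  have hgqm : ∀ m n : ℕ, Nat.Coprime m n → gq (m * n) = gq m * gq n := by
    intro m n hmn
    simp only [hgq]
    have e0 : (Squarefree (m * n) ∧ Nat.Coprime q (m * n)) ↔
        ((Squarefree m ∧ Squarefree n) ∧ (Nat.Coprime q m ∧ Nat.Coprime q n)) :=
      and_congr (Nat.squarefree_mul hmn) Nat.coprime_mul_iff_right
    by_cases h1 : Squarefree m ∧ Nat.Coprime q m
    · by_cases h2 : Squarefree n ∧ Nat.Coprime q n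
      · rw [if_pos (e0.2 ⟨⟨h1.1, h2.1⟩, h1.2, h2.2⟩), if_pos h1, if_pos h2, hgm m n hmn]
      · rw [if_neg (fun h3 => h2 ⟨(e0.1 h3).1.2, (e0.1 h3).2.2⟩), if_neg h2, mul_zero]
    · rw [if_neg (fun h3 => h1 ⟨(e0.1 h3).1.1, (e0.1 h3).2.1⟩), if_neg h1, zero_mul]
  have key := hmain N' y4 _ (sameR_two hfS e) hmean' r hr' hrN hq' hq0 hq1 gq hgqn hgqm
  -- the sum
  have e1 : ∑ m ∈ (Icc 1 N').filter (fun m => Squarefree m ∧ Nat.Coprime q m),
      (f ((q * m : ℕ) : ℤ) : ℂ) * g (q * m) =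
      g q * ∑ n ∈ Icc 1 N', ((fun x : ℤ => f (2 ^ e * x)) ((r * n : ℕ) : ℤ) : ℂ) * gq n := by
    rw [sum_filter, mul_sum]
    apply sum_congr rfl
    intro m _
    simp only [hgq]
    split_ifs with h1
    · rw [hgm q m h1.2]
      have e2 : ((q * m : ℕ) : ℤ) = 2 ^ e * ((r * m : ℕ) : ℤ) := by rw [hqr]; push_cast; ring
      rw [e2]
      ring
    · ring
  rw [e1, norm_mul]
  have hgq1 : ‖g q‖ ≤ 1 := (hg q).trans (hh1 q)
  refine (mul_le_of_le_one_left (norm_nonneg _) hgq1).trans (key.trans ?_)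
  -- the densities
  set R := RN H (v0 N') (4 ^ I * v0 N') with hR
  have hRsub : R ⊆ PN N' := by
    intro p hp
    have h1 := (mem_RN hH1).1 hp
    rw [mem_PN]
    refine ⟨?_, h1.1⟩
    have hp0 : (0 : ℝ) < p := by exact_mod_cast h1.1.pos
    have h2 := (mem_cell.1 ((mem_cell_ix (v := ix H p) hH1).2 ⟨h1.1, rfl⟩)).2.2
    have h3 : ((ix H p : ℝ) + 1) / H ≤ ((4 ^ I * v0 N' : ℕ) : ℝ) / H := by
      apply div_le_div_of_nonneg_right _ hH0.le
      exact_mod_cast h1.2.2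
    have h4 := hN1l N' y4
    have h5 : Real.log p ≤ Real.log N' := by linarith
    have h6 := (Real.log_le_log_iff hp0 hN'p).1 h5
    exact_mod_cast h6
  have hRq : ∀ p ∈ R, hq' p = h p := by
    intro p hp
    have h1 := (mem_RN hH1).1 hp
    simp only [hhq]
    rw [if_neg]
    intro h2
    have h3 : p ≤ Q0 := (Nat.le_of_dvd (by omega) h2).trans hqQ
    have h4 : (ix H p : ℝ) ≤ H * Real.log Q0 := by
      refine (Nat.floor_le (mul_nonneg hH0.le (Real.log_natCast_nonneg p))).trans ?_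
      apply mul_le_mul_of_nonneg_left _ hH0.le
      exact Real.log_le_log (by exact_mod_cast h1.1.pos) (by exact_mod_cast h3)
    have h5 := Nat.le_ceil ((H : ℝ) * Real.log Q0)
    have h6 : ix H p ≤ ⌈(H : ℝ) * Real.log Q0⌉₊ := by exact_mod_cast h4.trans h5
    omega
  have k1 : kh hq' N' ≤ 2 * Cr * kh h N := by
    refine (kh_mono hq0 hq1 hqh N').trans ((hratio h hh0 hh1 N' N hN'2 hN'N).trans ?_)
    apply mul_le_mul_of_nonneg_right _ (kh_pos hh0 hh1 N).le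
    calc Cr * (Real.log N / Real.log N') ≤ Cr * 2 := mul_le_mul_of_nonneg_left hlogr (by linarith)
      _ = 2 * Cr := by ring
  have k2 : kh (fun p => if p ∈ R then 0 else hq' p) N' ≤ 2 * Cr * kh h N * (η / (4 * Cr * Kd)) := by
    refine (kh_R hq0 hq1 N' hRsub).trans ?_
    apply mul_le_mul k1 _ (Real.exp_pos _).le (by have := kh_pos hh0 hh1 N; positivity)
    refine le_trans (Real.exp_le_exp.2 ?_) hI.le
    have h2 := hlow h hh0 hh1 hyp (v0 N') y1 I
    rw [neg_le_neg_iff]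
    refine h2.trans (le_of_eq ?_)
    apply sum_congr rfl
    intro p hp
    rw [hRq p hp]
  have hk0 := kh_pos hh0 hh1 N
  have hN'R : (N' : ℝ) ≤ N := by exact_mod_cast hN'N
  have t1 : ε1 * (kh hq' N' * N') ≤ ε1 * ((2 * Cr * kh h N) * N) := by
    apply mul_le_mul_of_nonneg_left _ hε10.le
    exact mul_le_mul k1 hN'R hN'p.le (by positivity)
  have t2 : Kd * (kh (fun p => if p ∈ R then 0 else hq' p) N' * N') ≤
      Kd * ((2 * Cr * kh h N * (η / (4 * Cr * Kd))) * N) := by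
    apply mul_le_mul_of_nonneg_left _ (by linarith)
    exact mul_le_mul k2 hN'R hN'p.le (by positivity)
  refine (add_le_add t1 t2).trans (le_of_eq ?_)
  rw [hε1]
  field_simp
  ring

end Pool.Agent.Y964.LW
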