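import Pool.Agent.Y964.LW.B6
import Pool.Agent.Y964.SE.Top

/-! The relative theorem for functions constant on coalescing trajectories above a fixed height. -/

set_option autoImplicit false

namespace Pool.Agent.Y964.LW

open Finset Pool.Agent.H320R2.PD Pool.Agent.H499R2.ND Pool.Agent.H499R2.CO Pool.Agent.H376R2.MR
  Pool.Agent.W41.FU Pool.Agent.W41 Pool.Agent.W41.MU Pool.Agent.TH926.BL Pool.Agent.Y964.SE
open scoped Classical

/-- the trivial bound for the sum belonging to one squarefull number -/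
theorem one_q_triv {f : ℤ → ℝ} (hfa : ∀ x, |f x| ≤ 1)
    {h : ℕ → ℝ} (hh0 : ∀ n, 0 ≤ h n) (hh1 : ∀ n, h n ≤ 1) (hone : h 1 = 1)
    (hm : ∀ m n : ℕ, Nat.Coprime m n → h (m * n) = h m * h n)
    {g : ℕ → ℂ} (hg : ∀ n, ‖g n‖ ≤ h n) (N q : ℕ) :
    ‖∑ m ∈ (Icc 1 (N / q)).filter (fun m => Squarefree m ∧ Nat.Coprime q m),
      (f ((q * m : ℕ) : ℤ) : ℂ) * g (q * m)‖ ≤ ∑ m ∈ Icc 1 (N / q), hf h m := by
  refine (norm_sum_le _ _).trans ?_
  rw [sum_filter]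
  apply sum_le_sum
  intro m _
  split_ifs with h1
  · rw [norm_mul, Complex.norm_real, Real.norm_eq_abs]
    have h2 : ‖g (q * m)‖ ≤ hf h m := by
      refine (hg _).trans ?_
      rw [hm q m h1.2, mul_sqf hone hm h1.1]
      exact mul_le_of_le_one_left (hf_nonneg hh0 m) (hh1 q)
    calc |f ((q * m : ℕ) : ℤ)| * ‖g (q * m)‖ ≤ 1 * ‖g (q * m)‖ :=
          mul_le_mul_of_nonneg_right (hfa _) (norm_nonneg _)
      _ ≤ hf h m := by rw [one_mul]; exact h2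
  · exact hf_nonneg hh0 m

/-- THE RELATIVE THEOREM for functions constant on coalescing trajectories above a fixed height:
multiplicative functions `g` dominated by a multiplicative function `h` with
values in `[0, 1]` whose mean value on the primes is bounded below. -/
theorem main_f (R0 : ℕ) {s : ℤ} (hs : s = 1 ∨ s = -1) {c : ℝ} (hc : 0 < c) (x0 : ℕ) {ε : ℝ} (hε : 0 < ε) :
    ∃ E N0 : ℕ, ∃ μ : ℝ, 0 < μ ∧ μ ≤ 1 ∧ ∀ N : ℕ, N0 ≤ N → ∀ f ∈ SameR R0 s,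
    (∀ e ≤ E, MN (fun x => f (2 ^ e * x)) E μ N) →
    ∀ h : ℕ → ℝ, (∀ n, 0 ≤ h n) → (∀ n, h n ≤ 1) → h 1 = 1 →
    (∀ m n : ℕ, Nat.Coprime m n → h (m * n) = h m * h n) → HypD c x0 h →
    ∀ g : ℕ → ℂ, (∀ n, ‖g n‖ ≤ h n) → (∀ m n : ℕ, Nat.Coprime m n → g (m * n) = g m * g n) →
    ‖∑ n ∈ Icc 1 N, (f ((n : ℕ) : ℤ) : ℂ) * g n‖ ≤ ε * ∑ n ∈ Icc 1 N, h n := by
  obtain ⟨Cs, hCs, hsf⟩ := sf_tail
  obtain ⟨Ku, hKu, Nu, hNu2, hup⟩ := hf_upper
  obtain ⟨c4, hc4, N4, hN42, hlow⟩ := sum_low hc x0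
  obtain ⟨Cm, hCm, hkl⟩ := kh_lower
  set η : ℝ := ε * c4 / 4 with hη
  have hη0 : 0 < η := by positivity
  have tn := tendsto_natCast_atTop_atTop (R := ℝ)
  -- the cut
  have tq : Filter.Tendsto (fun Q : ℕ => Ku * Cs * (Q : ℝ) ^ (-(1 / 8) : ℝ)) Filter.atTop (nhds 0) := by
    have := ((tendsto_rpow_neg_atTop (show (0 : ℝ) < 1 / 8 by norm_num)).comp tn).const_mul (Ku * Cs)
    rw [mul_zero] at this
    exact this
  obtain ⟨Q0, hQ0a, hQ0⟩ := ((tq.eventually_lt_const hη0).and (Filter.eventually_ge_atTop 1)).exists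
  have hQ0R : (1 : ℝ) ≤ Q0 := by exact_mod_cast hQ0
  obtain ⟨N1, hN12, μ, hμ0, hμ1, hone⟩ := one_q R0 hs hc x0 Q0 hQ0 (show 0 < η / Q0 by positivity)
  -- large squarefull numbers
  have tl : Filter.Tendsto (fun N : ℕ => Cs * Cm * (Real.log N * (N : ℝ) ^ (-(1 / 32) : ℝ))) Filter.atTop (nhds 0) := by
    have h1 : Filter.Tendsto (fun x : ℝ => Real.log x / x ^ (1 / 32 : ℝ)) Filter.atTop (nhds 0) :=
      (isLittleO_log_rpow_atTop (by norm_num)).tendsto_div_nhds_zero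
    have h2 := (h1.comp tn).const_mul (Cs * Cm)
    rw [mul_zero] at h2
    refine h2.congr' ?_
    filter_upwards [Filter.eventually_ge_atTop 1] with N hN
    simp only [Function.comp]
    rw [Real.rpow_neg (Nat.cast_nonneg _), ← div_eq_mul_inv]
  obtain ⟨N2, hN2⟩ := Filter.eventually_atTop.1 (tl.eventually_lt_const hη0)
  refine ⟨16 * Q0, max (max N1 N2) (max (max N4 Nu) (2 ^ 8)), μ, hμ0, hμ1,
    fun N hN f hfS hmean h hh0 hh1 hh hm hyp g hg hgm => ?_⟩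
  have hNN1 : N1 ≤ N := ((le_max_left _ _).trans (le_max_left _ _)).trans hN
  have hNN2 : N2 ≤ N := ((le_max_right _ _).trans (le_max_left _ _)).trans hN
  have hNN4 : N4 ≤ N := (((le_max_left _ _).trans (le_max_left _ _)).trans (le_max_right _ _)).trans hN
  have hNNu : Nu ≤ N := (((le_max_right _ _).trans (le_max_left _ _)).trans (le_max_right _ _)).trans hN
  have hN256 : 2 ^ 8 ≤ N := ((le_max_right _ _).trans (le_max_right _ _)).trans hN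
  clear hN
  have hNp : (0 : ℝ) < N := by exact_mod_cast (by omega : 0 < N)
  have hN1' : (1 : ℝ) ≤ N := by exact_mod_cast (by omega : 1 ≤ N)
  have hlog : 0 < Real.log N := Real.log_pos (by exact_mod_cast (by omega : 1 < N))
  have hk0 := kh_pos hh0 hh1 N
  set T : ℕ → ℂ := fun q => ∑ m ∈ (Icc 1 (N / q)).filter (fun m => Squarefree m ∧ Nat.Coprime q m),
    (f ((q * m : ℕ) : ℤ) : ℂ) * g (q * m) with hT
  have htriv : ∀ q, ‖T q‖ ≤ ∑ m ∈ Icc 1 (N / q), hf h m := fun q => one_q_triv hfS.1 hh0 hh1 hh hm hg N q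
  -- small
  have s1 : ∑ q ∈ (Icc 1 N).filter (fun q => SFl q ∧ q ≤ Q0), ‖T q‖ ≤ η * (kh h N * N) := by
    have h1 : ∀ q ∈ (Icc 1 N).filter (fun q => SFl q ∧ q ≤ Q0), ‖T q‖ ≤ η / Q0 * (kh h N * N) := by
      intro q hq
      rw [mem_filter, mem_Icc] at hq
      exact hone N hNN1 f hfS (fun e he => hmean e (by omega)) h hh0 hh1 hh hm hyp g hg hgm q hq.1.1 hq.2.2
    refine (sum_le_sum h1).trans ?_
    rw [sum_const, nsmul_eq_mul]
    have h2 : #((Icc 1 N).filter (fun q => SFl q ∧ q ≤ Q0)) ≤ Q0 := by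
      have : (Icc 1 N).filter (fun q => SFl q ∧ q ≤ Q0) ⊆ Icc 1 Q0 := by
        intro q hq
        rw [mem_filter, mem_Icc] at hq
        exact mem_Icc.2 ⟨hq.1.1, hq.2.2⟩
      have h3 := card_le_card this
      rwa [Nat.card_Icc, Nat.add_sub_cancel] at h3
    have h2R : (#((Icc 1 N).filter (fun q => SFl q ∧ q ≤ Q0)) : ℝ) ≤ Q0 := by exact_mod_cast h2
    calc (#((Icc 1 N).filter (fun q => SFl q ∧ q ≤ Q0)) : ℝ) * (η / Q0 * (kh h N * N))
        ≤ Q0 * (η / Q0 * (kh h N * N)) := mul_le_mul_of_nonneg_right h2R (by positivity)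
      _ = _ := by field_simp
  -- medium
  have s2 : ∑ q ∈ (Icc 1 N).filter (fun q => (SFl q ∧ Q0 < q) ∧ (2 * q) ^ 2 ≤ N), ‖T q‖ ≤ η * (kh h N * N) := by
    have h1 : ∀ q ∈ (Icc 1 N).filter (fun q => (SFl q ∧ Q0 < q) ∧ (2 * q) ^ 2 ≤ N),
        ‖T q‖ ≤ Ku * kh h N * N * (1 / q) := by
      intro q hq
      rw [mem_filter, mem_Icc] at hq
      obtain ⟨⟨q1, q2⟩, q3, q4⟩ := hq
      have hq0 : (0 : ℝ) < q := by exact_mod_cast q1
      refine (htriv q).trans ((hup N hNNu h hh0 hh1 (N / q) (Nat.div_le_self _ _) ?_).trans ?_)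
      · have h2 : (2 * (q : ℝ)) ^ 2 ≤ N := by exact_mod_cast q4
        have h3 : 2 * (q : ℝ) ≤ (N : ℝ) ^ (1 / 2 : ℝ) := by
          rw [← Real.sqrt_eq_rpow]
          exact Real.le_sqrt_of_sq_le h2
        have h4 : 2 * (N : ℝ) ^ (1 / 2 : ℝ) ≤ N / q := by
          rw [le_div_iff₀ hq0]
          have h5 : (N : ℝ) ^ (1 / 2 : ℝ) * (N : ℝ) ^ (1 / 2 : ℝ) = N := by
            rw [← Real.rpow_add hNp]; norm_num
          have h6 : 0 < (N : ℝ) ^ (1 / 2 : ℝ) := by positivity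
          nlinarith
        have h5 : (N : ℝ) / q < ((N / q : ℕ) : ℝ) + 1 := by
          rw [div_lt_iff₀ hq0]
          have h3 : N < (N / q + 1) * q := by
            have := Nat.lt_div_mul_add (a := N) (b := q) q1
            rw [Nat.add_mul, one_mul]; omega
          exact_mod_cast h3
        have h6 : 1 ≤ (N : ℝ) ^ (1 / 2 : ℝ) := Real.one_le_rpow hN1' (by norm_num)
        linarith
      · have h2 : ((N / q : ℕ) : ℝ) ≤ N / q := Nat.cast_div_le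
        refine (mul_le_mul_of_nonneg_left h2 (by positivity)).trans (le_of_eq ?_)
        ring
    refine (sum_le_sum h1).trans ?_
    rw [← mul_sum]
    have h2 : ∑ q ∈ (Icc 1 N).filter (fun q => (SFl q ∧ Q0 < q) ∧ (2 * q) ^ 2 ≤ N), 1 / (q : ℝ) ≤
        Cs * (Q0 : ℝ) ^ (-(1 / 8) : ℝ) := by
      refine le_trans ?_ (hsf Q0 N hQ0)
      apply sum_le_sum_of_subset_of_nonneg
      · intro q hq
        rw [mem_filter] at hq ⊢
        exact ⟨hq.1, hq.2.1⟩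
      · intro _ _ _; positivity
    calc Ku * kh h N * N * ∑ q ∈ (Icc 1 N).filter (fun q => (SFl q ∧ Q0 < q) ∧ (2 * q) ^ 2 ≤ N), 1 / (q : ℝ)
        ≤ Ku * kh h N * N * (Cs * (Q0 : ℝ) ^ (-(1 / 8) : ℝ)) := mul_le_mul_of_nonneg_left h2 (by positivity)
      _ = (Ku * Cs * (Q0 : ℝ) ^ (-(1 / 8) : ℝ)) * (kh h N * N) := by ring
      _ ≤ _ := mul_le_mul_of_nonneg_right hQ0a.le (by positivity)
  -- large
  have s3 : ∑ q ∈ (Icc 1 N).filter (fun q => (SFl q ∧ Q0 < q) ∧ ¬ (2 * q) ^ 2 ≤ N), ‖T q‖ ≤ η * (kh h N * N) := by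
    set Q1 := Nat.sqrt (N / 4) with hQ1
    have hQ1a : 1 ≤ Q1 := by
      rw [hQ1, Nat.le_sqrt']
      omega
    have hQ1b : (N : ℝ) ^ (1 / 4 : ℝ) ≤ Q1 := by
      have h1 : N / 4 < (Q1 + 1) ^ 2 := Nat.lt_succ_sqrt' _
      have h2 : N < 4 * (Q1 + 1) ^ 2 := by omega
      have h3 : (N : ℝ) < 4 * ((Q1 : ℝ) + 1) ^ 2 := by exact_mod_cast h2
      have h4 : (N : ℝ) ^ (1 / 2 : ℝ) ≤ 2 * (Q1 + 1) := by
        rw [← Real.sqrt_eq_rpow]
        apply Real.sqrt_le_iff.2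
        refine ⟨by positivity, ?_⟩
        linarith
      have h5 : (N : ℝ) ^ (1 / 2 : ℝ) = (N : ℝ) ^ (1 / 4 : ℝ) * (N : ℝ) ^ (1 / 4 : ℝ) := by
        rw [← Real.rpow_add hNp]; norm_num
      have h6 : (4 : ℝ) ≤ (N : ℝ) ^ (1 / 4 : ℝ) := by
        have h7 : ((2 : ℝ) ^ 8) ^ (1 / 4 : ℝ) ≤ (N : ℝ) ^ (1 / 4 : ℝ) :=
          Real.rpow_le_rpow (by positivity) (by exact_mod_cast hN256) (by norm_num)
        have h8 : ((2 : ℝ) ^ 8) ^ (1 / 4 : ℝ) = 4 := by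
          rw [← Real.rpow_natCast, ← Real.rpow_mul (by norm_num)]; norm_num
        linarith
      nlinarith
    have h1 : ∀ q ∈ (Icc 1 N).filter (fun q => (SFl q ∧ Q0 < q) ∧ ¬ (2 * q) ^ 2 ≤ N), ‖T q‖ ≤ N * (1 / q) := by
      intro q hq
      refine (htriv q).trans ((sum_le_sum fun m _ => hf_le_one hh0 hh1 m).trans ?_)
      rw [sum_const, Nat.card_Icc, Nat.add_sub_cancel, nsmul_eq_mul, mul_one]
      refine (Nat.cast_div_le).trans (le_of_eq ?_)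
      ring
    refine (sum_le_sum h1).trans ?_
    rw [← mul_sum]
    have h2 : ∑ q ∈ (Icc 1 N).filter (fun q => (SFl q ∧ Q0 < q) ∧ ¬ (2 * q) ^ 2 ≤ N), 1 / (q : ℝ) ≤
        Cs * (Q1 : ℝ) ^ (-(1 / 8) : ℝ) := by
      refine le_trans ?_ (hsf Q1 N hQ1a)
      apply sum_le_sum_of_subset_of_nonneg
      · intro q hq
        rw [mem_filter] at hq ⊢
        refine ⟨hq.1, hq.2.1.1, ?_⟩
        rw [hQ1, Nat.sqrt_lt']
        have h3 := hq.2.2
        push Not at h3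
        have h4 : (2 * q) ^ 2 = 4 * q ^ 2 := by ring
        rw [h4] at h3
        omega
      · intro _ _ _; positivity
    have h3 : (Q1 : ℝ) ^ (-(1 / 8) : ℝ) ≤ (N : ℝ) ^ (-(1 / 32) : ℝ) := by
      have e : (N : ℝ) ^ (-(1 / 32) : ℝ) = ((N : ℝ) ^ (1 / 4 : ℝ)) ^ (-(1 / 8) : ℝ) := by
        rw [← Real.rpow_mul hNp.le]; norm_num
      rw [e]
      apply Real.rpow_le_rpow_of_nonpos (by positivity) hQ1b (by norm_num)
    have h4 := hN2 N hNN2
    have h5 := hkl h hh0 hh1 N (by omega)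
    have h6 : Cs * (N : ℝ) ^ (-(1 / 32) : ℝ) ≤ η * kh h N := by
      have h7 : Cs * (N : ℝ) ^ (-(1 / 32) : ℝ) = (Cs * Cm * (Real.log N * (N : ℝ) ^ (-(1 / 32) : ℝ))) *
          (1 / (Cm * Real.log N)) := by
        have : Cm ≠ 0 := by linarith
        field_simp
      rw [h7]
      exact mul_le_mul h4.le h5 (by positivity) hη0.le
    calc (N : ℝ) * ∑ q ∈ (Icc 1 N).filter (fun q => (SFl q ∧ Q0 < q) ∧ ¬ (2 * q) ^ 2 ≤ N), 1 / (q : ℝ)
        ≤ N * (Cs * (N : ℝ) ^ (-(1 / 32) : ℝ)) := by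
          apply mul_le_mul_of_nonneg_left _ hNp.le
          exact h2.trans (mul_le_mul_of_nonneg_left h3 (by linarith))
      _ ≤ N * (η * kh h N) := mul_le_mul_of_nonneg_left h6 hNp.le
      _ = _ := by ring
  -- the end
  have e1 : ∑ n ∈ Icc 1 N, (f ((n : ℕ) : ℤ) : ℂ) * g n = ∑ q ∈ (Icc 1 N).filter SFl, T q :=
    decomp N (fun n => (f ((n : ℕ) : ℤ) : ℂ) * g n)
  have e2 : ∑ q ∈ (Icc 1 N).filter SFl, ‖T q‖ =
      ∑ q ∈ (Icc 1 N).filter (fun q => SFl q ∧ q ≤ Q0), ‖T q‖ +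
      (∑ q ∈ (Icc 1 N).filter (fun q => (SFl q ∧ Q0 < q) ∧ (2 * q) ^ 2 ≤ N), ‖T q‖ +
      ∑ q ∈ (Icc 1 N).filter (fun q => (SFl q ∧ Q0 < q) ∧ ¬ (2 * q) ^ 2 ≤ N), ‖T q‖) := by
    rw [← sum_filter_add_sum_filter_not ((Icc 1 N).filter SFl) (fun q => q ≤ Q0), filter_filter, filter_filter,
      ← filter_filter (fun q => SFl q ∧ Q0 < q), ← filter_filter (fun q => SFl q ∧ Q0 < q),
      sum_filter_add_sum_filter_not]
    simp only [not_le]
  rw [e1]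
  refine (norm_sum_le _ _).trans ?_
  rw [e2]
  have h9 := hlow h hh0 hh1 hh hm hyp N hNN4
  have h10 : ε * (c4 * (kh h N * N)) ≤ ε * ∑ n ∈ Icc 1 N, h n := mul_le_mul_of_nonneg_left h9 hε.le
  have h11 : ε * (c4 * (kh h N * N)) = 4 * (η * (kh h N * N)) := by rw [hη]; ring
  have h12 : 0 ≤ η * (kh h N * N) := by positivity
  linarith

end Pool.Agent.Y964.LW
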