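import Pool.Agent.Y964.LW.B7
import Pool.Agent.H499R2.NDLln

/-! From laws in natural density to laws relative to sparse multiplicative weights. -/

set_option autoImplicit false

namespace Pool.Agent.Y964.LW

open Finset Filter Topology Pool.Agent.H320R2.PD Pool.Agent.H499R2.ND Pool.Agent.H499R2.CO
  Pool.Agent.W41.FU Pool.Agent.W41 Pool.Agent.Y964.SE
open scoped Classical

/-- the threshold -/
noncomputable def thr (α σ x L : ℝ) : ℝ := α * L + x * (σ * Real.sqrt L)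

/-- comparison of the thresholds at `n` and `N` -/
theorem thr_cmp {α σ x θ D κ : ℝ} (hσ : 0 < σ) (hθ : 0 < θ) (hD : 0 ≤ D) (hκ : κ = σ * θ / 4) : ∃ L0 : ℝ, 1 ≤ L0 ∧
    ∀ L l : ℝ, L0 ≤ L → 0 ≤ l → |l - L| ≤ D →
      thr α σ x L + κ * Real.sqrt L ≤ thr α σ (x + θ) l ∧ thr α σ (x - θ) l ≤ thr α σ x L - κ * Real.sqrt L := by
  have hκ0 : 0 < κ := by rw [hκ]; positivity
  set C : ℝ := |α| * D + |x| * σ * D + θ * σ * D with hC
  have hC0 : 0 ≤ C := by positivity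
  refine ⟨max 1 ((C / κ) ^ 2), le_max_left _ _, fun L l hL hl hd => ?_⟩
  have hL1 : 1 ≤ L := (le_max_left _ _).trans hL
  have hs1 : 1 ≤ Real.sqrt L := Real.one_le_sqrt.2 hL1
  have hsC : C ≤ κ * Real.sqrt L := by
    have h1 : C / κ ≤ Real.sqrt L := Real.le_sqrt_of_sq_le ((le_max_right _ _).trans hL)
    rw [div_le_iff₀ hκ0] at h1
    linarith
  have hsd : |Real.sqrt l - Real.sqrt L| ≤ D := by
    have h1 : (Real.sqrt l - Real.sqrt L) * (Real.sqrt l + Real.sqrt L) = l - L := by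
      have h2 := Real.sq_sqrt hl
      have h3 := Real.sq_sqrt (by linarith : 0 ≤ L)
      nlinarith
    have h2 : |Real.sqrt l - Real.sqrt L| * (Real.sqrt l + Real.sqrt L) ≤ D := by
      have h4 : 0 ≤ Real.sqrt l + Real.sqrt L := by positivity
      rw [← abs_of_nonneg h4, ← abs_mul, h1]
      exact hd
    have h3 : 0 ≤ Real.sqrt l := Real.sqrt_nonneg l
    have h4 := abs_nonneg (Real.sqrt l - Real.sqrt L)
    nlinarith
  obtain ⟨d1, d2⟩ := abs_le.1 hd
  obtain ⟨s1, s2⟩ := abs_le.1 hsd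
  have a1 : |α * (l - L)| ≤ |α| * D := by
    rw [abs_mul]; exact mul_le_mul_of_nonneg_left hd (abs_nonneg _)
  have a2 : |x * (σ * (Real.sqrt l - Real.sqrt L))| ≤ |x| * σ * D := by
    rw [abs_mul, abs_mul, abs_of_pos hσ, mul_assoc]
    exact mul_le_mul_of_nonneg_left (mul_le_mul_of_nonneg_left hsd hσ.le) (abs_nonneg _)
  obtain ⟨a3, a4⟩ := abs_le.1 a1
  obtain ⟨a5, a6⟩ := abs_le.1 a2
  have a7 : θ * σ * (Real.sqrt L - D) ≤ θ * σ * Real.sqrt l := mul_le_mul_of_nonneg_left (by linarith) (by positivity)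
  have a8 : θ * σ = 4 * κ := by rw [hκ]; ring
  unfold thr
  have e1 : θ * σ * (Real.sqrt L - D) = 4 * κ * Real.sqrt L - θ * σ * D := by rw [← a8]; ring
  rw [e1] at a7
  have hk : 0 ≤ κ * Real.sqrt L := by positivity
  constructor
  · have e : α * l + (x + θ) * (σ * Real.sqrt l) = α * L + x * (σ * Real.sqrt L) + α * (l - L)
        + x * (σ * (Real.sqrt l - Real.sqrt L)) + θ * σ * Real.sqrt l := by ring
    rw [e]
    linarith
  · have e : α * l + (x - θ) * (σ * Real.sqrt l) = α * L + x * (σ * Real.sqrt L) + α * (l - L)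
        + x * (σ * (Real.sqrt l - Real.sqrt L)) - θ * σ * Real.sqrt l := by ring
    rw [e]
    linarith

/-- uniform counting from a density -/
theorem dn_unif {P : ℕ → Prop} {l : ℝ} (h : Dn P l) {ε : ℝ} (hε : 0 < ε) (E : ℕ) :
    ∀ᶠ N : ℕ in atTop, ∀ y : ℕ, y ≤ E * N → |cnt P y - l * y| ≤ ε * N := by
  have hE0 : (0 : ℝ) ≤ E := Nat.cast_nonneg _
  have h1 : ∀ᶠ y : ℕ in atTop, |cnt P y / y - l| < ε / (E + 1) := by
    have := (Metric.tendsto_nhds.1 h) (ε / (E + 1)) (by positivity)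
    filter_upwards [this] with y hy
    rwa [Real.dist_eq] at hy
  obtain ⟨y0, hy0⟩ := eventually_atTop.1 h1
  obtain ⟨N1, hN1⟩ := exists_nat_ge ((1 + |l|) * (y0 + 1) / ε)
  filter_upwards [eventually_ge_atTop (N1 + 1)] with N hN y hy
  have hNR : (N1 : ℝ) ≤ N := by exact_mod_cast (by omega : N1 ≤ N)
  have hN0 : (0 : ℝ) < N := by exact_mod_cast (by omega : 0 < N)
  have hyR : (y : ℝ) ≤ E * N := by exact_mod_cast hy
  rcases Nat.lt_or_ge y (y0 + 1) with h2 | h2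
  · have h3 := cnt_le P y
    have h4 := cntn_nonneg P y
    have h5 : (y : ℝ) ≤ y0 + 1 := by exact_mod_cast h2.le
    have h6 : |cnt P y - l * y| ≤ (1 + |l|) * (y0 + 1) := by
      refine (abs_sub _ _).trans ?_
      rw [abs_of_nonneg h4, abs_mul, abs_of_nonneg (Nat.cast_nonneg y : (0 : ℝ) ≤ y)]
      have := mul_le_mul_of_nonneg_left h5 (abs_nonneg l)
      nlinarith
    rw [div_le_iff₀ hε] at hN1
    have := mul_le_mul_of_nonneg_left hNR hε.le
    linarith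
  · have hy1 : (0 : ℝ) < y := by exact_mod_cast (by omega : 0 < y)
    have h3 := hy0 y (by omega)
    have h4 : |cnt P y - l * y| ≤ ε / (E + 1) * y := by
      have e : cnt P y - l * y = (cnt P y / y - l) * y := by field_simp
      rw [e, abs_mul, abs_of_pos hy1]
      exact mul_le_mul_of_nonneg_right h3.le hy1.le
    refine h4.trans ?_
    rw [div_mul_eq_mul_div, div_le_iff₀ (by positivity)]
    calc ε * y ≤ ε * (E * N) := mul_le_mul_of_nonneg_left hyR hε.le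
      _ ≤ ε * N * (E + 1) := by nlinarith [mul_pos hε hN0]

/-- the law for the thresholds at `N`, uniformly in the range of summation -/
theorem fix_law {P : ℝ → ℕ → Prop} (hmono : ∀ τ τ' n, τ ≤ τ' → P τ n → P τ' n) {α σ : ℝ} (hσ : 0 < σ)
    {F : ℝ → ℝ} (hF : Continuous F) (law : ∀ x, Dn (fun n => P (thr α σ x (Real.log n)) n) (F x)) (x : ℝ)
    {ε : ℝ} (hε : 0 < ε) (E : ℕ) : ∃ κ : ℝ, 0 < κ ∧ ∀ᶠ N : ℕ in atTop, ∀ τ : ℝ,
      |τ - thr α σ x (Real.log N)| ≤ κ * Real.sqrt (Real.log N) → ∀ y : ℕ, y ≤ E * N →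
      |cnt (P τ) y - F x * y| ≤ ε * N := by
  have hE0 : (0 : ℝ) ≤ E := Nat.cast_nonneg _
  -- continuity
  obtain ⟨θ, hθ, hc1, hc2⟩ : ∃ θ : ℝ, 0 < θ ∧ |F (x + θ) - F x| ≤ ε / (4 * (E + 1)) ∧
      |F (x - θ) - F x| ≤ ε / (4 * (E + 1)) := by
    obtain ⟨η, hη, h1⟩ := Metric.continuousAt_iff.1 hF.continuousAt (ε / (4 * (E + 1))) (by positivity)
    refine ⟨η / 2, by positivity, ?_, ?_⟩
    · have := h1 (x := x + η / 2) (by rw [Real.dist_eq, add_sub_cancel_left, abs_of_pos (by positivity)]; linarith)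
      rw [Real.dist_eq] at this
      exact this.le
    · have := h1 (x := x - η / 2) (by
        rw [Real.dist_eq, sub_sub_cancel_left, abs_neg, abs_of_pos (by positivity)]; linarith)
      rw [Real.dist_eq] at this
      exact this.le
  refine ⟨σ * θ / 4, by positivity, ?_⟩
  set ε1 : ℝ := ε / 4 with hε1
  have hε10 : 0 < ε1 := by positivity
  set D : ℝ := |Real.log ε1| + |Real.log (E + 1)| with hD
  obtain ⟨L0, hL01, hcmp⟩ := thr_cmp (α := α) (x := x) hσ hθ (by positivity : 0 ≤ D) rfl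
  have tl : Tendsto (fun N : ℕ => Real.log N) atTop atTop :=
    Real.tendsto_log_atTop.comp tendsto_natCast_atTop_atTop
  have u1 := dn_unif (law (x + θ)) hε10 E
  have u2 := dn_unif (law (x - θ)) hε10 E
  filter_upwards [u1, u2, tl.eventually_ge_atTop L0, eventually_ge_atTop 1] with N h1 h2 h3 hN1 τ hτ y hy
  have hN0 : (0 : ℝ) < N := by exact_mod_cast hN1
  have hyR : (y : ℝ) ≤ E * N := by exact_mod_cast hy
  obtain ⟨t1, t2⟩ := abs_le.1 hτ
  -- comparison for large `n`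
  have hlog : ∀ n : ℕ, ε1 * N < n → n ≤ y → 1 ≤ n → |Real.log n - Real.log N| ≤ D ∧ 0 ≤ Real.log n := by
    intro n ha hb hn
    have hn0 : (0 : ℝ) < n := by exact_mod_cast hn
    refine ⟨?_, Real.log_natCast_nonneg n⟩
    have b1 : Real.log ε1 + Real.log N ≤ Real.log n := by
      rw [← Real.log_mul hε10.ne' hN0.ne']
      exact Real.log_le_log (by positivity) ha.le
    have b2 : Real.log n ≤ Real.log (E + 1) + Real.log N := by
      rw [← Real.log_mul (by positivity) hN0.ne']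
      apply Real.log_le_log hn0
      have : (n : ℝ) ≤ y := by exact_mod_cast hb
      nlinarith
    have b3 := neg_abs_le (Real.log ε1)
    have b4 := le_abs_self (Real.log ((E : ℝ) + 1))
    have b5 := abs_nonneg (Real.log ε1)
    have b6 := abs_nonneg (Real.log ((E : ℝ) + 1))
    rw [abs_le]
    constructor <;> linarith
  have k1 : cnt (P τ) y ≤ cnt (fun n => P (thr α σ (x + θ) (Real.log n)) n) y + ε1 * N := by
    refine (cnt_or (Q := fun n => P (thr α σ (x + θ) (Real.log n)) n) (R := fun n => (n : ℝ) ≤ ε1 * N) y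
      (fun n hn hny hP => ?_)).trans (add_le_add_right (cnt_small (by positivity) y) _)
    by_cases hs : (n : ℝ) ≤ ε1 * N
    · exact Or.inr hs
    · push Not at hs
      obtain ⟨c1, c2⟩ := hlog n hs hny hn
      exact Or.inl (hmono _ _ n (by linarith [(hcmp _ _ h3 c2 c1).1]) hP)
  have k2 : cnt (fun n => P (thr α σ (x - θ) (Real.log n)) n) y ≤ cnt (P τ) y + ε1 * N := by
    refine (cnt_or (Q := P τ) (R := fun n => (n : ℝ) ≤ ε1 * N) y
      (fun n hn hny hP => ?_)).trans (add_le_add_right (cnt_small (by positivity) y) _)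
    by_cases hs : (n : ℝ) ≤ ε1 * N
    · exact Or.inr hs
    · push Not at hs
      obtain ⟨c1, c2⟩ := hlog n hs hny hn
      exact Or.inl (hmono _ _ n (by linarith [(hcmp _ _ h3 c2 c1).2]) hP)
  obtain ⟨p1, p2⟩ := abs_le.1 (h1 y hy)
  obtain ⟨p3, p4⟩ := abs_le.1 (h2 y hy)
  have hy0 : (0 : ℝ) ≤ y := Nat.cast_nonneg _
  have q1 : |(F (x + θ) - F x) * y| ≤ ε / 4 * N := by
    rw [abs_mul, abs_of_nonneg hy0]
    calc |F (x + θ) - F x| * y ≤ ε / (4 * (E + 1)) * (E * N) := mul_le_mul hc1 hyR hy0 (by positivity)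
      _ ≤ ε / 4 * N := by
          rw [div_mul_eq_mul_div, div_le_iff₀ (by positivity)]
          nlinarith [mul_pos hε hN0]
  have q2 : |(F (x - θ) - F x) * y| ≤ ε / 4 * N := by
    rw [abs_mul, abs_of_nonneg hy0]
    calc |F (x - θ) - F x| * y ≤ ε / (4 * (E + 1)) * (E * N) := mul_le_mul hc2 hyR hy0 (by positivity)
      _ ≤ ε / 4 * N := by
          rw [div_mul_eq_mul_div, div_le_iff₀ (by positivity)]
          nlinarith [mul_pos hε hN0]
  obtain ⟨r1, r2⟩ := abs_le.1 q1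
  obtain ⟨r3, r4⟩ := abs_le.1 q2
  rw [sub_mul] at r1 r2 r3 r4
  rw [hε1] at k1 k2 p1 p2 p3 p4
  rw [abs_le]
  constructor
  · nlinarith [mul_pos hε hN0]
  · nlinarith [mul_pos hε hN0]

/-- A family of events `E i τ` (`i` a class, `τ` a threshold), monotone in the threshold, whose indicator
functions are constant on coalescing trajectories above a height, compatible with multiplication by
two, with a law in natural density. -/
structure Fam (s : ℤ) (R : ℕ) (ι : Type) where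
  E : ι → ℝ → ℕ → Prop
  sh : ι → ι
  w : ℝ
  α : ℝ
  σ : ℝ
  F : ι → ℝ → ℝ
  hw : 0 ≤ w
  hσ : 0 < σ
  mono : ∀ i τ τ' n, τ ≤ τ' → E i τ n → E i τ' n
  same : ∀ i τ (j : ℕ) (x y : ℕ), 1 ≤ x → 1 ≤ y → (Tz s)^[j] (x : ℤ) = (Tz s)^[j] (y : ℤ) →
    oc s j (x : ℤ) = oc s j (y : ℤ) → (R : ℤ) < (Tz s)^[j] (x : ℤ) → (E i τ x → E i τ y)
  two : ∀ i τ n, 1 ≤ n → (E i τ (2 * n) ↔ E (sh i) (τ - w) n)
  Fsh : ∀ i x, F (sh i) x = F i x
  F01 : ∀ i x, 0 ≤ F i x ∧ F i x ≤ 1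
  cont : ∀ i, Continuous (F i)
  law : ∀ i x, Dn (fun n => E i (thr α σ x (Real.log n)) n) (F i x)

/-- nonpositive integers stay nonpositive -/
theorem Tz_nonpos {s : ℤ} (hs : s = 1 ∨ s = -1) (j : ℕ) : ∀ {x : ℤ}, x ≤ 0 → (Tz s)^[j] x ≤ 0 := by
  induction j with
  | zero => intro x hx; simpa using hx
  | succ j ih =>
    intro x hx
    rw [Function.iterate_succ_apply]
    apply ih
    unfold Tz
    rcases hs with rfl | rfl
    · split_ifs <;> omega
    · split_ifs <;> omega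

/-- the balanced indicator function of an event -/
noncomputable def bf (P : ℕ → Prop) (a : ℝ) (z : ℤ) : ℝ := (if 0 < z ∧ P z.toNat then 1 else 0) - a

theorem bf_same {s : ℤ} (hs : s = 1 ∨ s = -1) {R : ℕ} {P : ℕ → Prop} {a : ℝ} (ha0 : 0 ≤ a) (ha1 : a ≤ 1)
    (h : ∀ (j : ℕ) (x y : ℕ), 1 ≤ x → 1 ≤ y → (Tz s)^[j] (x : ℤ) = (Tz s)^[j] (y : ℤ) →
      oc s j (x : ℤ) = oc s j (y : ℤ) → (R : ℤ) < (Tz s)^[j] (x : ℤ) → (P x → P y)) :
    bf P a ∈ SameR R s := by
  refine ⟨fun z => ?_, fun j z z' h1 h2 h3 => ?_⟩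
  · unfold bf
    rw [abs_le]
    split_ifs
    · constructor <;> linarith
    · constructor <;> linarith
  · have hR0 : (0 : ℤ) ≤ R := Int.natCast_nonneg R
    have hz : 0 < z := by
      by_contra hcon
      push Not at hcon
      have := Tz_nonpos hs j hcon
      omega
    have hz' : 0 < z' := by
      by_contra hcon
      push Not at hcon
      have := Tz_nonpos hs j hcon
      rw [← h1] at this
      omega
    obtain ⟨x, rfl⟩ := Int.eq_ofNat_of_zero_le hz.le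
    obtain ⟨y, rfl⟩ := Int.eq_ofNat_of_zero_le hz'.le
    have hx1 : 1 ≤ x := by omega
    have hy1 : 1 ≤ y := by omega
    have hiff : P x ↔ P y := ⟨h j x y hx1 hy1 h1 h2 h3, h j y x hy1 hx1 h1.symm h2.symm (by rw [← h1]; exact h3)⟩
    unfold bf
    simp only [Int.toNat_natCast, hiff, hz, hz', true_and]

theorem bf_sum (P : ℕ → Prop) (a : ℝ) (n : ℕ) :
    ∑ m ∈ Icc 1 n, bf P a ((m : ℕ) : ℤ) = cnt P n - a * n := by
  rw [cnt_eq, card_filter]
  push_cast
  unfold bf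
  rw [sum_sub_distrib, sum_const, Nat.card_Icc, Nat.add_sub_cancel, nsmul_eq_mul, mul_comm]
  congr 1
  apply sum_congr rfl
  intro m hm
  rw [mem_Icc] at hm
  have : 0 < (m : ℤ) := by exact_mod_cast hm.1
  simp only [Int.toNat_natCast, this, true_and]

theorem Fam.two_pow {s : ℤ} {R : ℕ} {ι : Type} (A : Fam s R ι) (e : ℕ) : ∀ (i : ι) (τ : ℝ) (n : ℕ), 1 ≤ n →
    (A.E i τ (2 ^ e * n) ↔ A.E (A.sh^[e] i) (τ - e * A.w) n) := by
  induction e with
  | zero => intro i τ n _; simp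
  | succ e ih =>
    intro i τ n hn
    rw [pow_succ, mul_comm (2 ^ e) 2, mul_assoc, A.two i τ _ (Nat.mul_pos (by positivity) hn), ih _ _ _ hn,
      Function.iterate_succ_apply]
    push_cast
    rw [show τ - A.w - (e : ℝ) * A.w = τ - ((e : ℝ) + 1) * A.w by ring]

theorem Fam.F_iter {s : ℤ} {R : ℕ} {ι : Type} (A : Fam s R ι) (e : ℕ) : ∀ (i : ι) (x : ℝ),
    A.F (A.sh^[e] i) x = A.F i x := by
  induction e with
  | zero => intro i x; rfl
  | succ e ih => intro i x; rw [Function.iterate_succ_apply, ih, A.Fsh]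

/-- THE RELATIVE LAW at fixed thresholds -/
theorem Fam.rel_fix {s : ℤ} (hs : s = 1 ∨ s = -1) {R : ℕ} {ι : Type} (A : Fam s R ι) {c : ℝ} (hc : 0 < c)
    (x0 : ℕ) (i : ι) (x : ℝ) {ε : ℝ} (hε : 0 < ε) : ∃ κ : ℝ, 0 < κ ∧ ∃ N0 : ℕ, ∀ N : ℕ, N0 ≤ N →
    ∀ τ : ℝ, |τ - thr A.α A.σ x (Real.log N)| ≤ κ * Real.sqrt (Real.log N) →
    ∀ h : ℕ → ℝ, (∀ n, 0 ≤ h n) → (∀ n, h n ≤ 1) → h 1 = 1 →
    (∀ m n : ℕ, Nat.Coprime m n → h (m * n) = h m * h n) → HypD c x0 h →
    ∀ g : ℕ → ℂ, (∀ n, ‖g n‖ ≤ h n) → (∀ m n : ℕ, Nat.Coprime m n → g (m * n) = g m * g n) →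
    ‖∑ n ∈ Icc 1 N, (if A.E i τ n then g n else 0) - A.F i x * ∑ n ∈ Icc 1 N, g n‖ ≤
      ε * ∑ n ∈ Icc 1 N, h n := by
  obtain ⟨E, N0, μ, hμ0, hμ1, hmain⟩ := main_f R hs hc x0 hε
  have h1 : ∀ e : ℕ, ∃ κ : ℝ, 0 < κ ∧ ∀ᶠ N : ℕ in atTop, ∀ τ : ℝ,
      |τ - thr A.α A.σ x (Real.log N)| ≤ κ * Real.sqrt (Real.log N) → ∀ y : ℕ, y ≤ E * N →
      |cnt (A.E (A.sh^[e] i) τ) y - A.F i x * y| ≤ μ * N := by
    intro e
    obtain ⟨κ, h2, h3⟩ := fix_law (P := A.E (A.sh^[e] i)) (A.mono _) A.hσ (A.cont _) (A.law _) x hμ0 E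
    refine ⟨κ, h2, ?_⟩
    rw [A.F_iter] at h3
    exact h3
  choose κ hκ0 hκ using h1
  -- the smallest of the `κ e`
  obtain ⟨κm, hκm0, hκm⟩ : ∃ κm : ℝ, 0 < κm ∧ ∀ e ≤ E, κm ≤ κ e := by
    obtain ⟨e0, _, he0⟩ := exists_min_image (range (E + 1)) κ ⟨0, by simp⟩
    exact ⟨κ e0, hκ0 e0, fun e he => he0 e (mem_range.2 (by omega))⟩
  have tl : Tendsto (fun N : ℕ => κm / 2 * Real.sqrt (Real.log N)) atTop atTop :=
    (Real.tendsto_sqrt_atTop.comp (Real.tendsto_log_atTop.comp tendsto_natCast_atTop_atTop)).const_mul_atTop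
      (by positivity)
  have hall : ∀ᶠ N : ℕ in atTop, ∀ e ∈ range (E + 1), ∀ τ : ℝ,
      |τ - thr A.α A.σ x (Real.log N)| ≤ κ e * Real.sqrt (Real.log N) → ∀ y : ℕ, y ≤ E * N →
      |cnt (A.E (A.sh^[e] i) τ) y - A.F i x * y| ≤ μ * N := (Finset.eventually_all _).2 fun e _ => hκ e
  obtain ⟨N1, hN1⟩ := eventually_atTop.1 (hall.and (tl.eventually_ge_atTop (E * A.w)))
  refine ⟨κm / 2, by positivity, max N0 N1, fun N hN τ hτ h hh0 hh1 hh hm hyp g hg hgm => ?_⟩
  obtain ⟨g1, g2⟩ := hN1 N ((le_max_right _ _).trans hN)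
  obtain ⟨F0, F1⟩ := A.F01 i x
  have hsame : bf (A.E i τ) (A.F i x) ∈ SameR R s := bf_same hs F0 F1 (A.same i τ)
  have key := hmain N ((le_max_left _ _).trans hN) _ hsame (fun e he n hn => by
    have e1 : ∑ m ∈ Icc 1 n, bf (A.E i τ) (A.F i x) (2 ^ e * ((m : ℕ) : ℤ)) =
        ∑ m ∈ Icc 1 n, bf (A.E (A.sh^[e] i) (τ - e * A.w)) (A.F i x) ((m : ℕ) : ℤ) := by
      apply sum_congr rfl
      intro m hm'
      rw [mem_Icc] at hm'
      have hm0 : (0 : ℤ) < m := by exact_mod_cast hm'.1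
      have h5 : (2 : ℤ) ^ e * ((m : ℕ) : ℤ) = ((2 ^ e * m : ℕ) : ℤ) := by push_cast; ring
      have h6 : (0 : ℤ) < ((2 ^ e * m : ℕ) : ℤ) := by exact_mod_cast Nat.mul_pos (by positivity) hm'.1
      rw [h5]
      unfold bf
      simp only [Int.toNat_natCast, hm0, h6, true_and, A.two_pow e i τ m hm'.1]
    show |∑ m ∈ Icc 1 n, bf (A.E i τ) (A.F i x) (2 ^ e * ((m : ℕ) : ℤ))| ≤ μ * N
    rw [e1, bf_sum]
    apply g1 e (mem_range.2 (by omega)) _ _ n hn
    have h7 : κm ≤ κ e := hκm e he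
    have h8 : (e : ℝ) * A.w ≤ E * A.w := mul_le_mul_of_nonneg_right (by exact_mod_cast he) A.hw
    have h9 : 0 ≤ (e : ℝ) * A.w := mul_nonneg (Nat.cast_nonneg _) A.hw
    have h10 : 0 ≤ Real.sqrt (Real.log N) := Real.sqrt_nonneg _
    have h11 := mul_le_mul_of_nonneg_right h7 h10
    obtain ⟨t1, t2⟩ := abs_le.1 hτ
    rw [abs_le]
    constructor <;> nlinarith) h hh0 hh1 hh hm hyp g hg hgm
  refine le_trans (le_of_eq ?_) key
  congr 1
  rw [mul_sum, ← sum_sub_distrib]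
  apply sum_congr rfl
  intro n hn
  rw [mem_Icc] at hn
  have hn0 : (0 : ℤ) < n := by exact_mod_cast hn.1
  unfold bf
  simp only [Int.toNat_natCast, hn0, true_and]
  by_cases hE : A.E i τ n
  · rw [if_pos hE, if_pos hE]; push_cast; ring
  · rw [if_neg hE, if_neg hE]; push_cast; ring

/-- sums over the initial segment are negligible -/
theorem small_n {c : ℝ} (hc : 0 < c) (x0 : ℕ) {ε : ℝ} (hε : 0 < ε) : ∃ N0 : ℕ, ∀ N : ℕ, N0 ≤ N →
    ∀ h : ℕ → ℝ, (∀ n, 0 ≤ h n) → (∀ n, h n ≤ 1) → HypD c x0 h →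
    ∑ n ∈ (Icc 1 N).filter (fun n : ℕ => (n : ℝ) ≤ N / Real.log N ^ 2), h n ≤ ε * ∑ n ∈ Icc 1 N, h n := by
  have tl : Tendsto (fun N : ℕ => Real.log N) atTop atTop :=
    Real.tendsto_log_atTop.comp tendsto_natCast_atTop_atTop
  obtain ⟨N1, hN1⟩ := eventually_atTop.1 (tl.eventually_ge_atTop (1 / (ε * c) + 1))
  refine ⟨max (max N1 x0) 2, fun N hN h h0 h1 hyp => ?_⟩
  have hNN1 : N1 ≤ N := ((le_max_left _ _).trans (le_max_left _ _)).trans hN
  have hNx : x0 ≤ N := ((le_max_right _ _).trans (le_max_left _ _)).trans hN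
  have hN2 : 2 ≤ N := (le_max_right _ _).trans hN
  have hN0 : (0 : ℝ) < N := by exact_mod_cast (by omega : 0 < N)
  have hl := hN1 N hNN1
  have hl0 : 0 < Real.log N := by
    have : 0 < 1 / (ε * c) := by positivity
    linarith
  have a1 : ∑ n ∈ (Icc 1 N).filter (fun n : ℕ => (n : ℝ) ≤ N / Real.log N ^ 2), h n ≤ N / Real.log N ^ 2 := by
    calc ∑ n ∈ (Icc 1 N).filter (fun n : ℕ => (n : ℝ) ≤ N / Real.log N ^ 2), h n
        ≤ ∑ n ∈ (Icc 1 N).filter (fun n : ℕ => (n : ℝ) ≤ N / Real.log N ^ 2), (1 : ℝ) :=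
          sum_le_sum fun n _ => h1 n
      _ = cnt (fun n : ℕ => (n : ℝ) ≤ N / Real.log N ^ 2) N := by
          rw [cnt_eq, sum_const, nsmul_eq_mul, mul_one]
      _ ≤ _ := cnt_small (by positivity) N
  have a2 : c * (N / Real.log N) ≤ ∑ n ∈ Icc 1 N, h n := by
    refine (hyp N hNx).trans ?_
    apply sum_le_sum_of_subset_of_nonneg
    · intro p hp
      rw [mem_PN] at hp
      rw [mem_Icc]
      exact ⟨hp.2.one_lt.le, hp.1⟩
    · intro n _ _; exact h0 n
  refine a1.trans (le_trans ?_ (mul_le_mul_of_nonneg_left a2 hε.le))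
  rw [div_le_iff₀ (by positivity)]
  have e : ε * (c * (N / Real.log N)) * Real.log N ^ 2 = (ε * c * Real.log N) * N := by field_simp
  rw [e]
  have h3 : 1 ≤ ε * c * Real.log N := by
    have h4 : ε * c * (1 / (ε * c)) ≤ ε * c * Real.log N := mul_le_mul_of_nonneg_left (by linarith) (by positivity)
    have h5 : ε * c * (1 / (ε * c)) = 1 := by field_simp
    linarith
  exact le_mul_of_one_le_left hN0.le h3

/-- THE RELATIVE LAW -/
theorem Fam.rel {s : ℤ} (hs : s = 1 ∨ s = -1) {R : ℕ} {ι : Type} (A : Fam s R ι) {c : ℝ} (hc : 0 < c)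
    (x0 : ℕ) (i : ι) (x : ℝ) {ε : ℝ} (hε : 0 < ε) : ∃ N0 : ℕ, ∀ N : ℕ, N0 ≤ N →
    ∀ h : ℕ → ℝ, (∀ n, 0 ≤ h n) → (∀ n, h n ≤ 1) → h 1 = 1 →
    (∀ m n : ℕ, Nat.Coprime m n → h (m * n) = h m * h n) → HypD c x0 h →
    ∀ g : ℕ → ℂ, (∀ n, ‖g n‖ ≤ h n) → (∀ m n : ℕ, Nat.Coprime m n → g (m * n) = g m * g n) →
    ‖∑ n ∈ Icc 1 N, (if A.E i (thr A.α A.σ x (Real.log n)) n then g n else 0) - A.F i x * ∑ n ∈ Icc 1 N, g n‖ ≤
      ε * ∑ n ∈ Icc 1 N, h n := by
  obtain ⟨κ, hκ, N1, hfix⟩ := A.rel_fix hs hc x0 i x (show 0 < ε / 5 by positivity)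
  obtain ⟨N2, hsm⟩ := small_n hc x0 (show 0 < ε / 5 by positivity)
  -- the thresholds vary little
  have tl : Tendsto (fun N : ℕ => Real.log N) atTop atTop :=
    Real.tendsto_log_atTop.comp tendsto_natCast_atTop_atTop
  have t2 : Tendsto (fun L : ℝ => Real.log L / L ^ (1 / 2 : ℝ)) atTop (𝓝 0) :=
    (isLittleO_log_rpow_atTop (by norm_num)).tendsto_div_nhds_zero
  set C : ℝ := 2 * (|A.α| + |x| * A.σ) with hC
  have hC0 : 0 ≤ C := by have := A.hσ; positivity
  have t3 : ∀ᶠ N : ℕ in atTop, C * (Real.log (Real.log N) / (Real.log N) ^ (1 / 2 : ℝ)) < κ := by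
    have := (t2.comp tl).const_mul C
    rw [mul_zero] at this
    exact this.eventually_lt_const hκ
  obtain ⟨N3, hN3⟩ := eventually_atTop.1 (t3.and (tl.eventually_ge_atTop 3))
  refine ⟨max (max N1 N2) (max N3 2), fun N hN h hh0 hh1 hh hm hyp g hg hgm => ?_⟩
  have hNN1 : N1 ≤ N := ((le_max_left _ _).trans (le_max_left _ _)).trans hN
  have hNN2 : N2 ≤ N := ((le_max_right _ _).trans (le_max_left _ _)).trans hN
  have hNN3 : N3 ≤ N := ((le_max_left _ _).trans (le_max_right _ _)).trans hN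
  have hN2 : 2 ≤ N := ((le_max_right _ _).trans (le_max_right _ _)).trans hN
  have hN0 : (0 : ℝ) < N := by exact_mod_cast (by omega : 0 < N)
  obtain ⟨g1, g2⟩ := hN3 N hNN3
  set L := Real.log N with hL
  have hL0 : 0 < L := by linarith
  have hLL : 0 ≤ Real.log L := Real.log_nonneg (by linarith)
  set Λ := thr A.α A.σ x L with hΛ
  set B := κ * Real.sqrt L with hB
  have hs0 : 0 < Real.sqrt L := Real.sqrt_pos.2 hL0
  have hB0 : 0 < B := by positivity
  have hvar : ∀ n : ℕ, N / L ^ 2 < n → n ≤ N → |thr A.α A.σ x (Real.log n) - Λ| ≤ B := by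
    intro n h1 h2
    have hn0 : (0 : ℝ) < n := lt_of_le_of_lt (by positivity) h1
    have b1 : L - 2 * Real.log L ≤ Real.log n := by
      have h3 : Real.log (N / L ^ 2) = L - 2 * Real.log L := by
        rw [Real.log_div hN0.ne' (by positivity), Real.log_pow]
        push_cast; ring
      rw [← h3]
      exact Real.log_le_log (by positivity) h1.le
    have b2 : Real.log n ≤ L := Real.log_le_log hn0 (by exact_mod_cast h2)
    have b3 : 0 ≤ Real.log n := Real.log_natCast_nonneg n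
    have b4 : |Real.log n - L| ≤ 2 * Real.log L := by rw [abs_le]; constructor <;> linarith
    have b5 : |Real.sqrt (Real.log n) - Real.sqrt L| ≤ 2 * Real.log L := by
      have h5 : (Real.sqrt (Real.log n) - Real.sqrt L) * (Real.sqrt (Real.log n) + Real.sqrt L) = Real.log n - L := by
        have h6 := Real.sq_sqrt b3
        have h7 := Real.sq_sqrt hL0.le
        nlinarith
      have h8 : 1 ≤ Real.sqrt L := Real.one_le_sqrt.2 (by linarith)
      have h9 : 0 ≤ Real.sqrt (Real.log n) := Real.sqrt_nonneg _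
      have h10 : |Real.sqrt (Real.log n) - Real.sqrt L| * (Real.sqrt (Real.log n) + Real.sqrt L) ≤ 2 * Real.log L := by
        rw [← abs_of_nonneg (by positivity : 0 ≤ Real.sqrt (Real.log n) + Real.sqrt L), ← abs_mul, h5]
        exact b4
      have h11 := abs_nonneg (Real.sqrt (Real.log n) - Real.sqrt L)
      nlinarith
    have e : thr A.α A.σ x (Real.log n) - Λ = A.α * (Real.log n - L) + x * (A.σ * (Real.sqrt (Real.log n) - Real.sqrt L)) := by
      rw [hΛ]; unfold thr; ring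
    rw [e]
    have a1 : |A.α * (Real.log n - L)| ≤ |A.α| * (2 * Real.log L) := by
      rw [abs_mul]; exact mul_le_mul_of_nonneg_left b4 (abs_nonneg _)
    have a2 : |x * (A.σ * (Real.sqrt (Real.log n) - Real.sqrt L))| ≤ |x| * A.σ * (2 * Real.log L) := by
      rw [abs_mul, abs_mul, abs_of_pos A.hσ, mul_assoc]
      exact mul_le_mul_of_nonneg_left (mul_le_mul_of_nonneg_left b5 A.hσ.le) (abs_nonneg _)
    refine (abs_add_le _ _).trans ?_
    have a3 : C * Real.log L ≤ B := by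
      have h12 : C * (Real.log L / L ^ (1 / 2 : ℝ)) * Real.sqrt L ≤ κ * Real.sqrt L :=
        mul_le_mul_of_nonneg_right g1.le hs0.le
      have h13 : C * (Real.log L / L ^ (1 / 2 : ℝ)) * Real.sqrt L = C * Real.log L := by
        rw [← Real.sqrt_eq_rpow]; field_simp
      rw [h13] at h12
      exact h12
    have e2 : C * Real.log L = |A.α| * (2 * Real.log L) + |x| * A.σ * (2 * Real.log L) := by rw [hC]; ring
    linarith
  have f1 := hfix N hNN1 (Λ + B) (by rw [add_sub_cancel_left, abs_of_pos hB0]) h hh0 hh1 hh hm hyp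
  have f2 := hfix N hNN1 (Λ - B) (by rw [sub_sub_cancel_left, abs_neg, abs_of_pos hB0]) h hh0 hh1 hh hm hyp
  have f3 := f1 g hg hgm
  have hhc : ∀ n, ‖((h n : ℝ) : ℂ)‖ ≤ h n := fun n => by
    rw [Complex.norm_real, Real.norm_eq_abs, abs_of_nonneg (hh0 n)]
  have hhm : ∀ m n : ℕ, Nat.Coprime m n → ((h (m * n) : ℝ) : ℂ) = (h m : ℂ) * (h n : ℂ) := fun m n hmn => by
    rw [hm m n hmn]; push_cast; rfl
  have f4 := f1 (fun n => (h n : ℂ)) hhc hhm
  have f5 := f2 (fun n => (h n : ℂ)) hhc hhm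
  have hre : ∀ P : ℕ → Prop, ∀ a : ℝ, ‖∑ n ∈ Icc 1 N, (if P n then (h n : ℂ) else 0) - a * ∑ n ∈ Icc 1 N, (h n : ℂ)‖ =
      |∑ n ∈ Icc 1 N, (if P n then h n else 0) - a * ∑ n ∈ Icc 1 N, h n| := by
    intro P a
    rw [← Real.norm_eq_abs, ← Complex.norm_real]
    congr 1
    push_cast
    congr 1
    apply sum_congr rfl
    intro n _
    split_ifs <;> simp
  rw [hre] at f4 f5
  set H := ∑ n ∈ Icc 1 N, h n with hH
  have hH0 : 0 ≤ H := sum_nonneg fun n _ => hh0 n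
  set S1 := ∑ n ∈ Icc 1 N, (if A.E i (Λ + B) n then h n else 0) with hS1
  set S2 := ∑ n ∈ Icc 1 N, (if A.E i (Λ - B) n then h n else 0) with hS2
  have hS12 : S1 - S2 ≤ 2 * (ε / 5 * H) := by
    obtain ⟨u1, u2⟩ := abs_le.1 f4
    obtain ⟨u3, u4⟩ := abs_le.1 f5
    linarith
  -- the difference of the sums
  have hdiff : ‖∑ n ∈ Icc 1 N, (if A.E i (thr A.α A.σ x (Real.log n)) n then g n else 0) -
      ∑ n ∈ Icc 1 N, (if A.E i (Λ + B) n then g n else 0)‖ ≤ (S1 - S2) +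
      ∑ n ∈ (Icc 1 N).filter (fun n : ℕ => (n : ℝ) ≤ N / L ^ 2), h n := by
    rw [← sum_sub_distrib, hS1, hS2, ← sum_sub_distrib, sum_filter, ← sum_add_distrib]
    refine (norm_sum_le _ _).trans (sum_le_sum fun n hn => ?_)
    rw [mem_Icc] at hn
    have hmon : A.E i (Λ - B) n → A.E i (Λ + B) n := A.mono i _ _ n (by linarith)
    have hgn := hg n
    have hn0 := hh0 n
    have hE2 : 0 ≤ (if A.E i (Λ + B) n then h n else 0) - (if A.E i (Λ - B) n then h n else 0) := by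
      by_cases h2 : A.E i (Λ - B) n
      · rw [if_pos h2, if_pos (hmon h2)]; linarith
      · rw [if_neg h2]; split_ifs <;> linarith
    by_cases hsn : (n : ℝ) ≤ N / L ^ 2
    · rw [if_pos hsn]
      have : ‖(if A.E i (thr A.α A.σ x (Real.log n)) n then g n else 0) - (if A.E i (Λ + B) n then g n else 0)‖ ≤ h n := by
        split_ifs
        · rw [sub_self, norm_zero]; exact hn0
        · rw [sub_zero]; exact hgn
        · rw [zero_sub, norm_neg]; exact hgn
        · rw [sub_self, norm_zero]; exact hn0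
      linarith
    · rw [if_neg hsn, add_zero]
      push Not at hsn
      obtain ⟨v1, v2⟩ := abs_le.1 (hvar n hsn hn.2)
      have m1 : A.E i (thr A.α A.σ x (Real.log n)) n → A.E i (Λ + B) n := A.mono i _ _ n (by linarith)
      have m2 : A.E i (Λ - B) n → A.E i (thr A.α A.σ x (Real.log n)) n := A.mono i _ _ n (by linarith)
      by_cases h1 : A.E i (thr A.α A.σ x (Real.log n)) n
      · rw [if_pos h1, if_pos (m1 h1), sub_self, norm_zero]
        exact hE2
      · have h2 : ¬ A.E i (Λ - B) n := fun h3 => h1 (m2 h3)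
        rw [if_neg h1, if_neg h2]
        split_ifs
        · rw [zero_sub, norm_neg, sub_zero]; exact hgn
        · simp
  have hsm' := hsm N hNN2 h hh0 hh1 hyp
  have key := norm_add_le (∑ n ∈ Icc 1 N, (if A.E i (thr A.α A.σ x (Real.log n)) n then g n else 0) -
      ∑ n ∈ Icc 1 N, (if A.E i (Λ + B) n then g n else 0))
    (∑ n ∈ Icc 1 N, (if A.E i (Λ + B) n then g n else 0) - A.F i x * ∑ n ∈ Icc 1 N, g n)
  rw [sub_add_sub_cancel] at key
  refine key.trans ?_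
  have h15 : 0 ≤ ε / 5 * H := by positivity
  linarith

end Pool.Agent.Y964.LW
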