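import Pool.Agent.Y964.LW.C9
import Pool.Agent.H499R2.CO.Q5

/-! Sums of multiplicative functions with values in `[0, 1]` over unions of few residue classes modulo
a power of two. -/

set_option autoImplicit false

namespace Pool.Agent.Y964.LW

open Finset Pool.Agent.H320R2.PD Pool.Agent.H499R2.ND Pool.Agent.H499R2.CO Pool.Agent.H376R2.MR
  Pool.Agent.W41.FU Pool.Agent.W41 Pool.Agent.W41.MU Pool.Agent.TH926.BL Pool.Agent.Y964.SE
open scoped Classical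

/-- the reduction to the sums belonging to small squarefull numbers -/
theorem assemble {c : ℝ} (hc : 0 < c) (x0 : ℕ) {ε : ℝ} (hε : 0 < ε) :
    ∃ (Q0 N0 : ℕ) (η : ℝ), 1 ≤ Q0 ∧ 0 < η ∧ ∀ N : ℕ, N0 ≤ N → ∀ f : ℤ → ℝ, (∀ x, |f x| ≤ 1) →
    ∀ h : ℕ → ℝ, (∀ n, 0 ≤ h n) → (∀ n, h n ≤ 1) → h 1 = 1 →
    (∀ m n : ℕ, Nat.Coprime m n → h (m * n) = h m * h n) → HypD c x0 h →
    ∀ g : ℕ → ℂ, (∀ n, ‖g n‖ ≤ h n) →
    (∀ q : ℕ, 1 ≤ q → q ≤ Q0 → ‖∑ m ∈ (Icc 1 (N / q)).filter (fun m => Squarefree m ∧ Nat.Coprime q m),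
      (f ((q * m : ℕ) : ℤ) : ℂ) * g (q * m)‖ ≤ η / Q0 * (kh h N * N)) →
    ‖∑ n ∈ Icc 1 N, (f ((n : ℕ) : ℤ) : ℂ) * g n‖ ≤ ε * ∑ n ∈ Icc 1 N, h n := by
  obtain ⟨Cs, hCs, hsf⟩ := sf_tail
  obtain ⟨Ku, hKu, Nu, hNu2, hup⟩ := hf_upper
  obtain ⟨c4, hc4, N4, hN42, hlow⟩ := sum_low hc x0
  obtain ⟨Cm, hCm, hkl⟩ := kh_lower
  set η : ℝ := ε * c4 / 4 with hη
  have hη0 : 0 < η := by positivity
  have tn := tendsto_natCast_atTop_atTop (R := ℝ)
  -- the cut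
  have tq : Filter.Tendsto (fun Q : ℕ => Ku * Cs * (Q : ℝ) ^ (-(1 / 8) : ℝ)) Filter.atTop (nhds 0) := by
    have := ((tendsto_rpow_neg_atTop (show (0 : ℝ) < 1 / 8 by norm_num)).comp tn).const_mul (Ku * Cs)
    rw [mul_zero] at this
    exact this
  obtain ⟨Q0, hQ0a, hQ0⟩ := ((tq.eventually_lt_const hη0).and (Filter.eventually_ge_atTop 1)).exists
  have hQ0R : (1 : ℝ) ≤ Q0 := by exact_mod_cast hQ0
  -- large squarefull numbers
  have tl : Filter.Tendsto (fun N : ℕ => Cs * Cm * (Real.log N * (N : ℝ) ^ (-(1 / 32) : ℝ))) Filter.atTop (nhds 0) := by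
    have h1 : Filter.Tendsto (fun x : ℝ => Real.log x / x ^ (1 / 32 : ℝ)) Filter.atTop (nhds 0) :=
      (isLittleO_log_rpow_atTop (by norm_num)).tendsto_div_nhds_zero
    have h2 := (h1.comp tn).const_mul (Cs * Cm)
    rw [mul_zero] at h2
    refine h2.congr' ?_
    filter_upwards [Filter.eventually_ge_atTop 1] with N hN
    simp only [Function.comp]
    rw [Real.rpow_neg (Nat.cast_nonneg _), ← div_eq_mul_inv]
  obtain ⟨N2, hN2⟩ := Filter.eventually_atTop.1 (tl.eventually_lt_const hη0)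
  refine ⟨Q0, max N2 (max (max N4 Nu) (2 ^ 8)), η, hQ0, hη0,
    fun N hN f hfa h hh0 hh1 hh hm hyp g hg hone => ?_⟩
  have hNN2 : N2 ≤ N := (le_max_left _ _).trans hN
  have hNN4 : N4 ≤ N := (((le_max_left _ _).trans (le_max_left _ _)).trans (le_max_right _ _)).trans hN
  have hNNu : Nu ≤ N := (((le_max_right _ _).trans (le_max_left _ _)).trans (le_max_right _ _)).trans hN
  have hN256 : 2 ^ 8 ≤ N := ((le_max_right _ _).trans (le_max_right _ _)).trans hN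
  clear hN
  have hNp : (0 : ℝ) < N := by exact_mod_cast (by omega : 0 < N)
  have hN1' : (1 : ℝ) ≤ N := by exact_mod_cast (by omega : 1 ≤ N)
  have hlog : 0 < Real.log N := Real.log_pos (by exact_mod_cast (by omega : 1 < N))
  have hk0 := kh_pos hh0 hh1 N
  set T : ℕ → ℂ := fun q => ∑ m ∈ (Icc 1 (N / q)).filter (fun m => Squarefree m ∧ Nat.Coprime q m),
    (f ((q * m : ℕ) : ℤ) : ℂ) * g (q * m) with hT
  have htriv : ∀ q, ‖T q‖ ≤ ∑ m ∈ Icc 1 (N / q), hf h m := fun q => one_q_triv hfa hh0 hh1 hh hm hg N q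
  -- small
  have s1 : ∑ q ∈ (Icc 1 N).filter (fun q => SFl q ∧ q ≤ Q0), ‖T q‖ ≤ η * (kh h N * N) := by
    have h1 : ∀ q ∈ (Icc 1 N).filter (fun q => SFl q ∧ q ≤ Q0), ‖T q‖ ≤ η / Q0 * (kh h N * N) := by
      intro q hq
      rw [mem_filter, mem_Icc] at hq
      exact hone q hq.1.1 hq.2.2
    refine (sum_le_sum h1).trans ?_
    rw [sum_const, nsmul_eq_mul]
    have h2 : #((Icc 1 N).filter (fun q => SFl q ∧ q ≤ Q0)) ≤ Q0 := by
      have : (Icc 1 N).filter (fun q => SFl q ∧ q ≤ Q0) ⊆ Icc 1 Q0 := by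
        intro q hq
        rw [mem_filter, mem_Icc] at hq
        exact mem_Icc.2 ⟨hq.1.1, hq.2.2⟩
      have h3 := card_le_card this
      rwa [Nat.card_Icc, Nat.add_sub_cancel] at h3
    have h2R : (#((Icc 1 N).filter (fun q => SFl q ∧ q ≤ Q0)) : ℝ) ≤ Q0 := by exact_mod_cast h2
    calc (#((Icc 1 N).filter (fun q => SFl q ∧ q ≤ Q0)) : ℝ) * (η / Q0 * (kh h N * N))
        ≤ Q0 * (η / Q0 * (kh h N * N)) := mul_le_mul_of_nonneg_right h2R (by positivity)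
      _ = _ := by field_simp
  -- medium
  have s2 : ∑ q ∈ (Icc 1 N).filter (fun q => (SFl q ∧ Q0 < q) ∧ (2 * q) ^ 2 ≤ N), ‖T q‖ ≤ η * (kh h N * N) := by
    have h1 : ∀ q ∈ (Icc 1 N).filter (fun q => (SFl q ∧ Q0 < q) ∧ (2 * q) ^ 2 ≤ N),
        ‖T q‖ ≤ Ku * kh h N * N * (1 / q) := by
      intro q hq
      rw [mem_filter, mem_Icc] at hq
      obtain ⟨⟨q1, q2⟩, q3, q4⟩ := hq
      have hq0 : (0 : ℝ) < q := by exact_mod_cast q1
      refine (htriv q).trans ((hup N hNNu h hh0 hh1 (N / q) (Nat.div_le_self _ _) ?_).trans ?_)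
      · have h2 : (2 * (q : ℝ)) ^ 2 ≤ N := by exact_mod_cast q4
        have h3 : 2 * (q : ℝ) ≤ (N : ℝ) ^ (1 / 2 : ℝ) := by
          rw [← Real.sqrt_eq_rpow]
          exact Real.le_sqrt_of_sq_le h2
        have h4 : 2 * (N : ℝ) ^ (1 / 2 : ℝ) ≤ N / q := by
          rw [le_div_iff₀ hq0]
          have h5 : (N : ℝ) ^ (1 / 2 : ℝ) * (N : ℝ) ^ (1 / 2 : ℝ) = N := by
            rw [← Real.rpow_add hNp]; norm_num
          have h6 : 0 < (N : ℝ) ^ (1 / 2 : ℝ) := by positivity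
          nlinarith
        have h5 : (N : ℝ) / q < ((N / q : ℕ) : ℝ) + 1 := by
          rw [div_lt_iff₀ hq0]
          have h3 : N < (N / q + 1) * q := by
            have := Nat.lt_div_mul_add (a := N) (b := q) q1
            rw [Nat.add_mul, one_mul]; omega
          exact_mod_cast h3
        have h6 : 1 ≤ (N : ℝ) ^ (1 / 2 : ℝ) := Real.one_le_rpow hN1' (by norm_num)
        linarith
      · have h2 : ((N / q : ℕ) : ℝ) ≤ N / q := Nat.cast_div_le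
        refine (mul_le_mul_of_nonneg_left h2 (by positivity)).trans (le_of_eq ?_)
        ring
    refine (sum_le_sum h1).trans ?_
    rw [← mul_sum]
    have h2 : ∑ q ∈ (Icc 1 N).filter (fun q => (SFl q ∧ Q0 < q) ∧ (2 * q) ^ 2 ≤ N), 1 / (q : ℝ) ≤
        Cs * (Q0 : ℝ) ^ (-(1 / 8) : ℝ) := by
      refine le_trans ?_ (hsf Q0 N hQ0)
      apply sum_le_sum_of_subset_of_nonneg
      · intro q hq
        rw [mem_filter] at hq ⊢
        exact ⟨hq.1, hq.2.1⟩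
      · intro _ _ _; positivity
    calc Ku * kh h N * N * ∑ q ∈ (Icc 1 N).filter (fun q => (SFl q ∧ Q0 < q) ∧ (2 * q) ^ 2 ≤ N), 1 / (q : ℝ)
        ≤ Ku * kh h N * N * (Cs * (Q0 : ℝ) ^ (-(1 / 8) : ℝ)) := mul_le_mul_of_nonneg_left h2 (by positivity)
      _ = (Ku * Cs * (Q0 : ℝ) ^ (-(1 / 8) : ℝ)) * (kh h N * N) := by ring
      _ ≤ _ := mul_le_mul_of_nonneg_right hQ0a.le (by positivity)
  -- large
  have s3 : ∑ q ∈ (Icc 1 N).filter (fun q => (SFl q ∧ Q0 < q) ∧ ¬ (2 * q) ^ 2 ≤ N), ‖T q‖ ≤ η * (kh h N * N) := by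
    set Q1 := Nat.sqrt (N / 4) with hQ1
    have hQ1a : 1 ≤ Q1 := by
      rw [hQ1, Nat.le_sqrt']
      omega
    have hQ1b : (N : ℝ) ^ (1 / 4 : ℝ) ≤ Q1 := by
      have h1 : N / 4 < (Q1 + 1) ^ 2 := Nat.lt_succ_sqrt' _
      have h2 : N < 4 * (Q1 + 1) ^ 2 := by omega
      have h3 : (N : ℝ) < 4 * ((Q1 : ℝ) + 1) ^ 2 := by exact_mod_cast h2
      have h4 : (N : ℝ) ^ (1 / 2 : ℝ) ≤ 2 * (Q1 + 1) := by
        rw [← Real.sqrt_eq_rpow]
        apply Real.sqrt_le_iff.2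
        refine ⟨by positivity, ?_⟩
        linarith
      have h5 : (N : ℝ) ^ (1 / 2 : ℝ) = (N : ℝ) ^ (1 / 4 : ℝ) * (N : ℝ) ^ (1 / 4 : ℝ) := by
        rw [← Real.rpow_add hNp]; norm_num
      have h6 : (4 : ℝ) ≤ (N : ℝ) ^ (1 / 4 : ℝ) := by
        have h7 : ((2 : ℝ) ^ 8) ^ (1 / 4 : ℝ) ≤ (N : ℝ) ^ (1 / 4 : ℝ) :=
          Real.rpow_le_rpow (by positivity) (by exact_mod_cast hN256) (by norm_num)
        have h8 : ((2 : ℝ) ^ 8) ^ (1 / 4 : ℝ) = 4 := by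
          rw [← Real.rpow_natCast, ← Real.rpow_mul (by norm_num)]; norm_num
        linarith
      nlinarith
    have h1 : ∀ q ∈ (Icc 1 N).filter (fun q => (SFl q ∧ Q0 < q) ∧ ¬ (2 * q) ^ 2 ≤ N), ‖T q‖ ≤ N * (1 / q) := by
      intro q hq
      refine (htriv q).trans ((sum_le_sum fun m _ => hf_le_one hh0 hh1 m).trans ?_)
      rw [sum_const, Nat.card_Icc, Nat.add_sub_cancel, nsmul_eq_mul, mul_one]
      refine (Nat.cast_div_le).trans (le_of_eq ?_)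
      ring
    refine (sum_le_sum h1).trans ?_
    rw [← mul_sum]
    have h2 : ∑ q ∈ (Icc 1 N).filter (fun q => (SFl q ∧ Q0 < q) ∧ ¬ (2 * q) ^ 2 ≤ N), 1 / (q : ℝ) ≤
        Cs * (Q1 : ℝ) ^ (-(1 / 8) : ℝ) := by
      refine le_trans ?_ (hsf Q1 N hQ1a)
      apply sum_le_sum_of_subset_of_nonneg
      · intro q hq
        rw [mem_filter] at hq ⊢
        refine ⟨hq.1, hq.2.1.1, ?_⟩
        rw [hQ1, Nat.sqrt_lt']
        have h3 := hq.2.2
        push Not at h3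
        have h4 : (2 * q) ^ 2 = 4 * q ^ 2 := by ring
        rw [h4] at h3
        omega
      · intro _ _ _; positivity
    have h3 : (Q1 : ℝ) ^ (-(1 / 8) : ℝ) ≤ (N : ℝ) ^ (-(1 / 32) : ℝ) := by
      have e : (N : ℝ) ^ (-(1 / 32) : ℝ) = ((N : ℝ) ^ (1 / 4 : ℝ)) ^ (-(1 / 8) : ℝ) := by
        rw [← Real.rpow_mul hNp.le]; norm_num
      rw [e]
      apply Real.rpow_le_rpow_of_nonpos (by positivity) hQ1b (by norm_num)
    have h4 := hN2 N hNN2
    have h5 := hkl h hh0 hh1 N (by omega)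
    have h6 : Cs * (N : ℝ) ^ (-(1 / 32) : ℝ) ≤ η * kh h N := by
      have h7 : Cs * (N : ℝ) ^ (-(1 / 32) : ℝ) = (Cs * Cm * (Real.log N * (N : ℝ) ^ (-(1 / 32) : ℝ))) *
          (1 / (Cm * Real.log N)) := by
        have : Cm ≠ 0 := by linarith
        field_simp
      rw [h7]
      exact mul_le_mul h4.le h5 (by positivity) hη0.le
    calc (N : ℝ) * ∑ q ∈ (Icc 1 N).filter (fun q => (SFl q ∧ Q0 < q) ∧ ¬ (2 * q) ^ 2 ≤ N), 1 / (q : ℝ)
        ≤ N * (Cs * (N : ℝ) ^ (-(1 / 32) : ℝ)) := by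
          apply mul_le_mul_of_nonneg_left _ hNp.le
          exact h2.trans (mul_le_mul_of_nonneg_left h3 (by linarith))
      _ ≤ N * (η * kh h N) := mul_le_mul_of_nonneg_left h6 hNp.le
      _ = _ := by ring
  -- the end
  have e1 : ∑ n ∈ Icc 1 N, (f ((n : ℕ) : ℤ) : ℂ) * g n = ∑ q ∈ (Icc 1 N).filter SFl, T q :=
    decomp N (fun n => (f ((n : ℕ) : ℤ) : ℂ) * g n)
  have e2 : ∑ q ∈ (Icc 1 N).filter SFl, ‖T q‖ =
      ∑ q ∈ (Icc 1 N).filter (fun q => SFl q ∧ q ≤ Q0), ‖T q‖ +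
      (∑ q ∈ (Icc 1 N).filter (fun q => (SFl q ∧ Q0 < q) ∧ (2 * q) ^ 2 ≤ N), ‖T q‖ +
      ∑ q ∈ (Icc 1 N).filter (fun q => (SFl q ∧ Q0 < q) ∧ ¬ (2 * q) ^ 2 ≤ N), ‖T q‖) := by
    rw [← sum_filter_add_sum_filter_not ((Icc 1 N).filter SFl) (fun q => q ≤ Q0), filter_filter, filter_filter,
      ← filter_filter (fun q => SFl q ∧ Q0 < q), ← filter_filter (fun q => SFl q ∧ Q0 < q),
      sum_filter_add_sum_filter_not]
    simp only [not_le]
  rw [e1]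
  refine (norm_sum_le _ _).trans ?_
  rw [e2]
  have h9 := hlow h hh0 hh1 hh hm hyp N hNN4
  have h10 : ε * (c4 * (kh h N * N)) ≤ ε * ∑ n ∈ Icc 1 N, h n := mul_le_mul_of_nonneg_left h9 hε.le
  have h11 : ε * (c4 * (kh h N * N)) = 4 * (η * (kh h N * N)) := by rw [hη]; ring
  have h12 : 0 ≤ η * (kh h N * N) := by positivity
  linarith


/-- periodic sets: the multiples of `q` -/
theorem per_mul {k : ℕ} {P : ℤ → Prop} (hP : ∀ x m : ℤ, P (x + m * 2 ^ k) ↔ P x) (q : ℕ) (hq : 1 ≤ q) :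
    #{b ∈ range (2 ^ k) | P ((q : ℤ) * ((b : ℕ) : ℤ))} ≤ q * #{b ∈ range (2 ^ k) | P ((b : ℕ) : ℤ)} := by
  have h1 : ∀ j : ℕ, #{b ∈ range (j * 2 ^ k) | P ((b : ℕ) : ℤ)} = j * #{b ∈ range (2 ^ k) | P ((b : ℕ) : ℤ)} := by
    intro j
    induction j with
    | zero => simp
    | succ j ih =>
      have e1 : {b ∈ range ((j + 1) * 2 ^ k) | P ((b : ℕ) : ℤ)} = {b ∈ range (j * 2 ^ k) | P ((b : ℕ) : ℤ)} ∪
          ({b ∈ range (2 ^ k) | P ((b : ℕ) : ℤ)}).image (fun b => j * 2 ^ k + b) := by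
        ext b
        rw [mem_union, mem_filter, mem_filter, mem_image, mem_range, mem_range]
        constructor
        · rintro ⟨hb, hPb⟩
          by_cases hlt : b < j * 2 ^ k
          · exact Or.inl ⟨hlt, hPb⟩
          · right
            refine ⟨b - j * 2 ^ k, ?_, by omega⟩
            rw [mem_filter, mem_range]
            refine ⟨by rw [Nat.add_mul, one_mul] at hb; omega, ?_⟩
            have e : (b : ℤ) = ((b - j * 2 ^ k : ℕ) : ℤ) + (j : ℤ) * 2 ^ k := by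
              have : (b : ℤ) = ((b - j * 2 ^ k + j * 2 ^ k : ℕ) : ℤ) := by
                rw [Nat.sub_add_cancel (by omega)]
              rw [this]; push_cast; ring
            rw [e, hP] at hPb
            exact hPb
        · rintro (⟨hb, hPb⟩ | ⟨b', hb', rfl⟩)
          · have h2k : 0 < 2 ^ k := by positivity
            exact ⟨by rw [Nat.add_mul, one_mul]; omega, hPb⟩
          · rw [mem_filter, mem_range] at hb'
            refine ⟨by rw [Nat.add_mul, one_mul]; omega, ?_⟩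
            have e : ((j * 2 ^ k + b' : ℕ) : ℤ) = (b' : ℤ) + (j : ℤ) * 2 ^ k := by push_cast; ring
            rw [e, hP]
            exact hb'.2
      have e2 : Disjoint {b ∈ range (j * 2 ^ k) | P ((b : ℕ) : ℤ)}
          (({b ∈ range (2 ^ k) | P ((b : ℕ) : ℤ)}).image (fun b => j * 2 ^ k + b)) := by
        rw [Finset.disjoint_left]
        intro b h1 h2
        rw [mem_filter, mem_range] at h1
        rw [mem_image] at h2
        obtain ⟨b', _, rfl⟩ := h2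
        omega
      rw [e1, card_union_of_disjoint e2, ih, card_image_of_injective _ (fun a b hab => by
        have : j * 2 ^ k + a = j * 2 ^ k + b := hab
        omega)]
      ring
  rw [← h1 q]
  refine card_le_card_of_injOn (fun b => q * b) (fun b hb => ?_) (fun a _ b _ hab => ?_)
  · rw [mem_coe, mem_filter, mem_range] at hb
    rw [mem_coe, mem_filter, mem_range]
    exact ⟨Nat.mul_lt_mul_of_pos_left hb.1 hq, by push_cast; exact hb.2⟩
  · exact Nat.eq_of_mul_eq_mul_left hq hab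

/-- the sum belonging to one squarefull number -/
theorem cls_T : ∃ K : ℝ, 1 ≤ K ∧ ∃ N0 : ℕ, 2 ≤ N0 ∧ ∀ N : ℕ, N0 ≤ N → ∀ h : ℕ → ℝ, (∀ p, 0 ≤ h p) →
    (∀ p, h p ≤ 1) → ∀ k : ℕ, (2 : ℝ) ^ k ≤ (N : ℝ) ^ ((1 : ℝ) / 2) →
    ∀ P : ℤ → Prop, (∀ x m : ℤ, P (x + m * 2 ^ k) ↔ P x) → ∀ q : ℕ, 1 ≤ q →
    ∑ m ∈ Icc 1 (N / q), (if P ((q * m : ℕ) : ℤ) then hf h m else 0) ≤
      K * q * (#{b ∈ range (2 ^ k) | P ((b : ℕ) : ℤ)} / 2 ^ k) * (kh h N * N) := by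
  obtain ⟨K, hK, N0, hN0, hcl⟩ := sieve_cls (γ := 1) one_pos le_rfl
  refine ⟨2 * K, by linarith, N0, hN0, fun N hN h h0 h1 k hk P hP q hq => ?_⟩
  have hN1 : (1 : ℝ) ≤ N := by exact_mod_cast (by omega : 1 ≤ N)
  have hq0 : (0 : ℝ) < q := by exact_mod_cast hq
  set x : ℝ := ((N / q : ℕ) : ℝ) with hx
  have hxN : x ≤ N := by rw [hx]; exact_mod_cast Nat.div_le_self _ _
  have e1 : ∑ m ∈ Icc 1 (N / q), (if P ((q * m : ℕ) : ℤ) then hf h m else 0) =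
      ∑ A ∈ (PN N).powerset, pw h N A * (#{m ∈ FA {p | p ∈ A} x | P ((q * m : ℕ) : ℤ)} : ℝ) := by
    have h2 := avg_sum (E := ℝ) h (n := N) (x := x) hxN (fun m => if P ((q * m : ℕ) : ℤ) then (1 : ℝ) else 0)
    simp only [smul_eq_mul, mul_ite, mul_one, mul_zero, hx, Nat.floor_natCast] at h2
    rw [← h2]
    apply sum_congr rfl
    intro A _
    congr 1
    rw [← sum_filter, sum_const, nsmul_eq_mul, mul_one]
  rw [e1]
  have e2 : ∀ A ∈ (PN N).powerset, pw h N A * (#{m ∈ FA {p | p ∈ A} x | P ((q * m : ℕ) : ℤ)} : ℝ) ≤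
      2 * K * q * (#{b ∈ range (2 ^ k) | P ((b : ℕ) : ℤ)} / 2 ^ k) * N * (pw h N A * kap {p | p ∈ A} N) := by
    intro A _
    have h3 := hcl N hN {p | p ∈ A} 1 k 0 (N + 1) rfl (by rw [Nat.cast_one, one_mul]; exact hk)
      (by rw [Real.rpow_one]; push_cast; linarith) (fun z => P ((q : ℤ) * z)) (fun z m => by
        have : (q : ℤ) * (z + m * 2 ^ k) = (q : ℤ) * z + ((q : ℤ) * m) * 2 ^ k := by ring
        show P ((q : ℤ) * (z + m * 2 ^ k)) ↔ P ((q : ℤ) * z)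
        rw [this, hP]) (FA {p | p ∈ A} x) (by
      intro m hm
      rw [hx, mem_FA_nat] at hm
      rw [mem_Ico]
      have := hm.1.trans (Nat.div_le_self N q)
      omega) (fun m hm => ⟨m, by rw [hx, mem_FA_nat] at hm; exact hm.2, by rw [one_mul]⟩)
    have h4 : #{m ∈ FA {p | p ∈ A} x | P ((q * m : ℕ) : ℤ)} = #{m ∈ FA {p | p ∈ A} x | P ((q : ℤ) * ((m : ℕ) : ℤ))} := by
      congr 1
    have h5 : (#{b ∈ range (2 ^ k) | P ((q : ℤ) * ((b : ℕ) : ℤ))} : ℝ) ≤ q * #{b ∈ range (2 ^ k) | P ((b : ℕ) : ℤ)} := by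
      exact_mod_cast per_mul hP q hq
    have hkap := kap_pos {p | p ∈ A} N
    have h2k : (0 : ℝ) < 2 ^ k := by positivity
    rw [h4]
    refine (mul_le_mul_of_nonneg_left h3 (pw_nonneg h0 h1 N A)).trans ?_
    have h6 : K * kap {p | p ∈ A} N / ((1 : ℕ) : ℝ) * (((N + 1 : ℕ) : ℝ) / 2 ^ k) * (#{b ∈ range (2 ^ k) | P ((q : ℤ) * ((b : ℕ) : ℤ))} : ℝ) ≤
        K * kap {p | p ∈ A} N * ((2 * N) / 2 ^ k) * (q * #{b ∈ range (2 ^ k) | P ((b : ℕ) : ℤ)}) := by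
      rw [Nat.cast_one, div_one]
      apply mul_le_mul _ h5 (by positivity) (by positivity)
      apply mul_le_mul_of_nonneg_left _ (by positivity)
      apply div_le_div_of_nonneg_right _ h2k.le
      push_cast; linarith
    refine (mul_le_mul_of_nonneg_left h6 (pw_nonneg h0 h1 N A)).trans (le_of_eq ?_)
    ring
  refine (sum_le_sum e2).trans (le_of_eq ?_)
  rw [← mul_sum, avg_kap]
  ring

/-- sums over unions of few residue classes modulo a power of two -/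
theorem cls_main {c : ℝ} (hc : 0 < c) (x0 : ℕ) {ε : ℝ} (hε : 0 < ε) :
    ∃ (η : ℝ) (N0 : ℕ), 0 < η ∧ ∀ N : ℕ, N0 ≤ N → ∀ k : ℕ, (2 : ℝ) ^ k ≤ (N : ℝ) ^ ((1 : ℝ) / 2) →
    ∀ P : ℤ → Prop, (∀ x m : ℤ, P (x + m * 2 ^ k) ↔ P x) →
    (#{b ∈ range (2 ^ k) | P ((b : ℕ) : ℤ)} : ℝ) ≤ η * 2 ^ k →
    ∀ h : ℕ → ℝ, (∀ n, 0 ≤ h n) → (∀ n, h n ≤ 1) → h 1 = 1 →
    (∀ m n : ℕ, Nat.Coprime m n → h (m * n) = h m * h n) → HypD c x0 h →
    ∑ n ∈ Icc 1 N, (if P ((n : ℕ) : ℤ) then h n else 0) ≤ ε * ∑ n ∈ Icc 1 N, h n := by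
  obtain ⟨Q0, N1, η, hQ0, hη, hA⟩ := assemble hc x0 hε
  obtain ⟨K, hK, N2, hN2, hT⟩ := cls_T
  have hQR : (1 : ℝ) ≤ Q0 := by exact_mod_cast hQ0
  refine ⟨η / (K * Q0 ^ 2), max N1 N2, by positivity, fun N hN k hk P hP hcount h hh0 hh1 hh hm hyp => ?_⟩
  have hNN1 := (le_max_left _ _).trans hN
  have hNN2 := (le_max_right _ _).trans hN
  set f : ℤ → ℝ := fun z => if P z then 1 else 0 with hf'
  have hfa : ∀ x, |f x| ≤ 1 := by
    intro x
    simp only [hf']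
    split_ifs <;> simp
  have h1 := hA N hNN1 f hfa h hh0 hh1 hh hm hyp (fun n => (h n : ℂ)) (fun n => by
    rw [Complex.norm_real, Real.norm_eq_abs, abs_of_nonneg (hh0 n)]) (fun q hq hqQ => by
    have hq0 : (0 : ℝ) < q := by exact_mod_cast hq
    have hqR : (q : ℝ) ≤ Q0 := by exact_mod_cast hqQ
    have h2 := hT N hNN2 h hh0 hh1 k hk P hP q hq
    have hkh : 0 ≤ kh h N * N := mul_nonneg (kh_pos hh0 hh1 N).le (Nat.cast_nonneg _)
    have h3 : ‖∑ m ∈ (Icc 1 (N / q)).filter (fun m => Squarefree m ∧ Nat.Coprime q m),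
        (f ((q * m : ℕ) : ℤ) : ℂ) * (h (q * m) : ℂ)‖ ≤
        ∑ m ∈ Icc 1 (N / q), (if P ((q * m : ℕ) : ℤ) then hf h m else 0) := by
      refine (norm_sum_le _ _).trans ?_
      rw [sum_filter]
      apply sum_le_sum
      intro m _
      split_ifs with h1 h2 h3
      · rw [norm_mul, Complex.norm_real, Real.norm_eq_abs, Complex.norm_real, Real.norm_eq_abs,
          abs_of_nonneg (hh0 _)]
        simp only [hf', if_pos h2, abs_one, one_mul]
        rw [hm q m h1.2, mul_sqf hh hm h1.1]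
        exact mul_le_of_le_one_left (hf_nonneg hh0 m) (hh1 q)
      · rw [norm_mul, Complex.norm_real, Real.norm_eq_abs]
        simp only [hf', if_neg h2, abs_zero, zero_mul]
        exact le_rfl
      · exact hf_nonneg hh0 m
      · exact le_rfl
    refine h3.trans (h2.trans ?_)
    have h4 : (#{b ∈ range (2 ^ k) | P ((b : ℕ) : ℤ)} / 2 ^ k : ℝ) ≤ η / (K * Q0 ^ 2) := by
      rw [div_le_iff₀ (by positivity)]; exact hcount
    have h5 : K * q * (#{b ∈ range (2 ^ k) | P ((b : ℕ) : ℤ)} / 2 ^ k) ≤ η / Q0 := by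
      calc K * q * (#{b ∈ range (2 ^ k) | P ((b : ℕ) : ℤ)} / 2 ^ k : ℝ) ≤ K * Q0 * (η / (K * Q0 ^ 2)) := by
            apply mul_le_mul _ h4 (by positivity) (by positivity)
            exact mul_le_mul_of_nonneg_left hqR (by linarith)
        _ = η / Q0 := by field_simp
    exact mul_le_mul_of_nonneg_right h5 hkh)
  have e : ∑ n ∈ Icc 1 N, (f ((n : ℕ) : ℤ) : ℂ) * (h n : ℂ) =
      ((∑ n ∈ Icc 1 N, (if P ((n : ℕ) : ℤ) then h n else 0) : ℝ) : ℂ) := by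
    rw [Complex.ofReal_sum]
    apply sum_congr rfl
    intro n _
    simp only [hf']
    split_ifs <;> simp
  rw [e, Complex.norm_real, Real.norm_eq_abs] at h1
  exact (le_abs_self _).trans h1

end Pool.Agent.Y964.LW
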