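import Pool.Agent.Y964.LW.D1

/-! Coalescence of the trajectories of `n` and `3 ^ i n + B` for relatively almost all `n`; transfer of
relative frequencies. -/

set_option autoImplicit false

namespace Pool.Agent.Y964.LW

open Finset Filter Topology
open Pool.Agent.H499R2.CO (Tz surv step q q_lim q_quant count_surv surv_periodic)
open Pool.Agent.H499R2.ND (Td)
open Pool.Agent.H499R2.LT (od)
open Pool.Agent.Y964.SE
open scoped Classical

/-- relatively negligible properties -/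
def Negl (P : ℕ → Prop) : Prop := ∀ c : ℝ, 0 < c → ∀ (x0 : ℕ) (ε : ℝ), 0 < ε → ∃ N0 : ℕ, ∀ N : ℕ, N0 ≤ N →
    ∀ h : ℕ → ℝ, (∀ n, 0 ≤ h n) → (∀ n, h n ≤ 1) → h 1 = 1 →
    (∀ m n : ℕ, Nat.Coprime m n → h (m * n) = h m * h n) → HypD c x0 h →
    ∑ n ∈ Icc 1 N, (if P n then h n else 0) ≤ ε * ∑ n ∈ Icc 1 N, h n

theorem RL_negl {P Q B : ℕ → Prop} {l : ℝ} (hP : RL P l) (hB : Negl B) (h : ∀ n, ¬ B n → (P n ↔ Q n)) : RL Q l := by
  intro c hc x0 ε hε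
  obtain ⟨N1, k1⟩ := hP c hc x0 (ε / 2) (by positivity)
  obtain ⟨N2, k2⟩ := hB c hc x0 (ε / 2) (by positivity)
  refine ⟨max N1 N2, fun N hN h' hh0 hh1 hh hm hyp g hg hgm => ?_⟩
  have f1 := k1 N ((le_max_left _ _).trans hN) h' hh0 hh1 hh hm hyp g hg hgm
  have f2 := k2 N ((le_max_right _ _).trans hN) h' hh0 hh1 hh hm hyp
  have e2 : ∑ n ∈ Icc 1 N, (if Q n then g n else 0) - (l : ℂ) * ∑ n ∈ Icc 1 N, g n =
      (∑ n ∈ Icc 1 N, (if P n then g n else 0) - l * ∑ n ∈ Icc 1 N, g n) +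
      ∑ n ∈ Icc 1 N, ((if Q n then g n else 0) - (if P n then g n else 0)) := by
    rw [sum_sub_distrib]; ring
  have e3 : ‖∑ n ∈ Icc 1 N, ((if Q n then g n else 0) - (if P n then g n else 0))‖ ≤
      ∑ n ∈ Icc 1 N, (if B n then h' n else 0) := by
    refine (norm_sum_le _ _).trans (sum_le_sum fun n _ => ?_)
    by_cases h1 : B n
    · rw [if_pos h1]
      by_cases h2 : Q n <;> by_cases h3 : P n
      · rw [if_pos h2, if_pos h3, sub_self, norm_zero]; exact hh0 n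
      · rw [if_pos h2, if_neg h3, sub_zero]; exact hg n
      · rw [if_neg h2, if_pos h3, zero_sub, norm_neg]; exact hg n
      · rw [if_neg h2, if_neg h3, sub_self, norm_zero]; exact hh0 n
    · rw [if_neg h1]
      by_cases h2 : Q n
      · rw [if_pos h2, if_pos ((h n h1).2 h2), sub_self, norm_zero]
      · rw [if_neg h2, if_neg (fun h3 => h2 ((h n h1).1 h3)), sub_self, norm_zero]
  rw [e2]
  refine (norm_add_le _ _).trans ?_
  have : ε * ∑ n ∈ Icc 1 N, h' n = ε / 2 * ∑ n ∈ Icc 1 N, h' n + ε / 2 * ∑ n ∈ Icc 1 N, h' n := by ring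
  linarith

/-- the complement of a negligible set has frequency one -/
theorem Negl.one {B Q : ℕ → Prop} (hB : Negl B) (h : ∀ n, ¬ B n → Q n) : RL Q 1 :=
  RL_negl (RL_true (R := fun _ => True) (fun _ => trivial)) hB (fun n hn => ⟨fun _ => h n hn, fun _ => trivial⟩)

theorem Negl.or {P Q R : ℕ → Prop} (hP : Negl P) (hQ : Negl Q) (hR : ∀ n, R n → P n ∨ Q n) : Negl R := by
  intro c hc x0 ε hε
  obtain ⟨N1, k1⟩ := hP c hc x0 (ε / 2) (by positivity)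
  obtain ⟨N2, k2⟩ := hQ c hc x0 (ε / 2) (by positivity)
  refine ⟨max N1 N2, fun N hN h' hh0 hh1 hh hm hyp => ?_⟩
  have f1 := k1 N ((le_max_left _ _).trans hN) h' hh0 hh1 hh hm hyp
  have f2 := k2 N ((le_max_right _ _).trans hN) h' hh0 hh1 hh hm hyp
  have e : ∑ n ∈ Icc 1 N, (if R n then h' n else 0) ≤
      ∑ n ∈ Icc 1 N, ((if P n then h' n else 0) + (if Q n then h' n else 0)) := by
    apply sum_le_sum
    intro n _
    have h0 := hh0 n
    by_cases h1 : R n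
    · rw [if_pos h1]
      rcases hR n h1 with h2 | h2
      · rw [if_pos h2]; split_ifs <;> linarith
      · rw [if_pos h2]; split_ifs <;> linarith
    · rw [if_neg h1]; split_ifs <;> linarith
  rw [sum_add_distrib] at e
  have : ε * ∑ n ∈ Icc 1 N, h' n = ε / 2 * ∑ n ∈ Icc 1 N, h' n + ε / 2 * ∑ n ∈ Icc 1 N, h' n := by ring
  linarith

theorem Negl_lt (n0 : ℕ) : Negl (fun n => n < n0) := by
  intro c hc x0 ε hε
  obtain ⟨N0, h0⟩ := sum_large hc x0 ((n0 : ℝ) / ε)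
  refine ⟨N0, fun N hN h' hh0 hh1 hh hm hyp => ?_⟩
  have h1 := h0 N hN h' hh0 hyp
  rw [div_le_iff₀ hε] at h1
  have h2 : ∑ n ∈ Icc 1 N, (if n < n0 then h' n else 0) ≤ ∑ n ∈ range n0, (1 : ℝ) := by
    rw [← sum_filter]
    refine (sum_le_sum fun n _ => hh1 n).trans ?_
    apply sum_le_sum_of_subset_of_nonneg
    · intro n hn
      rw [mem_filter] at hn
      exact mem_range.2 hn.2
    · intro _ _ _; exact zero_le_one
  rw [sum_const, card_range, nsmul_eq_mul, mul_one] at h2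
  have h3 : (∑ n ∈ Icc 1 N, if n < n0 then h' n else 0) ≤ ε * ∑ n ∈ Icc 1 N, h' n := by linarith
  convert h3

/-- the trajectories of `s n` and `3 ^ i (s n) + B` coalesce at some time `t` with `4 ^ t ≤ n` -/
def Coal (s : ℤ) (i : ℕ) (B : ℤ) (n : ℕ) : Prop := ∃ t : ℕ, 4 ^ t ≤ n ∧
  (Td 1)^[t] (3 ^ i * (s * n) + B) = (Td 1)^[t] (s * n) ∧ od 1 t (s * n) = od 1 t (3 ^ i * (s * n) + B) + i

theorem not_surv_coal {s : ℤ} (hs : s = 1 ∨ s = -1) {k i : ℕ} {B : ℤ} {n : ℕ} (h : ¬ surv s k (i, B) (n : ℤ))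
    (hn : 4 ^ k ≤ n) : Coal s i B n := by
  obtain ⟨t, ht, h1, h2⟩ := coal2 (d := s) (by rcases hs with rfl | rfl <;> rfl) k i B (n : ℤ) h
  have hss : s * s = 1 := by rcases hs with rfl | rfl <;> rfl
  have e : (3 : ℤ) ^ i * (s * n) + B = s * (3 ^ i * n + s * B) := by
    have : s * (3 ^ i * (n : ℤ) + s * B) = 3 ^ i * (s * n) + (s * s) * B := by ring
    rw [this, hss, one_mul]
  refine ⟨t, (Nat.pow_le_pow_right (by norm_num) ht).trans hn, ?_, ?_⟩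
  · rw [e, side_iter hs, side_iter hs, h1]
  · rw [e, ← side_oc hs, ← side_oc hs, h2]

/-- the basic estimate -/
theorem coal_core {c : ℝ} (hc : 0 < c) (x0 : ℕ) {ε : ℝ} (hε : 0 < ε) :
    ∃ (η : ℝ) (N0 : ℕ), 0 < η ∧ ∀ N : ℕ, N0 ≤ N → ∀ s : ℤ, s = 1 ∨ s = -1 → ∀ (i : ℕ) (B : ℤ),
    q step (0, 0) (Nat.log 2 N / 4) (i, B) ≤ η →
    ∀ h : ℕ → ℝ, (∀ n, 0 ≤ h n) → (∀ n, h n ≤ 1) → h 1 = 1 →
    (∀ m n : ℕ, Nat.Coprime m n → h (m * n) = h m * h n) → HypD c x0 h →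
    ∑ n ∈ Icc 1 N, (if ¬ Coal s i B n then h n else 0) ≤ ε * ∑ n ∈ Icc 1 N, h n := by
  obtain ⟨η, N1, hη, h1⟩ := cls_main hc x0 (half_pos hε)
  have hδ : 0 < ε / 2 * c := by positivity
  have t1 : Tendsto (fun N : ℕ => Real.log N / (N : ℝ) ^ ((1 : ℝ) / 2)) atTop (𝓝 0) := by
    have h2 : Tendsto (fun x : ℝ => Real.log x / x ^ ((1 : ℝ) / 2)) atTop (𝓝 0) :=
      (isLittleO_log_rpow_atTop (by norm_num)).tendsto_div_nhds_zero
    exact h2.comp tendsto_natCast_atTop_atTop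
  obtain ⟨N2, hN2⟩ := eventually_atTop.1 (t1.eventually_lt_const hδ)
  refine ⟨η, max (max N1 N2) (max x0 2), hη, fun N hN s hs i B hq h hh0 hh1 hh hm hyp => ?_⟩
  have hNN1 : N1 ≤ N := ((le_max_left _ _).trans (le_max_left _ _)).trans hN
  have hNN2 : N2 ≤ N := ((le_max_right _ _).trans (le_max_left _ _)).trans hN
  have hNx : x0 ≤ N := ((le_max_left _ _).trans (le_max_right _ _)).trans hN
  have hN2' : 2 ≤ N := ((le_max_right _ _).trans (le_max_right _ _)).trans hN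
  have hNp : (0 : ℝ) < N := by exact_mod_cast (by omega : 0 < N)
  have hlog : 0 < Real.log N := Real.log_pos (by exact_mod_cast (by omega : 1 < N))
  set k := Nat.log 2 N / 4 with hk
  have h4k : 2 ^ (4 * k) ≤ N := by
    refine le_trans (Nat.pow_le_pow_right (by norm_num) ?_) (Nat.pow_log_le_self 2 (by omega : N ≠ 0))
    omega
  have h4kR : ((4 : ℝ) ^ k) ^ 2 ≤ N := by
    have : ((4 : ℝ) ^ k) ^ 2 = ((2 ^ (4 * k) : ℕ) : ℝ) := by
      push_cast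
      rw [show (4 : ℝ) = 2 ^ 2 by norm_num, ← pow_mul, ← pow_mul]
      congr 1; ring
    rw [this]; exact_mod_cast h4k
  have h4s : (4 : ℝ) ^ k ≤ (N : ℝ) ^ ((1 : ℝ) / 2) := by
    rw [← Real.sqrt_eq_rpow]
    exact Real.le_sqrt_of_sq_le h4kR
  have h2s : (2 : ℝ) ^ k ≤ (N : ℝ) ^ ((1 : ℝ) / 2) :=
    (pow_le_pow_left₀ (by norm_num) (by norm_num) k).trans h4s
  have hd2 : s % 2 = 1 := by rcases hs with rfl | rfl <;> rfl
  have hcount : (#{b ∈ range (2 ^ k) | surv s k (i, B) ((b : ℕ) : ℤ)} : ℝ) ≤ η * 2 ^ k := by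
    have h2 := count_surv hd2 k (i, B)
    rw [← sum_filter, sum_const, nsmul_eq_mul, mul_one] at h2
    have h3 : (#{b ∈ range (2 ^ k) | surv s k (i, B) ((b : ℕ) : ℤ)} : ℝ) = 2 ^ k * q step (0, 0) k (i, B) := by
      rw [← h2]
    rw [h3, mul_comm]
    exact mul_le_mul_of_nonneg_right hq (by positivity)
  have f1 := h1 N hNN1 k h2s (fun x => surv s k (i, B) x) (fun x m => surv_periodic hd2 k (i, B) x m) hcount
    h hh0 hh1 hh hm hyp
  have f2 : ∑ n ∈ Icc 1 N, (if ¬ Coal s i B n then h n else 0) ≤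
      ∑ n ∈ Icc 1 N, ((if surv s k (i, B) ((n : ℕ) : ℤ) then h n else 0) + (if n < 4 ^ k then (1 : ℝ) else 0)) := by
    apply sum_le_sum
    intro n _
    have h0 := hh0 n
    have h1' := hh1 n
    by_cases hC : Coal s i B n
    · rw [if_neg (not_not.2 hC)]
      split_ifs <;> linarith
    · rw [if_pos hC]
      by_cases hlt : n < 4 ^ k
      · rw [if_pos hlt]
        split_ifs <;> linarith
      · have hS : surv s k (i, B) ((n : ℕ) : ℤ) := by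
          by_contra hcon
          exact hC (not_surv_coal hs hcon (by omega))
        rw [if_pos hS, if_neg hlt, add_zero]
  have f3 : ∑ n ∈ Icc 1 N, (if n < 4 ^ k then (1 : ℝ) else 0) ≤ (4 : ℝ) ^ k := by
    rw [← sum_filter, sum_const, nsmul_eq_mul, mul_one]
    have : #((Icc 1 N).filter (fun n => n < 4 ^ k)) ≤ 4 ^ k := by
      calc #((Icc 1 N).filter (fun n => n < 4 ^ k)) ≤ #(range (4 ^ k)) := by
            apply card_le_card
            intro n hn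
            rw [mem_filter] at hn
            exact mem_range.2 hn.2
        _ = _ := card_range _
    exact_mod_cast this
  have f4 : (N : ℝ) ^ ((1 : ℝ) / 2) ≤ ε / 2 * ∑ n ∈ Icc 1 N, h n := by
    have h5 := hN2 N hNN2
    have hr0 : (0 : ℝ) < (N : ℝ) ^ ((1 : ℝ) / 2) := by positivity
    rw [div_lt_iff₀ hr0] at h5
    have h6 := hyp N hNx
    have h7 : ∑ p ∈ PN N, h p ≤ ∑ n ∈ Icc 1 N, h n := by
      apply sum_le_sum_of_subset_of_nonneg
      · intro p hp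
        rw [mem_PN] at hp
        rw [mem_Icc]
        exact ⟨hp.2.one_lt.le, hp.1⟩
      · intro n _ _; exact hh0 n
    have h8 : (N : ℝ) ^ ((1 : ℝ) / 2) * (N : ℝ) ^ ((1 : ℝ) / 2) = N := by
      rw [← Real.rpow_add hNp]; norm_num
    have h9 : (N : ℝ) ^ ((1 : ℝ) / 2) ≤ ε / 2 * (c * (N / Real.log N)) := by
      rw [← mul_assoc, ← mul_div_assoc, le_div_iff₀ hlog]
      calc (N : ℝ) ^ ((1 : ℝ) / 2) * Real.log N ≤ (N : ℝ) ^ ((1 : ℝ) / 2) * (ε / 2 * c * (N : ℝ) ^ ((1 : ℝ) / 2)) :=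
            mul_le_mul_of_nonneg_left h5.le hr0.le
        _ = ε / 2 * c * ((N : ℝ) ^ ((1 : ℝ) / 2) * (N : ℝ) ^ ((1 : ℝ) / 2)) := by ring
        _ = _ := by rw [h8]
    refine h9.trans ?_
    apply mul_le_mul_of_nonneg_left (h6.trans h7) (by positivity)
  rw [sum_add_distrib] at f2
  have : ε * ∑ n ∈ Icc 1 N, h n = ε / 2 * ∑ n ∈ Icc 1 N, h n + ε / 2 * ∑ n ∈ Icc 1 N, h n := by ring
  linarith

theorem log_large (k0 : ℕ) {N : ℕ} (hN : 2 ^ (4 * k0) ≤ N) : k0 ≤ Nat.log 2 N / 4 := by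
  have h1 : 4 * k0 ≤ Nat.log 2 N := by
    apply Nat.le_log_of_pow_le (by norm_num) hN
  omega

/-- coalescence for relatively almost all integers -/
theorem coal_fix {s : ℤ} (hs : s = 1 ∨ s = -1) (i : ℕ) (B : ℤ) : Negl (fun n => ¬ Coal s i B n) := by
  intro c hc x0 ε hε
  obtain ⟨η, N1, hη, h1⟩ := coal_core hc x0 hε
  obtain ⟨k0, hk0⟩ := eventually_atTop.1 ((q_lim (i, B)).eventually_lt_const hη)
  refine ⟨max N1 (2 ^ (4 * k0)), fun N hN h hh0 hh1 hh hm hyp => ?_⟩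
  have h2 := h1 N ((le_max_left _ _).trans hN) s hs i B
    (hk0 _ (log_large k0 ((le_max_right _ _).trans hN))).le h hh0 hh1 hh hm hyp
  convert h2

/-- coalescence with shifts of size `N ^ θ` -/
theorem coal_unif {c : ℝ} (hc : 0 < c) (x0 : ℕ) {ε : ℝ} (hε : 0 < ε) :
    ∃ (θ : ℝ) (N0 : ℕ), 0 < θ ∧ ∀ N : ℕ, N0 ≤ N → ∀ s : ℤ, s = 1 ∨ s = -1 → ∀ B : ℤ, |(B : ℝ)| ≤ (N : ℝ) ^ θ →
    ∀ h : ℕ → ℝ, (∀ n, 0 ≤ h n) → (∀ n, h n ≤ 1) → h 1 = 1 →
    (∀ m n : ℕ, Nat.Coprime m n → h (m * n) = h m * h n) → HypD c x0 h →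
    ∑ n ∈ Icc 1 N, (if ¬ Coal s 0 B n then h n else 0) ≤ ε * ∑ n ∈ Icc 1 N, h n := by
  obtain ⟨η, N1, hη, h1⟩ := coal_core hc x0 hε
  obtain ⟨θ, hθ, k0, hk0⟩ := q_quant (ε := min η 1) (lt_min hη one_pos) (min_le_right _ _)
  refine ⟨θ / 8, max N1 (2 ^ (4 * (k0 + 1))), by positivity, fun N hN s hs B hB h hh0 hh1 hh hm hyp => ?_⟩
  have hk := log_large (k0 + 1) ((le_max_right _ _).trans hN)
  set k := Nat.log 2 N / 4 with hkdef
  refine h1 N ((le_max_left _ _).trans hN) s hs 0 B ((hk0 k (by omega) B ?_).trans (min_le_left _ _)) h hh0 hh1 hh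
    hm hyp
  refine hB.trans ?_
  have hNlt : N < 2 ^ (4 * k + 4) := by
    have h2 : N < 2 ^ (Nat.log 2 N + 1) := Nat.lt_pow_succ_log_self (by norm_num) N
    refine h2.trans_le (Nat.pow_le_pow_right (by norm_num) ?_)
    omega
  have hNR : (N : ℝ) ≤ (2 : ℝ) ^ ((4 * k + 4 : ℕ) : ℝ) := by
    rw [Real.rpow_natCast]
    exact_mod_cast hNlt.le
  have hkR : (1 : ℝ) ≤ k := by exact_mod_cast (by omega : 1 ≤ k)
  calc (N : ℝ) ^ (θ / 8) ≤ ((2 : ℝ) ^ ((4 * k + 4 : ℕ) : ℝ)) ^ (θ / 8) :=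
        Real.rpow_le_rpow (Nat.cast_nonneg _) hNR (by positivity)
    _ = (2 : ℝ) ^ (((4 * k + 4 : ℕ) : ℝ) * (θ / 8)) := by rw [← Real.rpow_mul (by norm_num)]
    _ ≤ (2 : ℝ) ^ (θ * k) := by
        apply Real.rpow_le_rpow_of_exponent_le (by norm_num)
        push_cast
        nlinarith

/-- most shifts, for relatively most integers -/
theorem coal_most {c : ℝ} (hc : 0 < c) (x0 : ℕ) {ε : ℝ} (hε : 0 < ε) :
    ∃ (θ : ℝ) (N0 : ℕ), 0 < θ ∧ ∀ N : ℕ, N0 ≤ N → ∀ s : ℤ, s = 1 ∨ s = -1 → ∀ L : ℕ, (L : ℝ) ≤ (N : ℝ) ^ θ →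
    ∀ h : ℕ → ℝ, (∀ n, 0 ≤ h n) → (∀ n, h n ≤ 1) → h 1 = 1 →
    (∀ m n : ℕ, Nat.Coprime m n → h (m * n) = h m * h n) → HypD c x0 h →
    ∑ n ∈ Icc 1 N, (if ε * (2 * L + 1) < (#{B ∈ Icc (-(L : ℤ)) L | ¬ Coal s 0 B n} : ℝ) then h n else 0) ≤
      ε * ∑ n ∈ Icc 1 N, h n := by
  obtain ⟨θ, N0, hθ, h1⟩ := coal_unif hc x0 (show 0 < ε * ε by positivity)
  refine ⟨θ, N0, hθ, fun N hN s hs L hL h hh0 hh1 hh hm hyp => ?_⟩
  have hL0 : (0 : ℝ) < 2 * L + 1 := by positivity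
  have hcard : (#(Icc (-(L : ℤ)) L) : ℝ) = 2 * L + 1 := by
    rw [Int.card_Icc]
    have : ((L : ℤ) + 1 - -(L : ℤ)).toNat = 2 * L + 1 := by omega
    rw [this]; push_cast; ring
  have e1 : ∑ n ∈ Icc 1 N, h n * (#{B ∈ Icc (-(L : ℤ)) L | ¬ Coal s 0 B n} : ℝ) =
      ∑ B ∈ Icc (-(L : ℤ)) L, ∑ n ∈ Icc 1 N, (if ¬ Coal s 0 B n then h n else 0) := by
    rw [sum_comm]
    apply sum_congr rfl
    intro n _
    rw [← sum_filter, sum_const, nsmul_eq_mul, mul_comm]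
  have e2 : ∑ B ∈ Icc (-(L : ℤ)) L, ∑ n ∈ Icc 1 N, (if ¬ Coal s 0 B n then h n else 0) ≤
      (2 * L + 1) * (ε * ε * ∑ n ∈ Icc 1 N, h n) := by
    have h2 : ∀ B ∈ Icc (-(L : ℤ)) L, ∑ n ∈ Icc 1 N, (if ¬ Coal s 0 B n then h n else 0) ≤
        ε * ε * ∑ n ∈ Icc 1 N, h n := by
      intro B hB
      rw [mem_Icc] at hB
      refine h1 N hN s hs B ?_ h hh0 hh1 hh hm hyp
      refine le_trans ?_ hL
      rw [abs_le]
      constructor
      · have := hB.1; exact_mod_cast this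
      · exact_mod_cast hB.2
    refine (sum_le_sum h2).trans (le_of_eq ?_)
    rw [sum_const, nsmul_eq_mul, hcard]
  have e3 : (ε * (2 * L + 1)) * ∑ n ∈ Icc 1 N,
      (if ε * (2 * L + 1) < (#{B ∈ Icc (-(L : ℤ)) L | ¬ Coal s 0 B n} : ℝ) then h n else 0) ≤
      ∑ n ∈ Icc 1 N, h n * (#{B ∈ Icc (-(L : ℤ)) L | ¬ Coal s 0 B n} : ℝ) := by
    rw [mul_sum]
    apply sum_le_sum
    intro n _
    split_ifs with h2
    · rw [mul_comm]
      exact mul_le_mul_of_nonneg_left h2.le (hh0 n)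
    · rw [mul_zero]
      exact mul_nonneg (hh0 n) (Nat.cast_nonneg _)
  rw [e1] at e3
  have e4 := e3.trans e2
  have e5 : (2 * (L : ℝ) + 1) * (ε * ε * ∑ n ∈ Icc 1 N, h n) = (ε * (2 * L + 1)) * (ε * ∑ n ∈ Icc 1 N, h n) := by ring
  rw [e5] at e4
  exact le_of_mul_le_mul_left e4 (by positivity)

end Pool.Agent.Y964.LW
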