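import Pool.Agent.Y964.LW.D1

/-! Sums of multiplicative functions with values in `[0, 1]`, supported on the odd integers, over unions
of residue classes modulo a power of two: a linear upper bound. -/

set_option autoImplicit false

namespace Pool.Agent.Y964.LW

open Finset Filter Topology Pool.Agent.H320R2.PD Pool.Agent.H376R2.MR
  Pool.Agent.W41.FU Pool.Agent.W41 Pool.Agent.W41.MU Pool.Agent.TH926.BL Pool.Agent.Y964.SE
open scoped Classical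

/-- periodic sets: the multiples of an odd `q` -/
theorem per_odd {k : ℕ} {P : ℤ → Prop} (hP : ∀ x m : ℤ, P (x + m * 2 ^ k) ↔ P x) (q : ℕ) (hq : q % 2 = 1) :
    #{b ∈ range (2 ^ k) | P ((q : ℤ) * ((b : ℕ) : ℤ))} ≤ #{b ∈ range (2 ^ k) | P ((b : ℕ) : ℤ)} := by
  refine card_le_card_of_injOn (fun b => (q * b) % 2 ^ k) (fun b hb => ?_) (fun a ha b hb hab => ?_)
  · rw [mem_coe, mem_filter, mem_range] at hb
    rw [mem_coe, mem_filter, mem_range]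
    refine ⟨Nat.mod_lt _ (by positivity), ?_⟩
    have e : (q : ℤ) * (b : ℤ) = (((q * b) % 2 ^ k : ℕ) : ℤ) + (((q * b) / 2 ^ k : ℕ) : ℤ) * 2 ^ k := by
      have h1 := Nat.mod_add_div (q * b) (2 ^ k)
      have h2 : (((q * b) % 2 ^ k + 2 ^ k * ((q * b) / 2 ^ k) : ℕ) : ℤ) = ((q * b : ℕ) : ℤ) := by rw [h1]
      push_cast at h2 ⊢
      linarith
    have h3 := hb.2
    rw [e, hP] at h3
    exact h3
  · rw [mem_coe, mem_filter, mem_range] at ha hb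
    have h1 : q * a ≡ q * b [MOD 2 ^ k] := hab
    have h2 : Nat.gcd (2 ^ k) q = 1 := by
      apply Nat.Coprime.pow_left
      rw [Nat.coprime_two_left]
      exact Nat.odd_iff.2 hq
    have h3 := Nat.ModEq.cancel_left_of_coprime h2 h1
    have h4 : a % 2 ^ k = b % 2 ^ k := h3
    rwa [Nat.mod_eq_of_lt ha.1, Nat.mod_eq_of_lt hb.1] at h4

/-- the sum belonging to one odd squarefull number -/
theorem cls_T' : ∃ K : ℝ, 1 ≤ K ∧ ∃ N0 : ℕ, 2 ≤ N0 ∧ ∀ N : ℕ, N0 ≤ N → ∀ h : ℕ → ℝ, (∀ p, 0 ≤ h p) →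
    (∀ p, h p ≤ 1) → ∀ k : ℕ, (2 : ℝ) ^ k ≤ (N : ℝ) ^ ((1 : ℝ) / 4) →
    ∀ P : ℤ → Prop, (∀ x m : ℤ, P (x + m * 2 ^ k) ↔ P x) → ∀ q : ℕ, 1 ≤ q → q % 2 = 1 → q ^ 2 ≤ N →
    ∑ m ∈ Icc 1 (N / q), (if P ((q * m : ℕ) : ℤ) then hf h m else 0) ≤
      K * (#{b ∈ range (2 ^ k) | P ((b : ℕ) : ℤ)} / 2 ^ k) * (kh h N * N) * (1 / q) := by
  obtain ⟨K, hK, N0, hN0, hcl⟩ := sieve_cls (γ := 1 / 2) (by norm_num) (by norm_num)
  refine ⟨2 * K, by linarith, N0, hN0, fun N hN h h0 h1 k hk P hP q hq hqo hq2 => ?_⟩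
  have hN1 : (1 : ℝ) ≤ N := by exact_mod_cast (by omega : 1 ≤ N)
  have hq0 : (0 : ℝ) < q := by exact_mod_cast hq
  have hqN : q ≤ N := by nlinarith
  set x : ℝ := ((N / q : ℕ) : ℝ) with hx
  have hxN : x ≤ N := by rw [hx]; exact_mod_cast Nat.div_le_self _ _
  have hxq : x ≤ N / q := Nat.cast_div_le
  have hlen : (N : ℝ) ^ (1 / 2 : ℝ) ≤ ((N / q + 1 : ℕ) : ℝ) := by
    have h2 : (q : ℝ) ^ 2 ≤ N := by exact_mod_cast hq2
    have h3 : (q : ℝ) ≤ (N : ℝ) ^ (1 / 2 : ℝ) := by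
      rw [← Real.sqrt_eq_rpow]
      exact Real.le_sqrt_of_sq_le h2
    have h4 : (N : ℝ) ^ (1 / 2 : ℝ) * (N : ℝ) ^ (1 / 2 : ℝ) = N := by
      rw [← Real.rpow_add (by linarith)]; norm_num
    have h5 : (N : ℝ) ^ (1 / 2 : ℝ) ≤ N / q := by
      rw [le_div_iff₀ hq0]
      have h6 : 0 < (N : ℝ) ^ (1 / 2 : ℝ) := by positivity
      nlinarith
    have h6 : (N : ℝ) / q < ((N / q + 1 : ℕ) : ℝ) := by
      rw [div_lt_iff₀ hq0]
      have h7 : N < (N / q + 1) * q := by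
        have := Nat.lt_div_mul_add (a := N) (b := q) (by omega)
        rw [Nat.add_mul, one_mul]; omega
      exact_mod_cast h7
    linarith
  have hL2 : ((N / q + 1 : ℕ) : ℝ) ≤ 2 * (N / q) := by
    have h2 : (1 : ℝ) ≤ N / q := by
      rw [le_div_iff₀ hq0, one_mul]; exact_mod_cast hqN
    push_cast
    linarith
  have e1 : ∑ m ∈ Icc 1 (N / q), (if P ((q * m : ℕ) : ℤ) then hf h m else 0) =
      ∑ A ∈ (PN N).powerset, pw h N A * (#{m ∈ FA {p | p ∈ A} x | P ((q * m : ℕ) : ℤ)} : ℝ) := by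
    have h2 := avg_sum (E := ℝ) h (n := N) (x := x) hxN (fun m => if P ((q * m : ℕ) : ℤ) then (1 : ℝ) else 0)
    simp only [smul_eq_mul, mul_ite, mul_one, mul_zero, hx, Nat.floor_natCast] at h2
    rw [← h2]
    apply sum_congr rfl
    intro A _
    congr 1
    rw [← sum_filter, sum_const, nsmul_eq_mul, mul_one]
  rw [e1]
  have e2 : ∀ A ∈ (PN N).powerset, pw h N A * (#{m ∈ FA {p | p ∈ A} x | P ((q * m : ℕ) : ℤ)} : ℝ) ≤
      2 * K * (#{b ∈ range (2 ^ k) | P ((b : ℕ) : ℤ)} / 2 ^ k) * (N / q) * (pw h N A * kap {p | p ∈ A} N) := by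
    intro A _
    have h3 := hcl N hN {p | p ∈ A} 1 k 0 (N / q + 1) rfl (by
        rw [Nat.cast_one, one_mul]
        refine hk.trans (le_of_eq ?_)
        norm_num)
      hlen (fun z => P ((q : ℤ) * z)) (fun z m => by
        have : (q : ℤ) * (z + m * 2 ^ k) = (q : ℤ) * z + ((q : ℤ) * m) * 2 ^ k := by ring
        show P ((q : ℤ) * (z + m * 2 ^ k)) ↔ P ((q : ℤ) * z)
        rw [this, hP]) (FA {p | p ∈ A} x) (by
      intro m hm
      rw [hx, mem_FA_nat] at hm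
      rw [mem_Ico]
      have := hm.1
      omega) (fun m hm => ⟨m, by rw [hx, mem_FA_nat] at hm; exact hm.2, by rw [one_mul]⟩)
    have h4 : #{m ∈ FA {p | p ∈ A} x | P ((q * m : ℕ) : ℤ)} = #{m ∈ FA {p | p ∈ A} x | P ((q : ℤ) * ((m : ℕ) : ℤ))} := by
      congr 1
    have h5 : (#{b ∈ range (2 ^ k) | P ((q : ℤ) * ((b : ℕ) : ℤ))} : ℝ) ≤ #{b ∈ range (2 ^ k) | P ((b : ℕ) : ℤ)} := by
      exact_mod_cast per_odd hP q hqo
    have hkap := kap_pos {p | p ∈ A} N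
    have h2k : (0 : ℝ) < 2 ^ k := by positivity
    rw [h4]
    refine (mul_le_mul_of_nonneg_left h3 (pw_nonneg h0 h1 N A)).trans ?_
    have h6 : K * kap {p | p ∈ A} N / ((1 : ℕ) : ℝ) * (((N / q + 1 : ℕ) : ℝ) / 2 ^ k) * (#{b ∈ range (2 ^ k) | P ((q : ℤ) * ((b : ℕ) : ℤ))} : ℝ) ≤
        K * kap {p | p ∈ A} N * ((2 * (N / q)) / 2 ^ k) * (#{b ∈ range (2 ^ k) | P ((b : ℕ) : ℤ)}) := by
      rw [Nat.cast_one, div_one]
      apply mul_le_mul _ h5 (by positivity) (by positivity)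
      apply mul_le_mul_of_nonneg_left _ (by positivity)
      exact div_le_div_of_nonneg_right hL2 h2k.le
    refine (mul_le_mul_of_nonneg_left h6 (pw_nonneg h0 h1 N A)).trans (le_of_eq ?_)
    ring
  refine (sum_le_sum e2).trans (le_of_eq ?_)
  rw [← mul_sum, avg_kap]
  ring

/-- THE LINEAR BOUND -/
theorem cls_lin {c : ℝ} (hc : 0 < c) (x0 : ℕ) : ∃ (C : ℝ) (N0 : ℕ), 1 ≤ C ∧ ∀ N : ℕ, N0 ≤ N → ∀ k : ℕ,
    (2 : ℝ) ^ k ≤ (N : ℝ) ^ ((1 : ℝ) / 4) → ∀ P : ℤ → Prop, (∀ x m : ℤ, P (x + m * 2 ^ k) ↔ P x) →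
    ∀ h : ℕ → ℝ, (∀ n, 0 ≤ h n) → (∀ n, h n ≤ 1) → h 1 = 1 →
    (∀ m n : ℕ, Nat.Coprime m n → h (m * n) = h m * h n) → (∀ n, n % 2 = 0 → h n = 0) → HypD c x0 h →
    ∑ n ∈ Icc 1 N, (if P ((n : ℕ) : ℤ) then h n else 0) ≤
      C * (#{b ∈ range (2 ^ k) | P ((b : ℕ) : ℤ)} / 2 ^ k + (N : ℝ) ^ (-(1 / 32) : ℝ)) * ∑ n ∈ Icc 1 N, h n := by
  obtain ⟨K, hK, N1, hN1, hT⟩ := cls_T'
  obtain ⟨Cs, hCs, hsf⟩ := sf_tail
  obtain ⟨c4, hc4, N4, hN42, hlow⟩ := sum_low hc x0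
  obtain ⟨Cm, hCm, hkl⟩ := kh_lower
  have tn := tendsto_natCast_atTop_atTop (R := ℝ)
  have tl : Tendsto (fun N : ℕ => 2 * Cs * Cm * (Real.log N * (N : ℝ) ^ (-(1 / 32) : ℝ))) atTop (𝓝 0) := by
    have h1 : Tendsto (fun x : ℝ => Real.log x / x ^ (1 / 32 : ℝ)) atTop (𝓝 0) :=
      (isLittleO_log_rpow_atTop (by norm_num)).tendsto_div_nhds_zero
    have h2 := (h1.comp tn).const_mul (2 * Cs * Cm)
    rw [mul_zero] at h2
    refine h2.congr' ?_
    filter_upwards [eventually_ge_atTop 1] with N hN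
    simp only [Function.comp]
    rw [Real.rpow_neg (Nat.cast_nonneg _), ← div_eq_mul_inv]
  obtain ⟨N2, hN2⟩ := eventually_atTop.1 (tl.eventually_lt_const one_pos)
  set C : ℝ := max 1 ((K * (1 + Cs) + 1) / c4) with hC
  refine ⟨C, max (max N1 N2) (max N4 4), le_max_left _ _, fun N hN k hk P hP h hh0 hh1 hh hm hodd hyp => ?_⟩
  have hNN1 : N1 ≤ N := by omega
  have hNN2 : N2 ≤ N := by omega
  have hNN4 : N4 ≤ N := by omega
  have hN4' : 4 ≤ N := by omega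
  clear hN
  have hNp : (0 : ℝ) < N := by exact_mod_cast (by omega : 0 < N)
  have hN1' : (1 : ℝ) ≤ N := by exact_mod_cast (by omega : 1 ≤ N)
  have hlog : 0 < Real.log N := Real.log_pos (by exact_mod_cast (by omega : 1 < N))
  have hk0 := kh_pos hh0 hh1 N
  set ρ : ℝ := (#{b ∈ range (2 ^ k) | P ((b : ℕ) : ℤ)} : ℝ) / 2 ^ k with hρ
  have hρ0 : 0 ≤ ρ := by positivity
  set U : ℕ → ℝ := fun q => ∑ m ∈ (Icc 1 (N / q)).filter (fun m => Squarefree m ∧ Nat.Coprime q m),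
    (if P ((q * m : ℕ) : ℤ) then h (q * m) else 0) with hU
  have e1 : ∑ n ∈ Icc 1 N, (if P ((n : ℕ) : ℤ) then h n else 0) = ∑ q ∈ (Icc 1 N).filter SFl, U q :=
    decomp N (fun n => if P ((n : ℕ) : ℤ) then h n else 0)
  have hU1 : ∀ q : ℕ, U q ≤ ∑ m ∈ Icc 1 (N / q), (if P ((q * m : ℕ) : ℤ) then hf h m else 0) := by
    intro q
    simp only [hU]
    rw [sum_filter]
    apply sum_le_sum
    intro m _
    split_ifs with h1 h2
    · rw [hm q m h1.2, mul_sqf hh hm h1.1]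
      exact mul_le_of_le_one_left (hf_nonneg hh0 m) (hh1 q)
    · exact le_rfl
    · exact hf_nonneg hh0 m
    · exact le_rfl
  have hU2 : ∀ q : ℕ, q % 2 = 0 → U q = 0 := by
    intro q hq
    simp only [hU]
    apply sum_eq_zero
    intro m _
    split_ifs
    · exact hodd _ (by rw [Nat.mul_mod, hq, zero_mul, Nat.zero_mod])
    · rfl
  set Q1 := Nat.sqrt N with hQ1
  have hQ1a : 1 ≤ Q1 := by
    rw [hQ1, Nat.le_sqrt']
    omega
  -- small
  have s1 : ∑ q ∈ ((Icc 1 N).filter SFl).filter (fun q => q ≤ Q1), U q ≤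
      K * (1 + Cs) * ρ * (kh h N * N) := by
    have h1 : ∀ q ∈ ((Icc 1 N).filter SFl).filter (fun q => q ≤ Q1), U q ≤
        K * ρ * (kh h N * N) * (1 / q) := by
      intro q hq
      rw [mem_filter, mem_filter, mem_Icc] at hq
      by_cases hq2 : q % 2 = 0
      · rw [hU2 q hq2]; positivity
      · refine (hU1 q).trans (hT N hNN1 h hh0 hh1 k hk P hP q hq.1.1.1 (by omega) ?_)
        calc q ^ 2 ≤ Q1 ^ 2 := Nat.pow_le_pow_left hq.2 2
          _ ≤ N := Nat.sqrt_le' N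
    refine (sum_le_sum h1).trans ?_
    rw [← mul_sum]
    have h2 : ∑ q ∈ ((Icc 1 N).filter SFl).filter (fun q => q ≤ Q1), 1 / (q : ℝ) ≤ 1 + Cs := by
      have h3 := hsf 1 N le_rfl
      rw [Nat.cast_one, Real.one_rpow, mul_one] at h3
      have h4 : ((Icc 1 N).filter SFl).filter (fun q => q ≤ Q1) ⊆
          insert 1 ((Icc 1 N).filter (fun q => SFl q ∧ 1 < q)) := by
        intro q hq
        rw [mem_filter, mem_filter, mem_Icc] at hq
        rw [mem_insert, mem_filter, mem_Icc]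
        rcases Nat.lt_or_ge 1 q with h5 | h5
        · exact Or.inr ⟨hq.1.1, hq.1.2, h5⟩
        · exact Or.inl (by omega)
      refine (sum_le_sum_of_subset_of_nonneg h4 (fun _ _ _ => by positivity)).trans ?_
      rw [sum_insert (by simp)]
      simp only [Nat.cast_one, div_one]
      linarith
    calc K * ρ * (kh h N * N) * ∑ q ∈ ((Icc 1 N).filter SFl).filter (fun q => q ≤ Q1), 1 / (q : ℝ)
        ≤ K * ρ * (kh h N * N) * (1 + Cs) := mul_le_mul_of_nonneg_left h2 (by positivity)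
      _ = _ := by ring
  -- large
  have s2 : ∑ q ∈ ((Icc 1 N).filter SFl).filter (fun q => ¬ q ≤ Q1), U q ≤
      (N : ℝ) ^ (-(1 / 32) : ℝ) * (kh h N * N) := by
    have h1 : ∀ q ∈ ((Icc 1 N).filter SFl).filter (fun q => ¬ q ≤ Q1), U q ≤ N * (1 / q) := by
      intro q _
      refine (hU1 q).trans ?_
      have h2 : ∑ m ∈ Icc 1 (N / q), (if P ((q * m : ℕ) : ℤ) then hf h m else 0) ≤ ∑ m ∈ Icc 1 (N / q), (1 : ℝ) := by
        apply sum_le_sum
        intro m _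
        split_ifs
        · exact hf_le_one hh0 hh1 m
        · exact zero_le_one
      refine h2.trans ?_
      rw [sum_const, Nat.card_Icc, Nat.add_sub_cancel, nsmul_eq_mul, mul_one]
      refine (Nat.cast_div_le).trans (le_of_eq ?_)
      ring
    refine (sum_le_sum h1).trans ?_
    rw [← mul_sum]
    have h2 : ∑ q ∈ ((Icc 1 N).filter SFl).filter (fun q => ¬ q ≤ Q1), 1 / (q : ℝ) ≤
        Cs * (Q1 : ℝ) ^ (-(1 / 8) : ℝ) := by
      refine le_trans (le_of_eq ?_) (hsf Q1 N hQ1a)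
      rw [filter_filter]
      simp only [not_le]
    have h3 : (Q1 : ℝ) ^ (-(1 / 8) : ℝ) ≤ 2 * (N : ℝ) ^ (-(1 / 16) : ℝ) := by
      have h4 : N < (Q1 + 1) ^ 2 := Nat.lt_succ_sqrt' _
      have h5 : (N : ℝ) ^ (1 / 2 : ℝ) ≤ 2 * Q1 := by
        rw [← Real.sqrt_eq_rpow]
        apply Real.sqrt_le_iff.2
        refine ⟨by positivity, ?_⟩
        have h6 : (N : ℝ) < ((Q1 : ℝ) + 1) ^ 2 := by exact_mod_cast h4
        have h7 : (1 : ℝ) ≤ Q1 := by exact_mod_cast hQ1a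
        nlinarith
      have h6 : (2 * (Q1 : ℝ)) ^ (-(1 / 8) : ℝ) ≤ ((N : ℝ) ^ (1 / 2 : ℝ)) ^ (-(1 / 8) : ℝ) :=
        Real.rpow_le_rpow_of_nonpos (by positivity) h5 (by norm_num)
      rw [← Real.rpow_mul hNp.le, Real.mul_rpow (by norm_num) (Nat.cast_nonneg _)] at h6
      have h7 : (1 / 2 : ℝ) * -(1 / 8) = -(1 / 16) := by norm_num
      rw [h7] at h6
      have h8 : (1 : ℝ) / 2 ≤ (2 : ℝ) ^ (-(1 / 8) : ℝ) := by
        have h9 : (2 : ℝ) ^ (-1 : ℝ) ≤ (2 : ℝ) ^ (-(1 / 8) : ℝ) :=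
          Real.rpow_le_rpow_of_exponent_le (by norm_num) (by norm_num)
        rw [Real.rpow_neg_one] at h9
        linarith
      have h9 : 0 ≤ (Q1 : ℝ) ^ (-(1 / 8) : ℝ) := by positivity
      nlinarith
    have h4 := hN2 N hNN2
    have h5 := hkl h hh0 hh1 N (by omega)
    have h6 : 2 * Cs * (N : ℝ) ^ (-(1 / 16) : ℝ) ≤ (N : ℝ) ^ (-(1 / 32) : ℝ) * kh h N := by
      have e : (N : ℝ) ^ (-(1 / 16) : ℝ) = (N : ℝ) ^ (-(1 / 32) : ℝ) * (N : ℝ) ^ (-(1 / 32) : ℝ) := by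
        rw [← Real.rpow_add hNp]; norm_num
      have h7 : 2 * Cs * (N : ℝ) ^ (-(1 / 32) : ℝ) ≤ 1 * kh h N := by
        have h8 : 2 * Cs * (N : ℝ) ^ (-(1 / 32) : ℝ) = (2 * Cs * Cm * (Real.log N * (N : ℝ) ^ (-(1 / 32) : ℝ))) *
            (1 / (Cm * Real.log N)) := by
          have : Cm ≠ 0 := by linarith
          field_simp
        rw [h8]
        exact mul_le_mul h4.le h5 (by positivity) zero_le_one
      rw [e]
      have h9 : 0 < (N : ℝ) ^ (-(1 / 32) : ℝ) := by positivity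
      nlinarith
    calc (N : ℝ) * ∑ q ∈ ((Icc 1 N).filter SFl).filter (fun q => ¬ q ≤ Q1), 1 / (q : ℝ)
        ≤ N * (2 * Cs * (N : ℝ) ^ (-(1 / 16) : ℝ)) := by
          apply mul_le_mul_of_nonneg_left _ hNp.le
          refine h2.trans ?_
          calc Cs * (Q1 : ℝ) ^ (-(1 / 8) : ℝ) ≤ Cs * (2 * (N : ℝ) ^ (-(1 / 16) : ℝ)) :=
                mul_le_mul_of_nonneg_left h3 (by linarith)
            _ = _ := by ring
      _ ≤ N * ((N : ℝ) ^ (-(1 / 32) : ℝ) * kh h N) := mul_le_mul_of_nonneg_left h6 hNp.le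
      _ = _ := by ring
  rw [e1, ← sum_filter_add_sum_filter_not ((Icc 1 N).filter SFl) (fun q => q ≤ Q1)]
  have h9 := hlow h hh0 hh1 hh hm hyp N hNN4
  have hkN : 0 ≤ kh h N * N := by positivity
  have hr0 : 0 < (N : ℝ) ^ (-(1 / 32) : ℝ) := by positivity
  have hCc : K * (1 + Cs) + 1 ≤ C * c4 := by
    have : (K * (1 + Cs) + 1) / c4 ≤ C := le_max_right _ _
    rwa [div_le_iff₀ hc4] at this
  have hC0 : 0 < C := lt_of_lt_of_le one_pos (le_max_left _ _)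
  calc ∑ q ∈ ((Icc 1 N).filter SFl).filter (fun q => q ≤ Q1), U q +
        ∑ q ∈ ((Icc 1 N).filter SFl).filter (fun q => ¬ q ≤ Q1), U q
      ≤ K * (1 + Cs) * ρ * (kh h N * N) + (N : ℝ) ^ (-(1 / 32) : ℝ) * (kh h N * N) := add_le_add s1 s2
    _ ≤ (K * (1 + Cs) + 1) * (ρ + (N : ℝ) ^ (-(1 / 32) : ℝ)) * (kh h N * N) := by
        have h10 : K * (1 + Cs) * ρ + (N : ℝ) ^ (-(1 / 32) : ℝ) ≤
            (K * (1 + Cs) + 1) * (ρ + (N : ℝ) ^ (-(1 / 32) : ℝ)) := by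
          have h11 : 0 ≤ K * (1 + Cs) := by positivity
          nlinarith
        calc K * (1 + Cs) * ρ * (kh h N * N) + (N : ℝ) ^ (-(1 / 32) : ℝ) * (kh h N * N)
            = (K * (1 + Cs) * ρ + (N : ℝ) ^ (-(1 / 32) : ℝ)) * (kh h N * N) := by ring
          _ ≤ _ := mul_le_mul_of_nonneg_right h10 hkN
    _ ≤ (C * c4) * (ρ + (N : ℝ) ^ (-(1 / 32) : ℝ)) * (kh h N * N) := by
        apply mul_le_mul_of_nonneg_right _ hkN
        exact mul_le_mul_of_nonneg_right hCc (by positivity)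
    _ = C * (ρ + (N : ℝ) ^ (-(1 / 32) : ℝ)) * (c4 * (kh h N * N)) := by ring
    _ ≤ _ := mul_le_mul_of_nonneg_left h9 (by positivity)

end Pool.Agent.Y964.LW
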