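import Pool.Agent.TH926.PX.Main
import Pool.Agent.Y964.LW.E1

/-! Excursions of the elements of multiplicative sets of odd integers. -/

set_option autoImplicit false

namespace Pool.Agent.Y964.LW

open Finset Filter Topology Pool.Agent.Helper894.Collatz Pool.Agent.H828R3.Exc Pool.Agent.W36.SL
  Pool.Agent.TH926.PX
open Pool.Agent.H319R2.Lln (mu mu_lower)
open Pool.Agent.Y964.SE (HypD)
open Pool.Agent.Y964.SE (PN mem_PN)
open scoped Classical

/-- multiplicative weights on the odd integers with many primes -/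
structure Wt (c : ℝ) (x0 : ℕ) (h : ℕ → ℝ) : Prop where
  nn : ∀ n, 0 ≤ h n
  le1 : ∀ n, h n ≤ 1
  one : h 1 = 1
  mul : ∀ m n : ℕ, Nat.Coprime m n → h (m * n) = h m * h n
  odd : ∀ n, n % 2 = 0 → h n = 0
  hyp : HypD c x0 h

/-- the weight of the integers up to `N` with the property `P` -/
noncomputable def SS (h : ℕ → ℝ) (N : ℕ) (P : ℕ → Prop) : ℝ := ∑ n ∈ Icc 1 N, (if P n then h n else 0)

/-- the total weight -/
noncomputable def TT (h : ℕ → ℝ) (N : ℕ) : ℝ := ∑ n ∈ Icc 1 N, h n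

theorem SS_nonneg {h : ℕ → ℝ} (h0 : ∀ n, 0 ≤ h n) (N : ℕ) (P : ℕ → Prop) : 0 ≤ SS h N P := by
  unfold SS
  apply sum_nonneg
  intro n _
  split_ifs
  · exact h0 n
  · exact le_rfl

theorem TT_nonneg {h : ℕ → ℝ} (h0 : ∀ n, 0 ≤ h n) (N : ℕ) : 0 ≤ TT h N := sum_nonneg fun n _ => h0 n

theorem SS_le_TT {h : ℕ → ℝ} (h0 : ∀ n, 0 ≤ h n) (N : ℕ) (P : ℕ → Prop) : SS h N P ≤ TT h N := by
  unfold SS TT
  apply sum_le_sum
  intro n _
  split_ifs
  · exact le_rfl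
  · exact h0 n

theorem SS_mono {h : ℕ → ℝ} (h0 : ∀ n, 0 ≤ h n) {N : ℕ} {P Q : ℕ → Prop}
    (H : ∀ n, 1 ≤ n → n ≤ N → P n → Q n) : SS h N P ≤ SS h N Q := by
  unfold SS
  apply sum_le_sum
  intro n hn
  rw [mem_Icc] at hn
  by_cases h1 : P n
  · rw [if_pos h1, if_pos (H n hn.1 hn.2 h1)]
  · rw [if_neg h1]
    split_ifs
    · exact h0 n
    · exact le_rfl

theorem SS_or {h : ℕ → ℝ} (h0 : ∀ n, 0 ≤ h n) {N : ℕ} {P Q R : ℕ → Prop}
    (H : ∀ n, 1 ≤ n → n ≤ N → P n → Q n ∨ R n) : SS h N P ≤ SS h N Q + SS h N R := by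
  unfold SS
  rw [← sum_add_distrib]
  apply sum_le_sum
  intro n hn
  rw [mem_Icc] at hn
  have h1 := h0 n
  by_cases h2 : P n
  · rw [if_pos h2]
    rcases H n hn.1 hn.2 h2 with h3 | h3
    · rw [if_pos h3]; split_ifs <;> linarith
    · rw [if_pos h3]; split_ifs <;> linarith
  · rw [if_neg h2]
    split_ifs <;> linarith

theorem SS_card {h : ℕ → ℝ} (h1 : ∀ n, h n ≤ 1) (N : ℕ) (P : ℕ → Prop) :
    SS h N P ≤ (((Icc 1 N).filter P).card : ℝ) := by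
  unfold SS
  rw [← sum_filter]
  refine (sum_le_sum fun n _ => h1 n).trans ?_
  rw [sum_const, nsmul_eq_mul, mul_one]

theorem TT_low {c : ℝ} {x0 : ℕ} {h : ℕ → ℝ} (w : Wt c x0 h) {N : ℕ} (hN : x0 ≤ N) :
    c * (N / Real.log N) ≤ TT h N := by
  refine (w.hyp N hN).trans ?_
  apply sum_le_sum_of_subset_of_nonneg
  · intro p hp
    rw [mem_PN] at hp
    rw [mem_Icc]
    exact ⟨hp.2.one_lt.le, hp.1⟩
  · intro n _ _; exact w.nn n

/-- sets with at most `D N / (log N) ^ (A + 2)` elements -/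
theorem unit_TT (A : ℕ) {c : ℝ} (hc : 0 < c) (x0 : ℕ) (D : ℝ) : ∃ N0 : ℕ, ∀ N : ℕ, N0 ≤ N → ∀ h : ℕ → ℝ,
    Wt c x0 h → D * (N / Real.log N ^ (A + 2)) ≤ 1 / Real.log N ^ A * TT h N := by
  obtain ⟨N1, h1⟩ := log_ge (max 1 (D / c))
  refine ⟨max (max N1 x0) 2, fun N hN h w => ?_⟩
  have hN1 : N1 ≤ N := by omega
  have hNx : x0 ≤ N := by omega
  have hN2 : 2 ≤ N := by omega
  have h2 := h1 N hN1
  have h3 := TT_low w hNx
  set L := Real.log N with hL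
  have hL1 : 1 ≤ L := (le_max_left _ _).trans h2
  have hLD : D / c ≤ L := (le_max_right _ _).trans h2
  have hL0 : 0 < L := by linarith
  have hNR : (0 : ℝ) < N := by exact_mod_cast (by omega : 0 < N)
  rw [div_le_iff₀ hc] at hLD
  calc D * (N / L ^ (A + 2)) ≤ (L * c) * (N / L ^ (A + 2)) := mul_le_mul_of_nonneg_right hLD (by positivity)
    _ = 1 / L ^ A * (c * (N / L)) := by
        rw [pow_add]; field_simp
    _ ≤ 1 / L ^ A * TT h N := mul_le_mul_of_nonneg_left h3 (by positivity)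

/-- the weight of the integers without a regular path -/
theorem nonreg (A : ℕ) {ε : ℝ} (hε : 0 < ε) : ∃ B : ℝ, 2 ≤ B ∧ ∀ c : ℝ, 0 < c → ∀ x0 : ℕ, ∃ N0 : ℕ,
    ∀ N : ℕ, N0 ≤ N → ∀ y : ℝ, Real.log N ^ B ≤ y → ∀ h : ℕ → ℝ, Wt c x0 h →
    SS h N (fun n => ¬ Pr ε y ((N : ℝ) ^ 2) n) ≤ 1 / Real.log N ^ A * TT h N := by
  obtain ⟨c1, C0, hc1, _, hlaw⟩ := Pool.Agent.H828R3.Exc.law hε
  obtain ⟨B, hB, xb, hb⟩ := nonreg_small A (C := C0) hc1
  refine ⟨B, hB, fun c hc x0 => ?_⟩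
  obtain ⟨N1, h1⟩ := unit_TT A hc x0 (|C0| + 1)
  obtain ⟨N2, h2⟩ := log_ge 1
  refine ⟨max (max N1 N2) (max xb 2), fun N hN y hy h w => ?_⟩
  have g1 := h1 N (by omega) h w
  have g2 := h2 N (by omega)
  have g3 := hb N (by omega) y hy
  have hN2 : (2 : ℝ) ≤ N := by exact_mod_cast (by omega : 2 ≤ N)
  have hy1 : 1 ≤ y := le_trans (Real.one_le_rpow g2 (by linarith)) hy
  have g4 := hlaw N y ((N : ℝ) ^ 2) hN2 hy1 (by nlinarith)
  have e : (N : ℝ) ^ 2 / (N : ℝ) ^ 2 = 1 := div_self (by positivity)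
  rw [e] at g4
  have e2 : {n : ℕ | 1 ≤ n ∧ (n : ℝ) ≤ N ∧ ¬ Pr ε y ((N : ℝ) ^ 2) n} =
      (((Icc 1 N).filter (fun n => ¬ Pr ε y ((N : ℝ) ^ 2) n) : Finset ℕ) : Set ℕ) := by
    ext n
    rw [coe_filter]
    simp only [Set.mem_ofPred_eq, mem_Icc, Nat.cast_le]
    tauto
  rw [e2, Set.ncard_coe_finset] at g4
  refine (SS_card w.le1 N _).trans (le_trans (le_of_eq ?_) (g4.trans (g3.trans g1)))
  congr!

theorem exJ4 {X : ℝ} (hX : 16 ≤ X) : ∃ J : ℕ, 1 ≤ J ∧ (2 : ℝ) ^ J ≤ X ^ (1 / 4 : ℝ) ∧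
    X < ((2 : ℝ) ^ (J + 1)) ^ 4 ∧ (J : ℝ) ≤ Real.log X := by
  have hX0 : 0 < X := by linarith
  have hz : (2 : ℝ) ≤ X ^ (1 / 4 : ℝ) := by
    have h1 : (16 : ℝ) ^ (1 / 4 : ℝ) ≤ X ^ (1 / 4 : ℝ) := Real.rpow_le_rpow (by norm_num) hX (by norm_num)
    have h2 : (16 : ℝ) ^ (1 / 4 : ℝ) = 2 := by
      rw [show (16 : ℝ) = 2 ^ (4 : ℝ) by norm_num, ← Real.rpow_mul (by norm_num)]; norm_num
    linarith
  obtain ⟨J, h1, h2⟩ := near (show (1 : ℝ) ≤ X ^ (1 / 4 : ℝ) by linarith)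
  refine ⟨J, ?_, h1, ?_, ?_⟩
  · by_contra h
    have : J = 0 := by omega
    subst this
    norm_num at h2
    linarith
  · have h3 : X = (X ^ (1 / 4 : ℝ)) ^ 4 := by
      rw [← Real.rpow_natCast, ← Real.rpow_mul hX0.le]; norm_num
    calc X = (X ^ (1 / 4 : ℝ)) ^ 4 := h3
      _ < _ := pow_lt_pow_left₀ h2 (by linarith) (by norm_num)
  · have h3 := log_bound (by linarith) h1
    rw [Real.log_rpow hX0] at h3
    have h4 : 0 ≤ Real.log X := Real.log_nonneg (by linarith)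
    linarith

/-- an excursion of a regular `n` is visible in the first quarter of the digits -/
theorem exc_imp4 {X y V lam : ℝ} {J n : ℕ} (hy : 0 < y) (hlam : 1 ≤ lam) (hn0 : 0 < n)
    (hnX : (n : ℝ) ≤ X) (hJ : X < ((2 : ℝ) ^ (J + 1)) ^ 4) (hPr : Pr (1 / 20) y V n)
    (hE : Exc lam y n) : ∃ k ≤ J, lam / (1 + 1 / (3 * y)) ^ J ≤ MM k n := by
  obtain ⟨k, h1, h2⟩ := hE
  have hn : (0 : ℝ) < n := by exact_mod_cast hn0
  have hr : (1 : ℝ) ≤ 1 + 1 / (3 * y) := by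
    have : 0 < 1 / (3 * y) := by positivity
    linarith
  by_cases hk : k ≤ J
  · refine ⟨k, hk, ?_⟩
    have h3 := iter_le hy n k (fun j hj => (h2 j hj.le).le)
    have h4 : (1 + 1 / (3 * y)) ^ k ≤ (1 + 1 / (3 * y)) ^ J := pow_le_pow_right₀ hr hk
    rw [div_le_iff₀ (by positivity)]
    have hM := MM_pos k n
    have h5 : lam * n < MM k n * n * (1 + 1 / (3 * y)) ^ J := by
      refine lt_of_lt_of_le h1 (h3.trans ?_)
      apply mul_le_mul_of_nonneg_left h4 (by positivity)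
    have h6 : lam * n < MM k n * (1 + 1 / (3 * y)) ^ J * n := by linarith
    exact (lt_of_mul_lt_mul_right h6 hn.le).le
  · exfalso
    push Not at hk
    obtain ⟨m, hm1, hm2⟩ := hPr
    have hkm : k ≤ m := by
      by_contra h
      push Not at h
      exact absurd hm1 (not_le.2 (h2 m h.le))
    have h3 := (abs_le.1 (hm2 k hkm).1).2
    have h4 : Real.log n ≤ Real.log (T^[k] n : ℕ) := by
      apply Real.log_le_log hn
      have : (n : ℝ) ≤ lam * n := le_mul_of_one_le_left hn.le hlam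
      linarith
    have h5 : Real.log n ≤ Real.log X := Real.log_le_log hn hnX
    have h6 : Real.log X ≤ 4 * ((J : ℝ) + 1) * Real.log 2 := by
      have h7 : Real.log X ≤ Real.log (((2 : ℝ) ^ (J + 1)) ^ 4) :=
        Real.log_le_log (lt_of_lt_of_le hn hnX) hJ.le
      rw [Real.log_pow, Real.log_pow] at h7
      push_cast at h7
      linarith
    have h7 := mu_lower
    have hl2 : 0 < Real.log 2 := Real.log_pos (by norm_num)
    have h8 : ((J : ℝ) + 1) ≤ k := by exact_mod_cast hk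
    have h9 : (0 : ℝ) < (J : ℝ) + 1 := by positivity
    have h10 : 7 / 34 * Real.log 2 * ((J : ℝ) + 1) ≤ mu * k :=
      mul_le_mul h7 h8 h9.le (by linarith [mul_pos (show (0:ℝ) < 7/34 by norm_num) hl2])
    nlinarith [mul_pos h9 hl2]

theorem toNat_mod (n J : ℕ) : (((n : ℕ) : ℤ) % 2 ^ J).toNat = n % 2 ^ J := by
  have : (((n : ℕ) : ℤ) % 2 ^ J) = ((n % 2 ^ J : ℕ) : ℤ) := by push_cast; rfl
  rw [this, Int.toNat_natCast]

theorem late_count {K J : ℕ} {mu : ℝ} (hmu : 0 < mu) :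
    (((range (2 ^ J)).filter (fun a => ∃ k, K < k ∧ k ≤ J ∧ mu ≤ MM k a)).card : ℝ) ≤
      2 ^ J * (60 * (b ^ (K + 1) / Real.sqrt mu)) := by
  have hs : 0 < Real.sqrt mu := Real.sqrt_pos.2 hmu
  have h4 : ((range (2 ^ J)).filter (fun a => ∃ k, K < k ∧ k ≤ J ∧ mu ≤ MM k a)) ⊆
      (Ioc K J).biUnion (fun k => (range (2 ^ J)).filter (fun n => mu ≤ MM k n)) := by
    intro a ha
    rw [mem_filter] at ha
    obtain ⟨h5, k, h6, h7, h8⟩ := ha
    rw [mem_biUnion]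
    exact ⟨k, mem_Ioc.2 ⟨h6, h7⟩, mem_filter.2 ⟨h5, h8⟩⟩
  calc (((range (2 ^ J)).filter (fun a => ∃ k, K < k ∧ k ≤ J ∧ mu ≤ MM k a)).card : ℝ)
      ≤ (((Ioc K J).biUnion (fun k => (range (2 ^ J)).filter (fun n => mu ≤ MM k n))).card : ℝ) := by
        exact_mod_cast card_le_card h4
    _ ≤ ∑ k ∈ Ioc K J, (((range (2 ^ J)).filter (fun n => mu ≤ MM k n)).card : ℝ) := by
        exact_mod_cast card_biUnion_le
    _ ≤ ∑ k ∈ Ioc K J, 2 * 2 ^ J * (b ^ k / Real.sqrt mu) := by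
        apply sum_le_sum
        intro k hk
        rw [mem_Ioc] at hk
        refine (card_MM_N k (2 ^ J) hmu).trans ?_
        have h9 : (2 : ℝ) ^ k ≤ 2 ^ J := pow_le_pow_right₀ (by norm_num) hk.2
        have h10 : 0 < b ^ k := pow_pos b_pos k
        apply mul_le_mul_of_nonneg_right _ (by positivity)
        push_cast
        linarith
    _ = 2 * 2 ^ J / Real.sqrt mu * ∑ k ∈ Ioc K J, b ^ k := by
        rw [mul_sum]
        apply sum_congr rfl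
        intro k _
        ring
    _ ≤ 2 * 2 ^ J / Real.sqrt mu * (30 * b ^ (K + 1)) :=
        mul_le_mul_of_nonneg_left (sum_b K J) (by positivity)
    _ = _ := by ring

/-- the two class estimates -/
theorem cls_two {c : ℝ} (hc : 0 < c) (x0 : ℕ) : ∃ (C : ℝ) (N0 : ℕ), 1 ≤ C ∧ ∀ N : ℕ, N0 ≤ N → ∀ J : ℕ,
    (2 : ℝ) ^ J ≤ (N : ℝ) ^ ((1 : ℝ) / 4) → ∀ h : ℕ → ℝ, Wt c x0 h → ∀ mu' : ℝ, 0 < mu' →
    SS h N (PP mu' J) ≤ C * (1 / mu' + (N : ℝ) ^ (-(1 / 32) : ℝ)) * TT h N ∧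
    ∀ K : ℕ, SS h N (fun n => ∃ k, K < k ∧ k ≤ J ∧ mu' ≤ MM k n) ≤
      C * (60 * (b ^ (K + 1) / Real.sqrt mu') + (N : ℝ) ^ (-(1 / 32) : ℝ)) * TT h N := by
  obtain ⟨C, N0, hC, h1⟩ := cls_lin hc x0
  refine ⟨C, N0, hC, fun N hN J hJ h w mu' hmu => ?_⟩
  have hT := TT_nonneg w.nn N
  have h2J : (0 : ℝ) < 2 ^ J := by positivity
  constructor
  · have h2 := h1 N hN J hJ (fun z : ℤ => PP mu' J (z % 2 ^ J).toNat) (fun x m => by
      rw [Int.add_mul_emod_self_right]) h w.nn w.le1 w.one w.mul w.odd w.hyp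
    simp only [toNat_mod, PP_mod] at h2
    refine h2.trans ?_
    apply mul_le_mul_of_nonneg_right _ hT
    apply mul_le_mul_of_nonneg_left _ (by linarith)
    have h3 := card_PP J mu'
    have h4 := s_ge J mu' hmu
    rw [h3]
    have e : 2 ^ J * (1 - s J mu') / 2 ^ J = 1 - s J mu' := by field_simp
    rw [e]
    linarith
  · intro K
    have h2 := h1 N hN J hJ (fun z : ℤ => ∃ k, K < k ∧ k ≤ J ∧ mu' ≤ MM k (z % 2 ^ J).toNat) (fun x m => by
      rw [Int.add_mul_emod_self_right]) h w.nn w.le1 w.one w.mul w.odd w.hyp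
    simp only [toNat_mod] at h2
    have e1 : ∀ n : ℕ, (∃ k, K < k ∧ k ≤ J ∧ mu' ≤ MM k (n % 2 ^ J)) ↔ (∃ k, K < k ∧ k ≤ J ∧ mu' ≤ MM k n) := by
      intro n
      refine exists_congr fun k => and_congr_right fun _ => and_congr_right fun h5 => ?_
      rw [MM_mod h5]
    simp only [e1] at h2
    refine h2.trans ?_
    apply mul_le_mul_of_nonneg_right _ hT
    apply mul_le_mul_of_nonneg_left _ (by linarith)
    have h3 := late_count (K := K) (J := J) hmu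
    have h4 : (((range (2 ^ J)).filter (fun a => ∃ k, K < k ∧ k ≤ J ∧ mu' ≤ MM k a)).card : ℝ) / 2 ^ J ≤
        60 * (b ^ (K + 1) / Real.sqrt mu') := by
      rw [div_le_iff₀ h2J]
      linarith
    linarith

/-- excursions: the upper bound and the localisation -/
theorem exc_up {c : ℝ} (hc : 0 < c) (x0 : ℕ) : ∃ (C : ℝ) (N0 : ℕ), 1 ≤ C ∧ ∀ N : ℕ, N0 ≤ N → ∀ y : ℝ,
    Real.log N ^ 2 ≤ y → ∀ h : ℕ → ℝ, Wt c x0 h → ∀ lam : ℝ, 1 ≤ lam →
    SS h N (Exc lam y) ≤ SS h N (fun n => ¬ Pr (1 / 20) y ((N : ℝ) ^ 2) n) +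
      C * (2 / lam + (N : ℝ) ^ (-(1 / 32) : ℝ)) * TT h N ∧
    ∀ (K : ℕ) (δ : ℝ), 2 * lam / δ ≤ Real.log N → 0 < δ →
      (∀ mu' : ℝ, lam - δ < mu' → ∀ n : ℕ, PP mu' K n → PP lam K n) →
      SS h N (fun n => Exc lam y n ∧ ¬ PP lam K n) ≤ SS h N (fun n => ¬ Pr (1 / 20) y ((N : ℝ) ^ 2) n) +
        C * (120 * b ^ (K + 1) + (N : ℝ) ^ (-(1 / 32) : ℝ)) * TT h N := by
  obtain ⟨C, N0, hC, h1⟩ := cls_two hc x0
  obtain ⟨N2, h2⟩ := log_ge 1
  refine ⟨C, max (max N0 N2) 16, hC, fun N hN y hy h w lam hlam => ?_⟩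
  have hL1 := h2 N (by omega)
  have hN16 : (16 : ℝ) ≤ N := by exact_mod_cast (by omega : 16 ≤ N)
  have hL0 : 0 < Real.log N := by linarith
  have hy0 : 0 < y := lt_of_lt_of_le (by positivity) hy
  obtain ⟨J, hJ1, hJ2, hJ3, hJ4⟩ := exJ4 hN16
  have hr : (1 + 1 / (3 * y)) ^ J ≤ 1 + 1 / Real.log N := rJ hL1 hJ4 hy
  have hr1 : 1 ≤ (1 + 1 / (3 * y)) ^ J := by
    apply one_le_pow₀
    have : 0 < 1 / (3 * y) := by positivity
    linarith
  have hLi : 1 / Real.log N ≤ 1 := by rw [div_le_one hL0]; exact hL1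
  have hLi0 : 0 < 1 / Real.log N := by positivity
  set mu' := lam / (1 + 1 / (3 * y)) ^ J with hmu'
  have hm1 : lam / (1 + 1 / Real.log N) ≤ mu' := div_le_div_of_nonneg_left (by linarith) (by linarith) hr
  have hmu2 : lam / 2 ≤ mu' := by
    refine le_trans ?_ hm1
    apply div_le_div_of_nonneg_left (by linarith) (by linarith) (by linarith)
  have hmu0 : 0 < mu' := by linarith
  obtain ⟨g1, g2⟩ := h1 N (by omega) J hJ2 h w mu' hmu0
  have hT := TT_nonneg w.nn N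
  have key : ∀ n, 1 ≤ n → n ≤ N → Exc lam y n → (¬ Pr (1 / 20) y ((N : ℝ) ^ 2) n) ∨ (∃ k ≤ J, mu' ≤ MM k n) := by
    intro n hn1 hn2 hE
    by_cases hreg : Pr (1 / 20) y ((N : ℝ) ^ 2) n
    · right
      exact exc_imp4 hy0 hlam (by omega) (by exact_mod_cast hn2) hJ3 hreg hE
    · exact Or.inl hreg
  constructor
  · refine (SS_or w.nn (Q := fun n => ¬ Pr (1 / 20) y ((N : ℝ) ^ 2) n) (R := PP mu' J) ?_).trans ?_
    · intro n hn1 hn2 hE
      rcases key n hn1 hn2 hE with h3 | ⟨k, hk, h3⟩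
      · exact Or.inl h3
      · exact Or.inr ⟨k, hk, (ge_iff _ _ _).2 h3⟩
    · refine add_le_add le_rfl (g1.trans ?_)
      apply mul_le_mul_of_nonneg_right _ hT
      apply mul_le_mul_of_nonneg_left _ (by linarith)
      have h3 : 1 / mu' ≤ 2 / lam := by
        rw [div_le_div_iff₀ hmu0 (by linarith)]; linarith
      linarith
  · intro K δ hδL hδ hgap
    have hgp : lam - δ < mu' := by
      refine lt_of_lt_of_le ?_ hm1
      rw [lt_div_iff₀ (by linarith)]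
      have h30 : lam * (1 / Real.log N) ≤ δ / 2 := by
        rw [mul_one_div, div_le_iff₀ hL0]
        rw [div_le_iff₀ hδ] at hδL
        linarith
      nlinarith
    refine (SS_or w.nn (Q := fun n => ¬ Pr (1 / 20) y ((N : ℝ) ^ 2) n)
      (R := fun n => ∃ k, K < k ∧ k ≤ J ∧ mu' ≤ MM k n) ?_).trans ?_
    · rintro n hn1 hn2 ⟨hE, hPP⟩
      rcases key n hn1 hn2 hE with h3 | ⟨k, hk, h3⟩
      · exact Or.inl h3
      · right
        refine ⟨k, ?_, hk, h3⟩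
        by_contra hkK
        push Not at hkK
        exact hPP (hgap mu' hgp n ⟨k, hkK, (ge_iff _ _ _).2 h3⟩)
    · refine add_le_add le_rfl ((g2 K).trans ?_)
      apply mul_le_mul_of_nonneg_right _ hT
      apply mul_le_mul_of_nonneg_left _ (by linarith)
      have h14 : 1 / 2 ≤ Real.sqrt mu' := by
        apply Real.le_sqrt_of_sq_le
        norm_num
        linarith
      have hb : 0 < b ^ (K + 1) := pow_pos b_pos _
      have h16 : b ^ (K + 1) / Real.sqrt mu' ≤ 2 * b ^ (K + 1) := by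
        rw [div_le_iff₀ (by linarith)]
        nlinarith
      linarith

theorem pow_log (A : ℕ) : ∃ N0 : ℕ, ∀ N : ℕ, N0 ≤ N → (N : ℝ) ^ (-(1 / 32) : ℝ) ≤ 1 / Real.log N ^ A := by
  obtain ⟨N1, h1⟩ := pow_small A (show (0 : ℝ) < 1 / 32 by norm_num) 1 one_pos
  obtain ⟨N2, h2⟩ := log_ge 1
  refine ⟨max N1 N2, fun N hN => ?_⟩
  have h3 := h1 N (by omega)
  have h4 := h2 N (by omega)
  rw [le_div_iff₀ (by positivity)]
  linarith

/-- THE TAIL -/
theorem exc_tail (A : ℕ) : ∃ B : ℝ, 2 ≤ B ∧ ∀ c : ℝ, 0 < c → ∀ x0 : ℕ, ∃ (C : ℝ) (N0 : ℕ), 0 < C ∧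
    ∀ N : ℕ, N0 ≤ N → ∀ y : ℝ, Real.log N ^ B ≤ y → ∀ lam : ℝ, 1 ≤ lam → lam ≤ Real.log N ^ A →
    ∀ h : ℕ → ℝ, Wt c x0 h → SS h N (Exc lam y) ≤ C / lam * TT h N := by
  obtain ⟨B, hB, hn⟩ := nonreg A (ε := 1 / 20) (by norm_num)
  refine ⟨B, hB, fun c hc x0 => ?_⟩
  obtain ⟨N1, h1⟩ := hn c hc x0
  obtain ⟨C, N2, hC, h2⟩ := exc_up hc x0
  obtain ⟨N3, h3⟩ := pow_log A
  obtain ⟨N4, h4⟩ := log_ge 1
  refine ⟨3 * C + 1, max (max N1 N2) (max N3 N4), by linarith, fun N hN y hy lam hl1 hl2 h w => ?_⟩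
  have g1 := h1 N (by omega) y hy h w
  have g4 := h4 N (by omega)
  have g2 := (h2 N (by omega) y (le_trans (by
    rw [← Real.rpow_natCast]
    exact Real.rpow_le_rpow_of_exponent_le g4 (by exact_mod_cast hB)) hy) h w lam hl1).1
  have g3 := h3 N (by omega)
  have hT := TT_nonneg w.nn N
  have hA : 1 / Real.log N ^ A ≤ 1 / lam := by
    apply one_div_le_one_div_of_le (by linarith) hl2
  refine g2.trans ?_
  have h5 : 1 / Real.log N ^ A * TT h N ≤ 1 / lam * TT h N := mul_le_mul_of_nonneg_right hA hT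
  have h6 : C * (2 / lam + (N : ℝ) ^ (-(1 / 32) : ℝ)) * TT h N ≤ C * (2 / lam + 1 / lam) * TT h N := by
    apply mul_le_mul_of_nonneg_right _ hT
    apply mul_le_mul_of_nonneg_left _ (by linarith)
    linarith
  have h7 : (3 * C + 1) / lam * TT h N = 1 / lam * TT h N + C * (2 / lam + 1 / lam) * TT h N := by ring
  linarith

/-- THE LOCALISATION -/
theorem exc_loc : ∃ B : ℝ, 2 ≤ B ∧ ∀ c : ℝ, 0 < c → ∀ x0 : ℕ, ∃ C : ℝ, 0 < C ∧ ∀ θ : ℝ, θ < 1 →
    ∀ lam : ℝ, 1 < lam → ∀ K : ℕ, ∃ N0 : ℕ, ∀ N : ℕ, N0 ≤ N → ∀ y : ℝ, Real.log N ^ B ≤ y →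
    y ≤ (N : ℝ) ^ θ → ∀ h : ℕ → ℝ, Wt c x0 h →
    SS h N (fun n => ¬ (Exc lam y n ↔ PP lam K n)) ≤ C * b ^ K * TT h N := by
  obtain ⟨B, hB, hn⟩ := nonreg 1 (ε := 1 / 20) (by norm_num)
  refine ⟨B, hB, fun c hc x0 => ?_⟩
  obtain ⟨N1, h1⟩ := hn c hc x0
  obtain ⟨C, N2, hC, h2⟩ := exc_up hc x0
  refine ⟨120 * C + 3, by linarith, fun θ hθ lam hlam K => ?_⟩
  obtain ⟨δ, hδ, hgap⟩ := gap K lam
  have hbK : 0 < b ^ K := pow_pos b_pos K
  obtain ⟨N3, h3⟩ := pow_log 1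
  obtain ⟨N4, h4⟩ := log_ge (max (max 1 (2 * lam / δ)) (max (1 / b ^ K) (C / b ^ K)))
  obtain ⟨N5, h5⟩ := pow_small 3 (show (0 : ℝ) < 1 - θ by linarith) (2 ^ K) (show (0 : ℝ) < 1 by norm_num)
  obtain ⟨N6, h6⟩ := unit_TT 1 hc x0 1
  refine ⟨max (max (max N1 N2) (max N3 N4)) (max (max N5 N6) 1), fun N hN y hy hyθ h w => ?_⟩
  have g4 := h4 N (by omega)
  have gL1 : 1 ≤ Real.log N := (le_max_left _ _).trans ((le_max_left _ _).trans g4)
  have gδ : 2 * lam / δ ≤ Real.log N := (le_max_right _ _).trans ((le_max_left _ _).trans g4)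
  have gb : 1 / b ^ K ≤ Real.log N := (le_max_left _ _).trans ((le_max_right _ _).trans g4)
  have gC : C / b ^ K ≤ Real.log N := (le_max_right _ _).trans ((le_max_right _ _).trans g4)
  have g1 := h1 N (by omega) y hy h w
  have g2 := (h2 N (by omega) y (le_trans (by
    rw [← Real.rpow_natCast]
    exact Real.rpow_le_rpow_of_exponent_le gL1 (by exact_mod_cast hB)) hy) h w lam hlam.le).2 K δ gδ hδ hgap
  have g3 := h3 N (by omega)
  have g5 := h5 N (by omega)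
  have g6 := h6 N (by omega) h w
  have hN0 : (0 : ℝ) < N := by exact_mod_cast (by omega : 0 < N)
  have hT := TT_nonneg w.nn N
  have hL0 : 0 < Real.log N := by linarith
  have hLb : 1 / Real.log N ≤ b ^ K := by
    rw [div_le_iff₀ hL0]
    rw [div_le_iff₀ hbK] at gb
    linarith
  have hLC : C * (1 / Real.log N) ≤ b ^ K := by
    rw [mul_one_div, div_le_iff₀ hL0]
    rw [div_le_iff₀ hbK] at gC
    linarith
  rw [pow_one] at g1 g3 g6
  have hy0 : 0 ≤ y := le_trans (by positivity) hy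
  have hs : SS h N (fun n => ¬ (Exc lam y n ↔ PP lam K n)) ≤
      SS h N (fun n => Exc lam y n ∧ ¬ PP lam K n) + SS h N (fun n : ℕ => (n : ℝ) ≤ 2 ^ K * y) := by
    apply SS_or w.nn
    intro n hn1 hn2 hne
    by_cases hE : Exc lam y n
    · left
      refine ⟨hE, fun hP => hne ⟨fun _ => hP, fun _ => hE⟩⟩
    · right
      by_contra hcon
      push Not at hcon
      exact hne ⟨fun h' => absurd h' hE, fun hP => absurd (exc_of_PP hlam hcon hy0 hP) hE⟩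
  have hsm : SS h N (fun n : ℕ => (n : ℝ) ≤ 2 ^ K * y) ≤ b ^ K * TT h N := by
    have e1 : SS h N (fun n : ℕ => (n : ℝ) ≤ 2 ^ K * y) ≤ 2 ^ K * y := by
      refine (SS_card w.le1 N _).trans ?_
      have e2 : (Icc 1 N).filter (fun n : ℕ => (n : ℝ) ≤ 2 ^ K * y) ⊆ Icc 1 ⌊(2 : ℝ) ^ K * y⌋₊ := by
        intro n hn
        rw [mem_filter, mem_Icc] at hn
        rw [mem_Icc]
        exact ⟨hn.1.1, Nat.le_floor hn.2⟩
      have e3 := card_le_card e2
      rw [Nat.card_Icc, Nat.add_sub_cancel] at e3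
      have e4 : ((⌊(2 : ℝ) ^ K * y⌋₊ : ℕ) : ℝ) ≤ 2 ^ K * y := Nat.floor_le (by positivity)
      exact le_trans (by exact_mod_cast e3) e4
    have e5 : 2 ^ K * y ≤ 1 * (N / Real.log N ^ (1 + 2)) := by
      rw [one_mul, le_div_iff₀ (by positivity)]
      rw [neg_sub, Real.rpow_sub hN0, Real.rpow_one, ← mul_div_assoc, ← mul_div_assoc, div_le_iff₀ hN0, one_mul] at g5
      calc 2 ^ K * y * Real.log N ^ (1 + 2) ≤ 2 ^ K * (N : ℝ) ^ θ * Real.log N ^ (1 + 2) := by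
            apply mul_le_mul_of_nonneg_right _ (by positivity)
            exact mul_le_mul_of_nonneg_left hyθ (by positivity)
        _ = 2 ^ K * (Real.log N ^ 3 * (N : ℝ) ^ θ) := by ring
        _ ≤ N := g5
    refine e1.trans (e5.trans (g6.trans ?_))
    exact mul_le_mul_of_nonneg_right hLb hT
  have e7 : 1 / Real.log N * TT h N ≤ b ^ K * TT h N := mul_le_mul_of_nonneg_right hLb hT
  have e8 : C * (120 * b ^ (K + 1) + (N : ℝ) ^ (-(1 / 32) : ℝ)) * TT h N ≤ (120 * C + 1) * b ^ K * TT h N := by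
    apply mul_le_mul_of_nonneg_right _ hT
    have h9 : b ^ (K + 1) ≤ b ^ K := pow_le_pow_of_le_one b_pos.le b_lt_one.le (by omega)
    have h10 : C * (120 * b ^ (K + 1)) ≤ C * (120 * b ^ K) := mul_le_mul_of_nonneg_left (by linarith) (by linarith)
    have h11 : C * (N : ℝ) ^ (-(1 / 32) : ℝ) ≤ C * (1 / Real.log N) := mul_le_mul_of_nonneg_left g3 (by linarith)
    linarith
  have e9 : (120 * C + 3) * b ^ K * TT h N = b ^ K * TT h N + (120 * C + 1) * b ^ K * TT h N + b ^ K * TT h N := by ring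
  linarith

end Pool.Agent.Y964.LW
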