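import Pool.Agent.Y964.LW.E2
import Pool.Agent.Y964.LW.C9
import Pool.Agent.H499R2.NDWord
import Pool.Agent.H499R2.LT.R6

/-! The late part of the trajectories of the integers with bounded trajectories, for multiplicative
weights. -/

set_option autoImplicit false

namespace Pool.Agent.Y964.LW

open Finset Filter Topology
open Pool.Agent.H499R2.ND (Bdd Bdd_inv Bdd_iter Bdd_density Dn NS NS_inv NS_ncard Tn Tn_eq Td Inv cnt cnt_mono cnt_or)
open Pool.Agent.W26.HN (E exists_E)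
open Pool.Agent.H499R2.LT (Td_nat)
open Pool.Agent.H499R2.HL (bk rr rr_pos)
open Pool.Agent.H828R3.Exc (Pr PP)
open Pool.Agent.H319R2.Lln (mu mu_lower)
open scoped Classical

/-- relative frequencies of invariant properties -/
theorem RL_nat {P : ℕ → Prop} (hP : ∀ n : ℕ, 1 ≤ n → (P n ↔ P (Tn n))) {β : ℝ} (hβ : Dn P β) : RL P β := by
  have h1 : HasD 1 (NS P) β := by
    unfold HasD
    refine hβ.congr fun N => ?_
    rw [NS_ncard]; rfl
  have h2 := RL_inv' (Or.inl rfl) (NS_inv hP) h1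
  refine RL_congr 1 (fun n hn => ?_) h2
  rw [one_mul]
  constructor
  · rintro ⟨_, h⟩
    simpa using h
  · intro h
    exact ⟨by exact_mod_cast hn, by simpa using h⟩

/-- the odd integers up to `y` with bounded trajectories -/
noncomputable def FF (y : ℕ) : Finset ℤ :=
  ((range (y + 1)).filter (fun a => a % 2 = 1 ∧ Bdd a)).image (fun a : ℕ => (a : ℤ))

theorem mem_FF {y : ℕ} {z : ℤ} : z ∈ FF y ↔ ∃ a : ℕ, a ≤ y ∧ a % 2 = 1 ∧ Bdd a ∧ z = a := by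
  unfold FF
  rw [mem_image]
  constructor
  · rintro ⟨a, ha, rfl⟩
    rw [mem_filter, mem_range] at ha
    exact ⟨a, by omega, ha.2.1, ha.2.2, rfl⟩
  · rintro ⟨a, h1, h2, h3, rfl⟩
    exact ⟨a, mem_filter.2 ⟨mem_range.2 (by omega), h2, h3⟩, rfl⟩

theorem FF_odd (y : ℕ) : ∀ z ∈ FF y, z % 2 = 1 := by
  intro z hz
  obtain ⟨a, _, h, _, rfl⟩ := mem_FF.1 hz
  omega

theorem FF_bd (y : ℕ) : ∃ B : ℕ, Bd (FF y) B := by
  have hM : ∀ a : ℕ, ∃ M : ℕ, Bdd a → ∀ k, Tn^[k] a ≤ M := by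
    intro a
    by_cases h : Bdd a
    · obtain ⟨M, hM⟩ := h
      exact ⟨M, fun _ => hM⟩
    · exact ⟨0, fun h' => absurd h' h⟩
  choose M hM using hM
  refine ⟨(range (y + 1)).sup M, fun z hz i => ?_⟩
  obtain ⟨a, h1, _, h3, rfl⟩ := mem_FF.1 hz
  rw [Td_nat, abs_of_nonneg (by positivity)]
  have h4 := hM a h3 i
  have h5 : M a ≤ (range (y + 1)).sup M := Finset.le_sup (f := M) (mem_range.2 (by omega))
  exact_mod_cast h4.trans h5

theorem to_odd : ∀ z : ℕ, 1 ≤ z → ∃ i, (Tn^[i] z) % 2 = 1 ∧ Tn^[i] z ≤ z := by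
  intro z
  induction z using Nat.strong_induction_on with
  | _ z ih =>
    intro hz
    by_cases h : z % 2 = 1
    · exact ⟨0, h, le_rfl⟩
    · have e : Tn z = z / 2 := by
        show (if z % 2 = 0 then z / 2 else (3 * z + 1) / 2) = z / 2
        rw [if_pos (by omega)]
      obtain ⟨i, h1, h2⟩ := ih (z / 2) (by omega) (by omega)
      refine ⟨i + 1, ?_, ?_⟩
      · rw [Function.iterate_succ_apply, e]; exact h1
      · rw [Function.iterate_succ_apply, e]; omega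

theorem Tn_pos (j : ℕ) : ∀ {n : ℕ}, 1 ≤ n → 1 ≤ Tn^[j] n := by
  induction j with
  | zero => intro n hn; exact hn
  | succ j ih =>
    intro n hn
    rw [Function.iterate_succ_apply]
    apply ih
    show 1 ≤ (if n % 2 = 0 then n / 2 else (3 * n + 1) / 2)
    split_ifs <;> omega

/-- most integers with bounded trajectories meet `FF y` -/
theorem FF_most {β : ℝ} (hβ : Dn Bdd β) {ε : ℝ} (hε : 0 < ε) : ∃ y : ℕ, ∀ δ : ℝ,
    Dn (fun n : ℕ => ∃ k : ℕ, E (FF y) k (1 * n)) δ → β - δ ≤ ε := by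
  obtain ⟨y, hy⟩ := Pool.Agent.H499R2.ND.hit (κ := 2 / Real.log (4 / 3) + 1) (by linarith) hε
  refine ⟨y, fun δ hδ => ?_⟩
  have h1 := hβ.sub hδ
  refine le_of_tendsto h1 ?_
  filter_upwards [hy, eventually_ge_atTop 1] with N h2 h3
  have hN : (0 : ℝ) < N := by exact_mod_cast h3
  have h4 : cnt Bdd N ≤ cnt (fun n : ℕ => ∃ k : ℕ, E (FF y) k (1 * n)) N +
      cnt (fun n => ∀ j : ℕ, (j : ℝ) ≤ (2 / Real.log (4 / 3) + 1) * Real.log n → y < Tn^[j] n) N := by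
    apply cnt_or
    intro n hn _ hb
    by_contra hcon
    push Not at hcon
    obtain ⟨hc1, j, _, hj⟩ := hcon
    have hz1 : 1 ≤ Tn^[j] n := Tn_pos j hn
    obtain ⟨i, h5, h6⟩ := to_odd _ hz1
    have h7 : (Td 1)^[i + j] ((1 : ℤ) * n) ∈ FF y := by
      rw [one_mul, Td_nat, mem_FF]
      refine ⟨Tn^[i + j] n, ?_, ?_, (Bdd_iter n (i + j)).1 hb, rfl⟩
      · rw [Function.iterate_add_apply]; omega
      · rw [Function.iterate_add_apply]; exact h5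
    obtain ⟨k, _, hk⟩ := exists_E h7
    exact hc1 k hk
  rw [← sub_div, div_le_iff₀ hN]
  linarith

/-- the entrance into `FF y` at a regular time -/
def AF (y : ℕ) (η : ℝ) (n : ℕ) : Prop :=
  ∃ k : ℕ, E (FF y) k (1 * n) ∧ |(k : ℝ) - 2 / Real.log (4 / 3) * Real.log n| ≤ η * Real.log n

theorem FF_enter_bdd {y k : ℕ} {n : ℕ} (h : E (FF y) k (1 * n)) : Bdd n := by
  have h1 := h.1
  rw [one_mul, Td_nat, mem_FF] at h1
  obtain ⟨a, _, _, h3, h4⟩ := h1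
  have h5 : Tn^[k] n = a := by exact_mod_cast h4
  rw [Bdd_iter n k, h5]
  exact h3

theorem AF_rel {β : ℝ} (hβ : Dn Bdd β) {ε η : ℝ} (hε : 0 < ε) (hη : 0 < η) : ∃ y : ℕ, ∃ l : ℝ, l ≤ ε ∧
    RL (fun n => Bdd n ∧ ¬ AF y η n) l := by
  obtain ⟨y, hy⟩ := FF_most hβ hε
  obtain ⟨B, hB⟩ := FF_bd y
  obtain ⟨δ, _, _, _, hD, hR, _⟩ := rel_entr (s := 1) (Or.inl rfl) (FF_odd y) hB
  obtain ⟨h0, h1, _, hall⟩ := rel_entr_k (s := 1) (Or.inl rfl) (FF_odd y) hB hD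
  have h2 : RL (AF y η) δ := by
    have hrr := rr_pos
    have hl3 : 0 < Real.log 3 := Real.log_pos (by norm_num)
    have h6 := lln2 (P := fun n : ℕ => ∃ k, E (FF y) k (1 * (n : ℤ)))
      (f := fun k n => E (FF y) k (1 * (n : ℤ))) (g := fun k _ => (k : ℝ))
      (α := 2 / Real.log (4 / 3)) (σ := Real.log 3 * rr) (δ := δ) (η := η) (by positivity) h0 h1 hη (fun x => by
        have h7 := ((hall 1 0 0 le_rfl).2.2 x).2
        have e1 : δ / ((1 : ℕ) : ℝ) * Pool.Agent.H499R2.ND.Phi x = δ * Pool.Agent.H499R2.ND.Phi x := by simp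
        rw [e1] at h7
        refine RL_congr 0 (fun n _ => exists_congr fun k => and_congr_right fun _ => ?_) h7
        rw [← bk_thr]
        simp [Int.modEq_one]) hR (fun n h => h)
    exact h6
  refine ⟨y, β - δ, hy δ hD, RL_diff h2 (RL_nat (fun n _ => Bdd_inv n) hβ) (fun n hn => ?_) (fun n => Iff.rfl)⟩
  obtain ⟨k, hk, _⟩ := hn
  exact FF_enter_bdd hk

theorem RL_SS {P : ℕ → Prop} {l : ℝ} (hP : RL P l) {c : ℝ} (hc : 0 < c) (x0 : ℕ) {ε : ℝ} (hε : 0 < ε) :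
    ∃ N0 : ℕ, ∀ N : ℕ, N0 ≤ N → ∀ h : ℕ → ℝ, Wt c x0 h → |SS h N P - l * TT h N| ≤ ε * TT h N := by
  obtain ⟨N0, h0⟩ := hP c hc x0 ε hε
  refine ⟨N0, fun N hN h w => ?_⟩
  have h1 := h0 N hN h w.nn w.le1 w.one w.mul w.hyp (fun n => (h n : ℂ)) (re_h w.nn) (re_m w.mul)
  rw [re_norm] at h1
  exact h1

theorem Tn_two (i : ℕ) : ∀ {n : ℕ}, 1 ≤ n → ((Tn^[i] n : ℕ) : ℝ) ≤ 2 ^ i * n := by
  induction i with
  | zero => intro n _; simp
  | succ i ih =>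
    intro n hn
    rw [Function.iterate_succ_apply]
    have h1 : Tn n ≤ 2 * n := Pool.Agent.H499R2.ND.Tn_le hn
    have h2 : 1 ≤ Tn n := Tn_pos 1 hn
    have h3 := ih h2
    have h4 : ((Tn n : ℕ) : ℝ) ≤ 2 * n := by exact_mod_cast h1
    calc ((Tn^[i] (Tn n) : ℕ) : ℝ) ≤ 2 ^ i * ((Tn n : ℕ) : ℝ) := h3
      _ ≤ 2 ^ i * (2 * n) := mul_le_mul_of_nonneg_left h4 (by positivity)
      _ = _ := by ring

/-- large values are visible before the trajectory reaches `X ^ (1/100)` -/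
theorem late_small {X y0 V lam : ℝ} {n y B : ℕ} (hB : Bd (FF y) B) (hn : 1 ≤ n) (hX : 1 < X)
    (hn1 : X ^ (1 / 2 : ℝ) < n) (hBn : (B : ℝ) < n)
    (hy0 : y0 = X ^ (1 / 100 : ℝ)) (hPr : Pr (1 / 20) y0 V n) (hA : AF y (1 / 10) n) (hlam : 1 ≤ lam)
    (hk : ∃ k, lam * n < ((Tn^[k] n : ℕ) : ℝ)) : Pool.Agent.W36.SL.Exc lam y0 n := by
  obtain ⟨k, hk⟩ := hk
  obtain ⟨m, hm1, hm2⟩ := hPr
  obtain ⟨kF, hkF, hkF2⟩ := hA
  have hnR : (0 : ℝ) < n := by exact_mod_cast hn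
  have hlam1 : (n : ℝ) ≤ lam * n := le_mul_of_one_le_left hnR.le hlam
  have hex : ∃ m, ((Pool.Agent.Helper894.Collatz.T^[m] n : ℕ) : ℝ) ≤ y0 := ⟨m, hm1⟩
  set m1 := Nat.find hex with hm1d
  have hm1s : ((Pool.Agent.Helper894.Collatz.T^[m1] n : ℕ) : ℝ) ≤ y0 := Nat.find_spec hex
  have hm1m : m1 ≤ m := Nat.find_min' hex hm1
  rcases Nat.lt_or_ge k m1 with hkm | hkm
  · refine ⟨k, ?_, fun j hj => ?_⟩
    · rw [Tn_eq]; exact hk
    · have := Nat.find_min hex (show j < m1 by omega)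
      push Not at this
      exact this
  · exfalso
    have hXpos : 0 < X := by linarith
    have hlX : 0 < Real.log X := Real.log_pos hX
    have hln : Real.log X / 2 < Real.log n := by
      have h1 := Real.log_lt_log (by positivity) hn1
      rw [Real.log_rpow hXpos] at h1
      linarith
    have hln0 : 0 < Real.log n := by linarith
    have hTm : 1 ≤ Tn^[m1] n := Tn_pos m1 hn
    have hTmR : (1 : ℝ) ≤ ((Tn^[m1] n : ℕ) : ℝ) := by exact_mod_cast hTm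
    have hlogy : Real.log ((Tn^[m1] n : ℕ) : ℝ) ≤ Real.log n / 50 := by
      have h1 : ((Tn^[m1] n : ℕ) : ℝ) ≤ X ^ (1 / 100 : ℝ) := by
        rw [← hy0]; rw [Tn_eq] at hm1s; exact hm1s
      have h2 := Real.log_le_log (by linarith) h1
      rw [Real.log_rpow hXpos] at h2
      linarith
    rcases Nat.lt_or_ge k kF with hkk | hkk
    · -- before the entrance
      have h1 := (abs_le.1 (hm2 m1 hm1m).1).1
      rw [Tn_eq] at h1
      have hmu := mu_lower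
      have hl2 : 0 < Real.log 2 := Real.log_pos (by norm_num)
      have hmu0 : 0 < mu := lt_of_lt_of_le (by positivity) hmu
      have h2 : (93 / 100) * Real.log n ≤ mu * m1 := by linarith
      have h3 := (abs_le.1 hkF2).2
      have hα : 2 / Real.log (4 / 3) = 1 / mu := by
        unfold Pool.Agent.H319R2.Lln.mu
        rw [one_div_div]
      rw [hα] at h3
      have h4 : mu * (kF : ℝ) ≤ Real.log n + mu * (1 / 10 * Real.log n) := by
        have h5 : mu * ((kF : ℝ) - 1 / mu * Real.log n) ≤ mu * (1 / 10 * Real.log n) :=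
          mul_le_mul_of_nonneg_left h3 hmu0.le
        have h6 : mu * ((kF : ℝ) - 1 / mu * Real.log n) = mu * kF - Real.log n := by
          field_simp
        linarith
      have h5 : mu * ((k : ℝ) - m1) ≤ (7 / 100) * Real.log n + mu * (1 / 10 * Real.log n) := by
        have h6 : (k : ℝ) ≤ kF := by exact_mod_cast hkk.le
        have h7 : mu * (k : ℝ) ≤ mu * kF := mul_le_mul_of_nonneg_left h6 hmu0.le
        linarith
      -- `(k - m1) log 2 ≤ 34/7 * mu * (k - m1)`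
      have h6 : (0 : ℝ) ≤ (k : ℝ) - m1 := by
        have : (m1 : ℝ) ≤ k := by exact_mod_cast hkm
        linarith
      have hmu_up : mu ≤ 11 / 53 * Real.log 2 := Pool.Agent.H319R2.Lln.mu_upper
      have hl2u := Real.log_two_lt_d9
      have h7 : 7 / 34 * Real.log 2 * ((k : ℝ) - m1) ≤ mu * ((k : ℝ) - m1) := mul_le_mul_of_nonneg_right hmu h6
      have h8 : mu * (1 / 10 * Real.log n) ≤ 2 / 100 * Real.log n := by
        have h9 : mu ≤ 1 / 5 := by linarith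
        have h10 : mu * (1 / 10 * Real.log n) ≤ 1 / 5 * (1 / 10 * Real.log n) :=
          mul_le_mul_of_nonneg_right h9 (by positivity)
        linarith
      have h9 : Real.log 2 * ((k : ℝ) - m1) ≤ 34 / 7 * (9 / 100) * Real.log n := by linarith
      obtain ⟨i, rfl⟩ := Nat.exists_eq_add_of_le hkm
      have h10 : ((Tn^[m1 + i] n : ℕ) : ℝ) ≤ 2 ^ i * ((Tn^[m1] n : ℕ) : ℝ) := by
        rw [show m1 + i = i + m1 by ring, Function.iterate_add_apply]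
        exact Tn_two i hTm
      have h11 : Real.log n ≤ Real.log (2 ^ i * ((Tn^[m1] n : ℕ) : ℝ)) :=
        Real.log_le_log hnR (by linarith)
      rw [Real.log_mul (by positivity) (by positivity), Real.log_pow] at h11
      push_cast at h9
      have h12 : Real.log 2 * ((m1 : ℝ) + i - m1) = i * Real.log 2 := by ring
      rw [h12] at h9
      linarith
    · -- after the entrance
      obtain ⟨i, rfl⟩ := Nat.exists_eq_add_of_le hkk
      have h1 := hB _ hkF.1 i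
      rw [← Function.iterate_add_apply, one_mul, Td_nat, abs_of_nonneg (by positivity),
        show i + kF = kF + i by ring] at h1
      have h2 : ((Tn^[kF + i] n : ℕ) : ℝ) ≤ B := by exact_mod_cast h1
      linarith

/-- few elements up to `N ^ (1/2)` -/
theorem SS_root {c : ℝ} (hc : 0 < c) (x0 : ℕ) (B : ℕ) {ε : ℝ} (hε : 0 < ε) : ∃ N0 : ℕ, ∀ N : ℕ, N0 ≤ N →
    ∀ h : ℕ → ℝ, Wt c x0 h →
    SS h N (fun n : ℕ => (n : ℝ) ≤ (N : ℝ) ^ (1 / 2 : ℝ) ∨ (n : ℝ) ≤ B) ≤ ε * TT h N := by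
  obtain ⟨N1, h1⟩ := Pool.Agent.TH926.PX.pow_small 3 (show (0 : ℝ) < 1 / 2 by norm_num) (1 + B) (show (0 : ℝ) < 1 by norm_num)
  obtain ⟨N2, h2⟩ := unit_TT 1 hc x0 1
  obtain ⟨N3, h3⟩ := Pool.Agent.TH926.PX.log_ge (max 1 (1 / ε))
  refine ⟨max (max N1 N2) (max N3 1), fun N hN h w => ?_⟩
  have g1 := h1 N (by omega)
  have g2 := h2 N (by omega) h w
  have g3 := h3 N (by omega)
  have gL1 : 1 ≤ Real.log N := (le_max_left _ _).trans g3
  have gLε : 1 / ε ≤ Real.log N := (le_max_right _ _).trans g3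
  have hN1 : (1 : ℝ) ≤ N := by exact_mod_cast (by omega : 1 ≤ N)
  have hN0 : (0 : ℝ) < N := by linarith
  have hr1 : (1 : ℝ) ≤ (N : ℝ) ^ (1 / 2 : ℝ) := Real.one_le_rpow hN1 (by norm_num)
  have e1 : SS h N (fun n : ℕ => (n : ℝ) ≤ (N : ℝ) ^ (1 / 2 : ℝ) ∨ (n : ℝ) ≤ B) ≤ (1 + B) * (N : ℝ) ^ (1 / 2 : ℝ) := by
    refine (SS_card w.le1 N _).trans ?_
    have e2 : (Icc 1 N).filter (fun n : ℕ => (n : ℝ) ≤ (N : ℝ) ^ (1 / 2 : ℝ) ∨ (n : ℝ) ≤ B) ⊆
        Icc 1 ⌊(1 + B) * (N : ℝ) ^ (1 / 2 : ℝ)⌋₊ := by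
      intro n hn
      rw [mem_filter, mem_Icc] at hn
      rw [mem_Icc]
      refine ⟨hn.1.1, Nat.le_floor ?_⟩
      have hB0 : (0 : ℝ) ≤ B := Nat.cast_nonneg B
      rcases hn.2 with h5 | h5 <;> nlinarith
    have e3 := card_le_card e2
    rw [Nat.card_Icc, Nat.add_sub_cancel] at e3
    have e4 : ((⌊(1 + B) * (N : ℝ) ^ (1 / 2 : ℝ)⌋₊ : ℕ) : ℝ) ≤ (1 + B) * (N : ℝ) ^ (1 / 2 : ℝ) :=
      Nat.floor_le (by positivity)
    exact le_trans (by exact_mod_cast e3) e4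
  have e5 : (1 + B) * (N : ℝ) ^ (1 / 2 : ℝ) ≤ 1 * (N / Real.log N ^ (1 + 2)) := by
    rw [one_mul, le_div_iff₀ (by positivity)]
    have e6 : (N : ℝ) = (N : ℝ) ^ (1 / 2 : ℝ) * (N : ℝ) ^ (1 / 2 : ℝ) := by
      rw [← Real.rpow_add hN0]; norm_num
    have e7 : (N : ℝ) ^ (-(1 / 2) : ℝ) * (N : ℝ) ^ (1 / 2 : ℝ) = 1 := by
      rw [← Real.rpow_add hN0]; norm_num
    calc (1 + (B : ℝ)) * (N : ℝ) ^ (1 / 2 : ℝ) * Real.log N ^ (1 + 2)
        = ((1 + B) * (Real.log N ^ 3 * (N : ℝ) ^ (-(1 / 2) : ℝ))) * ((N : ℝ) ^ (1 / 2 : ℝ) * (N : ℝ) ^ (1 / 2 : ℝ)) := by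
          have : (1 + (B : ℝ)) * (Real.log N ^ 3 * (N : ℝ) ^ (-(1 / 2) : ℝ)) * ((N : ℝ) ^ (1 / 2 : ℝ) * (N : ℝ) ^ (1 / 2 : ℝ)) =
            (1 + B) * (N : ℝ) ^ (1 / 2 : ℝ) * Real.log N ^ 3 * ((N : ℝ) ^ (-(1 / 2) : ℝ) * (N : ℝ) ^ (1 / 2 : ℝ)) := by ring
          rw [this, e7]; ring
      _ ≤ 1 * ((N : ℝ) ^ (1 / 2 : ℝ) * (N : ℝ) ^ (1 / 2 : ℝ)) := mul_le_mul_of_nonneg_right g1 (by positivity)
      _ = N := by rw [one_mul, ← e6]
  refine e1.trans (e5.trans (g2.trans ?_))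
  rw [pow_one]
  apply mul_le_mul_of_nonneg_right _ (TT_nonneg w.nn N)
  rw [div_le_iff₀ (by linarith)]
  rw [div_le_iff₀ hε] at gLε
  linarith

/-- large values of bounded trajectories are visible early, for relatively most integers -/
theorem late_rel {β : ℝ} (hβ : Dn Bdd β) {c : ℝ} (hc : 0 < c) (x0 : ℕ) {ε : ℝ} (hε : 0 < ε) :
    ∃ N0 : ℕ, ∀ N : ℕ, N0 ≤ N → ∀ lam : ℝ, 1 ≤ lam → ∀ h : ℕ → ℝ, Wt c x0 h →
    SS h N (fun n => (Bdd n ∧ ∃ k, lam * n < ((Tn^[k] n : ℕ) : ℝ)) ∧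
      ¬ Pool.Agent.W36.SL.Exc lam ((N : ℝ) ^ (1 / 100 : ℝ)) n) ≤ ε * TT h N := by
  obtain ⟨y, l, hl, hR⟩ := AF_rel hβ (show 0 < ε / 4 by positivity) (show (0 : ℝ) < 1 / 10 by norm_num)
  obtain ⟨B, hB⟩ := FF_bd y
  obtain ⟨N1, h1⟩ := RL_SS hR hc x0 (show 0 < ε / 4 by positivity)
  obtain ⟨B2, hB2, hn⟩ := nonreg 1 (ε := 1 / 20) (by norm_num)
  obtain ⟨N2, h2⟩ := hn c hc x0
  obtain ⟨N3, h3⟩ := SS_root hc x0 B (show 0 < ε / 4 by positivity)
  obtain ⟨N4, h4⟩ := Pool.Agent.TH926.PX.log_ge (max 1 (4 / ε))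
  have tl : Tendsto (fun N : ℕ => Real.log N ^ B2 / (N : ℝ) ^ (1 / 100 : ℝ)) atTop (𝓝 0) := by
    have h6 : Tendsto (fun x : ℝ => Real.log x ^ B2 / x ^ (1 / 100 : ℝ)) atTop (𝓝 0) :=
      (isLittleO_log_rpow_rpow_atTop B2 (by norm_num)).tendsto_div_nhds_zero
    exact h6.comp tendsto_natCast_atTop_atTop
  obtain ⟨N5, h5⟩ := eventually_atTop.1 (tl.eventually_lt_const one_pos)
  refine ⟨max (max (max N1 N2) (max N3 N4)) (max N5 2), fun N hN lam hlam h w => ?_⟩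
  have g1 := (abs_le.1 (h1 N (by omega) h w)).2
  have g3 := h3 N (by omega) h w
  have g4 := h4 N (by omega)
  have g5 := h5 N (by omega)
  have hN2 : (2 : ℝ) ≤ N := by exact_mod_cast (by omega : 2 ≤ N)
  have hN0 : (0 : ℝ) < N := by linarith
  have hr : (0 : ℝ) < (N : ℝ) ^ (1 / 100 : ℝ) := by positivity
  rw [div_lt_one hr] at g5
  have g2 := h2 N (by omega) _ g5.le h w
  have gL1 : 1 ≤ Real.log N := (le_max_left _ _).trans g4
  have gLε : 4 / ε ≤ Real.log N := (le_max_right _ _).trans g4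
  have hT := TT_nonneg w.nn N
  rw [pow_one] at g2
  have g6 : 1 / Real.log N * TT h N ≤ ε / 4 * TT h N := by
    apply mul_le_mul_of_nonneg_right _ hT
    rw [div_le_iff₀ (by linarith)]
    rw [div_le_iff₀ hε] at gLε
    linarith
  have e1 : SS h N (fun n => (Bdd n ∧ ∃ k, lam * n < ((Tn^[k] n : ℕ) : ℝ)) ∧
      ¬ Pool.Agent.W36.SL.Exc lam ((N : ℝ) ^ (1 / 100 : ℝ)) n) ≤ SS h N (fun n => Bdd n ∧ ¬ AF y (1 / 10) n) +
      (SS h N (fun n => ¬ Pr (1 / 20) ((N : ℝ) ^ (1 / 100 : ℝ)) ((N : ℝ) ^ 2) n) +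
      SS h N (fun n : ℕ => (n : ℝ) ≤ (N : ℝ) ^ (1 / 2 : ℝ) ∨ (n : ℝ) ≤ B)) := by
    refine (SS_or w.nn (Q := fun n => Bdd n ∧ ¬ AF y (1 / 10) n)
      (R := fun n => ¬ Pr (1 / 20) ((N : ℝ) ^ (1 / 100 : ℝ)) ((N : ℝ) ^ 2) n ∨
        ((n : ℝ) ≤ (N : ℝ) ^ (1 / 2 : ℝ) ∨ (n : ℝ) ≤ B)) ?_).trans
      (add_le_add le_rfl (SS_or w.nn fun n _ _ h => h))
    rintro n hn1 hn2 ⟨⟨hb, hk⟩, hE⟩
    by_contra hcon
    push Not at hcon
    obtain ⟨hc1, hc2, hc3, hc4⟩ := hcon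
    exact hE (late_small hB hn1 (by linarith) hc3 hc4 rfl hc2 (hc1 hb) hlam hk)
  have e2 : l * TT h N ≤ ε / 4 * TT h N := mul_le_mul_of_nonneg_right hl hT
  linarith

end Pool.Agent.Y964.LW
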