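import Pool.Agent.Y964.LW.E3
import Pool.Agent.Y964.LW.C6

/-! The law of the maximum excursion along multiplicative weights on the odd integers. -/

set_option autoImplicit false

namespace Pool.Agent.Y964.LW

open Finset Filter Topology
open Pool.Agent.H499R2.ND (Bdd Bdd_inv Bdd_density Dn Tn Tn_eq AK AK_of_bound)
open Pool.Agent.H828R3.Exc (Pr PP ge_iff)
open Pool.Agent.W36.SL (Exc b b_pos b_lt_one s q s_sub_q q_le_s s_tendsto PP_mod)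
open Pool.Agent.Helper894.Collatz (od)
open Pool.Agent.Y964.SE (PN mem_PN)
open scoped Classical

theorem Wt_of {c : ℝ} {x0 : ℕ} {h : ArithmeticFunction ℝ} (hM : h.IsMultiplicative)
    (h01 : ∀ n, 0 ≤ h n ∧ h n ≤ 1) (he : ∀ n, Even n → h n = 0)
    (hp : ∀ x : ℕ, x0 ≤ x → c * (x / Real.log x) ≤ ∑ p ∈ (Icc 1 x).filter Nat.Prime, h p) : Wt c x0 h where
  nn := fun n => (h01 n).1
  le1 := fun n => (h01 n).2
  one := hM.1
  mul := fun _ _ hmn => hM.2 hmn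
  odd := fun n hn => he n (Nat.even_iff.2 hn)
  hyp := fun x hx => by
    refine (hp x hx).trans (le_of_eq ?_)
    congr 1
    ext p
    rw [mem_PN, mem_filter, mem_Icc]
    constructor
    · rintro ⟨⟨_, h2⟩, h3⟩; exact ⟨h2, h3⟩
    · rintro ⟨h2, h3⟩; exact ⟨⟨h3.one_lt.le, h2⟩, h3⟩

theorem pow_ev (B2 : ℝ) : ∃ N0 : ℕ, ∀ N : ℕ, N0 ≤ N → Real.log N ^ B2 ≤ (N : ℝ) ^ (1 / 100 : ℝ) := by
  have tl : Tendsto (fun N : ℕ => Real.log N ^ B2 / (N : ℝ) ^ (1 / 100 : ℝ)) atTop (𝓝 0) := by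
    have h6 : Tendsto (fun x : ℝ => Real.log x ^ B2 / x ^ (1 / 100 : ℝ)) atTop (𝓝 0) :=
      (isLittleO_log_rpow_rpow_atTop B2 (by norm_num)).tendsto_div_nhds_zero
    exact h6.comp tendsto_natCast_atTop_atTop
  obtain ⟨N5, h5⟩ := eventually_atTop.1 (tl.eventually_lt_const one_pos)
  refine ⟨max N5 2, fun N hN => ?_⟩
  have g5 := h5 N (by omega)
  have hN0 : (0 : ℝ) < N := by exact_mod_cast (by omega : 0 < N)
  have hr : (0 : ℝ) < (N : ℝ) ^ (1 / 100 : ℝ) := by positivity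
  rw [div_lt_one hr] at g5
  exact g5.le

/-- THE TAIL of the maximum excursion -/
theorem late_tail {β : ℝ} (hβ : Dn Bdd β) {c : ℝ} (hc : 0 < c) (x0 : ℕ) : ∃ C : ℝ, 0 < C ∧
    ∀ lam : ℝ, 1 ≤ lam → ∃ N0 : ℕ, ∀ N : ℕ, N0 ≤ N → ∀ h : ℕ → ℝ, Wt c x0 h →
    SS h N (fun n => Bdd n ∧ ∃ k, lam * n < ((Tn^[k] n : ℕ) : ℝ)) ≤ C / lam * TT h N := by
  obtain ⟨B, _, h1⟩ := exc_tail 1
  obtain ⟨C, N1, hC, h2⟩ := h1 c hc x0
  refine ⟨C + 1, by linarith, fun lam hlam => ?_⟩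
  have hlam0 : 0 < lam := by linarith
  obtain ⟨N2, h3⟩ := late_rel hβ hc x0 (show 0 < 1 / lam by positivity)
  obtain ⟨N3, h4⟩ := pow_ev B
  obtain ⟨N4, h5⟩ := Pool.Agent.TH926.PX.log_ge lam
  refine ⟨max (max N1 N2) (max N3 N4), fun N hN h w => ?_⟩
  have g1 := h2 N (by omega) _ (h4 N (by omega)) lam hlam (by rw [pow_one]; exact h5 N (by omega)) h w
  have g2 := h3 N (by omega) lam hlam h w
  have g3 : SS h N (fun n => Bdd n ∧ ∃ k, lam * n < ((Tn^[k] n : ℕ) : ℝ)) ≤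
      SS h N (fun n => (Bdd n ∧ ∃ k, lam * n < ((Tn^[k] n : ℕ) : ℝ)) ∧ ¬ Exc lam ((N : ℝ) ^ (1 / 100 : ℝ)) n) +
      SS h N (Exc lam ((N : ℝ) ^ (1 / 100 : ℝ))) := by
    apply SS_or w.nn
    intro n _ _ hn
    by_cases hE : Exc lam ((N : ℝ) ^ (1 / 100 : ℝ)) n
    · exact Or.inr hE
    · exact Or.inl ⟨hn, hE⟩
  have e : (C + 1) / lam * TT h N = 1 / lam * TT h N + C / lam * TT h N := by ring
  rw [e]
  linarith

/-- `t(n) ≤ lam n` is decided by `t(n) < ∞` and the first digits -/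
theorem law_sym {β : ℝ} (hβ : Dn Bdd β) {c : ℝ} (hc : 0 < c) (x0 : ℕ) : ∃ C : ℝ, 0 < C ∧
    ∀ lam : ℝ, 1 < lam → ∀ (K : ℕ) (ε : ℝ), 0 < ε → ∃ N0 : ℕ, ∀ N : ℕ, N0 ≤ N → ∀ h : ℕ → ℝ, Wt c x0 h →
    SS h N (fun n => ¬ ((∀ k, ((Tn^[k] n : ℕ) : ℝ) ≤ lam * n) ↔ (Bdd n ∧ ¬ PP lam K n))) ≤
      (C * b ^ K + ε) * TT h N := by
  obtain ⟨B, _, h1⟩ := exc_loc
  obtain ⟨C, hC, h2⟩ := h1 c hc x0
  refine ⟨C, hC, fun lam hlam K ε hε => ?_⟩
  obtain ⟨N1, h3⟩ := h2 (1 / 2) (by norm_num) lam hlam K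
  obtain ⟨N2, h4⟩ := late_rel hβ hc x0 hε
  obtain ⟨N3, h5⟩ := pow_ev B
  refine ⟨max (max N1 N2) (max N3 2), fun N hN h w => ?_⟩
  have hN1 : (1 : ℝ) ≤ N := by exact_mod_cast (by omega : 1 ≤ N)
  have g1 := h3 N (by omega) _ (h5 N (by omega))
    (Real.rpow_le_rpow_of_exponent_le hN1 (by norm_num)) h w
  have g2 := h4 N (by omega) lam hlam.le h w
  have g3 : SS h N (fun n => ¬ ((∀ k, ((Tn^[k] n : ℕ) : ℝ) ≤ lam * n) ↔ (Bdd n ∧ ¬ PP lam K n))) ≤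
      SS h N (fun n => (Bdd n ∧ ∃ k, lam * n < ((Tn^[k] n : ℕ) : ℝ)) ∧ ¬ Exc lam ((N : ℝ) ^ (1 / 100 : ℝ)) n) +
      SS h N (fun n => ¬ (Exc lam ((N : ℝ) ^ (1 / 100 : ℝ)) n ↔ PP lam K n)) := by
    apply SS_or w.nn
    intro n hn _ hne
    by_cases hX : ∀ k, ((Tn^[k] n : ℕ) : ℝ) ≤ lam * n
    · exfalso
      apply hne
      refine ⟨fun _ => ⟨⟨⌊lam * n⌋₊, fun k => Nat.le_floor (hX k)⟩, ?_⟩, fun _ => hX⟩
      rintro ⟨j, hj, hj2⟩
      rcases Nat.eq_zero_or_pos j with h0 | h0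
      · subst h0
        have e0 : od 0 n = 0 := by simp [od]
        rw [e0] at hj2
        norm_num at hj2
        linarith
      · have h6 := AK_of_bound hlam.le hn hX K j h0 hj
        linarith
    · have hX' := hX
      push Not at hX'
      have h7 : Bdd n ∧ ¬ PP lam K n := by
        by_contra h8
        exact hne ⟨fun h9 => absurd h9 hX, fun h9 => absurd h9 h8⟩
      by_cases hE : Exc lam ((N : ℝ) ^ (1 / 100 : ℝ)) n
      · right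
        intro h8
        exact h7.2 (h8.1 hE)
      · exact Or.inl ⟨⟨h7.1, hX'⟩, hE⟩
  linarith

theorem SS_filter (h : ℕ → ℝ) (N : ℕ) (P : ℕ → Prop) : SS h N P = ∑ n ∈ (Icc 1 N).filter P, h n := by
  unfold SS
  rw [sum_filter]

theorem sym_norm {h : ℕ → ℝ} {g : ℕ → ℂ} (h0 : ∀ n, 0 ≤ h n) (hg : ∀ n, ‖g n‖ ≤ h n) (N : ℕ) (P Q : ℕ → Prop) :
    ‖∑ n ∈ (Icc 1 N).filter P, g n - ∑ n ∈ (Icc 1 N).filter Q, g n‖ ≤ SS h N (fun n => ¬ (P n ↔ Q n)) := by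
  rw [sum_filter, sum_filter, ← sum_sub_distrib]
  unfold SS
  refine (norm_sum_le _ _).trans (sum_le_sum fun n _ => ?_)
  by_cases h2 : P n <;> by_cases h3 : Q n
  · rw [if_pos h2, if_pos h3, sub_self, norm_zero]
    split_ifs
    · exact h0 n
    · exact le_rfl
  · rw [if_pos h2, if_neg h3, sub_zero, if_pos (fun h4 => h3 (h4.1 h2))]; exact hg n
  · rw [if_neg h2, if_pos h3, zero_sub, norm_neg, if_pos (fun h4 => h2 (h4.2 h3))]; exact hg n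
  · rw [if_neg h2, if_neg h3, sub_zero, norm_zero]
    split_ifs
    · exact h0 n
    · exact le_rfl

theorem cls_bdd {β : ℝ} (hβ : Dn Bdd β) {K : ℕ} (hK : 1 ≤ K) {c : ℝ} (hc : 0 < c) (x0 : ℕ) {ε : ℝ} (hε : 0 < ε) :
    ∃ N0 : ℕ, ∀ N : ℕ, N0 ≤ N → ∀ h : ArithmeticFunction ℝ, h.IsMultiplicative →
      (∀ n, 0 ≤ h n ∧ h n ≤ 1) → (∀ n, Even n → h n = 0) →
      (∀ x : ℕ, x0 ≤ x → c * (x / Real.log x) ≤ ∑ p ∈ (Icc 1 x).filter Nat.Prime, h p) →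
      ∀ g : ArithmeticFunction ℂ, g.IsMultiplicative → (∀ n, ‖g n‖ ≤ h n) → ∀ lam : ℝ,
      ‖∑ n ∈ (Icc 1 N).filter (fun n => Bdd n ∧ ¬ PP lam K n), g n -
        β * ∑ n ∈ (Icc 1 N).filter (fun n => ¬ PP lam K n), g n‖ ≤ ε * ∑ n ∈ Icc 1 N, h n := by
  have hR : RelO Bdd β := RelO_of (RL_nat (fun n _ => Bdd_inv n) hβ) 0 (fun _ _ _ => Iff.rfl)
  have hQ : 1 ≤ 2 ^ K := Nat.one_le_two_pow
  have hq0 : (0 : ℝ) < 2 ^ K := by positivity
  have hex : ∀ a : ℕ, ∃ N₀ : ℕ, a % 2 = 1 → ∀ N : ℕ, N₀ ≤ N → ∀ h : ArithmeticFunction ℝ, h.IsMultiplicative →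
      (∀ n, 0 ≤ h n ∧ h n ≤ 1) → (∀ n, Even n → h n = 0) →
      (∀ x : ℕ, x0 ≤ x → c * (x / Real.log x) ≤ ∑ p ∈ (Icc 1 x).filter Nat.Prime, h p) →
      ∀ g : ArithmeticFunction ℂ, g.IsMultiplicative → (∀ n, ‖g n‖ ≤ h n) →
      ‖∑ n ∈ (Icc 1 N).filter (fun n => n % 2 ^ K = a % 2 ^ K ∧ Bdd n), g n -
        β * ∑ n ∈ (Icc 1 N).filter (fun n => n % 2 ^ K = a % 2 ^ K), g n‖ ≤ ε / 2 ^ K * ∑ n ∈ Icc 1 N, h n := by
    intro a
    by_cases ha : a % 2 = 1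
    · have hcop : Nat.Coprime a (2 ^ K) := by
        apply Nat.Coprime.pow_right
        rw [Nat.coprime_comm, Nat.Prime.coprime_iff_not_dvd Nat.prime_two]
        omega
      obtain ⟨N0, h0⟩ := hR c x0 (ε / 2 ^ K) (2 ^ K) a hc (by positivity) hQ hcop
      exact ⟨N0, fun _ => h0⟩
    · exact ⟨0, fun h => absurd h ha⟩
  choose N0 hN0 using hex
  refine ⟨(range (2 ^ K)).sup N0, fun N hN h hM h01 he hp g gM hg lam => ?_⟩
  have hT : 0 ≤ ∑ n ∈ Icc 1 N, h n := sum_nonneg fun n _ => (h01 n).1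
  set F : ℕ → ℂ := fun n => (if Bdd n ∧ ¬ PP lam K n then g n else 0) - β * (if ¬ PP lam K n then g n else 0) with hF
  have e1 : ∑ n ∈ (Icc 1 N).filter (fun n => Bdd n ∧ ¬ PP lam K n), g n -
      β * ∑ n ∈ (Icc 1 N).filter (fun n => ¬ PP lam K n), g n = ∑ n ∈ Icc 1 N, F n := by
    rw [sum_filter, sum_filter, mul_sum, ← sum_sub_distrib]
  have e2 : ∑ n ∈ Icc 1 N, F n = ∑ a ∈ range (2 ^ K), ∑ n ∈ (Icc 1 N).filter (fun n => n % 2 ^ K = a), F n :=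
    (sum_fiberwise_of_maps_to (fun n _ => mem_range.2 (Nat.mod_lt _ (by positivity))) _).symm
  rw [e1, e2]
  refine (norm_sum_le _ _).trans ?_
  have e3 : ∀ a ∈ range (2 ^ K), ‖∑ n ∈ (Icc 1 N).filter (fun n => n % 2 ^ K = a), F n‖ ≤
      ε / 2 ^ K * ∑ n ∈ Icc 1 N, h n := by
    intro a ha
    have ha' := mem_range.1 ha
    by_cases ha2 : a % 2 = 1
    · by_cases hP : PP lam K a
      · have : ∑ n ∈ (Icc 1 N).filter (fun n => n % 2 ^ K = a), F n = 0 := by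
          apply sum_eq_zero
          intro n hn
          rw [mem_filter] at hn
          have h4 : PP lam K n := by rw [← PP_mod, hn.2]; exact hP
          simp only [hF]
          rw [if_neg (fun h5 => h5.2 h4), if_neg (not_not.2 h4)]
          simp
        rw [this, norm_zero]
        positivity
      · have h5 := hN0 a ha2 N ((Finset.le_sup (f := N0) ha).trans hN) h hM h01 he hp g gM hg
        rw [Nat.mod_eq_of_lt ha'] at h5
        refine le_trans (le_of_eq ?_) h5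
        congr 1
        have e4 : (Icc 1 N).filter (fun n => n % 2 ^ K = a ∧ Bdd n) =
            ((Icc 1 N).filter (fun n => n % 2 ^ K = a)).filter Bdd := by rw [filter_filter]
        rw [e4, sum_filter (p := Bdd), mul_sum, ← sum_sub_distrib]
        apply sum_congr rfl
        intro n hn
        rw [mem_filter] at hn
        have h4 : ¬ PP lam K n := by rw [← PP_mod, hn.2]; exact hP
        simp only [hF]
        by_cases hb : Bdd n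
        · rw [if_pos ⟨hb, h4⟩, if_pos h4, if_pos hb]
        · rw [if_neg (fun h5 => hb h5.1), if_pos h4, if_neg hb]
    · have : ∑ n ∈ (Icc 1 N).filter (fun n => n % 2 ^ K = a), F n = 0 := by
        apply sum_eq_zero
        intro n hn
        rw [mem_filter] at hn
        have h6 : n % 2 = a % 2 := by
          rw [← Nat.mod_mod_of_dvd n (dvd_pow_self 2 (show K ≠ 0 by omega)), hn.2]
        have hg0 : g n = 0 := by
          have h3 := hg n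
          rw [he n (Nat.even_iff.2 (by omega))] at h3
          exact norm_eq_zero.1 (le_antisymm h3 (norm_nonneg _))
        simp only [hF, hg0]
        simp
      rw [this, norm_zero]
      positivity
  refine (sum_le_sum e3).trans (le_of_eq ?_)
  rw [sum_const, card_range, nsmul_eq_mul]
  push_cast
  field_simp

/-- THE LAW OF THE MAXIMUM EXCURSION -/
theorem law_fn {β : ℝ} (hβ : Dn Bdd β) {c : ℝ} (hc : 0 < c) (x0 : ℕ) : ∃ C : ℝ, 0 < C ∧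
    ∀ lam : ℝ, 1 < lam → ∀ (K : ℕ) (ε : ℝ), 1 ≤ K → 0 < ε → ∃ N0 : ℕ, ∀ N : ℕ, N0 ≤ N →
      ∀ h : ArithmeticFunction ℝ, h.IsMultiplicative →
      (∀ n, 0 ≤ h n ∧ h n ≤ 1) → (∀ n, Even n → h n = 0) →
      (∀ x : ℕ, x0 ≤ x → c * (x / Real.log x) ≤ ∑ p ∈ (Icc 1 x).filter Nat.Prime, h p) →
      ∀ g : ArithmeticFunction ℂ, g.IsMultiplicative → (∀ n, ‖g n‖ ≤ h n) →
      ‖∑ n ∈ (Icc 1 N).filter (fun n => ∀ k, ((Tn^[k] n : ℕ) : ℝ) ≤ lam * n), g n -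
        β * ∑ n ∈ (Icc 1 N).filter (fun n => ¬ PP lam K n), g n‖ ≤ (C * b ^ K + ε) * ∑ n ∈ Icc 1 N, h n := by
  obtain ⟨C, hC, h1⟩ := law_sym hβ hc x0
  refine ⟨C, hC, fun lam hlam K ε hK hε => ?_⟩
  obtain ⟨N1, h2⟩ := h1 lam hlam K (ε / 2) (by positivity)
  obtain ⟨N2, h3⟩ := cls_bdd hβ hK hc x0 (show 0 < ε / 2 by positivity)
  refine ⟨max N1 N2, fun N hN h hM h01 he hp g gM hg => ?_⟩
  have w := Wt_of hM h01 he hp
  have g1 := h2 N (by omega) h w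
  have g2 := h3 N (by omega) h hM h01 he hp g gM hg lam
  have g3 := sym_norm w.nn hg N (fun n => ∀ k, ((Tn^[k] n : ℕ) : ℝ) ≤ lam * n) (fun n => Bdd n ∧ ¬ PP lam K n)
  have e : ∑ n ∈ (Icc 1 N).filter (fun n => ∀ k, ((Tn^[k] n : ℕ) : ℝ) ≤ lam * n), g n -
        β * ∑ n ∈ (Icc 1 N).filter (fun n => ¬ PP lam K n), g n =
      (∑ n ∈ (Icc 1 N).filter (fun n => ∀ k, ((Tn^[k] n : ℕ) : ℝ) ≤ lam * n), g n -
        ∑ n ∈ (Icc 1 N).filter (fun n => Bdd n ∧ ¬ PP lam K n), g n) +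
      (∑ n ∈ (Icc 1 N).filter (fun n => Bdd n ∧ ¬ PP lam K n), g n -
        β * ∑ n ∈ (Icc 1 N).filter (fun n => ¬ PP lam K n), g n) := by ring
  rw [e]
  refine (norm_add_le _ _).trans ?_
  have e2 : (C * b ^ K + ε) * ∑ n ∈ Icc 1 N, h n = (C * b ^ K + ε / 2) * TT h N + ε / 2 * ∑ n ∈ Icc 1 N, h n := by
    unfold TT; ring
  rw [e2]
  refine add_le_add (le_trans (le_of_eq ?_) (g3.trans g1)) g2
  congr!

end Pool.Agent.Y964.LW
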