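import Pool.Agent.Y964.LW.E1
import Pool.Agent.Y964.LW.D2
import Pool.Agent.H499R2.CO.R4

/-! Coalescence after the same number of steps of the unaccelerated Collatz map, relative to multiplicative
weights; rates. -/

set_option autoImplicit false

namespace Pool.Agent.Y964.LW

open Finset Filter Topology
open Pool.Agent.H499R2.CO (surv step q q_lim q_quant q_rate rho rho_sq rho_pos rho_nonneg log_pos' clog_bound
  L_bound count_surv surv_periodic Cz coalC iter_persist)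
open Pool.Agent.Y964.SE
open scoped Classical

theorem not_surv_C {k : ℕ} {B x : ℤ} (h : ¬ surv 1 k (0, B) x) : Cz^[2 * k] (x + B) = Cz^[2 * k] x := by
  obtain ⟨a, b, ha, hb, hab, hh⟩ := coalC k 0 B x h
  rw [add_zero] at hab
  subst hab
  rw [pow_zero, one_mul] at hh
  exact (iter_persist hh ha).symm

/-- some shift in `S` survives for `k` steps -/
def SV (k : ℕ) (S : Finset ℤ) (x : ℤ) : Prop := ∃ b ∈ S, surv 1 k (0, b) x

theorem SV_periodic (k : ℕ) (S : Finset ℤ) (x m : ℤ) : SV k S (x + m * 2 ^ k) ↔ SV k S x := by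
  unfold SV
  refine exists_congr fun b => and_congr_right fun _ => ?_
  exact surv_periodic (by norm_num) k (0, b) x m

theorem count_one (k : ℕ) (b : ℤ) :
    (#{x ∈ range (2 ^ k) | surv 1 k (0, b) ((x : ℕ) : ℤ)} : ℝ) = 2 ^ k * q step (0, 0) k (0, b) := by
  have h2 := count_surv (show (1 : ℤ) % 2 = 1 by norm_num) k (0, b)
  rw [← sum_filter, sum_const, nsmul_eq_mul, mul_one] at h2
  rw [← h2]

theorem SV_count (k : ℕ) (S : Finset ℤ) {M : ℝ} (h : ∀ b ∈ S, q step (0, 0) k (0, b) ≤ M) :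
    (#{x ∈ range (2 ^ k) | SV k S ((x : ℕ) : ℤ)} : ℝ) ≤ #S * M * 2 ^ k := by
  have hsub : ({x ∈ range (2 ^ k) | SV k S ((x : ℕ) : ℤ)} : Finset ℕ) ⊆
      S.biUnion (fun b => {x ∈ range (2 ^ k) | surv 1 k (0, b) ((x : ℕ) : ℤ)}) := by
    intro x hx
    rw [mem_filter] at hx
    obtain ⟨hx1, b, hb, hs⟩ := hx
    rw [mem_biUnion]
    exact ⟨b, hb, mem_filter.2 ⟨hx1, hs⟩⟩
  have h1 : (#{x ∈ range (2 ^ k) | SV k S ((x : ℕ) : ℤ)} : ℝ) ≤
      ∑ b ∈ S, (#{x ∈ range (2 ^ k) | surv 1 k (0, b) ((x : ℕ) : ℤ)} : ℝ) := by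
    have := (card_le_card hsub).trans card_biUnion_le
    exact_mod_cast this
  refine h1.trans ?_
  calc ∑ b ∈ S, (#{x ∈ range (2 ^ k) | surv 1 k (0, b) ((x : ℕ) : ℤ)} : ℝ)
      ≤ ∑ _b ∈ S, M * 2 ^ k := by
        apply sum_le_sum
        intro b hb
        rw [count_one, mul_comm]
        exact mul_le_mul_of_nonneg_right (h b hb) (by positivity)
    _ = _ := by rw [sum_const, nsmul_eq_mul]; ring

/-- all shifts in `S` have merged after `K` steps -/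
def AllC (K : ℕ) (S : Finset ℤ) (n : ℤ) : Prop := ∀ b ∈ S, Cz^[K] (n + b) = Cz^[K] n

theorem not_SV {k : ℕ} {S : Finset ℤ} {x : ℤ} (h : ¬ SV k S x) : AllC (2 * k) S x := by
  intro b hb
  exact not_surv_C fun hs => h ⟨b, hb, hs⟩

theorem AllC_mono {K K' : ℕ} (hK : K ≤ K') {S : Finset ℤ} {x : ℤ} (h : AllC K S x) : AllC K' S x :=
  fun b hb => iter_persist (h b hb) hK

/-- the general estimate -/
theorem set_rel {c : ℝ} (hc : 0 < c) (x0 : ℕ) {ε : ℝ} (hε : 0 < ε) :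
    ∃ (η : ℝ) (N0 : ℕ), 0 < η ∧ ∀ N : ℕ, N0 ≤ N → ∀ (k : ℕ) (S : Finset ℤ),
    (2 : ℝ) ^ k ≤ (N : ℝ) ^ ((1 : ℝ) / 2) → (∀ b ∈ S, q step (0, 0) k (0, b) ≤ η / #S) →
    ∀ h : ℕ → ℝ, (∀ n, 0 ≤ h n) → (∀ n, h n ≤ 1) → h 1 = 1 →
    (∀ m n : ℕ, Nat.Coprime m n → h (m * n) = h m * h n) → HypD c x0 h →
    ∑ n ∈ Icc 1 N, (if ¬ AllC (2 * k) S n then h n else 0) ≤ ε * ∑ n ∈ Icc 1 N, h n := by
  obtain ⟨η, N1, hη, h1⟩ := cls_main hc x0 hε
  refine ⟨η, N1, hη, fun N hN k S hk hq h hh0 hh1 hh hm hyp => ?_⟩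
  have hcount : (#{b ∈ range (2 ^ k) | SV k S ((b : ℕ) : ℤ)} : ℝ) ≤ η * 2 ^ k := by
    refine (SV_count k S hq).trans ?_
    apply mul_le_mul_of_nonneg_right _ (by positivity)
    rcases Nat.eq_zero_or_pos (#S) with h0 | h0
    · rw [h0]; simp [hη.le]
    · have : (0 : ℝ) < #S := by exact_mod_cast h0
      rw [mul_div_cancel₀ _ this.ne']
  have f1 := h1 N hN k hk (fun x => SV k S x) (fun x m => SV_periodic k S x m) hcount h hh0 hh1 hh hm hyp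
  refine (sum_le_sum fun n _ => ?_).trans f1
  have h0 := hh0 n
  by_cases hS : SV k S ((n : ℕ) : ℤ)
  · rw [if_pos hS]; split_ifs <;> linarith
  · rw [if_neg hS, if_neg (not_not.2 (not_SV hS))]

/-- bounded time, fixed shifts -/
theorem set_bdd {c : ℝ} (hc : 0 < c) (x0 : ℕ) {ε : ℝ} (hε : 0 < ε) (S : Finset ℤ) :
    ∃ (k N0 : ℕ), 1 ≤ k ∧ ∀ N : ℕ, N0 ≤ N →
    ∀ h : ℕ → ℝ, (∀ n, 0 ≤ h n) → (∀ n, h n ≤ 1) → h 1 = 1 →
    (∀ m n : ℕ, Nat.Coprime m n → h (m * n) = h m * h n) → HypD c x0 h →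
    ∑ n ∈ Icc 1 N, (if ¬ AllC (2 * k) S n then h n else 0) ≤ ε * ∑ n ∈ Icc 1 N, h n := by
  obtain ⟨η, N1, hη, h1⟩ := set_rel hc x0 hε
  have hfin : ∀ᶠ k in atTop, ∀ b ∈ S, q step (0, 0) k (0, b) ≤ η / #S := by
    rw [eventually_all_finset]
    intro b hb
    have hpos : (0 : ℝ) < #S := by exact_mod_cast card_pos.2 ⟨b, hb⟩
    filter_upwards [(q_lim (0, b)).eventually (gt_mem_nhds (show (0 : ℝ) < η / #S by positivity))] with k hk
    exact hk.le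
  obtain ⟨k, hk, hk1⟩ := (hfin.and (eventually_ge_atTop 1)).exists
  refine ⟨k, max N1 (4 ^ k), hk1, fun N hN h hh0 hh1 hh hm hyp => ?_⟩
  refine h1 N ((le_max_left _ _).trans hN) k S ?_ hk h hh0 hh1 hh hm hyp
  have h2 : ((4 ^ k : ℕ) : ℝ) ≤ N := by exact_mod_cast (le_max_right _ _).trans hN
  rw [← Real.sqrt_eq_rpow]
  apply Real.le_sqrt_of_sq_le
  refine le_trans (le_of_eq ?_) h2
  push_cast
  rw [← pow_mul, mul_comm, pow_mul]
  norm_num

/-- shifts of size `N ^ θ`, time `log₂ N / 2` -/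
theorem shift_unif {c : ℝ} (hc : 0 < c) (x0 : ℕ) {ε : ℝ} (hε : 0 < ε) :
    ∃ (θ : ℝ) (N0 : ℕ), 0 < θ ∧ ∀ N : ℕ, N0 ≤ N → ∀ B : ℤ, |(B : ℝ)| ≤ (N : ℝ) ^ θ →
    ∀ h : ℕ → ℝ, (∀ n, 0 ≤ h n) → (∀ n, h n ≤ 1) → h 1 = 1 →
    (∀ m n : ℕ, Nat.Coprime m n → h (m * n) = h m * h n) → HypD c x0 h →
    ∑ n ∈ Icc 1 N, (if ¬ AllC (2 * (Nat.log 2 N / 4)) {B} n then h n else 0) ≤ ε * ∑ n ∈ Icc 1 N, h n := by
  obtain ⟨η, N1, hη, h1⟩ := set_rel hc x0 hε
  obtain ⟨θ, hθ, k0, hk0⟩ := q_quant (ε := min η 1) (lt_min hη one_pos) (min_le_right _ _)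
  refine ⟨θ / 8, max N1 (2 ^ (4 * (k0 + 1))), by positivity, fun N hN B hB h hh0 hh1 hh hm hyp => ?_⟩
  have hk := log_large (k0 + 1) ((le_max_right _ _).trans hN)
  have hN0 : N ≠ 0 := by
    have : 0 < 2 ^ (4 * (k0 + 1)) := by positivity
    have := (le_max_right _ _).trans hN
    omega
  set k := Nat.log 2 N / 4 with hkdef
  have h4k : 2 ^ (4 * k) ≤ N := by
    refine le_trans (Nat.pow_le_pow_right (by norm_num) ?_) (Nat.pow_log_le_self 2 hN0)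
    omega
  refine h1 N ((le_max_left _ _).trans hN) k {B} ?_ ?_ h hh0 hh1 hh hm hyp
  · rw [← Real.sqrt_eq_rpow]
    apply Real.le_sqrt_of_sq_le
    have h5 : (2 : ℝ) ^ (4 * k) ≤ N := by exact_mod_cast h4k
    refine le_trans ?_ h5
    rw [← pow_mul]
    exact pow_le_pow_right₀ (by norm_num) (by omega)
  · intro b hb
    rw [mem_singleton] at hb
    rw [hb, card_singleton, Nat.cast_one, div_one]
    refine (hk0 k (by omega) B (hB.trans ?_)).trans (min_le_left _ _)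
    have hNlt : N < 2 ^ (4 * k + 4) := by
      have h2 : N < 2 ^ (Nat.log 2 N + 1) := Nat.lt_pow_succ_log_self (by norm_num) N
      refine h2.trans_le (Nat.pow_le_pow_right (by norm_num) ?_)
      omega
    have hNR : (N : ℝ) ≤ (2 : ℝ) ^ ((4 * k + 4 : ℕ) : ℝ) := by
      rw [Real.rpow_natCast]
      exact_mod_cast hNlt.le
    have hkR : (1 : ℝ) ≤ k := by exact_mod_cast (by omega : 1 ≤ k)
    calc (N : ℝ) ^ (θ / 8) ≤ ((2 : ℝ) ^ ((4 * k + 4 : ℕ) : ℝ)) ^ (θ / 8) :=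
          Real.rpow_le_rpow (Nat.cast_nonneg _) hNR (by positivity)
      _ = (2 : ℝ) ^ (((4 * k + 4 : ℕ) : ℝ) * (θ / 8)) := by rw [← Real.rpow_mul (by norm_num)]
      _ ≤ (2 : ℝ) ^ (θ * k) := by
          apply Real.rpow_le_rpow_of_exponent_le (by norm_num)
          push_cast
          nlinarith

/-- the rate -/
theorem q_G : ∃ C : ℝ, 0 < C ∧ ∀ k : ℕ, 1 ≤ k → ∀ (G : ℕ) (b : ℤ), |b| ≤ G →
    q step (0, 0) k (0, b) ≤ C * √ ((1 + Real.log (1 + G)) * (Real.log (k + 1) / k)) := by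
  obtain ⟨C, hC, h⟩ := q_rate
  refine ⟨C * 2, by positivity, fun k hk G b hb => ?_⟩
  have hr' : |(b : ℝ)| ≤ 4 ^ (Nat.clog 4 G) := by
    have h2 : G ≤ 4 ^ (Nat.clog 4 G) := Nat.le_pow_clog (by norm_num) G
    have h3 : |(b : ℝ)| ≤ G := by exact_mod_cast hb
    have h4 : (G : ℝ) ≤ 4 ^ (Nat.clog 4 G) := by exact_mod_cast h2
    linarith
  have h1 := h k hk 0 (Nat.clog 4 G) b hr'
  have hL := L_bound 0 G
  have e0 : 1 + ((0 : ℕ) : ℝ) ^ 2 + Real.log (1 + (G : ℝ)) = 1 + Real.log (1 + G) := by norm_num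
  rw [e0] at hL
  have hlog : 0 ≤ Real.log (1 + (G : ℝ)) := Real.log_nonneg (by
    have : (0 : ℝ) ≤ G := by positivity
    linarith)
  have h3 : √ (1 + ((0 : ℕ) : ℝ) ^ 2 + (Nat.clog 4 G : ℝ)) ≤ √ (2 ^ 2 * (1 + Real.log (1 + G))) := by
    apply Real.sqrt_le_sqrt
    refine hL.trans ?_
    nlinarith
  refine h1.trans ?_
  rw [Real.sqrt_mul (by norm_num), Real.sqrt_sq (by norm_num)] at h3
  calc C * √ (1 + ((0 : ℕ) : ℝ) ^ 2 + (Nat.clog 4 G : ℝ)) * rho k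
      ≤ C * (2 * √ (1 + Real.log (1 + G))) * rho k :=
        mul_le_mul_of_nonneg_right (mul_le_mul_of_nonneg_left h3 hC.le) (rho_nonneg k)
    _ = C * 2 * (√ (1 + Real.log (1 + G)) * rho k) := by ring
    _ = _ := by
        unfold rho
        rw [← Real.sqrt_mul (by linarith)]

/-- the linear estimate, odd weights -/
theorem set_lin {c : ℝ} (hc : 0 < c) (x0 : ℕ) : ∃ (C : ℝ) (N0 : ℕ), 0 < C ∧ ∀ N : ℕ, N0 ≤ N → ∀ (k G : ℕ)
    (S : Finset ℤ), 1 ≤ k → (2 : ℝ) ^ k ≤ (N : ℝ) ^ ((1 : ℝ) / 4) → S.Nonempty → (∀ b ∈ S, |b| ≤ (G : ℤ)) →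
    ∀ h : ℕ → ℝ, (∀ n, 0 ≤ h n) → (∀ n, h n ≤ 1) → h 1 = 1 →
    (∀ m n : ℕ, Nat.Coprime m n → h (m * n) = h m * h n) → (∀ n, n % 2 = 0 → h n = 0) → HypD c x0 h →
    ∑ n ∈ Icc 1 N, (if ¬ AllC (2 * k) S n then h n else 0) ≤
      C * #S * √ ((1 + Real.log (1 + G)) * (Real.log (k + 1) / k)) * ∑ n ∈ Icc 1 N, h n := by
  obtain ⟨C1, N1, hC1, h1⟩ := cls_lin hc x0
  obtain ⟨C2, hC2, h2⟩ := q_G
  have t1 : Tendsto (fun N : ℕ => Real.log N / (N : ℝ) ^ ((1 : ℝ) / 16)) atTop (𝓝 0) := by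
    have h2 : Tendsto (fun x : ℝ => Real.log x / x ^ ((1 : ℝ) / 16)) atTop (𝓝 0) :=
      (isLittleO_log_rpow_atTop (by norm_num)).tendsto_div_nhds_zero
    exact h2.comp tendsto_natCast_atTop_atTop
  obtain ⟨N2, hN2⟩ := eventually_atTop.1 (t1.eventually_lt_const (show (0 : ℝ) < 1 by norm_num))
  refine ⟨C1 * (C2 + 1), max N1 (max N2 2), by positivity, fun N hN k G S hk1 hk hS hG h hh0 hh1 hh hm hodd hyp => ?_⟩
  have hNN1 : N1 ≤ N := (le_max_left _ _).trans hN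
  have hNN2 : N2 ≤ N := ((le_max_left _ _).trans (le_max_right _ _)).trans hN
  have hN2' : 2 ≤ N := ((le_max_right _ _).trans (le_max_right _ _)).trans hN
  have hNp : (0 : ℝ) < N := by exact_mod_cast (by omega : 0 < N)
  have hlog : 0 < Real.log N := Real.log_pos (by exact_mod_cast (by omega : 1 < N))
  have hkR : (1 : ℝ) ≤ k := by exact_mod_cast hk1
  set R : ℝ := √ ((1 + Real.log (1 + G)) * (Real.log (k + 1) / k)) with hR
  have hS1 : (1 : ℝ) ≤ #S := by exact_mod_cast card_pos.2 hS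
  have hR1 : (N : ℝ) ^ (-(1 / 32) : ℝ) ≤ R := by
    rw [hR]
    apply Real.le_sqrt_of_sq_le
    have e1 : ((N : ℝ) ^ (-(1 / 32) : ℝ)) ^ 2 = (N : ℝ) ^ (-(1 / 16) : ℝ) := by
      rw [← Real.rpow_natCast, ← Real.rpow_mul hNp.le]; norm_num
    rw [e1]
    have hlG : 0 ≤ Real.log (1 + (G : ℝ)) := Real.log_nonneg (by
      have : (0 : ℝ) ≤ G := by positivity
      linarith)
    have h3 := log_pos' hk1
    have h4 : (k : ℝ) ≤ Real.log N / 2 := by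
      have h5 := Real.log_le_log (by positivity) hk
      rw [Real.log_pow, Real.log_rpow hNp] at h5
      have h6 := Real.log_two_gt_d9
      nlinarith
    have h5 : (N : ℝ) ^ (-(1 / 16) : ℝ) ≤ 1 / Real.log N := by
      have h6 := hN2 N hNN2
      have hr0 : (0 : ℝ) < (N : ℝ) ^ ((1 : ℝ) / 16) := by positivity
      rw [div_lt_iff₀ hr0, one_mul] at h6
      rw [Real.rpow_neg hNp.le, ← one_div]
      exact one_div_le_one_div_of_le hlog h6.le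
    have h6 : 1 / Real.log N ≤ 0.69 / k := by
      rw [div_le_div_iff₀ hlog (by linarith)]
      linarith
    calc (N : ℝ) ^ (-(1 / 16) : ℝ) ≤ 0.69 / k := h5.trans h6
      _ ≤ Real.log (k + 1) / k := div_le_div_of_nonneg_right h3.le (by linarith)
      _ = 1 * (Real.log (k + 1) / k) := by ring
      _ ≤ (1 + Real.log (1 + G)) * (Real.log (k + 1) / k) := by
          apply mul_le_mul_of_nonneg_right (by linarith)
          apply div_nonneg _ (by linarith)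
          linarith
  have hR0 : 0 ≤ R := Real.sqrt_nonneg _
  have hcount : (#{b ∈ range (2 ^ k) | SV k S ((b : ℕ) : ℤ)} : ℝ) / 2 ^ k ≤ #S * (C2 * R) := by
    rw [div_le_iff₀ (by positivity)]
    exact SV_count k S (fun b hb => h2 k hk1 G b (hG b hb))
  have f1 := h1 N hNN1 k hk (fun x => SV k S x) (fun x m => SV_periodic k S x m) h hh0 hh1 hh hm hodd hyp
  have hsum0 : 0 ≤ ∑ n ∈ Icc 1 N, h n := sum_nonneg fun n _ => hh0 n
  have f2 : ∑ n ∈ Icc 1 N, (if ¬ AllC (2 * k) S n then h n else 0) ≤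
      ∑ n ∈ Icc 1 N, (if SV k S ((n : ℕ) : ℤ) then h n else 0) := by
    refine sum_le_sum fun n _ => ?_
    have h0 := hh0 n
    by_cases hS : SV k S ((n : ℕ) : ℤ)
    · rw [if_pos hS]; split_ifs <;> linarith
    · rw [if_neg hS, if_neg (not_not.2 (not_SV hS))]
  refine (f2.trans f1).trans ?_
  apply mul_le_mul_of_nonneg_right _ hsum0
  have f3 : (N : ℝ) ^ (-(1 / 32) : ℝ) ≤ #S * R := hR1.trans (le_mul_of_one_le_left hR0 hS1)
  have hC10 : 0 ≤ C1 := by linarith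
  calc C1 * (#{b ∈ range (2 ^ k) | SV k S ((b : ℕ) : ℤ)} / 2 ^ k + (N : ℝ) ^ (-(1 / 32) : ℝ))
      ≤ C1 * (#S * (C2 * R) + #S * R) := mul_le_mul_of_nonneg_left (add_le_add hcount f3) hC10
    _ = _ := by ring

end Pool.Agent.Y964.LW
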